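import Pool.Agent.Sar.Defs

/-! MP_13664e_an, module B0: Turan–Kubilius. -/

set_option autoImplicit false

namespace Pool.Agent.Sar

open Filter Topology
open scoped ComplexConjugate

private theorem B0_card (N d : ℕ) : ∑ n ∈ Finset.Icc 1 N, (if d ∣ n then (1 : ℝ) else 0) =
    ((N / d : ℕ) : ℝ) := by
  rw [Finset.sum_boole]
  congr 1
  exact Nat.Ioc_filter_dvd_card_eq_div N d

/-- Turan–Kubilius -/
theorem turan_kubilius (P : Finset ℕ) (hP : ∀ p ∈ P, p.Prime) :
    ∀ᶠ N : ℕ in atTop, ∑ n ∈ Finset.Icc 1 N,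
      |((P.filter (fun p => p ∣ n)).card : ℝ) - ∑ p ∈ P, (1 : ℝ) / p| ^ 2 ≤
        N * (1 + ∑ p ∈ P, (1 : ℝ) / p) := by
  set L : ℝ := ∑ p ∈ P, (1 : ℝ) / p with hL
  have hL0 : 0 ≤ L := Finset.sum_nonneg fun p _ => by positivity
  filter_upwards [tendsto_natCast_atTop_atTop.eventually_ge_atTop (2 * L * P.card)] with N hN
  have h1 : ∀ n : ℕ, ((P.filter (fun p => p ∣ n)).card : ℝ) =
      ∑ p ∈ P, (if p ∣ n then (1 : ℝ) else 0) := fun n => by rw [Finset.sum_boole]
  have h2 : ∀ n : ℕ, |((P.filter (fun p => p ∣ n)).card : ℝ) - L| ^ 2 =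
      (∑ p ∈ P, ∑ q ∈ P, (if p ∣ n then (1 : ℝ) else 0) * (if q ∣ n then (1 : ℝ) else 0)) -
        2 * L * (∑ p ∈ P, (if p ∣ n then (1 : ℝ) else 0)) + L ^ 2 := by
    intro n
    rw [sq_abs, h1, ← Finset.sum_mul_sum]
    ring
  simp_rw [h2]
  rw [Finset.sum_add_distrib, Finset.sum_sub_distrib, ← Finset.mul_sum, Finset.sum_comm,
    Finset.sum_comm (s := Finset.Icc 1 N) (t := P)]
  simp_rw [B0_card]
  have h3 : ∑ p ∈ P, ∑ n ∈ Finset.Icc 1 N, ∑ q ∈ P,
      (if p ∣ n then (1 : ℝ) else 0) * (if q ∣ n then (1 : ℝ) else 0) ≤ N * L + N * L ^ 2 := by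
    have h4 : ∀ p ∈ P, ∀ q ∈ P, ∑ n ∈ Finset.Icc 1 N,
        (if p ∣ n then (1 : ℝ) else 0) * (if q ∣ n then (1 : ℝ) else 0) ≤
        (if q = p then (N : ℝ) * (1 / p) else 0) + N * ((1 / p) * (1 / q)) := by
      intro p hp q hq
      have hp0 : (0 : ℝ) < p := by exact_mod_cast (hP p hp).pos
      have hq0 : (0 : ℝ) < q := by exact_mod_cast (hP q hq).pos
      by_cases hqp : q = p
      · subst hqp
        rw [if_pos rfl]
        have h5 : ∀ n : ℕ, (if q ∣ n then (1 : ℝ) else 0) * (if q ∣ n then (1 : ℝ) else 0) =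
            if q ∣ n then (1 : ℝ) else 0 := by
          intro n; split_ifs <;> simp
        simp_rw [h5]
        rw [B0_card]
        have h6 : ((N / q : ℕ) : ℝ) ≤ N / q := Nat.cast_div_le
        have h7 : 0 ≤ (N : ℝ) * ((1 / q) * (1 / q)) := by positivity
        have h8 : (N : ℝ) * (1 / q) = N / q := by ring
        linarith
      · rw [if_neg hqp, zero_add]
        have h5 : ∀ n : ℕ, (if p ∣ n then (1 : ℝ) else 0) * (if q ∣ n then (1 : ℝ) else 0) =
            if p * q ∣ n then (1 : ℝ) else 0 := by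
          intro n
          have hc : Nat.Coprime p q := (Nat.coprime_primes (hP p hp) (hP q hq)).2 (Ne.symm hqp)
          by_cases h6 : p ∣ n
          · by_cases h7 : q ∣ n
            · rw [if_pos h6, if_pos h7, if_pos (hc.mul_dvd_of_dvd_of_dvd h6 h7), mul_one]
            · rw [if_neg h7, if_neg (fun h => h7 (dvd_of_mul_left_dvd h)), mul_zero]
          · rw [if_neg h6, if_neg (fun h => h6 (dvd_of_mul_right_dvd h)), zero_mul]
        simp_rw [h5]
        rw [B0_card]
        refine Nat.cast_div_le.trans (le_of_eq ?_)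
        push_cast
        field_simp
    calc _ = ∑ p ∈ P, ∑ q ∈ P, ∑ n ∈ Finset.Icc 1 N,
          (if p ∣ n then (1 : ℝ) else 0) * (if q ∣ n then (1 : ℝ) else 0) :=
          Finset.sum_congr rfl fun p _ => Finset.sum_comm
      _ ≤ ∑ p ∈ P, ∑ q ∈ P, ((if q = p then (N : ℝ) * (1 / p) else 0) +
          N * ((1 / p) * (1 / q))) :=
          Finset.sum_le_sum fun p hp => Finset.sum_le_sum fun q hq => h4 p hp q hq
      _ = N * L + N * L ^ 2 := by
          simp_rw [Finset.sum_add_distrib, ← Finset.mul_sum]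
          congr 1
          · rw [hL, Finset.mul_sum]
            refine Finset.sum_congr rfl fun p hp => ?_
            rw [Finset.sum_ite_eq' P p, if_pos hp]
          · rw [← Finset.sum_mul, ← hL]
            ring
  have h9 : (N : ℝ) * L - P.card ≤ ∑ p ∈ P, ((N / p : ℕ) : ℝ) := by
    have h10 : ∀ p ∈ P, (N : ℝ) * (1 / p) - 1 ≤ ((N / p : ℕ) : ℝ) := by
      intro p hp
      have hp0 : (0 : ℝ) < p := by exact_mod_cast (hP p hp).pos
      have h11 : N < (N / p + 1) * p := by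
        have := Nat.lt_mul_div_succ N (hP p hp).pos
        rw [mul_comm]
        exact this
      have h12 : (N : ℝ) < (((N / p : ℕ) : ℝ) + 1) * p := by exact_mod_cast h11
      have h13 : (N : ℝ) * (1 / p) < ((N / p : ℕ) : ℝ) + 1 := by
        rw [mul_one_div, div_lt_iff₀ hp0]
        exact h12
      linarith
    calc (N : ℝ) * L - P.card = ∑ p ∈ P, ((N : ℝ) * (1 / p) - 1) := by
          rw [Finset.sum_sub_distrib, ← Finset.mul_sum, Finset.sum_const, nsmul_eq_mul, mul_one]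
      _ ≤ _ := Finset.sum_le_sum h10
  have h14 : ∑ _n ∈ Finset.Icc 1 N, L ^ 2 = N * L ^ 2 := by
    rw [Finset.sum_const, Nat.card_Icc, nsmul_eq_mul]
    simp
  rw [h14]
  have h15 : 2 * L * ((N : ℝ) * L - P.card) ≤ 2 * L * ∑ p ∈ P, ((N / p : ℕ) : ℝ) :=
    mul_le_mul_of_nonneg_left h9 (by positivity)
  nlinarith [h3, h15, hN]

end Pool.Agent.Sar
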