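import Pool.Agent.Sar.K1

/-! MP_13664e_an, module K3: Koopman–von Neumann lemma. -/

set_option autoImplicit false
set_option linter.unusedSectionVars false

namespace Pool.Agent.Sar

open MeasureTheory ProbabilityTheory Filter Topology
open scoped ENNReal ComplexConjugate

/-! ### The abstract statement -/

section abs

variable {H : Type*} [NormedAddCommGroup H] [InnerProductSpace ℂ H]

/-- the operator `g ↦ ⟪x, g⟫ x` -/
noncomputable def K3_rk (x : H) : H →L[ℂ] H := (innerSL ℂ x).smulRight x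

theorem K3_rk_apply (x g : H) : K3_rk x g = (inner ℂ x g : ℂ) • x := rfl

/-- the operator norm is at most the Hilbert–Schmidt norm -/
theorem K3_hs {ι : Type*} (s : Finset ι) (c : ι → ℝ) (x : ι → H) :
    ‖∑ i ∈ s, (c i : ℂ) • K3_rk (x i)‖ ^ 2 ≤
      ∑ i ∈ s, ∑ j ∈ s, c i * c j * ‖(inner ℂ (x i) (x j) : ℂ)‖ ^ 2 := by
  classical
  set B : H →L[ℂ] H := ∑ i ∈ s, (c i : ℂ) • K3_rk (x i) with hB
  set S : ℝ := ∑ i ∈ s, ∑ j ∈ s, c i * c j * ‖(inner ℂ (x i) (x j) : ℂ)‖ ^ 2 with hS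
  have hBg : ∀ g, B g = ∑ i ∈ s, ((c i : ℂ) * (inner ℂ (x i) g : ℂ)) • x i := by
    intro g
    rw [hB, sum_apply]
    refine Finset.sum_congr rfl fun i _ => ?_
    rw [smul_apply, K3_rk_apply, smul_smul]
  let W : Submodule ℂ H := Submodule.span ℂ (x '' (s : Set ι))
  have : FiniteDimensional ℂ W :=
    FiniteDimensional.span_of_finite ℂ (s.finite_toSet.image x)
  let e := stdOrthonormalBasis ℂ W
  have hxW : ∀ i ∈ s, x i ∈ W := fun i hi =>
    Submodule.subset_span ⟨i, hi, rfl⟩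
  -- Parseval for the vectors of `W`
  have hpar : ∀ i ∈ s, ∀ g : H, (inner ℂ (x i) g : ℂ) =
      ∑ k, (inner ℂ (x i) (e k : H) : ℂ) * (inner ℂ (e k : H) g : ℂ) := by
    intro i hi g
    have h1 : (x i) = ∑ k, (inner ℂ (e k : H) (x i) : ℂ) • (e k : H) := by
      have h2 := e.sum_repr' ⟨x i, hxW i hi⟩
      have h3 := congrArg (fun y : W => (y : H)) h2
      simp only [Submodule.coe_sum, Submodule.coe_smul, Submodule.coe_inner] at h3
      exact h3.symm
    conv_lhs => rw [h1]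
    rw [sum_inner]
    refine Finset.sum_congr rfl fun k _ => ?_
    rw [inner_smul_left, inner_conj_symm]
  have hBe : ∀ g, B g = ∑ k, (inner ℂ (e k : H) g : ℂ) • B (e k : H) := by
    intro g
    rw [hBg]
    simp_rw [hBg, Finset.smul_sum, smul_smul]
    rw [Finset.sum_comm]
    refine Finset.sum_congr rfl fun i hi => ?_
    rw [hpar i hi g, Finset.mul_sum, Finset.sum_smul]
    refine Finset.sum_congr rfl fun k _ => ?_
    congr 1
    ring
  have hsum : ∑ k, ‖B (e k : H)‖ ^ 2 = S := by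
    have h1 : ∀ k, ((‖B (e k : H)‖ ^ 2 : ℝ) : ℂ) = ∑ i ∈ s, ∑ j ∈ s,
        ((c i : ℂ) * (c j : ℂ) * (inner ℂ (x i) (x j) : ℂ)) *
          ((inner ℂ (x j) (e k : H) : ℂ) * (inner ℂ (e k : H) (x i) : ℂ)) := by
      intro k
      have h2 : ((‖B (e k : H)‖ ^ 2 : ℝ) : ℂ) = inner ℂ (B (e k : H)) (B (e k : H)) := by
        rw [inner_self_eq_norm_sq_to_K]
        push_cast
        rfl
      rw [h2, hBg, sum_inner]
      refine Finset.sum_congr rfl fun i _ => ?_
      rw [inner_sum]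
      refine Finset.sum_congr rfl fun j _ => ?_
      rw [inner_smul_left, inner_smul_right, map_mul, Complex.conj_ofReal, inner_conj_symm]
      ring
    have h3 : ((∑ k, ‖B (e k : H)‖ ^ 2 : ℝ) : ℂ) = (S : ℂ) := by
      rw [Complex.ofReal_sum, Finset.sum_congr rfl fun k _ => h1 k, Finset.sum_comm, hS,
        Complex.ofReal_sum]
      refine Finset.sum_congr rfl fun i hi => ?_
      rw [Finset.sum_comm, Complex.ofReal_sum]
      refine Finset.sum_congr rfl fun j hj => ?_
      rw [← Finset.mul_sum, ← hpar j hj (x i)]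
      have h4 : (inner ℂ (x i) (x j) : ℂ) * (inner ℂ (x j) (x i) : ℂ) =
          ((‖(inner ℂ (x i) (x j) : ℂ)‖ ^ 2 : ℝ) : ℂ) := by
        rw [← inner_conj_symm (x j) (x i), Complex.mul_conj, Complex.normSq_eq_norm_sq]
      rw [mul_assoc, h4]
      push_cast
      ring
    exact_mod_cast h3
  have hS0 : 0 ≤ S := by
    rw [← hsum]
    exact Finset.sum_nonneg fun k _ => by positivity
  have hon : Orthonormal ℂ (fun k => (e k : H)) := by
    have := e.orthonormal
    exact this.comp_linearIsometry W.subtypeₗᵢ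
  have hbound : ∀ g, ‖B g‖ ≤ Real.sqrt S * ‖g‖ := by
    intro g
    have h1 : ‖B g‖ ≤ ∑ k, ‖(inner ℂ (e k : H) g : ℂ)‖ * ‖B (e k : H)‖ := by
      rw [hBe g]
      refine (norm_sum_le _ _).trans (Finset.sum_le_sum fun k _ => ?_)
      rw [norm_smul]
    have h2 := Finset.sum_mul_sq_le_sq_mul_sq Finset.univ
      (fun k => ‖(inner ℂ (e k : H) g : ℂ)‖) (fun k => ‖B (e k : H)‖)
    rw [hsum] at h2
    have h3 : ∑ k, ‖(inner ℂ (e k : H) g : ℂ)‖ ^ 2 ≤ ‖g‖ ^ 2 :=
      hon.sum_inner_products_le g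
    have h4 : ‖B g‖ ^ 2 ≤ (Real.sqrt S * ‖g‖) ^ 2 := by
      calc ‖B g‖ ^ 2 ≤ (∑ k, ‖(inner ℂ (e k : H) g : ℂ)‖ * ‖B (e k : H)‖) ^ 2 := by
            gcongr
        _ ≤ (∑ k, ‖(inner ℂ (e k : H) g : ℂ)‖ ^ 2) * S := h2
        _ ≤ ‖g‖ ^ 2 * S := by gcongr
        _ = (Real.sqrt S * ‖g‖) ^ 2 := by rw [mul_pow, Real.sq_sqrt hS0]; ring
    exact (sq_le_sq₀ (norm_nonneg _) (by positivity)).1 h4
  have h5 : ‖B‖ ≤ Real.sqrt S := B.opNorm_le_bound (Real.sqrt_nonneg _) hbound
  calc ‖B‖ ^ 2 ≤ Real.sqrt S ^ 2 := by gcongr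
    _ = S := Real.sq_sqrt hS0

variable [CompleteSpace H] {K : Type*} [NormedAddCommGroup K] [InnerProductSpace ℂ K]
  [CompleteSpace K]

/-- the averages of the rank one operators -/
noncomputable def K3_A (U : H →ₗᵢ[ℂ] H) (v : H) (N : ℕ) : H →L[ℂ] H :=
  (((N : ℝ)⁻¹ : ℝ) : ℂ) • ∑ n ∈ Finset.range N, K3_rk (U^[n] v)

theorem K3_A_apply (U : H →ₗᵢ[ℂ] H) (v : H) (N : ℕ) (g : H) :
    K3_A U v N g = (((N : ℝ)⁻¹ : ℝ) : ℂ) • ∑ n ∈ Finset.range N,
      (inner ℂ (U^[n] v) g : ℂ) • U^[n] v := by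
  rw [K3_A, smul_apply, sum_apply]
  rfl

/-- both averages as sums over a common range -/
theorem K3_common {M : Type*} [AddCommGroup M] [Module ℂ M] (f : ℕ → M) (N L : ℕ) :
    (((N : ℝ)⁻¹ : ℝ) : ℂ) • ∑ n ∈ Finset.range N, f n -
      (((L : ℝ)⁻¹ : ℝ) : ℂ) • ∑ n ∈ Finset.range L, f n =
    ∑ n ∈ Finset.range (max N L),
      (((if n < N then (N : ℝ)⁻¹ else 0) - (if n < L then (L : ℝ)⁻¹ else 0) : ℝ) : ℂ) • f n := by
  have h1 : ∀ J ≤ max N L, (((J : ℝ)⁻¹ : ℝ) : ℂ) • ∑ n ∈ Finset.range J, f n =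
      ∑ n ∈ Finset.range (max N L), ((if n < J then (J : ℝ)⁻¹ else 0 : ℝ) : ℂ) • f n := by
    intro J hJ
    have h2 : Finset.range J = (Finset.range (max N L)).filter (fun n => n < J) := by
      ext n
      simp only [Finset.mem_range, Finset.mem_filter]
      omega
    rw [h2, Finset.smul_sum, Finset.sum_filter]
    refine Finset.sum_congr rfl fun n _ => ?_
    split_ifs <;> simp
  rw [h1 N (le_max_left _ _), h1 L (le_max_right _ _), ← Finset.sum_sub_distrib]
  refine Finset.sum_congr rfl fun n _ => ?_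
  rw [← sub_smul]
  push_cast
  rfl

theorem K3_abs (U : H →ₗᵢ[ℂ] H) (v : H) (V : K →L[ℂ] K) (hV : ‖V‖ ≤ 1) (z : K)
    (hz : ∀ i j : ℕ, (inner ℂ (V^[i] z) (V^[j] z) : ℂ) =
      ((‖(inner ℂ (U^[i] v) (U^[j] v) : ℂ)‖ ^ 2 : ℝ) : ℂ))
    (hno : ∀ (f : H) (l : ℂ), f ≠ 0 → U f = l • f → (inner ℂ v f : ℂ) = 0) :
    Tendsto (fun N => K3_A U v N) atTop (𝓝 0) := by
  -- comparison of the norms
  have hle : ∀ N L, ‖K3_A U v N - K3_A U v L‖ ≤
      ‖birkhoffAverage ℂ V _root_.id N z - birkhoffAverage ℂ V _root_.id L z‖ := by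
    intro N L
    set c : ℕ → ℝ := fun n => (if n < N then (N : ℝ)⁻¹ else 0) - (if n < L then (L : ℝ)⁻¹ else 0)
      with hc
    have h1 : K3_A U v N - K3_A U v L =
        ∑ n ∈ Finset.range (max N L), (c n : ℂ) • K3_rk (U^[n] v) :=
      K3_common (fun n => K3_rk (U^[n] v)) N L
    have h2 : birkhoffAverage ℂ V _root_.id N z - birkhoffAverage ℂ V _root_.id L z =
        ∑ n ∈ Finset.range (max N L), (c n : ℂ) • V^[n] z := by
      rw [← K3_common (fun n => V^[n] z) N L]
      simp only [birkhoffAverage, birkhoffSum, id_eq]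
      push_cast
      rfl
    have h3 : ‖∑ n ∈ Finset.range (max N L), (c n : ℂ) • V^[n] z‖ ^ 2 =
        ∑ i ∈ Finset.range (max N L), ∑ j ∈ Finset.range (max N L),
          c i * c j * ‖(inner ℂ (U^[i] v) (U^[j] v) : ℂ)‖ ^ 2 := by
      have h4 : ((‖∑ n ∈ Finset.range (max N L), (c n : ℂ) • V^[n] z‖ ^ 2 : ℝ) : ℂ) =
          inner ℂ (∑ n ∈ Finset.range (max N L), (c n : ℂ) • V^[n] z)
            (∑ n ∈ Finset.range (max N L), (c n : ℂ) • V^[n] z) := by
        rw [inner_self_eq_norm_sq_to_K]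
        push_cast
        rfl
      have h5 : ((‖∑ n ∈ Finset.range (max N L), (c n : ℂ) • V^[n] z‖ ^ 2 : ℝ) : ℂ) =
          ((∑ i ∈ Finset.range (max N L), ∑ j ∈ Finset.range (max N L),
          c i * c j * ‖(inner ℂ (U^[i] v) (U^[j] v) : ℂ)‖ ^ 2 : ℝ) : ℂ) := by
        rw [h4, sum_inner]
        push_cast
        refine Finset.sum_congr rfl fun i _ => ?_
        rw [inner_sum]
        refine Finset.sum_congr rfl fun j _ => ?_
        rw [inner_smul_left, inner_smul_right, hz, Complex.conj_ofReal]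
        push_cast
        ring
      exact_mod_cast h5
    have h6 := K3_hs (Finset.range (max N L)) c (fun n => U^[n] v)
    rw [h1, h2]
    refine (sq_le_sq₀ (norm_nonneg _) (norm_nonneg _)).1 ?_
    rw [h3]
    exact h6
  -- the operators converge
  have hy := V.tendsto_birkhoffAverage_orthogonalProjection hV z
  have hyc := hy.cauchySeq
  have hAc : CauchySeq (fun N => K3_A U v N) := by
    rw [Metric.cauchySeq_iff] at hyc ⊢
    intro ε hε
    obtain ⟨N0, h0⟩ := hyc ε hε
    refine ⟨N0, fun m hm n hn => ?_⟩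
    rw [dist_eq_norm]
    refine (hle m n).trans_lt ?_
    rw [← dist_eq_norm]
    exact h0 m hm n hn
  obtain ⟨A, hA⟩ := cauchySeq_tendsto_of_complete hAc
  have hAg : ∀ g, Tendsto (fun N => K3_A U v N g) atTop (𝓝 (A g)) := fun g =>
    ((ContinuousLinearMap.apply ℂ H g).continuous.tendsto A).comp hA
  -- `A` is compact
  have hcomp : IsCompactOperator A := by
    refine isCompactOperator_of_tendsto hA (Eventually.of_forall fun N => ?_)
    have h1 : ∀ x : H, IsCompactOperator (K3_rk x) := by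
      intro x
      have h2 : IsCompactOperator (innerSL ℂ x : H →L[ℂ] ℂ) :=
        isCompactOperator_of_locallyCompactSpace_dom (innerSL ℂ x : H →L[ℂ] ℂ)
      exact h2.clm_comp (ContinuousLinearMap.toSpanSingleton ℂ x)
    have h3 : ∀ s : Finset ℕ, IsCompactOperator
        (⇑(∑ n ∈ s, K3_rk (U^[n] v) : H →L[ℂ] H) : H → H) := by
      intro s
      induction s using Finset.induction_on with
      | empty => exact isCompactOperator_zero
      | insert a s ha ih =>
        rw [Finset.sum_insert ha]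
        exact (h1 _).add ih
    exact (h3 (Finset.range N)).smul ((((N : ℝ)⁻¹ : ℝ) : ℂ))
  -- `A` is symmetric
  have hsym : A.IsSymmetric := by
    intro g h
    have h1 : ∀ N, (inner ℂ (K3_A U v N g) h : ℂ) = inner ℂ g (K3_A U v N h) := by
      intro N
      rw [K3_A_apply, K3_A_apply, inner_smul_left, inner_smul_right, Complex.conj_ofReal,
        sum_inner, inner_sum]
      congr 1
      refine Finset.sum_congr rfl fun n _ => ?_
      rw [inner_smul_left, inner_smul_right, inner_conj_symm]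
      ring
    have h2 : Tendsto (fun N => (inner ℂ (K3_A U v N g) h : ℂ)) atTop (𝓝 (inner ℂ (A g) h)) :=
      (hAg g).inner tendsto_const_nhds
    have h3 : Tendsto (fun N => (inner ℂ g (K3_A U v N h) : ℂ)) atTop (𝓝 (inner ℂ g (A h))) :=
      tendsto_const_nhds.inner (hAg h)
    simp_rw [h1] at h2
    exact tendsto_nhds_unique h2 h3
  -- `A` commutes with `U`
  have hnorm : ∀ n, ‖U^[n] v‖ = ‖v‖ := by
    intro n
    induction n with
    | zero => rfl
    | succ n ih => rw [Function.iterate_succ_apply', U.norm_map, ih]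
  have hcomm : ∀ g, A (U g) = U (A g) := by
    intro g
    have h1 : ∀ N : ℕ, K3_A U v N (U g) - U (K3_A U v N g) =
        (((N : ℝ)⁻¹ : ℝ) : ℂ) • ((inner ℂ v (U g) : ℂ) • v -
          (inner ℂ (U^[N] v) (U g) : ℂ) • U^[N] v) := by
      intro N
      rw [K3_A_apply, K3_A_apply, map_smul, ← smul_sub, map_sum]
      congr 1
      have h2 : ∀ n, U ((inner ℂ (U^[n] v) g : ℂ) • U^[n] v) =
          (inner ℂ (U^[n+1] v) (U g) : ℂ) • U^[n+1] v := by
        intro n
        rw [map_smul, Function.iterate_succ_apply', U.inner_map_map]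
      simp_rw [h2]
      rw [← Finset.sum_sub_distrib, Finset.sum_range_sub'
        (fun n => (inner ℂ (U^[n] v) (U g) : ℂ) • U^[n] v)]
      rfl
    have h2 : Tendsto (fun N => K3_A U v N (U g) - U (K3_A U v N g)) atTop
        (𝓝 (A (U g) - U (A g))) :=
      (hAg _).sub ((U.continuous.tendsto _).comp (hAg g))
    have h3 : Tendsto (fun N => K3_A U v N (U g) - U (K3_A U v N g)) atTop (𝓝 0) := by
      refine squeeze_zero_norm (a := fun N : ℕ => (N : ℝ)⁻¹ * (2 * (‖v‖ * ‖g‖ * ‖v‖)))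
        (fun N => ?_) ?_
      · rw [h1, norm_smul, Complex.norm_real, Real.norm_of_nonneg (by positivity)]
        refine mul_le_mul_of_nonneg_left ?_ (by positivity)
        refine (norm_sub_le _ _).trans ?_
        rw [norm_smul, norm_smul, hnorm]
        have h4 : ‖(inner ℂ v (U g) : ℂ)‖ ≤ ‖v‖ * ‖g‖ := by
          refine (norm_inner_le_norm _ _).trans ?_
          rw [U.norm_map]
        have h5 : ‖(inner ℂ (U^[N] v) (U g) : ℂ)‖ ≤ ‖v‖ * ‖g‖ := by
          refine (norm_inner_le_norm _ _).trans ?_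
          rw [U.norm_map, hnorm]
        nlinarith [norm_nonneg v, norm_nonneg g, mul_le_mul_of_nonneg_right h4 (norm_nonneg v),
          mul_le_mul_of_nonneg_right h5 (norm_nonneg v)]
      · have h6 := (tendsto_inv_atTop_nhds_zero_nat (𝕜 := ℝ)).mul_const (2 * (‖v‖ * ‖g‖ * ‖v‖))
        rwa [zero_mul] at h6
    exact sub_eq_zero.1 (tendsto_nhds_unique h2 h3)
  -- `A = 0`
  have hA0 : A = 0 := by
    rw [← ContinuousLinearMap.eq_zero_of_forall_hasEigenvalue_eq_zero hcomp hsym]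
    intro μ hμ
    by_contra hμ0
    have hfd := ContinuousLinearMap.finite_dimensional_eigenspace hcomp μ hμ0
    set E := Module.End.eigenspace A.toLinearMap μ with hE
    have hmem : ∀ g, g ∈ E ↔ A g = μ • g := fun g => Module.End.mem_eigenspace_iff
    have hUE : ∀ g ∈ E, U.toLinearMap g ∈ E := by
      intro g hg
      rw [hmem] at hg ⊢
      show A (U g) = μ • U g
      rw [hcomm, hg, map_smul]
    have hnt : Nontrivial E := by
      rw [Submodule.nontrivial_iff_ne_bot]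
      exact hμ
    obtain ⟨l, hl⟩ := Module.End.exists_eigenvalue (U.toLinearMap.restrict hUE)
    obtain ⟨f, hf⟩ := hl.exists_hasEigenvector
    have hf0 : (f : H) ≠ 0 := fun h => hf.2 (Subtype.ext h)
    have hUf : U (f : H) = l • (f : H) := by
      have h1 := hf.apply_eq_smul
      exact congrArg Subtype.val h1
    have hl0 : l ≠ 0 := by
      rintro rfl
      rw [zero_smul] at hUf
      have h1 := U.norm_map (f : H)
      rw [hUf, norm_zero] at h1
      exact hf0 (norm_eq_zero.1 h1.symm)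
    have hvf := hno _ _ hf0 hUf
    have h1 : ∀ n, (inner ℂ (U^[n] v) (f : H) : ℂ) = 0 := by
      intro n
      induction n with
      | zero => exact hvf
      | succ n ih =>
        have h2 : (inner ℂ (U^[n+1] v) (U (f : H)) : ℂ) = 0 := by
          rw [Function.iterate_succ_apply', U.inner_map_map, ih]
        rw [hUf, inner_smul_right] at h2
        exact (mul_eq_zero.1 h2).resolve_left hl0
    have h2 : A (f : H) = 0 := by
      refine tendsto_nhds_unique (hAg f) ?_
      have h3 : (fun N => K3_A U v N (f : H)) = fun _ => 0 := by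
        funext N
        rw [K3_A_apply]
        simp [h1]
      rw [h3]
      exact tendsto_const_nhds
    have h3 := (hmem f).1 f.2
    rw [h2] at h3
    rcases smul_eq_zero.1 h3.symm with h4 | h4
    · exact hμ0 h4
    · exact hf0 h4
  rw [← hA0]
  exact hA

end abs

variable {X : Type*} [mX : MeasurableSpace X] {ν : Measure X} [IsProbabilityMeasure ν] {T : X → X}

theorem K3_memLp {Y : Type*} [MeasurableSpace Y] {μ : Measure Y} [IsFiniteMeasure μ] {v : Y → ℂ}
    (hm : Measurable v) (hb : ∃ C : ℝ, ∀ x, ‖v x‖ ≤ C) : MemLp v 2 μ := by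
  obtain ⟨C, hC⟩ := hb
  exact MemLp.of_bound hm.aestronglyMeasurable C (Eventually.of_forall hC)

theorem K3_inner {Y : Type*} [MeasurableSpace Y] {μ : Measure Y} {f g : Y → ℂ}
    (hf : MemLp f 2 μ) (hg : MemLp g 2 μ) :
    (inner ℂ (hf.toLp f) (hg.toLp g) : ℂ) = ∫ x, conj (f x) * g x ∂μ := by
  rw [L2.inner_def]
  refine integral_congr_ae ?_
  filter_upwards [hf.coeFn_toLp, hg.coeFn_toLp] with x h1 h2
  rw [h1, h2]
  simp [mul_comm]

theorem K3_iter (hT : MeasurePreserving T ν ν) {v : X → ℂ} (hv : MemLp v 2 ν) (n : ℕ)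
    (hvn : MemLp (fun x => v (T^[n] x)) 2 ν) :
    (Lp.compMeasurePreservingₗᵢ ℂ T hT : Lp ℂ 2 ν →ₗᵢ[ℂ] Lp ℂ 2 ν)^[n] (hv.toLp v) =
      hvn.toLp (fun x => v (T^[n] x)) := by
  induction n with
  | zero => rfl
  | succ n ih =>
    have hvn' : MemLp (fun x => v (T^[n] x)) 2 ν :=
      hv.comp_measurePreserving (hT.iterate n)
    rw [Function.iterate_succ_apply', ih hvn']
    show Lp.compMeasurePreserving T hT (hvn'.toLp _) = _
    rw [Lp.toLp_compMeasurePreserving]
    rfl

/-- functions orthogonal to all eigenfunctions are mixed in density -/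
theorem kvn (hE : Ergodic T ν) {v w : X → ℂ} (hv : BM v) (hw : BM w)
    (h : ∀ l ∈ EV ν T, fc ν T v l = 0) :
    Tendsto (fun N : ℕ => (N : ℝ)⁻¹ * ∑ n ∈ Finset.range N, ‖∫ x, v (T^[n] x) * w x ∂ν‖ ^ 2)
      atTop (𝓝 0) := by
  have hT : MeasurePreserving T ν ν := hE.toMeasurePreserving
  have hTm : Measurable T := hT.measurable
  have hvL : MemLp v 2 ν := K3_memLp hv.meas hv.bdd
  have hvn : ∀ n, MemLp (fun x => v (T^[n] x)) 2 ν := fun n =>
    hvL.comp_measurePreserving (hT.iterate n)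
  set U : Lp ℂ 2 ν →ₗᵢ[ℂ] Lp ℂ 2 ν := Lp.compMeasurePreservingₗᵢ ℂ T hT with hU
  have hUn : ∀ n, U^[n] (hvL.toLp v) = (hvn n).toLp (fun x => v (T^[n] x)) := fun n =>
    K3_iter hT hvL n (hvn n)
  -- the product
  have hTT : MeasurePreserving (Prod.map T T) (ν.prod ν) (ν.prod ν) := hT.prod hT
  have hzm : ∀ n, Measurable (fun z : X × X => v (T^[n] z.1) * conj (v (T^[n] z.2))) := by
    intro n
    have h1 : Measurable (fun x => v (T^[n] x)) := hv.meas.comp (hTm.iterate n)
    exact (h1.comp measurable_fst).mul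
      (Complex.continuous_conj.measurable.comp (h1.comp measurable_snd))
  obtain ⟨C, hC⟩ := hv.bdd
  have hzb : ∀ n, ∃ D : ℝ, ∀ z : X × X, ‖v (T^[n] z.1) * conj (v (T^[n] z.2))‖ ≤ D := by
    intro n
    refine ⟨C * C, fun z => ?_⟩
    rw [norm_mul, RCLike.norm_conj]
    exact mul_le_mul (hC _) (hC _) (norm_nonneg _) ((norm_nonneg _).trans (hC z.1))
  have hzL : ∀ n, MemLp (fun z : X × X => v (T^[n] z.1) * conj (v (T^[n] z.2))) 2 (ν.prod ν) :=
    fun n => K3_memLp (hzm n) (hzb n)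
  set V : Lp ℂ 2 (ν.prod ν) →ₗᵢ[ℂ] Lp ℂ 2 (ν.prod ν) :=
    Lp.compMeasurePreservingₗᵢ ℂ (Prod.map T T) hTT with hVdef
  have hz0 : MemLp (fun z : X × X => v z.1 * conj (v z.2)) 2 (ν.prod ν) := hzL 0
  have hVn : ∀ n, V.toContinuousLinearMap^[n] (hz0.toLp _) = (hzL n).toLp _ := by
    intro n
    induction n with
    | zero => rfl
    | succ n ih =>
      rw [Function.iterate_succ_apply', ih]
      show Lp.compMeasurePreserving (Prod.map T T) hTT ((hzL n).toLp _) = _
      rw [Lp.toLp_compMeasurePreserving]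
      rfl
  have hz : ∀ i j : ℕ, (inner ℂ (V.toContinuousLinearMap^[i] (hz0.toLp _))
      (V.toContinuousLinearMap^[j] (hz0.toLp _)) : ℂ) =
      ((‖(inner ℂ (U^[i] (hvL.toLp v)) (U^[j] (hvL.toLp v)) : ℂ)‖ ^ 2 : ℝ) : ℂ) := by
    intro i j
    rw [hVn, hVn, hUn, hUn, K3_inner, K3_inner]
    have h1 : ∀ z : X × X, conj (v (T^[i] z.1) * conj (v (T^[i] z.2))) *
        (v (T^[j] z.1) * conj (v (T^[j] z.2))) =
        (conj (v (T^[i] z.1)) * v (T^[j] z.1)) * conj (conj (v (T^[i] z.2)) * v (T^[j] z.2)) := by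
      intro z
      simp only [map_mul, Complex.conj_conj]
      ring
    simp_rw [h1]
    rw [integral_prod_mul (fun x => conj (v (T^[i] x)) * v (T^[j] x))
      (fun x => conj (conj (v (T^[i] x)) * v (T^[j] x))), integral_conj, Complex.mul_conj,
      Complex.normSq_eq_norm_sq]
  have hno : ∀ (f : Lp ℂ 2 ν) (l : ℂ), f ≠ 0 → U f = l • f → (inner ℂ (hvL.toLp v) f : ℂ) = 0 := by
    intro f l hf0 hf
    have hfm : MemLp (f : X → ℂ) 2 ν := Lp.memLp f
    have hfi : Integrable (f : X → ℂ) ν := hfm.integrable (by norm_num)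
    have h1 : ∀ᵐ x ∂ν, (f : X → ℂ) (T x) = l * (f : X → ℂ) x := by
      have h2 : (U f : X → ℂ) =ᵐ[ν] (f : X → ℂ) ∘ T := Lp.coeFn_compMeasurePreserving f hT
      have h3 : (U f : X → ℂ) =ᵐ[ν] l • (f : X → ℂ) := by
        rw [hf]
        exact Lp.coeFn_smul l f
      filter_upwards [h2, h3] with x h4 h5
      rw [h5] at h4
      exact h4.symm
    have h2 : ¬ (∀ᵐ x ∂ν, (f : X → ℂ) x = 0) := by
      intro h3
      apply hf0
      rw [Lp.eq_zero_iff_ae_eq_zero]
      exact h3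
    obtain ⟨hl, c, hc, hfc⟩ := eig_of_fun hE hfi h1 h2
    have h3 : (inner ℂ (hvL.toLp v) f : ℂ) = ∫ x, conj (v x) * (f : X → ℂ) x ∂ν := by
      have h4 := K3_inner hvL hfm
      rwa [Lp.toLp_coeFn] at h4
    rw [h3]
    have h4 : ∫ x, conj (v x) * (f : X → ℂ) x ∂ν = c * conj (fc ν T v l) := by
      rw [fc, ← integral_conj, ← integral_const_mul]
      refine integral_congr_ae ?_
      filter_upwards [hfc] with x hx
      rw [hx, map_mul, Complex.conj_conj]
      ring
    rw [h4, h l hl, map_zero, mul_zero]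
  have hA := K3_abs U (hvL.toLp v) V.toContinuousLinearMap V.norm_toContinuousLinearMap_le
    (hz0.toLp _) hz hno
  -- the conclusion
  have hwL : MemLp (fun x => conj (w x)) 2 ν :=
    K3_memLp (Complex.continuous_conj.measurable.comp hw.meas) (by
      obtain ⟨D, hD⟩ := hw.bdd
      exact ⟨D, fun x => by rw [RCLike.norm_conj]; exact hD x⟩)
  have hin : ∀ n, ‖∫ x, v (T^[n] x) * w x ∂ν‖ =
      ‖(inner ℂ (U^[n] (hvL.toLp v)) (hwL.toLp _) : ℂ)‖ := by
    intro n
    rw [hUn, K3_inner]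
    have h1 : ∫ x, conj (v (T^[n] x)) * conj (w x) ∂ν = conj (∫ x, v (T^[n] x) * w x ∂ν) := by
      rw [← integral_conj]
      refine integral_congr_ae (Eventually.of_forall fun x => ?_)
      simp only [map_mul]
    rw [h1, RCLike.norm_conj]
  have hkey : ∀ N : ℕ, (N : ℝ)⁻¹ * ∑ n ∈ Finset.range N, ‖∫ x, v (T^[n] x) * w x ∂ν‖ ^ 2 ≤
      ‖K3_A U (hvL.toLp v) N‖ * ‖hwL.toLp _‖ ^ 2 := by
    intro N
    have h1 : (((N : ℝ)⁻¹ * ∑ n ∈ Finset.range N, ‖∫ x, v (T^[n] x) * w x ∂ν‖ ^ 2 : ℝ) : ℂ) =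
        inner ℂ (hwL.toLp _) (K3_A U (hvL.toLp v) N (hwL.toLp _)) := by
      rw [K3_A_apply, inner_smul_right, inner_sum]
      push_cast
      congr 1
      refine Finset.sum_congr rfl fun n _ => ?_
      rw [hin, inner_smul_right, ← inner_conj_symm (hwL.toLp _), Complex.mul_conj,
        Complex.normSq_eq_norm_sq]
      push_cast
      rfl
    have h2 : (N : ℝ)⁻¹ * ∑ n ∈ Finset.range N, ‖∫ x, v (T^[n] x) * w x ∂ν‖ ^ 2 =
        ‖(inner ℂ (hwL.toLp _) (K3_A U (hvL.toLp v) N (hwL.toLp _)) : ℂ)‖ := by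
      rw [← h1, Complex.norm_real, Real.norm_of_nonneg (by positivity)]
    rw [h2]
    refine (norm_inner_le_norm _ _).trans ?_
    calc ‖hwL.toLp _‖ * ‖K3_A U (hvL.toLp v) N (hwL.toLp _)‖
        ≤ ‖hwL.toLp _‖ * (‖K3_A U (hvL.toLp v) N‖ * ‖hwL.toLp _‖) := by
          gcongr
          exact ContinuousLinearMap.le_opNorm _ _
      _ = ‖K3_A U (hvL.toLp v) N‖ * ‖hwL.toLp _‖ ^ 2 := by ring
  refine squeeze_zero (fun N => by positivity) hkey ?_
  have h1 := (tendsto_zero_iff_norm_tendsto_zero.1 hA).mul_const (‖hwL.toLp _‖ ^ 2)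
  rwa [zero_mul] at h1

/-- shift of a function against an eigenfunction -/
theorem K3_shift (hT : MeasurePreserving T ν ν) {l : ℂ} (hl : l ∈ EV ν T) {F : X → ℂ}
    (hF : Measurable F) (n : ℕ) : ‖∫ x, F (T^[n] x) * conj (eg ν T l x) ∂ν‖ =
      ‖∫ x, F x * conj (eg ν T l x) ∂ν‖ := by
  have hln : ‖l‖ = 1 := EV_norm hT hl
  have h1 : ∀ᵐ x ∂ν, F (T^[n] x) * conj (eg ν T l x) =
      l ^ n * (F (T^[n] x) * conj (eg ν T l (T^[n] x))) := by
    filter_upwards [eig_iter hT (eg_spec hl) n] with x hx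
    rw [hx, map_mul, map_pow]
    have h2 : l ^ n * (conj l) ^ n = 1 := by
      rw [← mul_pow, Complex.mul_conj, Complex.normSq_eq_norm_sq, hln]
      norm_num
    calc F (T^[n] x) * conj (eg ν T l x)
        = (l ^ n * (conj l) ^ n) * (F (T^[n] x) * conj (eg ν T l x)) := by rw [h2, one_mul]
      _ = _ := by ring
  rw [integral_congr_ae h1, integral_const_mul, norm_mul, norm_pow, hln, one_pow, one_mul]
  have h3 : ∫ x, F (T^[n] x) * conj (eg ν T l (T^[n] x)) ∂ν = ∫ x, F x * conj (eg ν T l x) ∂ν := by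
    have h4 := hT.iterate n
    have h5 : Measurable (fun y => F y * conj (eg ν T l y)) :=
      hF.mul (Complex.continuous_conj.measurable.comp (eg_meas l))
    have h6 := integral_map (μ := ν) h4.measurable.aemeasurable
      (f := fun y => F y * conj (eg ν T l y)) h5.aestronglyMeasurable
    rw [h4.map_eq] at h6
    exact h6.symm
  rw [h3]

/-- the double average with a character -/
theorem kvn2 (hE : Ergodic T ν) {v : X → ℂ} (hv : BM v) (h : ∀ l ∈ EV ν T, fc ν T v l = 0)
    {l : ℂ} (hl : l ∈ EV ν T) :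
    Tendsto (fun N : ℕ => ((N : ℝ) ^ 2)⁻¹ * ∑ n ∈ Finset.range N, ∑ n' ∈ Finset.range N,
      ‖fc ν T (fun x => v (T^[n] x) * conj (v (T^[n'] x))) l‖ ^ 2) atTop (𝓝 0) := by
  have hT : MeasurePreserving T ν ν := hE.toMeasurePreserving
  have hTm : Measurable T := hT.measurable
  have hcm : ∀ {f : X → ℂ}, Measurable f → Measurable (fun x => conj (f x)) := fun hf =>
    Complex.continuous_conj.measurable.comp hf
  obtain ⟨C, hC⟩ := hv.bdd
  have hw1 : BM (fun y => conj (v y) * conj (eg ν T l y)) := by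
    refine ⟨(hcm hv.meas).mul (hcm (eg_meas l)), C, fun x => ?_⟩
    rw [norm_mul, RCLike.norm_conj, RCLike.norm_conj, eg_norm, mul_one]
    exact hC x
  have hw2 : BM (fun y => conj (v y) * eg ν T l y) := by
    refine ⟨(hcm hv.meas).mul (eg_meas l), C, fun x => ?_⟩
    rw [norm_mul, RCLike.norm_conj, eg_norm, mul_one]
    exact hC x
  set a : ℕ → ℝ := fun k => ‖∫ x, v (T^[k] x) * (conj (v x) * conj (eg ν T l x)) ∂ν‖ ^ 2 with ha
  set b : ℕ → ℝ := fun k => ‖∫ x, v (T^[k] x) * (conj (v x) * eg ν T l x) ∂ν‖ ^ 2 with hb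
  have hta := kvn hE hv hw1 h
  have htb := kvn hE hv hw2 h
  have ha0 : ∀ k, 0 ≤ a k := fun k => by positivity
  have hb0 : ∀ k, 0 ≤ b k := fun k => by positivity
  have hvk : ∀ k, Measurable (fun x => v (T^[k] x)) := fun k => hv.meas.comp (hTm.iterate k)
  have e1 : ∀ n k, ‖fc ν T (fun x => v (T^[k + n] x) * conj (v (T^[n] x))) l‖ ^ 2 = a k := by
    intro n k
    have h1 := K3_shift hT hl (F := fun x => v (T^[k] x) * conj (v x))
      ((hvk k).mul (hcm hv.meas)) n
    have h2 : fc ν T (fun x => v (T^[k + n] x) * conj (v (T^[n] x))) l =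
        ∫ x, v (T^[k] (T^[n] x)) * conj (v (T^[n] x)) * conj (eg ν T l x) ∂ν := by
      simp only [fc, Function.iterate_add_apply]
    rw [h2, h1, ha]
    simp only [mul_assoc]
  have e2 : ∀ n k, ‖fc ν T (fun x => v (T^[n] x) * conj (v (T^[k + n] x))) l‖ ^ 2 = b k := by
    intro n k
    have h1 := K3_shift hT hl (F := fun x => v x * conj (v (T^[k] x)))
      (hv.meas.mul (hcm (hvk k))) n
    have h2 : fc ν T (fun x => v (T^[n] x) * conj (v (T^[k + n] x))) l =
        ∫ x, v (T^[n] x) * conj (v (T^[k] (T^[n] x))) * conj (eg ν T l x) ∂ν := by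
      simp only [fc, Function.iterate_add_apply]
    have h3 : ‖∫ x, v x * conj (v (T^[k] x)) * conj (eg ν T l x) ∂ν‖ =
        ‖∫ x, v (T^[k] x) * (conj (v x) * eg ν T l x) ∂ν‖ := by
      rw [← RCLike.norm_conj, ← integral_conj]
      congr 1
      refine integral_congr_ae (Eventually.of_forall fun x => ?_)
      simp only [map_mul, Complex.conj_conj]
      ring
    rw [h2, h1, h3]
  have hcase : ∀ n n', ‖fc ν T (fun x => v (T^[n] x) * conj (v (T^[n'] x))) l‖ ^ 2 =
      if n' ≤ n then a (n - n') else b (n' - n) := by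
    intro n n'
    split_ifs with hnn
    · have := e1 n' (n - n')
      rwa [Nat.sub_add_cancel hnn] at this
    · have := e2 n (n' - n)
      rwa [Nat.sub_add_cancel (by omega)] at this
  have hrow : ∀ N n, n < N → ∑ n' ∈ Finset.range N,
      ‖fc ν T (fun x => v (T^[n] x) * conj (v (T^[n'] x))) l‖ ^ 2 ≤
      ∑ k ∈ Finset.range N, a k + ∑ k ∈ Finset.range N, b k := by
    intro N n hn
    simp_rw [hcase]
    rw [Finset.sum_ite]
    refine add_le_add ?_ ?_
    · have h1 : (Finset.range N).filter (fun n' => n' ≤ n) = Finset.range (n + 1) := by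
        ext k; simp only [Finset.mem_filter, Finset.mem_range]; omega
      rw [h1]
      have h2 := Finset.sum_range_reflect a (n + 1)
      have h3 : ∑ x ∈ Finset.range (n + 1), a (n - x) = ∑ j ∈ Finset.range (n + 1), a j := by
        rw [← h2]
        refine Finset.sum_congr rfl fun x _ => ?_
        congr 1
      rw [h3]
      exact Finset.sum_le_sum_of_subset_of_nonneg (by
        intro k; simp only [Finset.mem_range]; omega) fun k _ _ => ha0 k
    · have h1 : (Finset.range N).filter (fun n' => ¬ n' ≤ n) = Finset.Ico (n + 1) N := by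
        ext k; simp only [Finset.mem_filter, Finset.mem_range, Finset.mem_Ico]; omega
      rw [h1, Finset.sum_Ico_eq_sum_range]
      have h2 : ∑ x ∈ Finset.range (N - (n + 1)), b (n + 1 + x - n) =
          ∑ x ∈ Finset.range (N - (n + 1)), b (x + 1) := by
        refine Finset.sum_congr rfl fun x _ => ?_
        congr 1
        omega
      rw [h2]
      have h3 : ∑ x ∈ Finset.range (N - (n + 1)), b (x + 1) ≤
          ∑ x ∈ Finset.range (N - (n + 1) + 1), b x := by
        rw [Finset.sum_range_succ']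
        linarith [hb0 0]
      refine h3.trans ?_
      exact Finset.sum_le_sum_of_subset_of_nonneg (by
        intro k; simp only [Finset.mem_range]; omega) fun k _ _ => hb0 k
  have hsum := hta.add htb
  rw [add_zero] at hsum
  refine squeeze_zero (fun N => by positivity) (fun N => ?_) hsum
  rcases Nat.eq_zero_or_pos N with rfl | hN
  · simp
  · have hN' : (0 : ℝ) < N := by exact_mod_cast hN
    have h1 : ∑ n ∈ Finset.range N, ∑ n' ∈ Finset.range N,
        ‖fc ν T (fun x => v (T^[n] x) * conj (v (T^[n'] x))) l‖ ^ 2 ≤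
        N * (∑ k ∈ Finset.range N, a k + ∑ k ∈ Finset.range N, b k) := by
      have h2 := Finset.sum_le_sum fun n hn => hrow N n (Finset.mem_range.1 hn)
      refine h2.trans ?_
      rw [Finset.sum_const, Finset.card_range, nsmul_eq_mul]
    calc ((N : ℝ) ^ 2)⁻¹ * ∑ n ∈ Finset.range N, ∑ n' ∈ Finset.range N,
        ‖fc ν T (fun x => v (T^[n] x) * conj (v (T^[n'] x))) l‖ ^ 2
        ≤ ((N : ℝ) ^ 2)⁻¹ * (N * (∑ k ∈ Finset.range N, a k + ∑ k ∈ Finset.range N, b k)) := by
          gcongr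
      _ = (N : ℝ)⁻¹ * ∑ k ∈ Finset.range N, a k + (N : ℝ)⁻¹ * ∑ k ∈ Finset.range N, b k := by
          field_simp

end Pool.Agent.Sar
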