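import Pool.Agent.Sar.Defs
import Pool.Agent.BGG.Defs

/-! MP_13664e_an, module N1: primes in dyadic blocks and residue classes. -/

set_option autoImplicit false

namespace Pool.Agent.Sar

open Filter Topology
open scoped ComplexConjugate

/-- `ψ(n; q, b)` -/
private noncomputable def Ps (q b n : ℕ) : ℝ :=
  ∑ m ∈ Finset.Icc 1 n, if (q : ℤ) ∣ (m : ℤ) - (b : ℤ) then ArithmeticFunction.vonMangoldt m else 0

private noncomputable def Th (q b i : ℕ) : ℝ :=
  ∑ p ∈ (blk i).filter (fun p => p ≡ b [MOD q]), Real.log p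

private theorem two_pow_sub (i : ℕ) : ((2 ^ i - 1 : ℕ) : ℝ) = 2 ^ i - 1 := by
  rw [Nat.cast_sub Nat.one_le_two_pow]
  push_cast
  ring

private theorem Ps_lim (hLam : Pool.Agent.BGG.SWLam) {q : ℕ} (hq : 1 ≤ q) {b : ℕ}
    (hb : Nat.Coprime b q) :
    Tendsto (fun i : ℕ => Ps q b (2 ^ i - 1) / 2 ^ i) atTop (𝓝 (1 / (q.totient : ℝ))) := by
  obtain ⟨C, hC⟩ := hLam 1
  have hφ : (1 : ℝ) ≤ (q.totient : ℝ) := by
    exact_mod_cast Nat.totient_pos.2 hq
  have hφ0 : (0 : ℝ) < (q.totient : ℝ) := by linarith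
  rw [tendsto_iff_norm_sub_tendsto_zero]
  have hlim : Tendsto (fun i : ℕ => |C| * (Real.log 2)⁻¹ * (((i - 1 : ℕ) : ℝ))⁻¹ +
      (1 / 2 : ℝ) ^ i) atTop (𝓝 0) := by
    have h1 : Tendsto (fun i : ℕ => ((i - 1 : ℕ) : ℝ)) atTop atTop :=
      tendsto_natCast_atTop_atTop.comp (tendsto_sub_atTop_nat 1)
    have h2 := (h1.inv_tendsto_atTop.const_mul (|C| * (Real.log 2)⁻¹)).add
      (tendsto_pow_atTop_nhds_zero_of_lt_one (by norm_num : (0 : ℝ) ≤ 1 / 2) (by norm_num))
    simpa using h2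
  refine squeeze_zero' (Eventually.of_forall fun i => norm_nonneg _) ?_ hlim
  filter_upwards [eventually_ge_atTop 2] with i hi
  set P : ℝ := 2 ^ i with hP
  have hP4 : (4 : ℝ) ≤ P := by
    have : (2 : ℝ) ^ 2 ≤ 2 ^ i := pow_le_pow_right₀ (by norm_num) hi
    norm_num at this
    exact this
  have hP0 : 0 < P := by linarith
  set y : ℝ := ((2 ^ i - 1 : ℕ) : ℝ) with hy
  have hyP : y = P - 1 := two_pow_sub i
  have hy2 : 2 ≤ y := by rw [hyP]; linarith
  have h1 := hC y hy2 q (b : ℤ) hq (Nat.isCoprime_iff_coprime.2 hb)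
  rw [hy, Nat.floor_natCast, ← hy, pow_one] at h1
  have h2 : |Ps q b (2 ^ i - 1) - y / (q.totient : ℝ)| ≤ |C| * y / Real.log y := by
    refine (le_trans (le_of_eq ?_) h1).trans ?_
    · rfl
    · have hlog : 0 < Real.log y := Real.log_pos (by linarith)
      gcongr
      exact le_abs_self C
  have hlog : ((i - 1 : ℕ) : ℝ) * Real.log 2 ≤ Real.log y := by
    rw [← Real.log_pow]
    refine Real.log_le_log (by positivity) ?_
    have h3 : (2 : ℝ) ^ i = 2 * 2 ^ (i - 1) := by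
      rw [← pow_succ']
      congr 1
      omega
    have h4 : (1 : ℝ) ≤ 2 ^ (i - 1) := one_le_pow₀ (by norm_num)
    rw [hyP, hP, h3]
    linarith
  have hi1 : (0 : ℝ) < ((i - 1 : ℕ) : ℝ) := by
    have : 0 < i - 1 := by omega
    exact_mod_cast this
  have hl2 : 0 < Real.log 2 := Real.log_pos (by norm_num)
  have h3 : |C| * y / Real.log y ≤ |C| * (Real.log 2)⁻¹ * (((i - 1 : ℕ) : ℝ))⁻¹ * P := by
    have h4 : |C| * y / Real.log y ≤ |C| * y / (((i - 1 : ℕ) : ℝ) * Real.log 2) := by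
      gcongr
    refine h4.trans ?_
    rw [div_eq_mul_inv, mul_inv]
    have h5 : |C| * y * ((((i - 1 : ℕ) : ℝ))⁻¹ * (Real.log 2)⁻¹) =
        |C| * (Real.log 2)⁻¹ * (((i - 1 : ℕ) : ℝ))⁻¹ * y := by ring
    rw [h5]
    refine mul_le_mul_of_nonneg_left ?_ (by positivity)
    linarith
  have h4 : Ps q b (2 ^ i - 1) / P - 1 / (q.totient : ℝ) =
      (Ps q b (2 ^ i - 1) - y / (q.totient : ℝ)) / P - (1 / P) * (1 / (q.totient : ℝ)) := by
    rw [hyP]
    field_simp
    ring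
  rw [Real.norm_eq_abs, h4]
  refine (abs_sub _ _).trans ?_
  rw [abs_div, abs_of_pos hP0, abs_of_nonneg (by positivity : 0 ≤ (1 / P) * (1 / (q.totient : ℝ)))]
  refine add_le_add ?_ ?_
  · rw [div_le_iff₀ hP0]
    exact h2.trans h3
  · have h5 : 1 / (q.totient : ℝ) ≤ 1 := by
      rw [div_le_one hφ0]
      exact hφ
    calc 1 / P * (1 / (q.totient : ℝ)) ≤ 1 / P * 1 :=
          mul_le_mul_of_nonneg_left h5 (by positivity)
      _ = (1 / 2 : ℝ) ^ i := by rw [mul_one, hP, one_div_pow]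

private theorem modEq_dvd {q b p : ℕ} : p ≡ b [MOD q] ↔ (q : ℤ) ∣ (p : ℤ) - (b : ℤ) := by
  rw [Nat.modEq_iff_dvd, dvd_sub_comm]

/-- the sum over the block -/
private theorem Ps_block (q b i : ℕ) : Ps q b (2 ^ (i + 1) - 1) - Ps q b (2 ^ i - 1) =
    ∑ m ∈ (Finset.Ico (2 ^ i) (2 ^ (i + 1)) : Finset ℕ),
      if (q : ℤ) ∣ (m : ℤ) - (b : ℤ) then ArithmeticFunction.vonMangoldt m else 0 := by
  have h1 : (1 : ℕ) ≤ 2 ^ i := Nat.one_le_two_pow
  have h2 : 2 ^ (i + 1) = 2 * 2 ^ i := by rw [pow_succ']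
  unfold Ps
  have h3 : ∀ n : ℕ, 1 ≤ n → Finset.Icc 1 (n - 1) = Finset.Ico 1 n := by
    intro n hn
    ext m
    simp only [Finset.mem_Icc, Finset.mem_Ico]
    omega
  rw [h3 _ Nat.one_le_two_pow, h3 _ h1, sub_eq_iff_eq_add']
  rw [Finset.sum_Ico_consecutive _ h1 (by omega)]

private theorem Th_near (q b i : ℕ) :
    |Th q b i - (Ps q b (2 ^ (i + 1) - 1) - Ps q b (2 ^ i - 1))| ≤
      Chebyshev.psi (2 ^ (i + 1)) - Chebyshev.theta (2 ^ (i + 1)) := by
  rw [Ps_block, Chebyshev.psi_sub_theta_eq_sum_not_prime]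
  rw [← Finset.sum_filter_add_sum_filter_not (Finset.Ico (2 ^ i) (2 ^ (i + 1))) Nat.Prime]
  have h1 : Th q b i = ∑ m ∈ (Finset.Ico (2 ^ i) (2 ^ (i + 1))).filter Nat.Prime,
      if (q : ℤ) ∣ (m : ℤ) - (b : ℤ) then ArithmeticFunction.vonMangoldt m else 0 := by
    unfold Th blk
    rw [Finset.sum_filter]
    refine Finset.sum_congr rfl fun m hm => ?_
    have hp := (Finset.mem_filter.1 hm).2
    by_cases h : m ≡ b [MOD q]
    · rw [if_pos h, if_pos (modEq_dvd.1 h), ArithmeticFunction.vonMangoldt_apply_prime hp]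
    · rw [if_neg h, if_neg fun h' => h (modEq_dvd.2 h')]
  rw [h1, sub_add_cancel_left, abs_neg, abs_of_nonneg]
  · have h2 : (⌊(2 : ℝ) ^ (i + 1)⌋₊) = 2 ^ (i + 1) := by
      have : ((2 ^ (i + 1) : ℕ) : ℝ) = (2 : ℝ) ^ (i + 1) := by push_cast; rfl
      rw [← this, Nat.floor_natCast]
    rw [h2]
    refine (Finset.sum_le_sum (g := fun m => ArithmeticFunction.vonMangoldt m) fun m _ => ?_).trans ?_
    · split_ifs
      · exact le_rfl
      · exact ArithmeticFunction.vonMangoldt_nonneg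
    · refine Finset.sum_le_sum_of_subset_of_nonneg ?_ fun m _ _ =>
        ArithmeticFunction.vonMangoldt_nonneg
      intro m hm
      simp only [Finset.mem_filter, Finset.mem_Ico, Finset.mem_Ioc] at hm ⊢
      have h3 : 0 < 2 ^ i := by positivity
      exact ⟨⟨by omega, by omega⟩, hm.2⟩
  · refine Finset.sum_nonneg fun m _ => ?_
    split_ifs
    · exact ArithmeticFunction.vonMangoldt_nonneg
    · exact le_rfl

private theorem Th_lim (hLam : Pool.Agent.BGG.SWLam) {q : ℕ} (hq : 1 ≤ q) {b : ℕ}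
    (hb : Nat.Coprime b q) :
    Tendsto (fun i : ℕ => Th q b i / 2 ^ i) atTop (𝓝 (1 / (q.totient : ℝ))) := by
  have h1 := Ps_lim hLam hq hb
  have h2 : Tendsto (fun i : ℕ => (Ps q b (2 ^ (i + 1) - 1) - Ps q b (2 ^ i - 1)) / 2 ^ i) atTop
      (𝓝 (1 / (q.totient : ℝ))) := by
    have h3 := ((h1.comp (tendsto_add_atTop_nat 1)).const_mul 2).sub h1
    have h4 : 2 * (1 / (q.totient : ℝ)) - 1 / (q.totient : ℝ) = 1 / (q.totient : ℝ) := by ring
    rw [h4] at h3
    refine h3.congr fun i => ?_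
    simp only [Function.comp_apply]
    have h5 : (2 : ℝ) ^ (i + 1) = 2 * 2 ^ i := pow_succ' _ _
    rw [h5]
    field_simp
  obtain ⟨C, hC⟩ := Chebyshev.psi_sub_theta_le_mul_sqrt
  have h3 : Tendsto (fun i : ℕ => Th q b i / 2 ^ i -
      (Ps q b (2 ^ (i + 1) - 1) - Ps q b (2 ^ i - 1)) / 2 ^ i) atTop (𝓝 0) := by
    have hlim : Tendsto (fun i : ℕ => |C| * Real.sqrt 2 * (1 / Real.sqrt 2) ^ i) atTop (𝓝 0) := by
      have h4 : 1 / Real.sqrt 2 < 1 := by
        rw [div_lt_one (by positivity)]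
        exact Real.lt_sqrt_of_sq_lt (by norm_num)
      simpa using (tendsto_pow_atTop_nhds_zero_of_lt_one (by positivity) h4).const_mul
        (|C| * Real.sqrt 2)
    refine squeeze_zero_norm (fun i => ?_) hlim
    rw [← sub_div, Real.norm_eq_abs, abs_div, abs_of_pos (by positivity : (0 : ℝ) < 2 ^ i),
      div_le_iff₀ (by positivity)]
    refine (Th_near q b i).trans ((hC _).trans ?_)
    have h5 : Real.sqrt ((2 : ℝ) ^ (i + 1)) = Real.sqrt 2 * Real.sqrt 2 ^ i := by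
      rw [pow_succ', Real.sqrt_mul (by norm_num)]
      congr 1
      rw [Real.sqrt_eq_iff_mul_self_eq (by positivity) (by positivity), ← mul_pow,
        Real.mul_self_sqrt (by norm_num)]
    have h6 : (1 / Real.sqrt 2) ^ i * 2 ^ i = Real.sqrt 2 ^ i := by
      rw [← mul_pow]
      congr 1
      rw [one_div, inv_mul_eq_div, div_eq_iff (by positivity), Real.mul_self_sqrt (by norm_num)]
    rw [h5, mul_assoc, h6, ← mul_assoc]
    have h7 : C * Real.sqrt 2 ≤ |C| * Real.sqrt 2 :=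
      mul_le_mul_of_nonneg_right (le_abs_self C) (by positivity)
    exact mul_le_mul_of_nonneg_right h7 (by positivity)
  have h4 := h3.add h2
  simpa using h4

/-- number of primes in the block in the class -/
private noncomputable def Pc (q b i : ℕ) : ℝ :=
  (((blk i).filter (fun p => p ≡ b [MOD q])).card : ℝ)

private theorem Pc_lim (hLam : Pool.Agent.BGG.SWLam) {q : ℕ} (hq : 1 ≤ q) {b : ℕ}
    (hb : Nat.Coprime b q) :
    Tendsto (fun i : ℕ => Pc q b i * (i * Real.log 2) / 2 ^ i) atTop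
      (𝓝 (1 / (q.totient : ℝ))) := by
  have h1 := Th_lim hLam hq hb
  have hl2 : 0 < Real.log 2 := Real.log_pos (by norm_num)
  have hle : ∀ i, Pc q b i * (i * Real.log 2) ≤ Th q b i := by
    intro i
    unfold Pc Th
    rw [← nsmul_eq_mul]
    refine Finset.card_nsmul_le_sum _ _ _ fun p hp => ?_
    have hp1 := (Finset.mem_Ico.1 (Finset.mem_filter.1 (Finset.mem_filter.1 hp).1).1).1
    rw [← Real.log_pow]
    refine Real.log_le_log (by positivity) ?_
    exact_mod_cast hp1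
  have hge : ∀ i : ℕ, Th q b i ≤ Pc q b i * ((i + 1) * Real.log 2) := by
    intro i
    unfold Pc Th
    rw [← nsmul_eq_mul]
    refine Finset.sum_le_card_nsmul _ _ _ fun p hp => ?_
    have hp1 := (Finset.mem_Ico.1 (Finset.mem_filter.1 (Finset.mem_filter.1 hp).1).1)
    have h2 : ((i : ℝ) + 1) * Real.log 2 = Real.log (2 ^ (i + 1)) := by
      rw [Real.log_pow]
      push_cast
      ring
    rw [h2]
    have hp0 : 0 < p := lt_of_lt_of_le (by positivity) hp1.1
    refine Real.log_le_log (by exact_mod_cast hp0) ?_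
    exact_mod_cast hp1.2.le
  have h2 : Tendsto (fun i : ℕ => Th q b i / 2 ^ i * ((i : ℝ) / (i + 1))) atTop
      (𝓝 (1 / (q.totient : ℝ))) := by
    have h3 := h1.mul (tendsto_natCast_div_add_atTop (1 : ℝ))
    rw [mul_one] at h3
    exact h3
  refine tendsto_of_tendsto_of_tendsto_of_le_of_le h2 h1 (fun i => ?_) (fun i => ?_)
  · simp only
    have hi : (0 : ℝ) < (i : ℝ) + 1 := by positivity
    rw [div_mul_div_comm, div_le_div_iff₀ (by positivity) (by positivity)]
    have h3 := mul_le_mul_of_nonneg_right (hge i)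
      (by positivity : (0 : ℝ) ≤ i * 2 ^ i)
    calc Th q b i * i * 2 ^ i = Th q b i * (i * 2 ^ i) := by ring
      _ ≤ Pc q b i * ((i + 1) * Real.log 2) * (i * 2 ^ i) := h3
      _ = Pc q b i * (i * Real.log 2) * (2 ^ i * (i + 1)) := by ring
  · simp only
    exact div_le_div_of_nonneg_right (hle i) (by positivity)

private theorem Pc_one (i : ℕ) : Pc 1 0 i = pib i := by
  unfold Pc pib
  congr 2
  rw [Finset.filter_true_of_mem]
  intro p _
  exact Nat.modEq_one

/-- Chebyshev -/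
theorem pib_upper (hLam : Pool.Agent.BGG.SWLam) : ∃ C : ℝ, 0 < C ∧ ∀ i : ℕ, 1 ≤ i → pib i ≤ C * 2 ^ i / i := by
  refine ⟨4, by norm_num, fun i hi => ?_⟩
  have hir : (0 : ℝ) < i := by exact_mod_cast hi
  have hl2 : 0 < Real.log 2 := Real.log_pos (by norm_num)
  rw [le_div_iff₀ hir]
  -- `i log 2 * pib i ≤ θ (2 ^ (i + 1)) ≤ log 4 * 2 ^ (i + 1)`
  have h1 : pib i * (i * Real.log 2) ≤ Chebyshev.theta (2 ^ (i + 1)) := by
    unfold pib Chebyshev.theta
    rw [← nsmul_eq_mul]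
    refine (Finset.card_nsmul_le_sum (blk i) (fun p => Real.log p) _ fun p hp => ?_).trans ?_
    · have hp1 := (Finset.mem_Ico.1 (Finset.mem_filter.1 hp).1).1
      rw [← Real.log_pow]
      refine Real.log_le_log (by positivity) ?_
      exact_mod_cast hp1
    · have h2 : (⌊(2 : ℝ) ^ (i + 1)⌋₊) = 2 ^ (i + 1) := by
        have : ((2 ^ (i + 1) : ℕ) : ℝ) = (2 : ℝ) ^ (i + 1) := by push_cast; rfl
        rw [← this, Nat.floor_natCast]
      rw [h2]
      refine Finset.sum_le_sum_of_subset_of_nonneg ?_ fun p hp _ => ?_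
      · intro p hp
        have hp1 := Finset.mem_Ico.1 (Finset.mem_filter.1 hp).1
        have hp2 := (Finset.mem_filter.1 hp).2
        exact Finset.mem_filter.2 ⟨Finset.mem_Ioc.2 ⟨hp2.pos, hp1.2.le⟩, hp2⟩
      · have hp2 := (Finset.mem_filter.1 hp).2
        exact Real.log_nonneg (by exact_mod_cast hp2.one_lt.le)
  have h2 := Chebyshev.theta_le_log4_mul_x (x := (2 : ℝ) ^ (i + 1)) (by positivity)
  have h3 : Real.log 4 = 2 * Real.log 2 := by
    rw [show (4 : ℝ) = 2 ^ 2 by norm_num, Real.log_pow]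
    push_cast
    ring
  rw [h3, pow_succ] at h2
  have h4 : (pib i * i) * Real.log 2 ≤ (4 * 2 ^ i) * Real.log 2 := by
    calc (pib i * i) * Real.log 2 = pib i * (i * Real.log 2) := by ring
      _ ≤ 2 * Real.log 2 * (2 ^ i * 2) := h1.trans h2
      _ = (4 * 2 ^ i) * Real.log 2 := by ring
  exact le_of_mul_le_mul_right h4 hl2

theorem pib_lower (hLam : Pool.Agent.BGG.SWLam) : ∃ c : ℝ, 0 < c ∧ ∀ᶠ i : ℕ in atTop, c * 2 ^ i / i ≤ pib i := by
  have h1 := Pc_lim hLam (q := 1) le_rfl (b := 0) (by norm_num)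
  have hl2 : 0 < Real.log 2 := Real.log_pos (by norm_num)
  refine ⟨1 / (2 * Real.log 2), by positivity, ?_⟩
  have h2 : (1 / 2 : ℝ) < 1 / ((1 : ℕ).totient : ℝ) := by
    simp only [Nat.totient_one, Nat.cast_one]
    norm_num
  filter_upwards [h1.eventually_const_lt h2, eventually_ge_atTop 1] with i hi hi1
  have hir : (0 : ℝ) < i := by exact_mod_cast hi1
  rw [Pc_one, lt_div_iff₀ (by positivity)] at hi
  rw [div_le_iff₀ hir]
  have h3 : 1 / (2 * Real.log 2) * 2 ^ i = 1 / 2 * 2 ^ i / Real.log 2 := by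
    field_simp
  rw [h3, div_le_iff₀ hl2]
  linarith

/-- equidistribution in reduced classes -/
theorem pib_class (hLam : Pool.Agent.BGG.SWLam) {q : ℕ} (hq : 1 ≤ q) {b : ℕ} (hb : Nat.Coprime b q) :
    Tendsto (fun i : ℕ => (((blk i).filter (fun p => p ≡ b [MOD q])).card : ℝ) / pib i) atTop
      (𝓝 (1 / (q.totient : ℝ))) := by
  have h1 := Pc_lim hLam hq hb
  have h2 := Pc_lim hLam (q := 1) le_rfl (b := 0) (by norm_num)
  have h3 := h1.div h2 (by norm_num)
  have h4 : 1 / (q.totient : ℝ) / (1 / ((1 : ℕ).totient : ℝ)) = 1 / (q.totient : ℝ) := by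
    simp
  rw [h4] at h3
  refine h3.congr' ?_
  filter_upwards [eventually_ge_atTop 1] with i hi
  have hir : (0 : ℝ) < i := by exact_mod_cast hi
  have hl2 : 0 < Real.log 2 := Real.log_pos (by norm_num)
  simp only [Pi.div_apply]
  rw [Pc_one]
  show Pc q b i * (i * Real.log 2) / 2 ^ i / (pib i * (i * Real.log 2) / 2 ^ i) = Pc q b i / pib i
  rw [div_div_div_cancel_right₀ (by positivity)]
  exact mul_div_mul_right _ _ (by positivity)

end Pool.Agent.Sar
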