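import Pool.Agent.Sar.N1

/-! MP_13664e_an, module N2: averages of roots of unity over primes. -/

set_option autoImplicit false

namespace Pool.Agent.Sar

open Filter Topology
open scoped ComplexConjugate

theorem totient_large {ε : ℝ} (hε : 0 < ε) : ∃ Q : ℕ, ∀ r : ℕ, Q ≤ r → 1 / (r.totient : ℝ) ≤ ε := by
  obtain ⟨M, hM⟩ : ∃ M : ℕ, 1 / ε < M := exists_nat_gt _
  refine ⟨(2 * M) ^ (M + 2) + 1, fun r hr => ?_⟩
  by_contra hcon
  push Not at hcon
  have hr0 : 0 < r := by omega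
  have hφ0 : 0 < r.totient := Nat.totient_pos.2 hr0
  have hφ0' : (0 : ℝ) < r.totient := by exact_mod_cast hφ0
  have hφ : r.totient ≤ M := by
    have h1 : (r.totient : ℝ) < M := by
      have h2 : (r.totient : ℝ) < 1 / ε := by
        rw [lt_div_iff₀ hε]
        rw [lt_div_iff₀ hφ0'] at hcon
        linarith
      linarith
    exact_mod_cast h1.le
  have hM1 : 1 ≤ M := by omega
  have hpp : ∀ p ∈ r.primeFactors, p ^ r.factorization p ≤ 2 * M ∧ p < M + 2 := by
    intro p hp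
    have hpr := Nat.prime_of_mem_primeFactors hp
    have hpd := Nat.dvd_of_mem_primeFactors hp
    have hk : 0 < r.factorization p := hpr.factorization_pos_of_dvd hr0.ne' hpd
    have h1 : (p ^ r.factorization p).totient ≤ M :=
      (Nat.le_of_dvd hφ0 (Nat.totient_dvd_of_dvd (Nat.ordProj_dvd r p))).trans hφ
    rw [Nat.totient_prime_pow hpr hk] at h1
    have h2 := hpr.two_le
    have h3 : 0 < p ^ (r.factorization p - 1) := Nat.pow_pos hpr.pos
    constructor
    · have h4 : p ^ r.factorization p = p ^ (r.factorization p - 1) * p := by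
        rw [← pow_succ]
        congr 1
        omega
      have h5 : p ≤ 2 * (p - 1) := by omega
      rw [h4]
      calc p ^ (r.factorization p - 1) * p ≤ p ^ (r.factorization p - 1) * (2 * (p - 1)) :=
            Nat.mul_le_mul_left _ h5
        _ = 2 * (p ^ (r.factorization p - 1) * (p - 1)) := by ring
        _ ≤ 2 * M := by omega
    · have h4 : p - 1 ≤ M := le_trans (Nat.le_mul_of_pos_left _ h3) h1
      omega
  have h1 : r ≤ (2 * M) ^ (M + 2) := by
    calc r = r.factorization.prod fun p k => p ^ k := (Nat.prod_factorization_pow_eq_self hr0.ne').symm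
      _ = ∏ p ∈ r.primeFactors, p ^ r.factorization p := rfl
      _ ≤ ∏ p ∈ r.primeFactors, (2 * M) := Finset.prod_le_prod' fun p hp => (hpp p hp).1
      _ = (2 * M) ^ r.primeFactors.card := by rw [Finset.prod_const]
      _ ≤ (2 * M) ^ (M + 2) := by
        apply Nat.pow_le_pow_right (by omega)
        have h2 : r.primeFactors ⊆ Finset.range (M + 2) := fun p hp =>
          Finset.mem_range.2 (hpp p hp).2
        simpa using Finset.card_le_card h2
  omega

/-- sum over the units -/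
private noncomputable def N2_U (q : ℕ) [NeZero q] (z : ℂ) : ℂ :=
  ∑ u : (ZMod q)ˣ, z ^ (u : ZMod q).val

private theorem N2_eq (q : ℕ) [NeZero q] (z : ℂ) :
    ∑ b ∈ (Finset.range q).filter (fun b => Nat.Coprime b q), z ^ b = N2_U q z := by
  unfold N2_U
  symm
  refine Finset.sum_bij (fun u _ => (u : ZMod q).val) ?_ ?_ ?_ ?_
  · intro u _
    rw [Finset.mem_filter, Finset.mem_range]
    exact ⟨ZMod.val_lt _, ZMod.val_coe_unit_coprime u⟩
  · intro u _ v _ h
    exact Units.ext (ZMod.val_injective q h)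
  · intro b hb
    rw [Finset.mem_filter, Finset.mem_range] at hb
    refine ⟨ZMod.unitOfCoprime b hb.2, Finset.mem_univ _, ?_⟩
    rw [ZMod.coe_unitOfCoprime, ZMod.val_natCast_of_lt hb.1]
  · intro u _
    rfl

private theorem N2_pow_mod {z : ℂ} {q : ℕ} (h : z ^ q = 1) {a b : ℕ} (hab : a ≡ b [MOD q]) :
    z ^ a = z ^ b := by
  rw [pow_eq_pow_mod a h, pow_eq_pow_mod b h, hab]

private theorem N2_unit (q : ℕ) [NeZero q] {z : ℂ} (h : z ^ q = 1) (c : (ZMod q)ˣ) :
    N2_U q (z ^ (c : ZMod q).val) = N2_U q z := by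
  unfold N2_U
  have h1 : ∀ u : (ZMod q)ˣ, (z ^ (c : ZMod q).val) ^ (u : ZMod q).val =
      z ^ ((c * u : (ZMod q)ˣ) : ZMod q).val := by
    intro u
    rw [← pow_mul]
    apply N2_pow_mod h
    rw [Units.val_mul, ZMod.val_mul]
    exact (Nat.mod_modEq _ _).symm
  rw [Finset.sum_congr rfl fun u _ => h1 u]
  exact Equiv.sum_comp (Equiv.mulLeft c) fun u : (ZMod q)ˣ => z ^ (u : ZMod q).val

private theorem N2_cop (q : ℕ) [NeZero q] {z : ℂ} (h : z ^ q = 1) {k : ℕ}
    (hk : Nat.Coprime k q) : N2_U q (z ^ k) = N2_U q z := by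
  have h1 := N2_unit q h (ZMod.unitOfCoprime k hk)
  rw [ZMod.coe_unitOfCoprime] at h1
  rw [← h1]
  congr 1
  apply N2_pow_mod h
  rw [ZMod.val_natCast]
  exact (Nat.mod_modEq _ _).symm

private theorem N2_lift {r q : ℕ} [NeZero q] [NeZero r] (hrq : r ∣ q) {z : ℂ} (h : z ^ r = 1)
    (c : (ZMod r)ˣ) : N2_U q (z ^ (c : ZMod r).val) = N2_U q z := by
  obtain ⟨c', hc'⟩ := ZMod.unitsMap_surjective hrq c
  have hq : z ^ q = 1 := by
    obtain ⟨m, rfl⟩ := hrq
    rw [pow_mul, h, one_pow]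
  rw [← N2_unit q hq c']
  congr 1
  apply N2_pow_mod h
  rw [← hc', ZMod.unitsMap_val, ZMod.cast_eq_val, ZMod.val_natCast]
  exact Nat.mod_modEq _ _

private theorem N2_count {r q : ℕ} [NeZero q] [NeZero r] (hrq : r ∣ q) {z : ℂ} (h : z ^ r = 1) :
    (r.totient : ℂ) * N2_U q z = (q.totient : ℂ) * N2_U r z := by
  have h1 : ∑ c : (ZMod r)ˣ, N2_U q (z ^ (c : ZMod r).val) = (r.totient : ℂ) * N2_U q z := by
    rw [Finset.sum_congr rfl fun c _ => N2_lift hrq h c, Finset.sum_const, Finset.card_univ,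
      ZMod.card_units_eq_totient, nsmul_eq_mul]
  have h2 : ∑ c : (ZMod r)ˣ, N2_U q (z ^ (c : ZMod r).val) = (q.totient : ℂ) * N2_U r z := by
    have h3 : ∀ c : (ZMod r)ˣ, N2_U q (z ^ (c : ZMod r).val) =
        ∑ u : (ZMod q)ˣ, (z ^ (u : ZMod q).val) ^ (c : ZMod r).val := by
      intro c
      unfold N2_U
      refine Finset.sum_congr rfl fun u _ => ?_
      rw [← pow_mul, ← pow_mul, mul_comm]
    rw [Finset.sum_congr rfl fun c _ => h3 c, Finset.sum_comm]
    have h4 : ∀ u : (ZMod q)ˣ, ∑ c : (ZMod r)ˣ, (z ^ (u : ZMod q).val) ^ (c : ZMod r).val =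
        N2_U r z := by
      intro u
      have h5 : Nat.Coprime (u : ZMod q).val r :=
        Nat.Coprime.coprime_dvd_right hrq (ZMod.val_coe_unit_coprime u)
      exact N2_cop r h h5
    rw [Finset.sum_congr rfl fun u _ => h4 u, Finset.sum_const, Finset.card_univ,
      ZMod.card_units_eq_totient, nsmul_eq_mul]
  rw [← h1, h2]

private theorem N2_prim {r : ℕ} [NeZero r] {z : ℂ} (hz : IsPrimitiveRoot z r) :
    N2_U r z = ∑ ζ ∈ primitiveRoots r ℂ, ζ := by
  unfold N2_U
  have hr : 0 < r := NeZero.pos r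
  refine Finset.sum_bij (fun u _ => z ^ (u : ZMod r).val) ?_ ?_ ?_ ?_
  · intro u _
    rw [mem_primitiveRoots hr]
    exact hz.pow_of_coprime _ (ZMod.val_coe_unit_coprime u)
  · intro u _ v _ h
    exact Units.ext (ZMod.val_injective r (hz.pow_inj (ZMod.val_lt _) (ZMod.val_lt _) h))
  · intro ζ hζ
    rw [mem_primitiveRoots hr, hz.isPrimitiveRoot_iff] at hζ
    obtain ⟨i, hi, hic, rfl⟩ := hζ
    refine ⟨ZMod.unitOfCoprime i hic, Finset.mem_univ _, ?_⟩
    rw [ZMod.coe_unitOfCoprime, ZMod.val_natCast_of_lt hi]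
  · intro u _
    rfl

private theorem N2_div {n : ℕ} (hn : 0 < n) :
    ∑ d ∈ n.divisors, ∑ ζ ∈ primitiveRoots d ℂ, ζ = if n = 1 then (1 : ℂ) else 0 := by
  classical
  have hz := Complex.isPrimitiveRoot_exp n hn.ne'
  haveI : NeZero n := ⟨hn.ne'⟩
  rw [← Finset.sum_biUnion, ← IsPrimitiveRoot.nthRoots_one_eq_biUnion_primitiveRoots]
  · by_cases h1 : n = 1
    · subst h1
      rw [if_pos rfl]
      have h2 : Polynomial.nthRootsFinset 1 (1 : ℂ) = {1} := by
        ext x
        rw [Polynomial.mem_nthRootsFinset Nat.one_pos, pow_one, Finset.mem_singleton]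
      rw [h2, Finset.sum_singleton]
    · rw [if_neg h1]
      obtain ⟨z, hzdef⟩ : ∃ z : ℂ, z = Complex.exp (2 * Real.pi * Complex.I / n) := ⟨_, rfl⟩
      rw [← hzdef] at hz
      have hz1 : z ≠ 1 := hz.ne_one (by omega)
      have hz0 : z ≠ 0 := hz.ne_zero hn.ne'
      have h2 : ∑ ζ ∈ Polynomial.nthRootsFinset n (1 : ℂ), ζ =
          ∑ ζ ∈ Polynomial.nthRootsFinset n (1 : ℂ), z * ζ := by
        symm
        refine Finset.sum_bij (fun ζ _ => z * ζ) ?_ ?_ ?_ ?_
        · intro ζ hζ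
          rw [Polynomial.mem_nthRootsFinset hn] at hζ ⊢
          rw [mul_pow, hζ, hz.pow_eq_one, one_mul]
        · intro a _ b _ h
          exact mul_left_cancel₀ hz0 h
        · intro ζ hζ
          refine ⟨z⁻¹ * ζ, ?_, ?_⟩
          · rw [Polynomial.mem_nthRootsFinset hn] at hζ ⊢
            rw [mul_pow, hζ, inv_pow, hz.pow_eq_one, inv_one, one_mul]
          · rw [← mul_assoc, mul_inv_cancel₀ hz0, one_mul]
        · intro ζ _
          rfl
      rw [← Finset.mul_sum] at h2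
      have h3 : (z - 1) * ∑ ζ ∈ Polynomial.nthRootsFinset n (1 : ℂ), ζ = 0 := by
        linear_combination -h2
      rcases mul_eq_zero.1 h3 with h4 | h4
      · exact absurd (sub_eq_zero.1 h4) hz1
      · exact h4
  · intro i _ j _ hij
    exact IsPrimitiveRoot.disjoint hij

private theorem N2_norm {r : ℕ} [NeZero r] {z : ℂ} (hz : IsPrimitiveRoot z r) :
    ‖N2_U r z‖ ≤ 1 := by
  rw [N2_prim hz]
  have h1 := (ArithmeticFunction.sum_eq_iff_sum_mul_moebius_eq
    (f := fun d => ∑ ζ ∈ primitiveRoots d ℂ, ζ)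
    (g := fun n => if n = 1 then (1 : ℂ) else 0)).1 (fun n hn => N2_div hn) r (NeZero.pos r)
  rw [← h1]
  have h2 : ∀ x ∈ r.divisorsAntidiagonal, ((ArithmeticFunction.moebius x.1 : ℤ) : ℂ) *
      (if x.2 = 1 then (1 : ℂ) else 0) =
      if x = (r, 1) then ((ArithmeticFunction.moebius r : ℤ) : ℂ) else 0 := by
    intro x hx
    have hx' := Nat.mem_divisorsAntidiagonal.1 hx
    by_cases h3 : x.2 = 1
    · have h4 : x.1 = r := by
        have := hx'.1
        rw [h3, mul_one] at this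
        exact this
      rw [if_pos h3, if_pos (Prod.ext h4 h3), h4, mul_one]
    · rw [if_neg h3, if_neg (fun h => h3 (by rw [h])), mul_zero]
  rw [Finset.sum_congr rfl h2, Finset.sum_ite_eq', if_pos]
  · rw [Complex.norm_intCast]
    exact_mod_cast ArithmeticFunction.abs_moebius_le_one
  · rw [Nat.mem_divisorsAntidiagonal]
    exact ⟨mul_one r, NeZero.ne r⟩

/-- Ramanujan sums -/
theorem ramanujan {z : ℂ} {r : ℕ} (hr : 1 ≤ r) (hz : IsPrimitiveRoot z r) {q : ℕ} (hq : 1 ≤ q)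
    (hrq : r ∣ q) :
    ‖∑ b ∈ (Finset.range q).filter (fun b => Nat.Coprime b q), z ^ b‖ ≤
      (q.totient : ℝ) / (r.totient : ℝ) := by
  haveI : NeZero q := ⟨by omega⟩
  haveI : NeZero r := ⟨by omega⟩
  rw [N2_eq q z]
  have h1 := N2_count hrq hz.pow_eq_one
  have h2 := N2_norm hz
  have hr0 : (0 : ℝ) < r.totient := by exact_mod_cast Nat.totient_pos.2 (NeZero.pos r)
  rw [le_div_iff₀ hr0]
  have h3 := congrArg norm h1
  rw [norm_mul, norm_mul, Complex.norm_natCast, Complex.norm_natCast] at h3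
  have hq0 : (0 : ℝ) ≤ q.totient := Nat.cast_nonneg _
  calc ‖N2_U q z‖ * r.totient = q.totient * ‖N2_U r z‖ := by rw [← h3]; ring
    _ ≤ q.totient * 1 := mul_le_mul_of_nonneg_left h2 hq0
    _ = q.totient := mul_one _

theorem prime_root (hLam : Pool.Agent.BGG.SWLam) {z : ℂ} {r : ℕ} (hr : 1 ≤ r) (hz : IsPrimitiveRoot z r) {ε : ℝ} (hε : 0 < ε) :
    ∀ᶠ i : ℕ in atTop, ‖((pib i : ℝ) : ℂ)⁻¹ * ∑ p ∈ blk i, z ^ p‖ ≤ 1 / (r.totient : ℝ) + ε := by
  haveI : NeZero r := ⟨by omega⟩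
  have hr0 : (0 : ℝ) < r.totient := by exact_mod_cast Nat.totient_pos.2 (NeZero.pos r)
  obtain ⟨S, hS⟩ : ∃ S, S = (Finset.range r).filter (fun b => Nat.Coprime b r) := ⟨_, rfl⟩
  -- the limit
  have hlim : Tendsto (fun i : ℕ => ∑ b ∈ S,
      (((((blk i).filter (fun p => p ≡ b [MOD r])).card : ℝ) / pib i : ℝ) : ℂ) * z ^ b) atTop
      (𝓝 (∑ b ∈ S, ((1 / (r.totient : ℝ) : ℝ) : ℂ) * z ^ b)) := by
    refine tendsto_finset_sum _ fun b hb => ?_
    rw [hS, Finset.mem_filter] at hb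
    exact ((Complex.continuous_ofReal.tendsto _).comp (pib_class hLam hr hb.2)).mul_const _
  have hn : ‖∑ b ∈ S, ((1 / (r.totient : ℝ) : ℝ) : ℂ) * z ^ b‖ ≤ 1 / (r.totient : ℝ) := by
    rw [← Finset.mul_sum, norm_mul, Complex.norm_real, Real.norm_of_nonneg (by positivity)]
    have h1 := ramanujan hr hz hr (dvd_refl r)
    rw [div_self hr0.ne', ← hS] at h1
    calc 1 / (r.totient : ℝ) * ‖∑ b ∈ S, z ^ b‖ ≤ 1 / (r.totient : ℝ) * 1 :=
          mul_le_mul_of_nonneg_left h1 (by positivity)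
      _ = 1 / (r.totient : ℝ) := mul_one _
  have hlt : ‖∑ b ∈ S, ((1 / (r.totient : ℝ) : ℝ) : ℂ) * z ^ b‖ < 1 / (r.totient : ℝ) + ε := by
    linarith
  have hev := hlim.norm.eventually (gt_mem_nhds hlt)
  filter_upwards [hev, eventually_ge_atTop r] with i hi hir
  refine le_trans (le_of_eq ?_) hi.le
  congr 1
  have hcop : ∀ p ∈ blk i, p % r ∈ S := by
    intro p hp
    unfold blk at hp
    rw [Finset.mem_filter, Finset.mem_Ico] at hp
    rw [hS, Finset.mem_filter, Finset.mem_range]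
    refine ⟨Nat.mod_lt _ (by omega), ?_⟩
    have h1 : Nat.Coprime p r := by
      rw [Nat.Prime.coprime_iff_not_dvd hp.2]
      intro h2
      have h3 := Nat.le_of_dvd (by omega) h2
      have h4 : i < 2 ^ i := Nat.lt_two_pow_self
      omega
    rw [Nat.coprime_iff_gcd_eq_one, ← Nat.gcd_rec, Nat.gcd_comm]
    exact h1
  have h1 : ∑ p ∈ blk i, z ^ p = ∑ b ∈ S, ∑ p ∈ (blk i).filter (fun p => p % r = b), z ^ p :=
    (Finset.sum_fiberwise_of_maps_to hcop _).symm
  rw [h1, Finset.mul_sum]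
  refine Finset.sum_congr rfl fun b hb => ?_
  have hbr : b < r := by
    rw [hS, Finset.mem_filter, Finset.mem_range] at hb
    exact hb.1
  have h2 : (blk i).filter (fun p => p % r = b) = (blk i).filter (fun p => p ≡ b [MOD r]) := by
    refine Finset.filter_congr fun p _ => ?_
    unfold Nat.ModEq
    rw [Nat.mod_eq_of_lt hbr]
  rw [h2]
  have h3 : ∑ p ∈ (blk i).filter (fun p => p ≡ b [MOD r]), z ^ p =
      (((blk i).filter (fun p => p ≡ b [MOD r])).card : ℂ) * z ^ b := by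
    rw [Finset.sum_congr rfl (g := fun _ => z ^ b), Finset.sum_const, nsmul_eq_mul]
    intro p hp
    exact N2_pow_mod hz.pow_eq_one (Finset.mem_filter.1 hp).2
  rw [h3]
  push_cast
  ring

end Pool.Agent.Sar
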