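import Pool.Agent.Sar.Defs
import Pool.Agent.BGG.Defs

/-! MP_13664e_an, module N3: the Moebius function and roots of unity. -/

set_option autoImplicit false

namespace Pool.Agent.Sar

open Filter Topology
open scoped ComplexConjugate

/-- the sum of `μ` over a residue class -/
private noncomputable def Mc (q b N : ℕ) : ℝ :=
  ∑ n ∈ Finset.Icc 1 N, if (q : ℤ) ∣ (n : ℤ) - (b : ℤ) then
    ((ArithmeticFunction.moebius n : ℤ) : ℝ) else 0

private theorem moebius_mul_any (d m : ℕ) : ((ArithmeticFunction.moebius (d * m) : ℤ) : ℝ) =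
    if Nat.Coprime m d then ((ArithmeticFunction.moebius d : ℤ) : ℝ) *
      ((ArithmeticFunction.moebius m : ℤ) : ℝ) else 0 := by
  split_ifs with h
  · rw [ArithmeticFunction.isMultiplicative_moebius.map_mul_of_coprime h.symm]
    push_cast
    ring
  · rw [ArithmeticFunction.moebius_eq_zero_of_not_squarefree]
    · simp
    · intro hs
      exact h (Nat.coprime_of_squarefree_mul hs).symm

private theorem Mc_eq {q b d r b' : ℕ} (hd : 0 < d) (hq : q = d * r) (hb : b = d * b') (N : ℕ) :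
    Mc q b N = ((ArithmeticFunction.moebius d : ℤ) : ℝ) * ∑ m ∈ Finset.Icc 1 (N / d),
      if (r : ℤ) ∣ (m : ℤ) - (b' : ℤ) ∧ Nat.Coprime m d then
        ((ArithmeticFunction.moebius m : ℤ) : ℝ) else 0 := by
  unfold Mc
  rw [← Finset.sum_filter, ← Finset.sum_filter, Finset.mul_sum]
  have hdz : (d : ℤ) ≠ 0 := by exact_mod_cast hd.ne'
  have h1 : ∀ m : ℕ, (q : ℤ) ∣ ((d * m : ℕ) : ℤ) - (b : ℤ) ↔ (r : ℤ) ∣ (m : ℤ) - (b' : ℤ) := by
    intro m
    rw [hq, hb]
    push_cast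
    rw [← mul_sub]
    exact mul_dvd_mul_iff_left hdz
  have h2 : ∑ n ∈ (Finset.Icc 1 N).filter (fun n : ℕ => (q : ℤ) ∣ (n : ℤ) - (b : ℤ)),
      ((ArithmeticFunction.moebius n : ℤ) : ℝ) =
      ∑ m ∈ (Finset.Icc 1 (N / d)).filter (fun m : ℕ => (r : ℤ) ∣ (m : ℤ) - (b' : ℤ)),
        ((ArithmeticFunction.moebius (d * m) : ℤ) : ℝ) := by
    symm
    refine Finset.sum_nbij (fun m => d * m) ?_ ?_ ?_ ?_
    · intro m hm
      simp only [Finset.mem_filter, Finset.mem_Icc] at hm ⊢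
      refine ⟨⟨Nat.mul_pos hd (by omega), ?_⟩, (h1 m).2 hm.2⟩
      rw [mul_comm]
      exact (Nat.le_div_iff_mul_le hd).1 hm.1.2
    · intro m _ m' _ h
      exact Nat.eq_of_mul_eq_mul_left hd h
    · intro n hn
      simp only [Finset.coe_filter, Finset.mem_Icc, Set.mem_ofPred_eq] at hn
      have h3 : (d : ℤ) ∣ (n : ℤ) - (b : ℤ) := by
        refine Dvd.dvd.trans ?_ hn.2
        rw [hq]
        push_cast
        exact dvd_mul_right _ _
      have h4 : (d : ℤ) ∣ (b : ℤ) := by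
        rw [hb]
        push_cast
        exact dvd_mul_right _ _
      have h5 : d ∣ n := by
        have h6 := dvd_add h3 h4
        rw [sub_add_cancel] at h6
        exact_mod_cast h6
      obtain ⟨m, rfl⟩ := h5
      refine ⟨m, ?_, rfl⟩
      simp only [Finset.coe_filter, Finset.mem_Icc, Set.mem_ofPred_eq]
      refine ⟨⟨?_, ?_⟩, (h1 m).1 hn.2⟩
      · rcases Nat.eq_zero_or_pos m with h | h
        · subst h
          simp at hn
        · exact h
      · rw [Nat.le_div_iff_mul_le hd, mul_comm]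
        exact hn.1.2
    · intro m _
      rfl
  rw [h2, Finset.sum_filter, Finset.sum_filter]
  refine Finset.sum_congr rfl fun m _ => ?_
  by_cases h3 : (r : ℤ) ∣ (m : ℤ) - (b' : ℤ)
  · rw [if_pos h3, moebius_mul_any]
    by_cases h4 : Nat.Coprime m d
    · rw [if_pos h4, if_pos ⟨h3, h4⟩]
    · rw [if_neg h4, if_neg fun h => h4 h.2]
  · rw [if_neg h3, if_neg fun h => h3 h.1]

private theorem Mc_lim (hmu : Pool.Agent.BGG.SWmu) {q : ℕ} (hq : 1 ≤ q) (b : ℕ) :
    Tendsto (fun N : ℕ => (N : ℝ)⁻¹ * Mc q b N) atTop (𝓝 0) := by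
  set d := Nat.gcd b q with hd
  have hdpos : 0 < d := Nat.gcd_pos_of_pos_right b hq
  obtain ⟨b', hb'⟩ : d ∣ b := Nat.gcd_dvd_left b q
  obtain ⟨r, hr⟩ : d ∣ q := Nat.gcd_dvd_right b q
  have hrpos : 1 ≤ r := by
    rcases Nat.eq_zero_or_pos r with h | h
    · rw [h, mul_zero] at hr
      omega
    · exact h
  have hcop : Nat.Coprime b' r := by
    have h1 := Nat.coprime_div_gcd_div_gcd (m := b) (n := q) hdpos
    rw [← hd] at h1
    have h2 : b / d = b' := by
      conv_lhs => rw [hb']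
      exact Nat.mul_div_cancel_left b' hdpos
    have h3 : q / d = r := by
      conv_lhs => rw [hr]
      exact Nat.mul_div_cancel_left r hdpos
    rwa [h2, h3] at h1
  obtain ⟨C, hC⟩ := hmu 1
  have hdiv : Tendsto (fun N : ℕ => N / d) atTop atTop :=
    Nat.tendsto_div_const_atTop hdpos.ne'
  have hlog : Tendsto (fun N : ℕ => Real.log ((N / d : ℕ) : ℝ)) atTop atTop :=
    Real.tendsto_log_atTop.comp (tendsto_natCast_atTop_atTop.comp hdiv)
  have hlim : Tendsto (fun N : ℕ => (|C| * (d.divisors.card : ℝ)) *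
      (Real.log ((N / d : ℕ) : ℝ))⁻¹) atTop (𝓝 0) := by
    simpa using hlog.inv_tendsto_atTop.const_mul (|C| * (d.divisors.card : ℝ))
  refine squeeze_zero_norm' ?_ hlim
  filter_upwards [hdiv.eventually_ge_atTop 2, eventually_ge_atTop 1] with N hN hN1
  have hNr : (0 : ℝ) < N := by exact_mod_cast hN1
  rw [Mc_eq hdpos hr hb' N, norm_mul, norm_inv, Real.norm_of_nonneg hNr.le, Real.norm_eq_abs,
    abs_mul]
  have hy2 : (2 : ℝ) ≤ ((N / d : ℕ) : ℝ) := by
    have h := (Nat.cast_le (α := ℝ)).2 hN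
    rwa [Nat.cast_ofNat] at h
  have h1 := hC ((N / d : ℕ) : ℝ) hy2 r d (b' : ℤ) hrpos hdpos
    (Nat.isCoprime_iff_coprime.2 hcop)
  rw [Nat.floor_natCast, pow_one] at h1
  have h2 : |((ArithmeticFunction.moebius d : ℤ) : ℝ)| ≤ 1 := by
    have h3 := ArithmeticFunction.abs_moebius_le_one (n := d)
    exact_mod_cast h3
  have hy : ((N / d : ℕ) : ℝ) ≤ N := (Nat.cast_le (α := ℝ)).2 (Nat.div_le_self N d)
  have hlp : 0 < Real.log ((N / d : ℕ) : ℝ) := Real.log_pos (by linarith)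
  rw [inv_mul_le_iff₀ hNr]
  refine (mul_le_mul h2 h1 (abs_nonneg _) zero_le_one).trans ?_
  rw [one_mul, div_eq_mul_inv]
  have h4 : C * (d.divisors.card : ℝ) * ((N / d : ℕ) : ℝ) ≤
      |C| * (d.divisors.card : ℝ) * N := by
    have h5 : C * (d.divisors.card : ℝ) ≤ |C| * (d.divisors.card : ℝ) :=
      mul_le_mul_of_nonneg_right (le_abs_self C) (Nat.cast_nonneg _)
    exact mul_le_mul h5 hy (Nat.cast_nonneg _)
      (mul_nonneg (abs_nonneg _) (Nat.cast_nonneg _))
  calc C * (d.divisors.card : ℝ) * ((N / d : ℕ) : ℝ) * (Real.log ((N / d : ℕ) : ℝ))⁻¹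
      ≤ |C| * (d.divisors.card : ℝ) * N * (Real.log ((N / d : ℕ) : ℝ))⁻¹ :=
        mul_le_mul_of_nonneg_right h4 (inv_nonneg.2 hlp.le)
    _ = _ := by ring

theorem mu_root (hmu : Pool.Agent.BGG.SWmu) {z : ℂ} {q : ℕ} (hq : 1 ≤ q) (hz : z ^ q = 1) :
    Tendsto (fun N : ℕ => (N : ℂ)⁻¹ * ∑ n ∈ Finset.Icc 1 N,
      z ^ n * ((ArithmeticFunction.moebius n : ℤ) : ℂ)) atTop (𝓝 0) := by
  have h1 : ∀ N : ℕ, (N : ℂ)⁻¹ * ∑ n ∈ Finset.Icc 1 N,
      z ^ n * ((ArithmeticFunction.moebius n : ℤ) : ℂ) =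
      ∑ b ∈ Finset.range q, z ^ b * (((N : ℝ)⁻¹ * Mc q b N : ℝ) : ℂ) := by
    intro N
    have h2 : ∀ b ∈ Finset.range q, z ^ b * (((N : ℝ)⁻¹ * Mc q b N : ℝ) : ℂ) =
        (N : ℂ)⁻¹ * ∑ n ∈ Finset.Icc 1 N, if n % q = b then
          z ^ n * ((ArithmeticFunction.moebius n : ℤ) : ℂ) else 0 := by
      intro b hb
      unfold Mc
      push_cast
      rw [mul_left_comm, Finset.mul_sum]
      congr 1
      refine Finset.sum_congr rfl fun n _ => ?_
      have h3 : (q : ℤ) ∣ (n : ℤ) - (b : ℤ) ↔ n % q = b := by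
        rw [dvd_sub_comm, ← Nat.modEq_iff_dvd, Nat.ModEq, Nat.mod_eq_of_lt (Finset.mem_range.1 hb)]
      by_cases h4 : n % q = b
      · rw [if_pos (h3.2 h4), if_pos h4]
        have h5 : z ^ n = z ^ b := by
          conv_lhs => rw [← Nat.div_add_mod n q, pow_add, pow_mul, hz, one_pow, one_mul, h4]
        rw [h5]
        push_cast
        rfl
      · rw [if_neg fun h => h4 (h3.1 h), if_neg h4]
        push_cast
        rw [mul_zero]
    rw [Finset.sum_congr rfl h2, ← Finset.mul_sum, Finset.sum_comm]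
    congr 1
    refine Finset.sum_congr rfl fun n _ => ?_
    rw [Finset.sum_ite_eq, if_pos]
    exact Finset.mem_range.2 (Nat.mod_lt n hq)
  have h2 : Tendsto (fun N : ℕ => ∑ b ∈ Finset.range q, z ^ b * (((N : ℝ)⁻¹ * Mc q b N : ℝ) : ℂ))
      atTop (𝓝 (∑ b ∈ Finset.range q, z ^ b * ((0 : ℝ) : ℂ))) := by
    refine tendsto_finsetSum _ fun b _ => Tendsto.const_mul _ ?_
    exact (Complex.continuous_ofReal.tendsto 0).comp (Mc_lim hmu hq b)
  simp only [Complex.ofReal_zero, mul_zero, Finset.sum_const_zero] at h2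
  exact h2.congr fun N => (h1 N).symm

end Pool.Agent.Sar
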