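import Pool.Agent.Sar.K2b

/-! MP_13664e_an, module S1: partitions of small conditional measure. -/

set_option autoImplicit false

namespace Pool.Agent.Sar

open MeasureTheory ProbabilityTheory Filter Topology
open scoped ENNReal ComplexConjugate

section part

variable {X : Type*} [MetricSpace X] [CompactSpace X] [mX : MeasurableSpace X] [BorelSpace X]
  [Nonempty X] {ν : Measure X} [IsProbabilityMeasure ν]

/-- the measure of small balls around the point is measurable -/
private theorem S1_ball_meas {T : X → X} (r : ℝ) :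
    Measurable fun x => condExpKernel ν (Kr ν T) x (Metric.closedBall x r) := by
  let κ' : Kernel X X := (condExpKernel ν (Kr ν T)).comap id (measurable_id'' Kr_le)
  have : IsMarkovKernel κ' := by
    dsimp only [κ']
    infer_instance
  have h1 : MeasurableSet {p : X × X | dist p.2 p.1 ≤ r} :=
    (isClosed_le (by fun_prop) (by fun_prop)).measurableSet
  have h2 := Kernel.measurable_kernel_prodMk_left (κ := κ') h1
  exact h2

/-- some radius is small for most points -/
private theorem S1_radius {T : X → X} (h0 : ∀ᵐ x ∂ν, condExpKernel ν (Kr ν T) x {x} = 0)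
    {ε : ℝ} (hε : 0 < ε) : ∃ r : ℝ, 0 < r ∧
      ν {x | ENNReal.ofReal ε < condExpKernel ν (Kr ν T) x (Metric.closedBall x r)} ≤
        ENNReal.ofReal (ε / 4) := by
  set A : ℕ → Set X := fun n => {x | ENNReal.ofReal ε <
    condExpKernel ν (Kr ν T) x (Metric.closedBall x (1 / ((n : ℝ) + 1)))} with hA
  have hAm : ∀ n, MeasurableSet (A n) := fun n =>
    measurableSet_lt measurable_const (S1_ball_meas _)
  have hanti : Antitone A := by
    intro n m hnm x hx
    refine lt_of_lt_of_le hx (measure_mono (Metric.closedBall_subset_closedBall ?_))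
    have h1 : (n : ℝ) ≤ m := by exact_mod_cast hnm
    exact one_div_le_one_div_of_le (by positivity) (by linarith)
  have hlim := tendsto_measure_iInter_atTop (μ := ν) (s := A)
    (fun n => (hAm n).nullMeasurableSet) hanti ⟨0, measure_ne_top _ _⟩
  have hnull : ν (⋂ n, A n) = 0 := by
    refine measure_mono_null ?_ h0
    intro x hx hx0
    have h1 : Tendsto (fun n : ℕ => condExpKernel ν (Kr ν T) x
        (Metric.closedBall x (1 / ((n : ℝ) + 1)))) atTop
        (𝓝 (condExpKernel ν (Kr ν T) x (⋂ n : ℕ, Metric.closedBall x (1 / ((n : ℝ) + 1))))) := by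
      refine tendsto_measure_iInter_atTop
        (fun n => Metric.isClosed_closedBall.measurableSet.nullMeasurableSet) ?_
        ⟨0, measure_ne_top _ _⟩
      intro n m hnm
      refine Metric.closedBall_subset_closedBall ?_
      have h1 : (n : ℝ) ≤ m := by exact_mod_cast hnm
      exact one_div_le_one_div_of_le (by positivity) (by linarith)
    have h2 : (⋂ n : ℕ, Metric.closedBall x (1 / ((n : ℝ) + 1))) = {x} := by
      ext y
      rw [Set.mem_iInter, Set.mem_singleton_iff]
      constructor
      · intro h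
        by_contra hne
        have hd : 0 < dist y x := dist_pos.2 hne
        obtain ⟨n, hn⟩ := exists_nat_one_div_lt hd
        have := h n
        rw [Metric.mem_closedBall] at this
        linarith
      · rintro rfl n
        exact Metric.mem_closedBall_self (by positivity)
    rw [h2, hx0] at h1
    have h3 : ENNReal.ofReal ε ≤ 0 := by
      refine ge_of_tendsto h1 (Eventually.of_forall fun n => ?_)
      exact (Set.mem_iInter.1 hx n).le
    have h4 : 0 < ENNReal.ofReal ε := ENNReal.ofReal_pos.2 hε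
    exact absurd h3 (not_le.2 h4)
  rw [hnull] at hlim
  have hpos : (0 : ℝ≥0∞) < ENNReal.ofReal (ε / 4) := ENNReal.ofReal_pos.2 (by linarith)
  obtain ⟨n, hn⟩ := (hlim.eventually (gt_mem_nhds hpos)).exists
  exact ⟨1 / ((n : ℝ) + 1), by positivity, hn.le⟩

/-- a finite measurable partition with small cells -/
private theorem S1_cells {r : ℝ} (hr : 0 < r) : ∃ (m : ℕ) (P : Fin m → Set X),
    (∀ j, MeasurableSet (P j)) ∧ (∀ i j, i ≠ j → Disjoint (P i) (P j)) ∧ (⋃ j, P j) = Set.univ ∧
    ∀ j, ∀ x ∈ P j, P j ⊆ Metric.closedBall x r := by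
  obtain ⟨t, -, htf, ht⟩ := finite_cover_balls_of_compact (isCompact_univ (X := X)) (half_pos hr)
  have : Finite t := htf
  obtain ⟨m, ⟨e⟩⟩ := Finite.exists_equiv_fin t
  let Bj : Fin m → Set X := fun j => Metric.ball ((e.symm j).1) (r / 2)
  let P : Fin m → Set X := fun j => Bj j \ ⋃ i, ⋃ (_ : i < j), Bj i
  refine ⟨m, P, ?_, ?_, ?_, ?_⟩
  · intro j
    exact Metric.isOpen_ball.measurableSet.diff
      (MeasurableSet.iUnion fun i => MeasurableSet.iUnion fun _ => Metric.isOpen_ball.measurableSet)
  · have key : ∀ i j, i < j → Disjoint (P i) (P j) := by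
      intro i j hij
      rw [Set.disjoint_left]
      intro x hx hx'
      exact hx'.2 (Set.mem_iUnion.2 ⟨i, Set.mem_iUnion.2 ⟨hij, hx.1⟩⟩)
    intro i j hij
    rcases lt_or_gt_of_ne hij with h | h
    · exact key i j h
    · exact (key j i h).symm
  · rw [Set.eq_univ_iff_forall]
    intro x
    have hx : ∃ j : Fin m, x ∈ Bj j := by
      have h1 := ht (Set.mem_univ x)
      rw [Set.mem_iUnion₂] at h1
      obtain ⟨y, hy, hxy⟩ := h1
      refine ⟨e ⟨y, hy⟩, ?_⟩
      show x ∈ Metric.ball ((e.symm (e ⟨y, hy⟩)).1) (r / 2)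
      rw [Equiv.symm_apply_apply]
      exact hxy
    classical
    obtain ⟨j, hj, hmin⟩ := Finset.exists_min_image
      (Finset.univ.filter fun j : Fin m => x ∈ Bj j) (fun j => (j : ℕ))
      (by obtain ⟨j, hj⟩ := hx; exact ⟨j, by simp [hj]⟩)
    rw [Finset.mem_filter] at hj
    refine Set.mem_iUnion.2 ⟨j, hj.2, ?_⟩
    intro h
    rw [Set.mem_iUnion₂] at h
    obtain ⟨i, hij, hxi⟩ := h
    have := hmin i (by rw [Finset.mem_filter]; exact ⟨Finset.mem_univ _, hxi⟩)
    exact absurd hij (not_lt.2 this)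
  · intro j x hx y hy
    have h1 := hx.1
    have h2 := hy.1
    rw [Metric.mem_ball] at h1 h2
    rw [Metric.mem_closedBall]
    have h3 := dist_triangle_right y x (e.symm j).1
    linarith

/-- restriction to a set of `Kr` -/
private theorem S1_restrict {T : X → X} {P E : Set X} (hP : MeasurableSet P)
    (hE : MeasurableSet[Kr ν T] E) {ε : ℝ} (hε : 0 ≤ ε)
    (hle : ∀ x ∈ E, (condExpKernel ν (Kr ν T) x).real P ≤ ε) :
    ∀ᵐ x ∂ν, (condExpKernel ν (Kr ν T) x).real (P ∩ E) ≤ ε := by
  have hEm : MeasurableSet E := Kr_le _ hE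
  have h1 := condExpKernel_ae_eq_condExp (μ := ν) (m := Kr ν T) Kr_le (hP.inter hEm)
  have h2 := condExpKernel_ae_eq_condExp (μ := ν) (m := Kr ν T) Kr_le hP
  have h3 : Integrable (P.indicator (fun _ => (1 : ℝ))) ν :=
    (integrable_const (1 : ℝ)).indicator hP
  have h4 := condExp_indicator (m := Kr ν T) h3 hE
  have e1 : E.indicator (P.indicator (fun _ => (1 : ℝ))) = (P ∩ E).indicator (fun _ => (1 : ℝ)) := by
    rw [Set.indicator_indicator, Set.inter_comm]
  rw [e1] at h4
  filter_upwards [h1, h2, h4] with x hx1 hx2 hx4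
  rw [hx1, hx4]
  by_cases hx : x ∈ E
  · rw [Set.indicator_of_mem hx, ← hx2]
    exact hle x hx
  · rw [Set.indicator_of_notMem hx]
    exact hε

/-- disjoint compact sets of small conditional measure which almost cover `X` -/
theorem small_sets {T : X → X} (h0 : ∀ᵐ x ∂ν, condExpKernel ν (Kr ν T) x {x} = 0)
    {ε : ℝ} (hε : 0 < ε) :
    ∃ (k : ℕ) (C : Fin k → Set X), 2 ≤ k ∧ (∀ j, IsCompact (C j)) ∧
      (∀ i j, i ≠ j → Disjoint (C i) (C j)) ∧
      1 - ε ≤ (ν (⋃ j, C j)).toReal ∧
      ∀ j, ∀ᵐ x ∂ν, (condExpKernel ν (Kr ν T) x (C j)).toReal ≤ ε := by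
  obtain ⟨r, hr, hrad⟩ := S1_radius h0 hε
  obtain ⟨m, P, hPm, hPd, hPu, hPb⟩ := S1_cells (X := X) hr
  let E : Fin m → Set X := fun j => {x | condExpKernel ν (Kr ν T) x (P j) ≤ ENNReal.ofReal ε}
  have hEK : ∀ j, MeasurableSet[Kr ν T] (E j) := fun j =>
    (measurable_condExpKernel (hPm j)) measurableSet_Iic
  have hEm : ∀ j, MeasurableSet (E j) := fun j => Kr_le _ (hEK j)
  have hsmall : ∀ j, ∀ᵐ x ∂ν, (condExpKernel ν (Kr ν T) x).real (P j ∩ E j) ≤ ε := by
    intro j
    refine S1_restrict (hPm j) (hEK j) hε.le fun x hx => ?_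
    rw [measureReal_def]
    exact ENNReal.toReal_le_of_le_ofReal hε.le hx
  -- the sets cover most of the space
  set A : Set X := {x | ENNReal.ofReal ε <
    condExpKernel ν (Kr ν T) x (Metric.closedBall x r)} with hA
  have hcov : Aᶜ ⊆ ⋃ j, P j ∩ E j := by
    intro x hx
    have h1 : x ∈ ⋃ j, P j := by rw [hPu]; trivial
    obtain ⟨j, hj⟩ := Set.mem_iUnion.1 h1
    refine Set.mem_iUnion.2 ⟨j, hj, ?_⟩
    have h2 : condExpKernel ν (Kr ν T) x (Metric.closedBall x r) ≤ ENNReal.ofReal ε :=
      not_lt.1 hx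
    exact (measure_mono (hPb j x hj)).trans h2
  -- compact subsets
  have hτ : (ENNReal.ofReal (ε / 4) / (m + 1 : ℕ)) ≠ 0 := by
    rw [Ne, ENNReal.div_eq_zero_iff, not_or]
    exact ⟨(ENNReal.ofReal_pos.2 (by linarith)).ne', ENNReal.natCast_ne_top _⟩
  have hcomp : ∀ j, ∃ K, K ⊆ P j ∩ E j ∧ IsCompact K ∧
      ν (P j ∩ E j) < ν K + ENNReal.ofReal (ε / 4) / (m + 1 : ℕ) := fun j =>
    ((hPm j).inter (hEm j)).exists_isCompact_lt_add (measure_ne_top _ _) hτ
  choose K hKs hKc hKν using hcomp
  refine ⟨m + 2, fun j => if h : (j : ℕ) < m then K ⟨j, h⟩ else ∅, by omega, ?_, ?_, ?_, ?_⟩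
  · intro j
    by_cases h : (j : ℕ) < m
    · simp only [dif_pos h]
      exact hKc _
    · simp only [dif_neg h]
      exact isCompact_empty
  · intro i j hij
    by_cases hi : (i : ℕ) < m
    · by_cases hj : (j : ℕ) < m
      · simp only [dif_pos hi, dif_pos hj]
        refine (hPd ⟨i, hi⟩ ⟨j, hj⟩ ?_).mono ((hKs _).trans Set.inter_subset_left)
          ((hKs _).trans Set.inter_subset_left)
        intro h
        exact hij (Fin.ext (Fin.mk.inj_iff.1 h))
      · simp only [dif_neg hj]
        exact Set.disjoint_empty _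
    · simp only [dif_neg hi]
      exact Set.empty_disjoint _
  · -- the measure of the union
    have hU : (⋃ j : Fin (m + 2), if h : (j : ℕ) < m then K ⟨j, h⟩ else ∅) = ⋃ j, K j := by
      ext x
      rw [Set.mem_iUnion, Set.mem_iUnion]
      constructor
      · rintro ⟨j, hj⟩
        by_cases h : (j : ℕ) < m
        · rw [dif_pos h] at hj
          exact ⟨_, hj⟩
        · rw [dif_neg h] at hj
          exact absurd hj (Set.notMem_empty x)
      · rintro ⟨j, hj⟩
        refine ⟨⟨j, by omega⟩, ?_⟩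
        rw [dif_pos j.2]
        exact hj
    have hKm : ∀ j, MeasurableSet (K j) := fun j => (hKc j).isClosed.measurableSet
    have hKd : Pairwise (Function.onFun Disjoint K) := by
      intro i j hij
      exact (hPd i j hij).mono ((hKs _).trans Set.inter_subset_left)
          ((hKs _).trans Set.inter_subset_left)
    have hKsum : ν (⋃ j, K j) = ∑ j, ν (K j) := by
      rw [measure_iUnion hKd hKm, tsum_fintype]
    have h1 : ν (⋃ j, P j ∩ E j) ≤ ∑ j, ν (P j ∩ E j) := measure_iUnion_fintype_le _ _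
    have h2 : ∑ j, ν (P j ∩ E j) ≤ ν (⋃ j, K j) + ENNReal.ofReal (ε / 4) := by
      calc ∑ j, ν (P j ∩ E j) ≤ ∑ j : Fin m, (ν (K j) + ENNReal.ofReal (ε / 4) / (m + 1 : ℕ)) :=
            Finset.sum_le_sum fun j _ => (hKν j).le
        _ = ν (⋃ j, K j) + m * (ENNReal.ofReal (ε / 4) / (m + 1 : ℕ)) := by
            rw [Finset.sum_add_distrib, ← hKsum, Finset.sum_const, Finset.card_univ,
              Fintype.card_fin, nsmul_eq_mul]
        _ ≤ ν (⋃ j, K j) + ENNReal.ofReal (ε / 4) := by
            gcongr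
            calc (m : ℝ≥0∞) * (ENNReal.ofReal (ε / 4) / (m + 1 : ℕ))
                ≤ ((m + 1 : ℕ) : ℝ≥0∞) * (ENNReal.ofReal (ε / 4) / (m + 1 : ℕ)) := by
                  gcongr
                  exact_mod_cast Nat.le_succ m
              _ = ENNReal.ofReal (ε / 4) :=
                  ENNReal.mul_div_cancel (by simp) (ENNReal.natCast_ne_top _)
    have h3 : (1 : ℝ≥0∞) ≤ ν A + ν (⋃ j, P j ∩ E j) := by
      calc (1 : ℝ≥0∞) = ν Set.univ := measure_univ.symm
        _ ≤ ν (A ∪ ⋃ j, P j ∩ E j) := by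
            refine measure_mono ?_
            intro x _
            by_cases hx : x ∈ A
            · exact Or.inl hx
            · exact Or.inr (hcov hx)
        _ ≤ _ := measure_union_le _ _
    have h4 : (1 : ℝ≥0∞) ≤ ENNReal.ofReal (ε / 4) + (ν (⋃ j, K j) + ENNReal.ofReal (ε / 4)) :=
      h3.trans (add_le_add hrad (h1.trans h2))
    rw [hU]
    have h5 := ENNReal.toReal_mono (by finiteness) h4
    rw [ENNReal.toReal_one, ENNReal.toReal_add (by finiteness) (by finiteness),
      ENNReal.toReal_add (by finiteness) (by finiteness), ENNReal.toReal_ofReal (by linarith)] at h5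
    linarith
  · intro j
    by_cases h : (j : ℕ) < m
    · simp only [dif_pos h]
      filter_upwards [hsmall ⟨j, h⟩] with x hx
      refine le_trans ?_ hx
      rw [measureReal_def]
      exact ENNReal.toReal_mono (measure_ne_top _ _) (measure_mono (hKs _))
    · simp only [dif_neg h]
      refine Eventually.of_forall fun x => ?_
      rw [measure_empty, ENNReal.toReal_zero]
      exact hε.le

end part

end Pool.Agent.Sar
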