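import Pool.Agent.Sar.K2b
import Pool.Agent.Sar.K3

/-! MP_13664e_an, module S1b: sequences with independent returns. -/

set_option autoImplicit false

namespace Pool.Agent.Sar

open MeasureTheory ProbabilityTheory Filter Topology
open scoped ENNReal ComplexConjugate

section seq

variable {X : Type*} [mX : MeasurableSpace X] [StandardBorelSpace X] [Nonempty X]
  {ν : Measure X} [IsProbabilityMeasure ν]

/-- averages tending to zero have small terms beyond every bound -/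
private theorem S1b_small {F : ℕ → ℝ} (hF : Tendsto (fun N : ℕ => (N : ℝ)⁻¹ *
    ∑ n ∈ Finset.range N, F n) atTop (𝓝 0)) (h0 : ∀ n, 0 ≤ F n) {η : ℝ} (hη : 0 < η) (L : ℕ) :
    ∃ n, L < n ∧ F n < η := by
  by_contra hcon
  push Not at hcon
  have h1 : ∀ᶠ N : ℕ in atTop, (N : ℝ)⁻¹ * ∑ n ∈ Finset.range N, F n < η / 2 :=
    hF.eventually (gt_mem_nhds (half_pos hη))
  obtain ⟨N, hN1, hN2⟩ := (h1.and (eventually_ge_atTop (2 * (L + 1)))).exists
  have hN0 : (0 : ℝ) < N := by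
    have : 0 < N := by omega
    exact_mod_cast this
  have h2 : (((N : ℕ) - (L + 1) : ℕ) : ℝ) * η ≤ ∑ n ∈ Finset.range N, F n := by
    have h3 : ∑ n ∈ Finset.Ico (L + 1) N, F n ≤ ∑ n ∈ Finset.range N, F n := by
      refine Finset.sum_le_sum_of_subset_of_nonneg ?_ (fun n _ _ => h0 n)
      intro n hn
      rw [Finset.mem_Ico] at hn
      exact Finset.mem_range.2 hn.2
    refine le_trans ?_ h3
    have h4 : ∀ n ∈ Finset.Ico (L + 1) N, η ≤ F n := fun n hn =>
      hcon n (by rw [Finset.mem_Ico] at hn; omega)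
    have h5 := Finset.card_nsmul_le_sum _ _ _ h4
    rwa [Nat.card_Ico, nsmul_eq_mul] at h5
  have h3 : (N : ℝ) / 2 ≤ (((N : ℕ) - (L + 1) : ℕ) : ℝ) := by
    rw [Nat.cast_sub (by omega)]
    have : (2 * (L + 1) : ℝ) ≤ N := by exact_mod_cast hN2
    push_cast
    linarith
  rw [inv_mul_lt_iff₀ hN0] at hN1
  have h4 : (N : ℝ) / 2 * η ≤ (((N : ℕ) - (L + 1) : ℕ) : ℝ) * η :=
    mul_le_mul_of_nonneg_right h3 hη.le
  nlinarith

/-- one step of the construction -/
private theorem S1b_step {S : X ≃ᵐ X} (hE : Ergodic S ν) {k : ℕ} (g : Fin k → X → ℝ)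
    (hm : ∀ j, Measurable (g j)) (h0 : ∀ j x, 0 ≤ g j x) (h1 : ∀ j x, g j x ≤ 1) {c : ℝ}
    (hg : ∀ j, ∀ᵐ x ∂ν, ∫ s, g j s ∂(condExpKernel ν (Kr ν S) x) ≤ c)
    {ι : Type} [Fintype ι] (Φ : ι → X → ℝ) (hΦm : ∀ i, Measurable (Φ i))
    (hΦ0 : ∀ i x, 0 ≤ Φ i x) (hΦ1 : ∀ i x, Φ i x ≤ 1) {η : ℝ} (hη : 0 < η) (L : ℕ) :
    ∃ a, L < a ∧ ∀ i j, ∫ x, Φ i x * g j (S^[a] x) ∂ν ≤ c * ∫ x, Φ i x ∂ν + η := by
  have hS : MeasurePreserving S ν ν := hE.toMeasurePreserving
  set Gf : Fin k → X → ℝ := fun j x => ∫ s, g j s ∂(condExpKernel ν (Kr ν S) x) with hGf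
  have hBg : ∀ j, BM (fun x => ((g j x : ℝ) : ℂ)) := fun j =>
    ⟨Complex.measurable_ofReal.comp (hm j), 1, fun x => by
      rw [Complex.norm_real, Real.norm_eq_abs, abs_of_nonneg (h0 j x)]
      exact h1 j x⟩
  have hcex : ∀ j x, cex ν S (fun y => ((g j y : ℝ) : ℂ)) x = ((Gf j x : ℝ) : ℂ) := by
    intro j x
    exact integral_complex_ofReal
  have hGm : ∀ j, Measurable (Gf j) := by
    intro j
    have h2 := (cex_BM (ν := ν) (T := S) (hBg j)).meas
    have h3 : Gf j = fun x => (cex ν S (fun y => ((g j y : ℝ) : ℂ)) x).re := by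
      funext x
      rw [hcex, Complex.ofReal_re]
    rw [h3]
    exact Complex.measurable_re.comp h2
  have hG0 : ∀ j x, 0 ≤ Gf j x := fun j x => integral_nonneg (h0 j)
  have hG1 : ∀ j x, Gf j x ≤ 1 := by
    intro j x
    have h2 : Gf j x ≤ ∫ _s, (1 : ℝ) ∂(condExpKernel ν (Kr ν S) x) :=
      integral_mono_of_nonneg (Eventually.of_forall (h0 j)) (integrable_const _)
        (Eventually.of_forall (h1 j))
    rwa [integral_const, probReal_univ, one_smul] at h2
  let v : Fin k → X → ℂ := fun j x => ((g j x - Gf j x : ℝ) : ℂ)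
  have hv : ∀ j, BM (v j) := fun j =>
    ⟨Complex.measurable_ofReal.comp ((hm j).sub (hGm j)), 1, fun x => by
      show ‖((g j x - Gf j x : ℝ) : ℂ)‖ ≤ 1
      rw [Complex.norm_real, Real.norm_eq_abs, abs_le]
      have := h0 j x
      have := h1 j x
      have := hG0 j x
      have := hG1 j x
      constructor <;> linarith⟩
  have hveq : ∀ j, v j = fun x => ((g j x : ℝ) : ℂ) - cex ν S (fun y => ((g j y : ℝ) : ℂ)) x := by
    intro j
    funext x
    rw [hcex]
    show ((g j x - Gf j x : ℝ) : ℂ) = _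
    push_cast
    ring
  have hfc : ∀ j, ∀ l ∈ EV ν S, fc ν S (v j) l = 0 := by
    intro j l hl
    have h2 := fc_cex (ν := ν) (T := S) hS (hBg j) hl
    unfold fc at h2 ⊢
    have hl' : IsEig ν S l (eg ν S l) := by
      unfold eg
      rw [dif_pos hl]
      exact hl.choose_spec
    have hint : ∀ u : X → ℂ, BM u → Integrable (fun x => u x * conj (eg ν S l x)) ν := by
      intro u hu
      obtain ⟨C, hC⟩ := hu.bdd
      refine Integrable.of_bound (hu.meas.mul
        (Complex.continuous_conj.measurable.comp hl'.meas)).aestronglyMeasurable C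
        (Eventually.of_forall fun x => ?_)
      rw [norm_mul, RCLike.norm_conj, hl'.norm, mul_one]
      exact hC x
    have h3 : ∀ x, v j x * conj (eg ν S l x) = ((g j x : ℝ) : ℂ) * conj (eg ν S l x) -
        cex ν S (fun y => ((g j y : ℝ) : ℂ)) x * conj (eg ν S l x) := by
      intro x
      rw [hveq, sub_mul]
    simp only [h3]
    rw [integral_sub (hint _ (hBg j)) (hint _ (cex_BM (hBg j))), h2, sub_self]
  have hΦB : ∀ i, BM (fun x => ((Φ i x : ℝ) : ℂ)) := fun i =>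
    ⟨Complex.measurable_ofReal.comp (hΦm i), 1, fun x => by
      rw [Complex.norm_real, Real.norm_eq_abs, abs_of_nonneg (hΦ0 i x)]
      exact hΦ1 i x⟩
  -- the total error
  let F : ℕ → ℝ := fun n => ∑ i : ι, ∑ j : Fin k,
    ‖∫ x, v j (S^[n] x) * ((Φ i x : ℝ) : ℂ) ∂ν‖ ^ 2
  have hF : Tendsto (fun N : ℕ => (N : ℝ)⁻¹ * ∑ n ∈ Finset.range N, F n) atTop (𝓝 0) := by
    have h2 : ∀ N : ℕ, (N : ℝ)⁻¹ * ∑ n ∈ Finset.range N, F n =
        ∑ i : ι, ∑ j : Fin k, (N : ℝ)⁻¹ * ∑ n ∈ Finset.range N,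
          ‖∫ x, v j (S^[n] x) * ((Φ i x : ℝ) : ℂ) ∂ν‖ ^ 2 := by
      intro N
      simp only [F]
      rw [Finset.sum_comm, Finset.mul_sum]
      refine Finset.sum_congr rfl fun i _ => ?_
      rw [Finset.sum_comm, Finset.mul_sum]
    simp only [h2]
    have h3 : (0 : ℝ) = ∑ _i : ι, ∑ _j : Fin k, (0 : ℝ) := by simp
    rw [h3]
    refine tendsto_finsetSum _ fun i _ => tendsto_finsetSum _ fun j _ => ?_
    exact kvn hE (hv j) (hΦB i) (hfc j)
  obtain ⟨a, haL, ha⟩ := S1b_small hF (fun n => Finset.sum_nonneg fun i _ =>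
    Finset.sum_nonneg fun j _ => by positivity) (pow_pos hη 2) L
  refine ⟨a, haL, fun i j => ?_⟩
  have h2 : ‖∫ x, v j (S^[a] x) * ((Φ i x : ℝ) : ℂ) ∂ν‖ ^ 2 < η ^ 2 := by
    refine lt_of_le_of_lt ?_ ha
    have h3 : ∑ j : Fin k, ‖∫ x, v j (S^[a] x) * ((Φ i x : ℝ) : ℂ) ∂ν‖ ^ 2 ≤ F a :=
      Finset.single_le_sum (f := fun i : ι => ∑ j : Fin k,
        ‖∫ x, v j (S^[a] x) * ((Φ i x : ℝ) : ℂ) ∂ν‖ ^ 2)
        (fun i _ => Finset.sum_nonneg fun j _ => by positivity) (Finset.mem_univ i)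
    refine le_trans ?_ h3
    exact Finset.single_le_sum (f := fun j : Fin k =>
        ‖∫ x, v j (S^[a] x) * ((Φ i x : ℝ) : ℂ) ∂ν‖ ^ 2)
        (fun j _ => by positivity) (Finset.mem_univ j)
  have h3 : ‖∫ x, v j (S^[a] x) * ((Φ i x : ℝ) : ℂ) ∂ν‖ < η :=
    lt_of_pow_lt_pow_left₀ 2 hη.le h2
  have hSa : MeasurePreserving (S^[a]) ν ν := hS.iterate a
  have h4 : ∫ x, v j (S^[a] x) * ((Φ i x : ℝ) : ℂ) ∂ν =
      ((∫ x, (g j (S^[a] x) - Gf j (S^[a] x)) * Φ i x ∂ν : ℝ) : ℂ) := by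
    refine Eq.trans (integral_congr_ae (Eventually.of_forall fun x => ?_))
      integral_complex_ofReal
    show ((g j (S^[a] x) - Gf j (S^[a] x) : ℝ) : ℂ) * ((Φ i x : ℝ) : ℂ) = _
    rw [← Complex.ofReal_mul]
  rw [h4, Complex.norm_real, Real.norm_eq_abs] at h3
  have hint : ∀ u : X → ℝ, Measurable u → (∀ x, 0 ≤ u x) → (∀ x, u x ≤ 1) →
      Integrable (fun x => u (S^[a] x) * Φ i x) ν := by
    intro u hu hu0 hu1
    refine Integrable.of_bound ((hu.comp hSa.measurable).mul (hΦm i)).aestronglyMeasurable 1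
      (Eventually.of_forall fun x => ?_)
    rw [Real.norm_eq_abs, abs_mul, abs_of_nonneg (hu0 _), abs_of_nonneg (hΦ0 i x)]
    exact mul_le_one₀ (hu1 _) (hΦ0 i x) (hΦ1 i x)
  have h5 : ∫ x, (g j (S^[a] x) - Gf j (S^[a] x)) * Φ i x ∂ν =
      ∫ x, g j (S^[a] x) * Φ i x ∂ν - ∫ x, Gf j (S^[a] x) * Φ i x ∂ν := by
    rw [← integral_sub (hint _ (hm j) (h0 j) (h1 j)) (hint _ (hGm j) (hG0 j) (hG1 j))]
    refine integral_congr_ae (Eventually.of_forall fun x => ?_)
    show (g j (S^[a] x) - Gf j (S^[a] x)) * Φ i x = _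
    ring
  have h6 : ∫ x, Gf j (S^[a] x) * Φ i x ∂ν ≤ c * ∫ x, Φ i x ∂ν := by
    rw [← integral_const_mul]
    refine integral_mono_ae (hint _ (hGm j) (hG0 j) (hG1 j)) ?_ ?_
    · refine (Integrable.of_bound (hΦm i).aestronglyMeasurable 1
        (Eventually.of_forall fun x => ?_)).const_mul c
      rw [Real.norm_eq_abs, abs_of_nonneg (hΦ0 i x)]
      exact hΦ1 i x
    · have h7 : ∀ᵐ x ∂ν, Gf j (S^[a] x) ≤ c := hSa.quasiMeasurePreserving.ae (hg j)
      filter_upwards [h7] with x hx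
      exact mul_le_mul_of_nonneg_right hx (hΦ0 i x)
  have h7 : ∫ x, Φ i x * g j (S^[a] x) ∂ν = ∫ x, g j (S^[a] x) * Φ i x ∂ν :=
    integral_congr_ae (Eventually.of_forall fun x => mul_comm _ _)
  rw [h7]
  have h8 := (abs_lt.1 h3).2
  rw [h5] at h8
  linarith

/-- a sequence along which products of nonnegative functions with small conditional expectations
have small integrals -/
theorem indep_seq {S : X ≃ᵐ X} (hE : Ergodic S ν) {k : ℕ} (g : Fin k → X → ℝ)
    (hm : ∀ j, Measurable (g j)) (h0 : ∀ j x, 0 ≤ g j x) (h1 : ∀ j x, g j x ≤ 1) {c τ : ℝ}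
    (hc : 0 ≤ c) (hτ : 0 < τ)
    (hg : ∀ j, ∀ᵐ x ∂ν, ∫ s, g j s ∂(condExpKernel ν (Kr ν S) x) ≤ c) :
    ∃ a : ℕ → ℕ, StrictMono a ∧ 0 < a 0 ∧ ∀ (n : ℕ) (w : Fin n → Fin k),
      ∫ x, ∏ i : Fin n, g (w i) (S^[a i] x) ∂ν ≤ (c + τ) ^ n := by
  let Pr : ℕ → (ℕ → ℕ) → Prop := fun n a => ∀ w : Fin n → Fin k,
    ∫ x, ∏ i : Fin n, g (w i) (S^[a i] x) ∂ν ≤ (c + τ) ^ n
  have hcτ : 0 < c + τ := by linarith
  have hstep : ∀ n (a : ℕ → ℕ), Pr n a → ∃ m, ∑ i ∈ Finset.range n, a i < m ∧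
      Pr (n + 1) (Function.update a n m) := by
    intro n a ha
    let Φ : (Fin n → Fin k) → X → ℝ := fun w x => ∏ i : Fin n, g (w i) (S^[a i] x)
    have hΦm : ∀ w, Measurable (Φ w) := fun w =>
      Finset.measurable_prod _ fun i _ => (hm (w i)).comp (S.measurable.iterate (a i))
    have hΦ0 : ∀ w x, 0 ≤ Φ w x := fun w x => Finset.prod_nonneg fun i _ => h0 _ _
    have hΦ1 : ∀ w x, Φ w x ≤ 1 := fun w x =>
      Finset.prod_le_one (fun i _ => h0 _ _) (fun i _ => h1 _ _)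
    obtain ⟨m, hmL, hmb⟩ := S1b_step hE g hm h0 h1 hg Φ hΦm hΦ0 hΦ1
      (mul_pos hτ (pow_pos hcτ n)) (∑ i ∈ Finset.range n, a i)
    refine ⟨m, hmL, fun w => ?_⟩
    have e1 : ∀ x, ∏ i : Fin (n + 1), g (w i) (S^[Function.update a n m i] x) =
        Φ (fun i => w i.castSucc) x * g (w (Fin.last n)) (S^[m] x) := by
      intro x
      rw [Fin.prod_univ_castSucc]
      congr 1
      · refine Finset.prod_congr rfl fun i _ => ?_
        rw [Function.update_of_ne (by
          show (i.castSucc : ℕ) ≠ n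
          have := i.2
          rw [Fin.val_castSucc]
          omega)]
        rfl
      · have : ((Fin.last n : Fin (n + 1)) : ℕ) = n := Fin.val_last n
        rw [this, Function.update_self]
    simp only [e1]
    refine (hmb (fun i => w i.castSucc) (w (Fin.last n))).trans ?_
    have h2 := ha (fun i => w i.castSucc)
    have h3 := mul_le_mul_of_nonneg_left h2 hc
    calc c * ∫ x, Φ (fun i => w i.castSucc) x ∂ν + τ * (c + τ) ^ n
        ≤ c * (c + τ) ^ n + τ * (c + τ) ^ n := by linarith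
      _ = (c + τ) ^ (n + 1) := by ring
  have hbase : Pr 0 (fun _ => 0) := by
    intro w
    simp
  choose! m hm1 hm2 using hstep
  let A : ℕ → (ℕ → ℕ) := fun n => Nat.rec (fun _ => 0) (fun n a => Function.update a n (m n a)) n
  have hA0 : A 0 = fun _ => 0 := rfl
  have hAs : ∀ n, A (n + 1) = Function.update (A n) n (m n (A n)) := fun n => rfl
  have hPr : ∀ n, Pr n (A n) := by
    intro n
    induction n with
    | zero => exact hbase
    | succ n ih =>
      rw [hAs]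
      exact hm2 n (A n) ih
  let a : ℕ → ℕ := fun n => m n (A n)
  have hAa : ∀ n i, i < n → A n i = a i := by
    intro n
    induction n with
    | zero => intro i hi; omega
    | succ n ih =>
      intro i hi
      rw [hAs]
      by_cases h : i = n
      · rw [h, Function.update_self]
      · rw [Function.update_of_ne h]
        exact ih i (by omega)
  have hlt : ∀ n, ∑ i ∈ Finset.range n, A n i < a n := fun n => hm1 n (A n) (hPr n)
  refine ⟨a, strictMono_nat_of_lt_succ fun n => ?_, ?_, fun n w => ?_⟩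
  · refine lt_of_le_of_lt ?_ (hlt (n + 1))
    rw [← hAa (n + 1) n (by omega)]
    exact Finset.single_le_sum (f := A (n + 1)) (fun i _ => Nat.zero_le _)
      (Finset.mem_range.2 (by omega))
  · exact lt_of_le_of_lt (Nat.zero_le _) (hlt 0)
  · have h2 := hPr n w
    have e1 : ∀ x, ∏ i : Fin n, g (w i) (S^[A n i] x) = ∏ i : Fin n, g (w i) (S^[a i] x) := by
      intro x
      refine Finset.prod_congr rfl fun i _ => ?_
      rw [hAa n i i.2]
    simpa only [e1] using h2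

end seq

end Pool.Agent.Sar
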