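import Pool.Agent.Sar.S0
import Pool.Agent.Sar.S1
import Pool.Agent.Sar.S1b

/-! MP_13664e_an, module S2: bounded sequence entropy implies atoms in the conditional measures. -/

set_option autoImplicit false
set_option linter.unusedSectionVars false

namespace Pool.Agent.Sar

open MeasureTheory ProbabilityTheory Filter Topology
open scoped ENNReal ComplexConjugate

variable {X : Type*} [MetricSpace X] [CompactSpace X] [mX : MeasurableSpace X] [BorelSpace X]
  [Nonempty X] {ν : Measure X} [IsProbabilityMeasure ν]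

/-- the open sets of the cover -/
def S2_U {k : ℕ} (C : Fin k → Set X) (j : Fin k) : Set X := (⋃ i ∈ {i : Fin k | i ≠ j}, C i)ᶜ

/-- the complement of the compact sets -/
def S2_B {k : ℕ} (C : Fin k → Set X) : Set X := (⋃ j, C j)ᶜ

theorem S2_U_cases {k : ℕ} {C : Fin k → Set X} {j : Fin k} {x : X} (h : x ∈ S2_U C j)
    (hB : x ∉ S2_B C) : x ∈ C j := by
  unfold S2_B at hB
  rw [Set.notMem_compl_iff, Set.mem_iUnion] at hB
  obtain ⟨i, hi⟩ := hB
  by_cases hij : i = j
  · rw [← hij]; exact hi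
  · exact absurd (Set.mem_biUnion (show i ∈ {i : Fin k | i ≠ j} from hij) hi) h

theorem S2_cover {k : ℕ} {C : Fin k → Set X} (hk : 2 ≤ k)
    (hd : ∀ i j, i ≠ j → Disjoint (C i) (C j)) (x : X) : ∃ j, x ∈ S2_U C j := by
  by_cases h : ∃ j, x ∈ C j
  · obtain ⟨j, hj⟩ := h
    refine ⟨j, ?_⟩
    unfold S2_U
    simp only [Set.mem_compl_iff, Set.mem_iUnion, not_exists]
    intro i hij hi
    exact Set.disjoint_left.mp (hd i j hij) hi hj
  · refine ⟨⟨0, by omega⟩, ?_⟩
    unfold S2_U
    simp only [Set.mem_compl_iff, Set.mem_iUnion, not_exists]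
    intro i _ hi
    exact h ⟨i, hi⟩

theorem S2_mem {T : X → X} {k : ℕ} {C : Fin k → Set X} (hk : 2 ≤ k)
    (hd : ∀ i j, i ≠ j → Disjoint (C i) (C j)) (a : ℕ → ℕ) (n : ℕ) :
    ∃ W : Finset (Fin n → Fin k), W.card = covNum T a (S2_U C) n ∧
      ∀ x, ∃ w ∈ W, ∀ i : Fin n, T^[a i] x ∈ S2_U C (w i) := by
  have hne : {c | ∃ W : Finset (Fin n → Fin k), W.card = c ∧
    ∀ x, ∃ w ∈ W, ∀ i : Fin n, T^[a i] x ∈ S2_U C (w i)}.Nonempty := by
    refine ⟨_, Finset.univ, rfl, fun x => ?_⟩
    choose w hw using fun i : Fin n => S2_cover hk hd (T^[a i] x)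
    exact ⟨w, Finset.mem_univ _, hw⟩
  exact Nat.sInf_mem hne

/-- lower bound for the covering numbers -/
theorem cov_lower {T : X ≃ₜ X} (hT : MeasurePreserving T ν ν) {k : ℕ} (C : Fin k → Set X)
    (hk : 2 ≤ k) (hC : ∀ j, IsCompact (C j)) (hd : ∀ i j, i ≠ j → Disjoint (C i) (C j))
    {ε τ b : ℝ} (hτ : 0 < τ) (hτ1 : τ ≤ 1) (hb : 0 < b) (hε : 0 < ε) (hε1 : ε ≤ 1 / 16)
    (hν : 1 - ε ≤ (ν (⋃ j, C j)).toReal) (a : ℕ → ℕ)
    (ha : ∀ (n : ℕ) (w : Fin n → Fin k),
      ∫ x, ∏ i : Fin n, ((C (w i)).indicator (fun _ => (1 : ℝ)) (T^[a i] x) +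
        τ * ((⋃ j, C j)ᶜ).indicator (fun _ => (1 : ℝ)) (T^[a i] x)) ∂ν ≤ b ^ n) (n : ℕ) :
    (1 / 2 : ℝ) * (τ ^ (4 * ε) / b) ^ n ≤
      covNum T a (fun j : Fin k => (⋃ i ∈ {i : Fin k | i ≠ j}, C i)ᶜ) n := by
  classical
  obtain ⟨W, hWc, hW⟩ := S2_mem (T := T) hk hd a n
  have hcov : covNum T a (fun j : Fin k => (⋃ i ∈ {i : Fin k | i ≠ j}, C i)ᶜ) n = W.card := hWc.symm
  rw [hcov]
  have hCm : ∀ j, MeasurableSet (C j) := fun j => (hC j).measurableSet
  have hBm : MeasurableSet (S2_B C) := (MeasurableSet.iUnion hCm).compl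
  have hTm : ∀ i : ℕ, Measurable (T^[a i]) := fun i => T.measurable.iterate _
  set ib : X → ℝ := (S2_B C).indicator (fun _ => (1 : ℝ)) with hib
  have ib0 : ∀ x, 0 ≤ ib x := fun x => Set.indicator_nonneg (fun _ _ => zero_le_one) x
  have ib1 : ∀ x, ib x ≤ 1 := fun x => Set.indicator_le_self' (fun _ _ => zero_le_one) x
  have ibm : Measurable ib := measurable_const.indicator hBm
  have icm : ∀ j, Measurable ((C j).indicator (fun _ => (1 : ℝ))) := fun j =>
    measurable_const.indicator (hCm j)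
  set h : (Fin n → Fin k) → X → ℝ := fun w x => ∏ i : Fin n,
    ((C (w i)).indicator (fun _ => (1 : ℝ)) (T^[a i] x) + τ * ib (T^[a i] x)) with hh
  have hf0 : ∀ j x, 0 ≤ (C j).indicator (fun _ => (1 : ℝ)) x + τ * ib x := fun j x =>
    add_nonneg (Set.indicator_nonneg (fun _ _ => zero_le_one) x) (mul_nonneg hτ.le (ib0 x))
  have h0 : ∀ w x, 0 ≤ h w x := fun w x => Finset.prod_nonneg fun i _ => hf0 _ _
  have hm : ∀ w, Measurable (h w) := fun w =>
    Finset.measurable_fun_prod _ fun i _ =>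
      ((icm (w i)).comp (hTm i)).add ((ibm.comp (hTm i)).const_mul τ)
  have hf1 : ∀ j x, (C j).indicator (fun _ => (1 : ℝ)) x + τ * ib x ≤ 2 := by
    intro j x
    have h1 : (C j).indicator (fun _ => (1 : ℝ)) x ≤ 1 :=
      Set.indicator_le_self' (fun _ _ => zero_le_one) x
    have h2 : τ * ib x ≤ 1 := mul_le_one₀ hτ1 (ib0 x) (ib1 x)
    linarith
  have hi : ∀ w, Integrable (h w) ν := by
    intro w
    refine Integrable.of_bound (hm w).aestronglyMeasurable (2 ^ n) (ae_of_all _ fun x => ?_)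
    rw [Real.norm_of_nonneg (h0 w x)]
    refine (Finset.prod_le_prod (fun i _ => hf0 _ _) fun i _ => hf1 (w i) (T^[a i] x)).trans ?_
    simp
  -- the number of visits of the complement
  set V : X → ℝ := fun x => ∑ i : Fin n, ib (T^[a i] x) with hV
  have hVi : Integrable V ν := integrable_finsetSum _ fun i _ =>
    Integrable.of_bound (ibm.comp (hTm i)).aestronglyMeasurable 1 (ae_of_all _ fun x => by
      change ‖ib (T^[a i] x)‖ ≤ 1
      rw [Real.norm_of_nonneg (ib0 _)]; exact ib1 _)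
  have hBν : ∫ x, ib x ∂ν ≤ ε := by
    rw [hib, integral_indicator_const _ hBm]
    unfold S2_B
    rw [measureReal_compl (MeasurableSet.iUnion hCm), smul_eq_mul, mul_one, measureReal_def,
      measureReal_def, measure_univ]
    simp only [ENNReal.toReal_one]
    linarith
  have hVint : ∫ x, V x ∂ν ≤ n * ε := by
    have h1 : ∀ i : Fin n, ∫ x, ib (T^[a i] x) ∂ν = ∫ x, ib x ∂ν := by
      intro i
      have h2 := hT.iterate (a i)
      have h3 : ∫ x, ib x ∂(ν.map T^[a i]) = ∫ x, ib (T^[a i] x) ∂ν :=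
        integral_map (hTm i).aemeasurable ibm.aestronglyMeasurable
      rw [← h3, h2.map_eq]
    have h4 : ∫ x, V x ∂ν = ∑ i : Fin n, ∫ x, ib (T^[a i] x) ∂ν :=
      integral_finsetSum _ fun i _ =>
        Integrable.of_bound (ibm.comp (hTm i)).aestronglyMeasurable 1 (ae_of_all _ fun x => by
          change ‖ib (T^[a i] x)‖ ≤ 1
          rw [Real.norm_of_nonneg (ib0 _)]; exact ib1 _)
    rw [h4]
    simp only [h1]
    rw [Finset.sum_const, Finset.card_univ, Fintype.card_fin, nsmul_eq_mul]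
    exact mul_le_mul_of_nonneg_left hBν (Nat.cast_nonneg _)
  -- pointwise
  have hpt : ∀ x, τ ^ (V x) ≤ ∑ w ∈ W, h w x := by
    intro x
    obtain ⟨w, hw, hwx⟩ := hW x
    refine le_trans ?_ (Finset.single_le_sum (f := fun w => h w x) (fun w _ => h0 w x) hw)
    change τ ^ (∑ i : Fin n, ib (T^[a i] x)) ≤ _
    rw [Real.rpow_sum_of_pos hτ]
    refine Finset.prod_le_prod (fun i _ => (Real.rpow_pos_of_pos hτ _).le) fun i _ => ?_
    by_cases hB : T^[a i] x ∈ S2_B C
    · have e1 : ib (T^[a i] x) = 1 := Set.indicator_of_mem hB _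
      rw [e1, Real.rpow_one, mul_one]
      exact le_add_of_nonneg_left (Set.indicator_nonneg (fun _ _ => zero_le_one) _)
    · have e1 : ib (T^[a i] x) = 0 := Set.indicator_of_notMem hB _
      have e2 : (C (w i)).indicator (fun _ => (1 : ℝ)) (T^[a i] x) = 1 :=
        Set.indicator_of_mem (S2_U_cases (hwx i) hB) _
      rw [e1, e2, Real.rpow_zero, mul_zero, add_zero]
  have hsum : ∫ x, ∑ w ∈ W, h w x ∂ν ≤ W.card * b ^ n := by
    rw [integral_finsetSum _ fun w _ => hi w]
    refine (Finset.sum_le_sum fun w _ => ha n w).trans ?_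
    rw [Finset.sum_const, nsmul_eq_mul]
  have hbn : 0 < b ^ n := pow_pos hb n
  rcases Nat.eq_zero_or_pos n with hn | hn
  · subst hn
    simp only [pow_zero, mul_one] at *
    have h1 : 0 < W.card := by
      obtain ⟨w, hw, -⟩ := hW (Classical.arbitrary X)
      exact Finset.card_pos.mpr ⟨w, hw⟩
    have h2 : (1 : ℝ) ≤ W.card := by exact_mod_cast h1
    linarith
  · have hnR : (0 : ℝ) < n := by exact_mod_cast hn
    set q : ℝ := τ ^ (4 * ε * n) with hq
    have hq0 : 0 < q := Real.rpow_pos_of_pos hτ _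
    have hpt2 : ∀ x, q * (1 - V x / (4 * ε * n)) ≤ ∑ w ∈ W, h w x := by
      intro x
      refine le_trans ?_ (hpt x)
      by_cases hx : V x ≤ 4 * ε * n
      · have h1 : q ≤ τ ^ V x := Real.rpow_le_rpow_of_exponent_ge hτ hτ1 hx
        have hV0 : 0 ≤ V x := Finset.sum_nonneg fun i _ => ib0 _
        have h2 : q * (1 - V x / (4 * ε * n)) ≤ q * 1 := by
          refine mul_le_mul_of_nonneg_left ?_ hq0.le
          have h3 : 0 ≤ V x / (4 * ε * n) := by positivity
          linarith
        linarith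
      · push Not at hx
        have h1 : 1 < V x / (4 * ε * n) := by
          rw [one_lt_div (by positivity)]
          exact hx
        have h2 : q * (1 - V x / (4 * ε * n)) ≤ 0 :=
          mul_nonpos_of_nonneg_of_nonpos hq0.le (by linarith)
        exact h2.trans (Real.rpow_pos_of_pos hτ _).le
    have hint : ∫ x, q * (1 - V x / (4 * ε * n)) ∂ν ≤ W.card * b ^ n := by
      refine le_trans (integral_mono ?_ ?_ hpt2) hsum
      · exact ((integrable_const _).sub (hVi.div_const _)).const_mul _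
      · exact integrable_finsetSum _ fun w _ => hi w
    have hval : ∫ x, q * (1 - V x / (4 * ε * n)) ∂ν = q * (1 - (∫ x, V x ∂ν) / (4 * ε * n)) := by
      rw [integral_const_mul, integral_sub (integrable_const _) (hVi.div_const _),
        integral_const, integral_div]
      simp
    have h34 : q * (1 / 2) ≤ q * (1 - (∫ x, V x ∂ν) / (4 * ε * n)) := by
      refine mul_le_mul_of_nonneg_left ?_ hq0.le
      have h1 : (∫ x, V x ∂ν) / (4 * ε * n) ≤ 1 / 4 := by
        rw [div_le_iff₀ (by positivity)]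
        linarith
      linarith
    have hfin : q * (1 / 2) ≤ W.card * b ^ n := by linarith
    have hqq : (τ ^ (4 * ε)) ^ n = q := by
      rw [hq, ← Real.rpow_natCast, ← Real.rpow_mul hτ.le]
    rw [div_pow, hqq, ← mul_div_assoc, div_le_iff₀ hbn]
    linarith

theorem S2_limsup {u : ℕ → EReal} {c : ℝ} {M : ℝ}
    (h : ∀ n : ℕ, 1 ≤ n → (((c - Real.log 2 / n : ℝ)) : EReal) ≤ u n)
    (hM : limsup u atTop ≤ (M : EReal)) : c ≤ M := by
  have h1 : Tendsto (fun n : ℕ => (((c - Real.log 2 / n : ℝ)) : EReal)) atTop (𝓝 ((c : ℝ) : EReal)) := by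
    refine (continuous_coe_real_ereal.tendsto c).comp ?_
    have h2 : Tendsto (fun n : ℕ => Real.log 2 / (n : ℝ)) atTop (𝓝 0) :=
      tendsto_const_div_atTop_nhds_zero_nat _
    simpa using tendsto_const_nhds.sub h2
  have h3 : ((c : ℝ) : EReal) ≤ limsup u atTop := by
    rw [← h1.limsup_eq]
    exact limsup_le_limsup ((eventually_ge_atTop 1).mono h)
  exact_mod_cast h3.trans hM

theorem atom_pos {T : X ≃ₜ X} (hE : Ergodic T ν) (hB : BddSeqEnt T) :
    ∃ a : ℝ, 0 < a ∧ a ≤ 1 ∧
      ∀ᵐ x ∂ν, ENNReal.ofReal a ≤ condExpKernel ν (Kr ν T) x {x} := by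
  have hE' : Ergodic T.toMeasurableEquiv ν := hE
  obtain ⟨α, hα1, hα⟩ := atom_const hE'
  have hα' : ∀ᵐ x ∂ν, condExpKernel ν (Kr ν T) x {x} = α := hα
  rcases eq_or_ne α 0 with h0 | h0
  · exfalso
    subst h0
    obtain ⟨M, hM⟩ := hB
    -- choice of epsilon
    set ε : ℝ := min (1 / 16) (Real.exp (-(2 * (|M| + Real.log 3 + 1)))) with hεd
    have hε : 0 < ε := lt_min (by norm_num) (Real.exp_pos _)
    have hε16 : ε ≤ 1 / 16 := min_le_left _ _
    have hlog : Real.log ε ≤ -(2 * (|M| + Real.log 3 + 1)) := by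
      rw [Real.log_le_iff_le_exp hε]
      exact min_le_right _ _
    obtain ⟨k, C, hk, hC, hd, hν, hsm⟩ := small_sets hα' hε
    have hCm : ∀ j, MeasurableSet (C j) := fun j => (hC j).measurableSet
    have hBm : MeasurableSet (⋃ j, C j)ᶜ := (MeasurableSet.iUnion hCm).compl
    set g : Fin k → X → ℝ := fun j x => (C j).indicator (fun _ => (1 : ℝ)) x +
      ε * ((⋃ j, C j)ᶜ).indicator (fun _ => (1 : ℝ)) x with hg
    have hgm : ∀ j, Measurable (g j) := fun j =>
      (measurable_const.indicator (hCm j)).add ((measurable_const.indicator hBm).const_mul ε)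
    have hg0 : ∀ j x, 0 ≤ g j x := fun j x =>
      add_nonneg (Set.indicator_nonneg (fun _ _ => zero_le_one) x)
        (mul_nonneg hε.le (Set.indicator_nonneg (fun _ _ => zero_le_one) x))
    have hg1 : ∀ j x, g j x ≤ 1 := by
      intro j x
      by_cases hx : x ∈ C j
      · have h1 : x ∉ (⋃ j, C j)ᶜ := fun h => h (Set.mem_iUnion_of_mem j hx)
        simp only [hg]
        rw [Set.indicator_of_mem hx, Set.indicator_of_notMem h1, mul_zero, add_zero]
      · simp only [hg]
        rw [Set.indicator_of_notMem hx, zero_add]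
        exact mul_le_one₀ (by linarith) (Set.indicator_nonneg (fun _ _ => zero_le_one) x)
          (Set.indicator_le_self' (fun _ _ => zero_le_one) x)
    have hgc : ∀ j, ∀ᵐ x ∂ν, ∫ s, g j s ∂(condExpKernel ν (Kr ν T.toMeasurableEquiv) x) ≤ 2 * ε := by
      intro j
      filter_upwards [hsm j] with x hx
      change ∫ s, g j s ∂(condExpKernel ν (Kr ν T) x) ≤ 2 * ε
      have i1 : Integrable ((C j).indicator (fun _ => (1 : ℝ))) (condExpKernel ν (Kr ν T) x) :=
        (integrable_const _).indicator (hCm j)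
      have i2 : Integrable (((⋃ j, C j)ᶜ).indicator (fun _ => (1 : ℝ)))
          (condExpKernel ν (Kr ν T) x) := (integrable_const _).indicator hBm
      have e1 : ∫ s, g j s ∂(condExpKernel ν (Kr ν T) x) =
          (condExpKernel ν (Kr ν T) x).real (C j) +
            ε * (condExpKernel ν (Kr ν T) x).real (⋃ j, C j)ᶜ := by
        simp only [hg]
        rw [integral_add i1 (i2.const_mul ε), integral_const_mul, integral_indicator_const _ (hCm j),
          integral_indicator_const _ hBm, smul_eq_mul, smul_eq_mul, mul_one, mul_one]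
      rw [e1]
      have h2 : (condExpKernel ν (Kr ν T) x).real (⋃ j, C j)ᶜ ≤ 1 := measureReal_le_one
      have h3 : (condExpKernel ν (Kr ν T) x).real (C j) ≤ ε := hx
      nlinarith
    obtain ⟨a, ham, ha0, ha⟩ := indep_seq hE' g hgm hg0 hg1 (c := 2 * ε) (τ := ε) (by positivity)
      hε hgc
    have hcov := fun n => cov_lower (T := T) hE.toMeasurePreserving C hk hC hd (ε := ε) (τ := ε)
      (b := 3 * ε) hε (by linarith) (by positivity) hε hε16 hν a (fun n w => by
        have h1 := ha n w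
        have h2 : 2 * ε + ε = 3 * ε := by ring
        rw [h2] at h1
        exact h1) n
    have hM' := hM a ham ha0 k (fun j : Fin k => (⋃ i ∈ {i : Fin k | i ≠ j}, C i)ᶜ) (by
      intro j
      rw [isOpen_compl_iff]
      exact Set.Finite.isClosed_biUnion (Set.toFinite _) fun i _ => (hC i).isClosed) (by
      rw [Set.eq_univ_iff_forall]
      intro x
      obtain ⟨j, hj⟩ := S2_cover hk hd x
      exact Set.mem_iUnion_of_mem j hj)
    set r : ℝ := ε ^ (4 * ε) / (3 * ε) with hr
    have hr0 : 0 < r := by positivity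
    have hkey : Real.log r ≤ M := by
      refine S2_limsup (fun n hn => ?_) hM'
      have hnR : (0 : ℝ) < n := by exact_mod_cast hn
      have h1 := hcov n
      have h2 : 0 < (1 / 2 : ℝ) * r ^ n := by positivity
      have h3 := Real.log_le_log h2 h1
      rw [Real.log_mul (by norm_num) (by positivity), Real.log_pow, one_div, Real.log_inv] at h3
      have h4 : Real.log r - Real.log 2 / n ≤
          Real.log (covNum T a (fun j : Fin k => (⋃ i ∈ {i : Fin k | i ≠ j}, C i)ᶜ) n) / n := by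
        rw [le_div_iff₀ hnR, sub_mul, div_mul_cancel₀ _ hnR.ne']
        linarith
      exact_mod_cast h4
    have hlr : Real.log r = 4 * ε * Real.log ε - (Real.log 3 + Real.log ε) := by
      rw [hr, Real.log_div (by positivity) (by positivity), Real.log_rpow hε,
        Real.log_mul (by norm_num) hε.ne']
    have hlog0 : Real.log ε ≤ 0 := Real.log_nonpos hε.le (by linarith)
    have h5 : M ≤ |M| := le_abs_self M
    have h6 : 4 * ε * Real.log ε ≥ (1 / 4) * Real.log ε := by nlinarith
    have h7 : 0 ≤ Real.log 3 := Real.log_nonneg (by norm_num)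
    have h8 : 0 ≤ |M| := abs_nonneg M
    rw [hlr] at hkey
    linarith
  · have hαt : α ≠ ⊤ := ne_top_of_le_ne_top ENNReal.one_ne_top hα1
    refine ⟨α.toReal, ENNReal.toReal_pos h0 hαt, ?_, ?_⟩
    · have := ENNReal.toReal_mono ENNReal.one_ne_top hα1
      simpa using this
    · filter_upwards [hα'] with x hx
      rw [hx, ENNReal.ofReal_toReal hαt]

end Pool.Agent.Sar
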