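import Pool.Agent.Sar.K2c

/-! MP_13664e_an, module S3: labels. -/

set_option autoImplicit false
set_option linter.unusedSectionVars false

namespace Pool.Agent.Sar

open MeasureTheory ProbabilityTheory Filter Topology
open scoped ENNReal ComplexConjugate

variable {X : Type*} [mX : MeasurableSpace X] [StandardBorelSpace X] [Nonempty X]
  {ν : Measure X} [IsProbabilityMeasure ν] {T : X → X}

theorem S3_ae {P : X → Prop} (h : ∀ᵐ x ∂ν, P x) :
    ∀ᵐ x ∂ν, ∀ᵐ s ∂(condExpKernel ν (Kr ν T) x), P s := by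
  have h1 : ∀ᵐ x ∂(condExpKernel ν (Kr ν T) ∘ₘ ν.trim (Kr_le (ν := ν) (T := T))), P x := by
    rw [condExpKernel_comp_trim]
    exact h
  exact ae_of_ae_trim (Kr_le (ν := ν) (T := T)) (Measure.ae_ae_of_ae_comp h1)

/-- the distribution function of the conditional measure at the point -/
noncomputable def S3_F (ν : Measure X) [IsProbabilityMeasure ν] (T : X → X) (x : X) : ℝ :=
  (condExpKernel ν (Kr ν T) x {s | embeddingReal X s ≤ embeddingReal X x}).toReal

theorem S3_F_meas : Measurable (S3_F ν T) := by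
  have hι := (measurableEmbedding_embeddingReal X).measurable
  let η : Kernel X X := (condExpKernel ν (Kr ν T)).comap id (measurable_id'' Kr_le)
  have ht : MeasurableSet {z : X × X | embeddingReal X z.2 ≤ embeddingReal X z.1} :=
    measurableSet_le (hι.comp measurable_snd) (hι.comp measurable_fst)
  have h1 := Kernel.measurable_kernel_prodMk_left (κ := η) ht
  exact h1.ennreal_toReal

theorem S3_F_le (x : X) : S3_F ν T x ≤ 1 := by
  unfold S3_F
  exact ENNReal.toReal_mono ENNReal.one_ne_top prob_le_one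

theorem S3_F_nonneg (x : X) : 0 ≤ S3_F ν T x := ENNReal.toReal_nonneg

theorem S3_jump {a : ℝ} {x s : X} (hκ : condExpKernel ν (Kr ν T) s = condExpKernel ν (Kr ν T) x)
    (hlt : embeddingReal X s < embeddingReal X x)
    (hx : ENNReal.ofReal a ≤ condExpKernel ν (Kr ν T) x {x}) :
    S3_F ν T s + a ≤ S3_F ν T x := by
  unfold S3_F
  rw [hκ]
  have h1 : Disjoint {y : X | embeddingReal X y ≤ embeddingReal X s} {x} := by
    rw [Set.disjoint_singleton_right]
    intro h
    exact absurd hlt (not_lt.2 h)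
  have h2 : {y : X | embeddingReal X y ≤ embeddingReal X s} ∪ {x} ⊆
      {y | embeddingReal X y ≤ embeddingReal X x} := by
    rintro y (hy | hy)
    · have hy' : embeddingReal X y ≤ embeddingReal X s := hy
      exact hy'.trans hlt.le
    · rw [Set.mem_singleton_iff] at hy
      rw [hy]
      exact le_refl (embeddingReal X x)
  have h3 := measure_mono (μ := condExpKernel ν (Kr ν T) x) h2
  rw [measure_union h1 (measurableSet_singleton x)] at h3
  have h4 : condExpKernel ν (Kr ν T) x {y : X | embeddingReal X y ≤ embeddingReal X s} +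
      ENNReal.ofReal a ≤ condExpKernel ν (Kr ν T) x
        {y | embeddingReal X y ≤ embeddingReal X x} := le_trans (by gcongr) h3
  have h5 := ENNReal.toReal_mono (measure_ne_top _ _) h4
  rw [ENNReal.toReal_add (measure_ne_top _ _) ENNReal.ofReal_ne_top] at h5
  have h6 : a ≤ (ENNReal.ofReal a).toReal := by
    rw [ENNReal.toReal_ofReal']
    exact le_max_left _ _
  linarith

theorem label {a : ℝ} (ha : 0 < a) (ha1 : a ≤ 1)
    (h : ∀ᵐ x ∂ν, ENNReal.ofReal a ≤ condExpKernel ν (Kr ν T) x {x}) :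
    ∃ (m : ℕ) (ℓ : X → Fin m), Lab ν T m a ℓ := by
  obtain ⟨k, hk⟩ : ∃ k : ℕ, k = ⌊1 / a⌋₊ := ⟨_, rfl⟩
  let g : ℕ → Fin (k + 1) := fun n => ⟨min n k, by omega⟩
  have hfl : ∀ x, ⌊S3_F ν T x / a⌋₊ ≤ k := by
    intro x
    rw [hk]
    apply Nat.floor_le_floor
    exact div_le_div_of_nonneg_right (S3_F_le x) ha.le
  have hg : ∀ x y, g ⌊S3_F ν T x / a⌋₊ = g ⌊S3_F ν T y / a⌋₊ →
      ⌊S3_F ν T x / a⌋₊ = ⌊S3_F ν T y / a⌋₊ := by
    intro x y hxy
    have h1 := congrArg Fin.val hxy
    have h2 : min ⌊S3_F ν T x / a⌋₊ k = min ⌊S3_F ν T y / a⌋₊ k := h1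
    rwa [min_eq_left (hfl x), min_eq_left (hfl y)] at h2
  have hjump : ∀ x y, S3_F ν T x + a ≤ S3_F ν T y →
      ⌊S3_F ν T x / a⌋₊ ≠ ⌊S3_F ν T y / a⌋₊ := by
    intro x y hxy
    have h1 : S3_F ν T x / a + 1 ≤ S3_F ν T y / a := by
      rw [div_add_one ha.ne', div_le_div_iff_of_pos_right ha]
      exact hxy
    have h2 : ⌊S3_F ν T x / a + 1⌋₊ ≤ ⌊S3_F ν T y / a⌋₊ := Nat.floor_le_floor h1
    rw [Nat.floor_add_one (div_nonneg (S3_F_nonneg x) ha.le)] at h2
    omega
  refine ⟨k + 1, fun x => g ⌊S3_F ν T x / a⌋₊, ⟨?_, ha, ha1, h, ?_⟩⟩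
  · exact (measurable_of_countable g).comp (Nat.measurable_floor.comp (S3_F_meas.div_const a))
  · filter_upwards [h, S3_ae (T := T) h, kap_fib (ν := ν) (T := T)] with x hx hs hκ
    have h1 : ∀ᵐ s ∂(condExpKernel ν (Kr ν T) x),
        ¬ (g ⌊S3_F ν T s / a⌋₊ = g ⌊S3_F ν T x / a⌋₊ ∧ s ≠ x) := by
      filter_upwards [hs, hκ] with s hs1 hs2
      rintro ⟨h2, h3⟩
      have h4 := hg _ _ h2
      rcases lt_trichotomy (embeddingReal X s) (embeddingReal X x) with h5 | h5 | h5
      · exact hjump _ _ (S3_jump hs2 h5 hx) h4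
      · exact h3 ((measurableEmbedding_embeddingReal X).injective h5)
      · exact hjump _ _ (S3_jump hs2.symm h5 hs1) h4.symm
    rw [ae_iff] at h1
    simpa using h1

end Pool.Agent.Sar
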