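import Pool.Agent.Sar.Defs

/-! MP_13664e_an, module E0: limits of empirical measures. -/

set_option autoImplicit false

namespace Pool.Agent.Sar

open MeasureTheory ProbabilityTheory Filter Topology
open scoped ENNReal ComplexConjugate

variable {X : Type*} [MetricSpace X] [CompactSpace X] [mX : MeasurableSpace X] [BorelSpace X]
  [Nonempty X] {ν : Measure X} [IsProbabilityMeasure ν]

private noncomputable def E0_emp (z : ℕ → X × X) (N : ℕ) : Measure (X × X) :=
  ((N + 1 : ℕ) : ℝ≥0∞)⁻¹ • ∑ n ∈ Finset.Icc 1 (N + 1), Measure.dirac (z n)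

private theorem E0_prob (z : ℕ → X × X) (N : ℕ) : IsProbabilityMeasure (E0_emp z N) := by
  constructor
  unfold E0_emp
  simp only [Measure.smul_apply, Measure.finsetSum_apply, smul_eq_mul]
  simp only [Measure.dirac_apply_of_mem (Set.mem_univ _), Finset.sum_const, Nat.card_Icc,
    nsmul_eq_mul, mul_one, Nat.add_sub_cancel]
  exact ENNReal.inv_mul_cancel (by simp) (ENNReal.natCast_ne_top _)

private theorem E0_int (z : ℕ → X × X) (N : ℕ) (g : C(X × X, ℂ)) :
    ∫ w, g w ∂(E0_emp z N) = ((N + 1 : ℕ) : ℂ)⁻¹ * ∑ n ∈ Finset.Icc 1 (N + 1), g (z n) := by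
  unfold E0_emp
  rw [integral_smul_measure, integral_finsetSum_measure]
  · simp only [integral_dirac]
    rw [ENNReal.toReal_inv, ENNReal.toReal_natCast, Complex.real_smul]
    push_cast
    rfl
  · intro n _
    exact integrable_dirac (by simp)

/-- positive functionals on `C(X × X)` given by limits along an ultrafilter -/
theorem emp_measure (T : X ≃ₜ X) (x : X) (p₀ p : ℕ) (U : Ultrafilter ℕ) (hU : (U : Filter ℕ) ≤ atTop) :
    ∃ ρ : Measure (X × X), IsProbabilityMeasure ρ ∧ ∀ g : C(X × X, ℂ),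
      Tendsto (fun N : ℕ => (N : ℂ)⁻¹ * ∑ n ∈ Finset.Icc 1 N,
        g ((⇑T)^[p₀ * n] x, (⇑T)^[p * n] x)) U (𝓝 (∫ z, g z ∂ρ)) := by
  set z : ℕ → X × X := fun n => ((⇑T)^[p₀ * n] x, (⇑T)^[p * n] x) with hz
  let P : ℕ → ProbabilityMeasure (X × X) := fun N => ⟨E0_emp z (N - 1), E0_prob z (N - 1)⟩
  obtain ⟨ρ, -, hρ⟩ := (isCompact_univ (X := ProbabilityMeasure (X × X))).ultrafilter_le_nhds
    (U.map P) (by simp)
  have hT : Tendsto P (U : Filter ℕ) (𝓝 ρ) := hρ
  refine ⟨ρ, inferInstance, fun g => ?_⟩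
  rw [ProbabilityMeasure.tendsto_iff_forall_integral_rclike_tendsto ℂ] at hT
  have h1 := hT (BoundedContinuousFunction.mkOfCompact g)
  simp only [BoundedContinuousFunction.mkOfCompact_apply] at h1
  refine h1.congr' ?_
  have h2 : ∀ᶠ N : ℕ in (U : Filter ℕ), 1 ≤ N := hU (eventually_ge_atTop 1)
  filter_upwards [h2] with N hN
  have h3 : N - 1 + 1 = N := by omega
  have h4 := E0_int z (N - 1) g
  rw [h3] at h4
  exact h4

end Pool.Agent.Sar
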