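import Pool.Agent.Sar.E1

/-! MP_13664e_an: in a uniquely ergodic system every point is generic. -/

set_option autoImplicit false

namespace Pool.Agent.Sar

open MeasureTheory ProbabilityTheory Filter Topology
open scoped ENNReal ComplexConjugate

variable {X : Type*} [MetricSpace X] [CompactSpace X] [mX : MeasurableSpace X] [BorelSpace X]
  {ν : Measure X} [IsProbabilityMeasure ν]

private theorem UE_ext {μ κ : Measure X} [IsFiniteMeasure μ]
    [IsFiniteMeasure κ] (h : ∀ g : C(X, ℂ), ∫ y, g y ∂μ = ∫ y, g y ∂κ) : μ = κ := by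
  refine ext_of_forall_integral_eq_of_IsFiniteMeasure fun f => ?_
  have h1 := h ⟨fun y => ((f y : ℝ) : ℂ), Complex.continuous_ofReal.comp f.continuous⟩
  simp only [ContinuousMap.coe_mk] at h1
  rw [integral_complex_ofReal, integral_complex_ofReal] at h1
  exact_mod_cast h1

private theorem UE_small (g : C(X, ℂ)) (y : ℕ → X) (z : X) :
    Tendsto (fun N : ℕ => (N : ℂ)⁻¹ * (g (y N) - g z)) atTop (𝓝 0) := by
  have h0 : Tendsto (fun N : ℕ => ((N : ℝ))⁻¹ * (2 * ‖g‖)) atTop (𝓝 (0 * (2 * ‖g‖))) :=
    tendsto_inv_atTop_nhds_zero_nat.mul_const _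
  rw [zero_mul] at h0
  refine squeeze_zero_norm (fun N => ?_) h0
  rw [norm_mul, norm_inv, Complex.norm_natCast]
  refine mul_le_mul_of_nonneg_left ?_ (by positivity)
  refine (norm_sub_le _ _).trans ?_
  have h1 := g.norm_coe_le_norm (y N)
  have h2 := g.norm_coe_le_norm z
  linarith

theorem ue_generic (T : X ≃ₜ X)
    (hU : ∀ m : Measure X, IsProbabilityMeasure m → m.map T = m → m = ν) (x : X) :
    Generic ν T x := by
  have : Nonempty X := ⟨x⟩
  intro g
  -- convergence of the sums over `Icc 1 N`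
  have key : Tendsto (fun N : ℕ => (N : ℂ)⁻¹ * ∑ n ∈ Finset.Icc 1 N, g ((⇑T)^[n] x)) atTop
      (𝓝 (∫ y, g y ∂ν)) := by
    rw [tendsto_iff_ultrafilter]
    intro U hUle
    obtain ⟨ρ, hρ, hlim⟩ := emp_measure T x 1 1 U hUle
    set m : Measure X := ρ.map Prod.fst with hm
    have hmp : IsProbabilityMeasure m := Measure.isProbabilityMeasure_map measurable_fst.aemeasurable
    have hconv : ∀ f : C(X, ℂ), Tendsto (fun N : ℕ => (N : ℂ)⁻¹ * ∑ n ∈ Finset.Icc 1 N,
        f ((⇑T)^[n] x)) U (𝓝 (∫ y, f y ∂m)) := by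
      intro f
      have h1 := hlim (f.comp ⟨Prod.fst, continuous_fst⟩)
      simp only [ContinuousMap.comp_apply, ContinuousMap.coe_mk, one_mul] at h1
      have h2 : ∫ y, f y ∂m = ∫ z : X × X, f z.1 ∂ρ := by
        rw [hm, integral_map measurable_fst.aemeasurable
          f.continuous.measurable.aestronglyMeasurable]
      rw [h2]
      exact h1
    have hinv : m.map T = m := by
      have hmT : IsProbabilityMeasure (m.map T) :=
        Measure.isProbabilityMeasure_map T.continuous.measurable.aemeasurable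
      refine UE_ext fun f => ?_
      rw [integral_map T.continuous.measurable.aemeasurable
        f.continuous.measurable.aestronglyMeasurable]
      have h1 := hconv (f.comp ⟨T, T.continuous⟩)
      simp only [ContinuousMap.comp_apply, ContinuousMap.coe_mk] at h1
      have h2 := hconv f
      have h3 : Tendsto (fun N : ℕ => (N : ℂ)⁻¹ * ∑ n ∈ Finset.Icc 1 N, f ((⇑T)^[n] x) +
          (N : ℂ)⁻¹ * (f ((⇑T)^[N + 1] x) - f (T x))) U (𝓝 (∫ y, f y ∂m + 0)) :=
        h2.add ((UE_small f (fun N => (⇑T)^[N + 1] x) (T x)).mono_left hUle)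
      rw [add_zero] at h3
      refine tendsto_nhds_unique h1 (h3.congr fun N => ?_)
      rw [← mul_add]
      congr 1
      have h4 : ∀ N : ℕ, ∑ n ∈ Finset.Icc 1 N, f ((⇑T)^[n] x) +
          (f ((⇑T)^[N + 1] x) - f (T x)) = ∑ n ∈ Finset.Icc 1 N, f (T ((⇑T)^[n] x)) := by
        intro N
        induction N with
        | zero => simp
        | succ N ih =>
          rw [Finset.sum_Icc_succ_top (by omega), Finset.sum_Icc_succ_top (by omega), ← ih,
            ← Function.iterate_succ_apply' (⇑T) (N + 1) x]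
          ring
      exact h4 N
    rw [← hU m hmp hinv]
    exact hconv g
  -- the sums over `range N`
  have h5 := (UE_small g (fun N => (⇑T)^[N] x) x)
  have h6 := key.sub h5
  rw [sub_zero] at h6
  refine h6.congr fun N => ?_
  rw [← mul_sub]
  congr 1
  have h7 : ∀ N : ℕ, ∑ n ∈ Finset.Icc 1 N, g ((⇑T)^[n] x) - (g ((⇑T)^[N] x) - g x) =
      ∑ n ∈ Finset.range N, g ((⇑T)^[n] x) := by
    intro N
    induction N with
    | zero => simp
    | succ N ih =>
      rw [Finset.sum_Icc_succ_top (by omega), Finset.sum_range_succ, ← ih]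
      ring
  exact h7 N

end Pool.Agent.Sar
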