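import Pool.Agent.Sar.K2

/-! MP_13664e_an, module K2b: conditional expectation on `Kr` and the conditional measures. -/

set_option autoImplicit false
set_option linter.unusedSectionVars false

namespace Pool.Agent.Sar

open MeasureTheory ProbabilityTheory Filter Topology
open scoped ENNReal ComplexConjugate

variable {X : Type*} [mX : MeasurableSpace X] [StandardBorelSpace X] [Nonempty X]
  {ν : Measure X} [IsProbabilityMeasure ν] {T : X → X}

omit [StandardBorelSpace X] [Nonempty X] in
theorem K2b_int {κ : Measure X} [IsFiniteMeasure κ] {v : X → ℂ} (hv : BM v) : Integrable v κ := by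
  obtain ⟨C, hC⟩ := hv.bdd
  exact Integrable.of_bound hv.meas.aestronglyMeasurable C (ae_of_all _ hC)

omit [StandardBorelSpace X] [Nonempty X] in
theorem K2b_mul {v w : X → ℂ} (hv : BM v) (hw : BM w) : BM (fun x => v x * w x) := by
  obtain ⟨C, hC⟩ := hv.bdd
  obtain ⟨D, hD⟩ := hw.bdd
  refine ⟨hv.meas.mul hw.meas, C * D, fun x => ?_⟩
  rw [norm_mul]
  exact mul_le_mul (hC x) (hD x) (norm_nonneg _) ((norm_nonneg _).trans (hC x))

omit [StandardBorelSpace X] [Nonempty X] in
theorem K2b_conj {v : X → ℂ} (hv : BM v) : BM (fun x => conj (v x)) := by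
  obtain ⟨C, hC⟩ := hv.bdd
  refine ⟨Complex.continuous_conj.measurable.comp hv.meas, C, fun x => ?_⟩
  rw [RCLike.norm_conj]
  exact hC x

omit [StandardBorelSpace X] [Nonempty X] in
theorem K2b_sub {v w : X → ℂ} (hv : BM v) (hw : BM w) : BM (fun x => v x - w x) := by
  obtain ⟨C, hC⟩ := hv.bdd
  obtain ⟨D, hD⟩ := hw.bdd
  exact ⟨hv.meas.sub hw.meas, C + D, fun x => (norm_sub_le _ _).trans (add_le_add (hC x) (hD x))⟩

omit [StandardBorelSpace X] [Nonempty X] in
theorem K2b_Kr_BM {w : X → ℂ} (hw : Measurable[Kr ν T] w) (hb : ∃ C : ℝ, ∀ x, ‖w x‖ ≤ C) :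
    BM w := ⟨hw.mono Kr_le le_rfl, hb⟩

theorem cex_Kr {v : X → ℂ} (hv : BM v) : Measurable[Kr ν T] (cex ν T v) := by
  have h := (hv.meas.stronglyMeasurable.integral_condExpKernel (μ := ν) (m := Kr ν T))
  exact h.measurable

theorem K2b_norm {v : X → ℂ} {C : ℝ} (hC : ∀ x, ‖v x‖ ≤ C) (x : X) : ‖cex ν T v x‖ ≤ C := by
  unfold cex
  have h := norm_integral_le_of_norm_le_const (μ := condExpKernel ν (Kr ν T) x) (f := v) (C := C)
    (ae_of_all _ hC)
  simpa using h

theorem cex_BM {v : X → ℂ} (hv : BM v) : BM (cex ν T v) := by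
  obtain ⟨C, hC⟩ := hv.bdd
  exact ⟨(cex_Kr hv).mono Kr_le le_rfl, C, K2b_norm hC⟩

theorem cex_B1 {v : X → ℂ} (hv : B1 v) : B1 (cex ν T v) :=
  ⟨(cex_Kr ⟨hv.meas, 1, hv.bdd⟩).mono Kr_le le_rfl, K2b_norm hv.bdd⟩

theorem K2b_condExp {v : X → ℂ} (hv : BM v) : ν[v | Kr ν T] =ᵐ[ν] cex ν T v :=
  condExp_ae_eq_integral_condExpKernel Kr_le (K2b_int hv)

/-- `∫ E(v|Kr) w = ∫ v w` for `Kr`-measurable `w` -/
theorem cex_int {v w : X → ℂ} (hv : BM v) (hw : Measurable[Kr ν T] w)
    (hb : ∃ C : ℝ, ∀ x, ‖w x‖ ≤ C) : ∫ x, cex ν T v x * w x ∂ν = ∫ x, v x * w x ∂ν := by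
  have hwB := K2b_Kr_BM hw hb
  have h1 : ν[fun x => v x * w x | Kr ν T] =ᵐ[ν] fun x => (ν[v | Kr ν T]) x * w x :=
    condExp_bilin_of_stronglyMeasurable_right (ContinuousLinearMap.mul ℝ ℂ)
      hw.stronglyMeasurable (K2b_int (K2b_mul hv hwB)) (K2b_int hv)
  have h2 : (fun x => (ν[v | Kr ν T]) x * w x) =ᵐ[ν] fun x => cex ν T v x * w x := by
    filter_upwards [K2b_condExp (T := T) hv] with x hx
    rw [hx]
  rw [← integral_congr_ae (h1.trans h2), integral_condExp Kr_le]

theorem cex_self {w : X → ℂ} (hw : Measurable[Kr ν T] w) (hb : ∃ C : ℝ, ∀ x, ‖w x‖ ≤ C) :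
    ∀ᵐ x ∂ν, cex ν T w x = w x := by
  have hwB := K2b_Kr_BM hw hb
  have h := K2b_condExp (ν := ν) (T := T) hwB
  rw [condExp_of_stronglyMeasurable Kr_le hw.stronglyMeasurable (K2b_int hwB)] at h
  filter_upwards [h] with x hx
  exact hx.symm

omit [StandardBorelSpace X] [Nonempty X] in
theorem K2b_zero {d : X → ℂ} (hd : BM d) (h : ∫ x, d x * conj (d x) ∂ν = 0) :
    ∀ᵐ x ∂ν, d x = 0 := by
  have h1 : ∫ x, ‖d x‖ ^ 2 ∂ν = 0 := by
    have h2 : ∀ x, d x * conj (d x) = ((‖d x‖ ^ 2 : ℝ) : ℂ) := fun x => by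
      rw [Complex.mul_conj, Complex.normSq_eq_norm_sq]
    simp only [h2] at h
    rw [integral_complex_ofReal] at h
    exact_mod_cast h
  have h3 : Integrable (fun x => ‖d x‖ ^ 2) ν := by
    obtain ⟨C, hC⟩ := hd.bdd
    refine Integrable.of_bound (hd.meas.norm.pow_const 2).aestronglyMeasurable (C ^ 2)
      (ae_of_all _ fun x => ?_)
    rw [norm_pow, norm_norm]
    exact pow_le_pow_left₀ (norm_nonneg _) (hC x) 2
  rw [integral_eq_zero_iff_of_nonneg (fun x => by positivity) h3] at h1
  filter_upwards [h1] with x hx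
  have hx' : ‖d x‖ ^ 2 = 0 := hx
  exact norm_eq_zero.mp (pow_eq_zero_iff (two_ne_zero) |>.mp hx')

/-- uniqueness: a `Kr`-measurable bounded `u` with `∫ u w = ∫ v w` for all `Kr`-measurable bounded
`w` is `E(v|Kr)` -/
theorem cex_unique {u v : X → ℂ} (hv : BM v) (hu : Measurable[Kr ν T] u)
    (hb : ∃ C : ℝ, ∀ x, ‖u x‖ ≤ C)
    (h : ∀ w : X → ℂ, Measurable[Kr ν T] w → (∃ C : ℝ, ∀ x, ‖w x‖ ≤ C) →
      ∫ x, u x * w x ∂ν = ∫ x, v x * w x ∂ν) : ∀ᵐ x ∂ν, cex ν T v x = u x := by
  have huB := K2b_Kr_BM hu hb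
  have hdK : Measurable[Kr ν T] (fun x => cex ν T v x - u x) := (cex_Kr hv).sub hu
  have hdB : BM (fun x => cex ν T v x - u x) := K2b_sub (cex_BM hv) huB
  have hwK : Measurable[Kr ν T] (fun x => conj (cex ν T v x - u x)) :=
    Complex.continuous_conj.measurable.comp hdK
  have hwB := K2b_conj hdB
  have h1 : ∫ x, (cex ν T v x - u x) * conj (cex ν T v x - u x) ∂ν = 0 := by
    have h2 : ∀ x, (cex ν T v x - u x) * conj (cex ν T v x - u x) =
        cex ν T v x * conj (cex ν T v x - u x) - u x * conj (cex ν T v x - u x) := fun x => by ring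
    simp only [h2]
    rw [integral_sub (K2b_int (K2b_mul (cex_BM hv) hwB)) (K2b_int (K2b_mul huB hwB)),
      cex_int hv hwK hwB.bdd, h _ hwK hwB.bdd, sub_self]
  filter_upwards [K2b_zero hdB h1] with x hx
  exact sub_eq_zero.mp hx

theorem cex_conj {v : X → ℂ} (x : X) :
    cex ν T (fun y => conj (v y)) x = conj (cex ν T v x) := by
  unfold cex
  exact integral_conj

theorem cex_sub {v w : X → ℂ} (hv : BM v) (hw : BM w) (x : X) :
    cex ν T (fun y => v y - w y) x = cex ν T v x - cex ν T w x := by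
  unfold cex
  exact integral_sub (K2b_int hv) (K2b_int hw)

omit [StandardBorelSpace X] [Nonempty X] in
theorem K2b_eg_BM (l : ℂ) : BM (eg ν T l) := ⟨eg_meas l, 1, fun x => (eg_norm l x).le⟩

/-- the Fourier coefficients of `v` and of `E(v|Kr)` agree -/
theorem fc_cex (hT : MeasurePreserving T ν ν) {v : X → ℂ} (hv : BM v) {l : ℂ} (h : l ∈ EV ν T) :
    fc ν T (cex ν T v) l = fc ν T v l := by
  unfold fc
  exact cex_int hv (Complex.continuous_conj.measurable.comp (eg_Kr hT h))
    (K2b_conj (K2b_eg_BM l)).bdd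

/-- `v` is orthogonal to all eigenfunctions iff `E(v|Kr) = 0` -/
theorem Kr_orth (hE : Ergodic T ν) {v : X → ℂ} (hv : BM v) :
    (∀ l ∈ EV ν T, fc ν T v l = 0) ↔ ∀ᵐ x ∂ν, cex ν T v x = 0 := by
  constructor
  · intro h
    refine cex_unique (u := fun _ => 0) hv measurable_const ⟨0, fun x => by simp⟩ ?_
    intro w hw hb
    simp only [zero_mul, integral_zero]
    symm
    have hwB := K2b_Kr_BM hw hb
    obtain ⟨C, hC⟩ := hv.bdd
    have hC0 : 0 ≤ C := (norm_nonneg _).trans (hC (Classical.arbitrary X))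
    have hwcK : Measurable[Kr ν T] (fun x => conj (w x)) :=
      Complex.continuous_conj.measurable.comp hw
    have key : ∀ δ : ℝ, 0 < δ → ‖∫ x, v x * w x ∂ν‖ ≤ C * δ := by
      intro δ hδ
      obtain ⟨L, hL, hL'⟩ := Kr_dense hE hwcK (K2b_conj hwB).bdd (ε := δ ^ 2) (by positivity)
      have h2 := hL' L subset_rfl hL
      set t : X → ℂ := fun x => ∑ l ∈ L, fc ν T (fun x => conj (w x)) l * eg ν T l x with ht
      have htB : BM t := by
        refine ⟨?_, ∑ l ∈ L, ‖fc ν T (fun x => conj (w x)) l‖, fun x => ?_⟩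
        · exact Finset.measurable_fun_sum _ fun l _ => measurable_const.mul (eg_meas l)
        · refine (norm_sum_le _ _).trans (Finset.sum_le_sum fun l _ => ?_)
          rw [norm_mul, eg_norm, mul_one]
      have hdB : BM (fun x => conj (w x) - t x) := K2b_sub (K2b_conj hwB) htB
      have h3 : ∫ x, v x * conj (t x) ∂ν = 0 := by
        have h4 : ∀ x, v x * conj (t x) =
            ∑ l ∈ L, conj (fc ν T (fun x => conj (w x)) l) * (v x * conj (eg ν T l x)) := by
          intro x
          simp only [ht, map_sum, map_mul, Finset.mul_sum]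
          refine Finset.sum_congr rfl fun l _ => by ring
        simp only [h4]
        rw [integral_finsetSum]
        · refine Finset.sum_eq_zero fun l hl => ?_
          rw [integral_const_mul]
          have h5 : ∫ x, v x * conj (eg ν T l x) ∂ν = 0 := h l (hL (by exact_mod_cast hl))
          rw [h5, mul_zero]
        · intro l _
          exact (K2b_int (K2b_mul hv (K2b_conj (K2b_eg_BM l)))).const_mul _
      have h6 : ∫ x, v x * w x ∂ν = ∫ x, v x * conj (conj (w x) - t x) ∂ν := by
        have h7 : ∀ x, v x * conj (conj (w x) - t x) = v x * w x - v x * conj (t x) := by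
          intro x
          rw [map_sub, Complex.conj_conj]
          ring
        simp only [h7]
        rw [integral_sub (K2b_int (K2b_mul hv hwB)) (K2b_int (K2b_mul hv (K2b_conj htB))), h3,
          sub_zero]
      rw [h6]
      have h8 : Integrable (fun x => ‖conj (w x) - t x‖ ^ 2) ν := by
        obtain ⟨D, hD⟩ := hdB.bdd
        refine Integrable.of_bound (hdB.meas.norm.pow_const 2).aestronglyMeasurable (D ^ 2)
          (ae_of_all _ fun x => ?_)
        rw [norm_pow, norm_norm]
        exact pow_le_pow_left₀ (norm_nonneg _) (hD x) 2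
      calc ‖∫ x, v x * conj (conj (w x) - t x) ∂ν‖
          ≤ ∫ x, ‖v x * conj (conj (w x) - t x)‖ ∂ν := norm_integral_le_integral_norm _
        _ ≤ ∫ x, C * (δ / 2 + ‖conj (w x) - t x‖ ^ 2 / (2 * δ)) ∂ν := by
            refine integral_mono (K2b_int (K2b_mul hv (K2b_conj hdB))).norm ?_ fun x => ?_
            · exact ((integrable_const _).add (h8.div_const _)).const_mul _
            · change ‖v x * conj (conj (w x) - t x)‖ ≤ _
              rw [norm_mul, RCLike.norm_conj]
              refine mul_le_mul (hC x) ?_ (norm_nonneg _) hC0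
              generalize ‖conj (w x) - t x‖ = r
              have h9 : 0 ≤ (r - δ) ^ 2 / (2 * δ) := by positivity
              have h10 : (r - δ) ^ 2 / (2 * δ) = δ / 2 + r ^ 2 / (2 * δ) - r := by
                field_simp
                ring
              linarith
        _ = C * (δ / 2 + (∫ x, ‖conj (w x) - t x‖ ^ 2 ∂ν) / (2 * δ)) := by
            rw [integral_const_mul, integral_add (integrable_const _) (h8.div_const _),
              integral_const, integral_div]
            simp
        _ ≤ C * (δ / 2 + δ ^ 2 / (2 * δ)) := by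
            gcongr
        _ = C * δ := by
            field_simp
            ring
    have h11 : ‖∫ x, v x * w x ∂ν‖ ≤ 0 := by
      refine le_of_forall_pos_le_add fun ε hε => ?_
      have h12 := key (ε / (C + 1)) (by positivity)
      have h13 : C * (ε / (C + 1)) ≤ ε := by
        rw [← mul_div_assoc, div_le_iff₀ (by positivity)]
        nlinarith
      linarith
    exact norm_le_zero_iff.mp h11
  · intro h l hl
    rw [← fc_cex hE.toMeasurePreserving hv hl]
    unfold fc
    rw [integral_congr_ae (g := fun _ => 0)]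
    · simp
    · filter_upwards [h] with x hx
      rw [hx, zero_mul]

/-- equivariance of the conditional expectation -/
theorem cex_comp {S : X ≃ᵐ X} (hE : Ergodic S ν) {v : X → ℂ} (hv : BM v) :
    ∀ᵐ x ∂ν, cex ν S (fun y => v (S y)) x = cex ν S v (S x) := by
  have hS : MeasurePreserving S ν ν := hE.toMeasurePreserving
  have hvS : BM (fun y => v (S y)) := ⟨hv.meas.comp S.measurable, by
    obtain ⟨C, hC⟩ := hv.bdd
    exact ⟨C, fun x => hC _⟩⟩
  have hcb := (cex_BM (ν := ν) (T := S) hv).bdd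
  refine cex_unique hvS (Kr_comp hS (cex_Kr hv)) ?_ ?_
  · obtain ⟨C, hC⟩ := hcb
    exact ⟨C, fun x => hC _⟩
  · intro w hw hb
    have hw' : Measurable[Kr ν S] (fun x => w (S.symm x)) := Kr_comp_symm hS hw
    have hb' : ∃ C : ℝ, ∀ x, ‖w (S.symm x)‖ ≤ C := by
      obtain ⟨C, hC⟩ := hb
      exact ⟨C, fun x => hC _⟩
    have h1 := hS.integral_comp' (fun x => cex ν S v x * w (S.symm x))
    have h2 := hS.integral_comp' (fun x => v x * w (S.symm x))
    simp only [MeasurableEquiv.symm_apply_apply] at h1 h2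
    rw [h1, h2]
    exact cex_int hv hw' hb'

theorem cex_comp_iter {S : X ≃ᵐ X} (hE : Ergodic S ν) {v : X → ℂ} (hv : BM v) (n : ℕ) :
    ∀ᵐ x ∂ν, cex ν S (fun y => v (S^[n] y)) x = cex ν S v (S^[n] x) := by
  have hS : MeasurePreserving S ν ν := hE.toMeasurePreserving
  induction n with
  | zero => exact ae_of_all _ fun x => rfl
  | succ n ih =>
    have hvn : BM (fun y => v (S^[n] y)) := ⟨hv.meas.comp (S.measurable.iterate n), by
      obtain ⟨C, hC⟩ := hv.bdd
      exact ⟨C, fun x => hC _⟩⟩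
    have h1 := cex_comp hE hvn
    have h2 := hS.quasiMeasurePreserving.ae ih
    filter_upwards [h1, h2] with x hx1 hx2
    simp only [Function.iterate_succ, Function.comp_apply]
    rw [hx1, hx2]

end Pool.Agent.Sar
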