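import Mathlib

/-!
# MP_13664e_an (Moebius disjointness for bounded systems): common definitions.
-/

set_option autoImplicit false
set_option warn.classDefReducibility false

namespace Pool.Agent.Sar

open MeasureTheory ProbabilityTheory Filter Topology
open scoped ENNReal ComplexConjugate

variable {X : Type*} [mX : MeasurableSpace X]

/-- `e` is a measurable eigenfunction of modulus one of `(ν, T)` with eigenvalue `l`. -/
structure IsEig (ν : Measure X) (T : X → X) (l : ℂ) (e : X → ℂ) : Prop where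
  meas : Measurable e
  norm : ∀ x, ‖e x‖ = 1
  eq : ∀ᵐ x ∂ν, e (T x) = l * e x

/-- the eigenvalues of `(ν, T)` -/
def EV (ν : Measure X) (T : X → X) : Set ℂ := {l | ∃ e, IsEig ν T l e}

open Classical in
/-- a chosen eigenfunction for the eigenvalue `l` -/
noncomputable def eg (ν : Measure X) (T : X → X) (l : ℂ) : X → ℂ :=
  if h : l ∈ EV ν T then h.choose else fun _ => 1

/-- the closed span of the eigenfunctions in `L²` -/
noncomputable def HK (ν : Measure X) (T : X → X) : Submodule ℂ (Lp ℂ 2 ν) :=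
  (Submodule.span ℂ {g : Lp ℂ 2 ν | ∃ l e, IsEig ν T l e ∧ (g : X → ℂ) =ᵐ[ν] e}).topologicalClosure

/-- the Kronecker `σ`-algebra: generated by the measurable sets whose indicator lies in `HK`
(all null sets are included). -/
noncomputable def Kr (ν : Measure X) (T : X → X) : MeasurableSpace X :=
  MeasurableSpace.generateFrom
    {s | MeasurableSet s ∧ ∃ g ∈ HK ν T, (g : X → ℂ) =ᵐ[ν] s.indicator (fun _ => (1 : ℂ))}

/-- bounded measurable functions -/
structure BM (v : X → ℂ) : Prop where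
  meas : Measurable v
  bdd : ∃ C : ℝ, ∀ x, ‖v x‖ ≤ C

/-- measurable functions bounded by one -/
structure B1 (v : X → ℂ) : Prop where
  meas : Measurable v
  bdd : ∀ x, ‖v x‖ ≤ 1

/-- Fourier coefficient -/
noncomputable def fc (ν : Measure X) (T : X → X) (v : X → ℂ) (l : ℂ) : ℂ :=
  ∫ x, v x * conj (eg ν T l x) ∂ν

/-- `exp(2πi/p)` -/
noncomputable def zt (p : ℕ) : ℂ := Complex.exp (2 * Real.pi * Complex.I / p)

/-- good primes -/
def Good (ν : Measure X) (T : X → X) (p : ℕ) : Prop := p.Prime ∧ zt p ∉ EV ν T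

/-- `l` is a `p`-th power of an eigenvalue -/
def IsPow (ν : Measure X) (T : X → X) (p : ℕ) (l : ℂ) : Prop := ∃ m ∈ EV ν T, m ^ p = l

/-- the dyadic block of primes -/
def blk (i : ℕ) : Finset ℕ := (Finset.Ico (2 ^ i) (2 ^ (i + 1))).filter Nat.Prime

/-- number of primes in the block -/
noncomputable def pib (i : ℕ) : ℝ := ((blk i).card : ℝ)

/-- couplings of `ν` with itself -/
structure Coup (ν : Measure X) (ρ : Measure (X × X)) : Prop where
  fst : ρ.map Prod.fst = ν
  snd : ρ.map Prod.snd = ν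

section kernels

variable [StandardBorelSpace X] [Nonempty X]

/-- conditional expectation with respect to `Kr`, as a pointwise defined function -/
noncomputable def cex (ν : Measure X) [IsFiniteMeasure ν] (T : X → X) (v : X → ℂ) (x : X) : ℂ :=
  ∫ s, v s ∂(condExpKernel ν (Kr ν T) x)

/-- the Markov operator of a coupling: `(op ρ v)(x₀) = E(v(x₁) | x₀)` -/
noncomputable def op (ρ : Measure (X × X)) [IsFiniteMeasure ρ] (v : X → ℂ) (x : X) : ℂ :=
  ∫ y, v y ∂(ρ.condKernel x)

/-- relative product over the first coordinate, with a shift `S` of the second factor: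
`∫ v ⊗ w d(relProd) = ∫ op ρ₁ v · (op ρ₂ w) ∘ S dν` -/
noncomputable def relProd (ν : Measure X) (S : X → X) (hS : Measurable S)
    (ρ₁ ρ₂ : Measure (X × X)) [IsFiniteMeasure ρ₁] [IsFiniteMeasure ρ₂] : Measure (X × X) :=
  Measure.bind ν (ρ₁.condKernel ×ₖ (ρ₂.condKernel.comap S hS))

instance (ν : Measure X) [IsProbabilityMeasure ν] (S : X → X) (hS : Measurable S)
    (ρ₁ ρ₂ : Measure (X × X)) [IsFiniteMeasure ρ₁] [IsFiniteMeasure ρ₂] :
    IsProbabilityMeasure (relProd ν S hS ρ₁ ρ₂) := by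
  unfold relProd; infer_instance

/-- labels: the conditional measures of `Kr` have atoms of mass `≥ a` at almost every point and
`ℓ` separates almost every point from the rest of its fibre. -/
structure Lab (ν : Measure X) [IsFiniteMeasure ν] (T : X → X) (m : ℕ) (a : ℝ) (ℓ : X → Fin m) :
    Prop where
  meas : Measurable ℓ
  pos : 0 < a
  le_one : a ≤ 1
  atom : ∀ᵐ x ∂ν, ENNReal.ofReal a ≤ condExpKernel ν (Kr ν T) x {x}
  inj : ∀ᵐ x ∂ν, condExpKernel ν (Kr ν T) x {s | ℓ s = ℓ x ∧ s ≠ x} = 0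

end kernels

/-- the iterates of a measurable equivalence -/
def itE (T : X ≃ᵐ X) : ℕ → (X ≃ᵐ X)
  | 0 => MeasurableEquiv.refl X
  | n + 1 => (itE T n).trans T

theorem itE_coe (T : X ≃ᵐ X) (n : ℕ) : ⇑(itE T n) = (⇑T)^[n] := by
  induction n with
  | zero => rfl
  | succ n ih => rw [Function.iterate_succ', ← ih]; rfl

/-- joinings of `T^p₀` and `T^p` which are diagonal on the torsion eigenfunctions -/
structure Jn (ν : Measure X) (T : X → X) (p₀ p : ℕ) (ρ : Measure (X × X)) : Prop where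
  coup : Coup ν ρ
  inv : ρ.map (Prod.map T^[p₀] T^[p]) = ρ
  rat : ∀ l ∈ EV ν T, ∀ l' ∈ EV ν T, (∃ q : ℕ, 1 ≤ q ∧ l ^ q = 1) → (∃ q : ℕ, 1 ≤ q ∧ l' ^ q = 1) →
    l ^ p₀ = l' ^ p → ∃ c : ℂ, ∀ᵐ z ∂ρ, eg ν T l z.1 = c * eg ν T l' z.2

/-- torsion elements -/
def Tors (l : ℂ) : Prop := ∃ q : ℕ, 1 ≤ q ∧ l ^ q = 1

section top

variable {Y : Type*} [TopologicalSpace Y]

/-- least number of words `w` whose cells `⋂_{i<n} f^{-a i} U_{w i}` cover the space:
`N(⋁_{i<n} f^{-a i} 𝒰)` for the cover `𝒰 = {U_1, …, U_k}`. -/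
noncomputable def covNum (f : Y → Y) (a : ℕ → ℕ) {k : ℕ} (U : Fin k → Set Y) (n : ℕ) : ℕ :=
  sInf {c | ∃ W : Finset (Fin n → Fin k), W.card = c ∧
    ∀ x, ∃ w ∈ W, ∀ i : Fin n, f^[a i] x ∈ U (w i)}

/-- bounded topological sequence entropy -/
def BddSeqEnt (f : Y → Y) : Prop :=
  ∃ M : ℝ, ∀ a : ℕ → ℕ, StrictMono a → 0 < a 0 → ∀ (k : ℕ) (U : Fin k → Set Y),
    (∀ i, IsOpen (U i)) → (⋃ i, U i) = Set.univ →
    limsup (fun n : ℕ => (((Real.log (covNum f a U n)) / n : ℝ) : EReal)) atTop ≤ (M : EReal)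

end top

end Pool.Agent.Sar
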