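import Pool.Agent.Sar.Defs

/-! MP_13664e_an, module J1: Markov operators of couplings, relative products. -/

set_option autoImplicit false

namespace Pool.Agent.Sar

open MeasureTheory ProbabilityTheory Filter Topology
open scoped ENNReal ComplexConjugate

variable {X : Type*} [mX : MeasurableSpace X] [StandardBorelSpace X] [Nonempty X]
  {ν : Measure X} [IsProbabilityMeasure ν]

set_option linter.unusedSectionVars false in
theorem Coup.prob {ρ : Measure (X × X)} (h : Coup ν ρ) : IsProbabilityMeasure ρ := by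
  constructor
  have h1 : ρ.map Prod.fst Set.univ = 1 := by rw [h.fst]; exact measure_univ
  rwa [Measure.map_apply measurable_fst MeasurableSet.univ, Set.preimage_univ] at h1

theorem Coup.ae_fst {ρ : Measure (X × X)} (h : Coup ν ρ) {P : X → Prop} (hP : ∀ᵐ x ∂ν, P x) :
    ∀ᵐ z ∂ρ, P z.1 :=
  ae_of_ae_map measurable_fst.aemeasurable (by rw [h.fst]; exact hP)

theorem Coup.ae_snd {ρ : Measure (X × X)} (h : Coup ν ρ) {P : X → Prop} (hP : ∀ᵐ x ∂ν, P x) :
    ∀ᵐ z ∂ρ, P z.2 :=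
  ae_of_ae_map measurable_snd.aemeasurable (by rw [h.snd]; exact hP)

theorem Coup.swap {ρ : Measure (X × X)} (h : Coup ν ρ) : Coup ν (ρ.map Prod.swap) := by
  constructor
  · rw [Measure.map_map measurable_fst measurable_swap]
    exact h.snd
  · rw [Measure.map_map measurable_snd measurable_swap]
    exact h.fst

private theorem J1_norm_le {ρ : Measure (X × X)} [IsFiniteMeasure ρ] {v : X → ℂ} {C : ℝ}
    (hv : ∀ x, ‖v x‖ ≤ C) (x : X) : ‖op ρ v x‖ ≤ C := by
  have h := norm_integral_le_of_norm_le_const (μ := ρ.condKernel x) (f := v) (C := C)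
    (Filter.Eventually.of_forall hv)
  simpa [op] using h

private theorem J1_meas {ρ : Measure (X × X)} [IsFiniteMeasure ρ] {v : X → ℂ}
    (hv : Measurable v) : Measurable (op ρ v) := by
  have h := (hv.stronglyMeasurable.integral_kernel (κ := ρ.condKernel)).measurable
  exact h

private theorem J1_int {μ : Measure X} [IsFiniteMeasure μ] {v : X → ℂ} (hv : BM v) :
    Integrable v μ := by
  obtain ⟨C, hC⟩ := hv.bdd
  exact Integrable.of_bound hv.meas.aestronglyMeasurable C (Filter.Eventually.of_forall hC)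

theorem op_B1 {ρ : Measure (X × X)} [IsFiniteMeasure ρ] {v : X → ℂ} (hv : B1 v) : B1 (op ρ v) :=
  ⟨J1_meas hv.meas, fun x => J1_norm_le hv.bdd x⟩

theorem op_BM {ρ : Measure (X × X)} [IsFiniteMeasure ρ] {v : X → ℂ} (hv : BM v) : BM (op ρ v) := by
  obtain ⟨C, hC⟩ := hv.bdd
  exact ⟨J1_meas hv.meas, C, fun x => J1_norm_le hC x⟩

theorem op_conj {ρ : Measure (X × X)} [IsFiniteMeasure ρ] {v : X → ℂ} (x : X) :
    op ρ (fun y => conj (v y)) x = conj (op ρ v x) :=
  integral_conj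

theorem op_sub {ρ : Measure (X × X)} [IsFiniteMeasure ρ] {v w : X → ℂ} (hv : BM v) (hw : BM w)
    (x : X) : op ρ (fun y => v y - w y) x = op ρ v x - op ρ w x :=
  integral_sub (J1_int hv) (J1_int hw)

theorem op_add {ρ : Measure (X × X)} [IsFiniteMeasure ρ] {v w : X → ℂ} (hv : BM v) (hw : BM w)
    (x : X) : op ρ (fun y => v y + w y) x = op ρ v x + op ρ w x :=
  integral_add (J1_int hv) (J1_int hw)

theorem op_smul {ρ : Measure (X × X)} [IsFiniteMeasure ρ] (c : ℂ) (v : X → ℂ) (x : X) :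
    op ρ (fun y => c * v y) x = c * op ρ v x :=
  integral_const_mul c v

theorem op_sum {ρ : Measure (X × X)} [IsFiniteMeasure ρ] {ι : Type*} (s : Finset ι)
    (v : ι → X → ℂ) (hv : ∀ i ∈ s, BM (v i)) (x : X) :
    op ρ (fun y => ∑ i ∈ s, v i y) x = ∑ i ∈ s, op ρ (v i) x :=
  integral_finsetSum s fun i hi => J1_int (hv i hi)

private theorem J1_fst {ρ : Measure (X × X)} (hc : Coup ν ρ) : ρ.fst = ν := hc.fst

private theorem J1_dis {ρ : Measure (X × X)} [IsProbabilityMeasure ρ] (hc : Coup ν ρ) :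
    ν ⊗ₘ ρ.condKernel = ρ := by
  have h := ρ.disintegrate ρ.condKernel
  rwa [J1_fst hc] at h

theorem op_congr {ρ : Measure (X × X)} [IsProbabilityMeasure ρ] (hc : Coup ν ρ) {v w : X → ℂ}
    (h : ∀ᵐ x ∂ν, v x = w x) : ∀ᵐ x ∂ν, op ρ v x = op ρ w x := by
  have h1 : ∀ᵐ z ∂(ν ⊗ₘ ρ.condKernel), v z.2 = w z.2 := by
    rw [J1_dis hc]; exact hc.ae_snd h
  have h2 := Measure.ae_ae_of_ae_compProd h1
  filter_upwards [h2] with x hx
  exact integral_congr_ae hx

/-- disintegration -/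
theorem op_int {ρ : Measure (X × X)} [IsProbabilityMeasure ρ] (hc : Coup ν ρ) {v w : X → ℂ}
    (hv : BM v) (hw : BM w) : ∫ x, w x * op ρ v x ∂ν = ∫ z, w z.1 * v z.2 ∂ρ := by
  obtain ⟨C, hC⟩ := hv.bdd
  obtain ⟨D, hD⟩ := hw.bdd
  have hint : Integrable (fun z : X × X => w z.1 * v z.2) (ν ⊗ₘ ρ.condKernel) := by
    refine Integrable.of_bound ((hw.meas.comp measurable_fst).mul
      (hv.meas.comp measurable_snd)).aestronglyMeasurable (D * C) (Filter.Eventually.of_forall ?_)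
    intro z
    rw [norm_mul]
    exact mul_le_mul (hD _) (hC _) (norm_nonneg _) ((norm_nonneg _).trans (hD z.1))
  have h := Measure.integral_compProd hint
  rw [J1_dis hc] at h
  rw [h]
  refine integral_congr_ae (Filter.Eventually.of_forall fun x => ?_)
  exact (integral_const_mul (w x) v).symm

private theorem J1_jensen {μ : Measure X} [IsProbabilityMeasure μ] {v : X → ℂ} (hv : BM v) :
    ‖∫ x, v x ∂μ‖ ^ 2 ≤ ∫ x, ‖v x‖ ^ 2 ∂μ := by
  obtain ⟨C, hC⟩ := hv.bdd
  have hi : Integrable (fun x => ‖v x‖) μ := (J1_int hv).norm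
  have hi2 : Integrable (fun x => ‖v x‖ ^ 2) μ := by
    refine Integrable.of_bound (hv.meas.norm.pow_const 2).aestronglyMeasurable (C ^ 2)
      (Filter.Eventually.of_forall ?_)
    intro x
    rw [Real.norm_eq_abs, abs_of_nonneg (by positivity)]
    exact pow_le_pow_left₀ (norm_nonneg _) (hC x) 2
  set m : ℝ := ∫ x, ‖v x‖ ∂μ with hm
  have h1 : ‖∫ x, v x ∂μ‖ ≤ m := norm_integral_le_integral_norm v
  have h2 : 0 ≤ ∫ x, (‖v x‖ - m) ^ 2 ∂μ := integral_nonneg fun x => sq_nonneg _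
  have h3 : ∫ x, (‖v x‖ - m) ^ 2 ∂μ = (∫ x, ‖v x‖ ^ 2 ∂μ) - m ^ 2 := by
    have h4 : ∀ x, (‖v x‖ - m) ^ 2 = ‖v x‖ ^ 2 - (2 * m * ‖v x‖ - m ^ 2) := fun x => by ring
    simp_rw [h4]
    have i1 : Integrable (fun x => 2 * m * ‖v x‖) μ := hi.const_mul (2 * m)
    have i2 : Integrable (fun _ : X => m ^ 2) μ := integrable_const _
    have i3 : Integrable (fun x => 2 * m * ‖v x‖ - m ^ 2) μ := i1.sub i2
    have e1 := integral_sub hi2 i3
    have e2 := integral_sub i1 i2
    have e3 : ∫ x, 2 * m * ‖v x‖ ∂μ = 2 * m * m := by rw [integral_const_mul, ← hm]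
    have e4 : ∫ _x : X, m ^ 2 ∂μ = m ^ 2 := by simp
    rw [e1, e2, e3, e4]
    ring
  have h5 : m ^ 2 ≤ ∫ x, ‖v x‖ ^ 2 ∂μ := by linarith [h3 ▸ h2]
  exact (pow_le_pow_left₀ (norm_nonneg _) h1 2).trans h5

/-- contraction in `L²` -/
theorem op_L2 {ρ : Measure (X × X)} [IsProbabilityMeasure ρ] (hc : Coup ν ρ) {v : X → ℂ}
    (hv : BM v) : ∫ x, ‖op ρ v x‖ ^ 2 ∂ν ≤ ∫ x, ‖v x‖ ^ 2 ∂ν := by
  obtain ⟨C, hC⟩ := hv.bdd
  have hb : ∀ x, ‖(‖v x‖ ^ 2 : ℝ)‖ ≤ C ^ 2 := fun x => by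
    rw [Real.norm_eq_abs, abs_of_nonneg (by positivity)]
    exact pow_le_pow_left₀ (norm_nonneg _) (hC x) 2
  have hm2 : Measurable fun x => ‖v x‖ ^ 2 := hv.meas.norm.pow_const 2
  have hint : Integrable (fun z : X × X => ‖v z.2‖ ^ 2) (ν ⊗ₘ ρ.condKernel) :=
    Integrable.of_bound (hm2.comp measurable_snd).aestronglyMeasurable (C ^ 2)
      (Filter.Eventually.of_forall fun z => hb z.2)
  have h := Measure.integral_compProd hint
  have hint' := hint.integral_compProd
  rw [J1_dis hc] at h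
  have h6 : ∫ z, ‖v z.2‖ ^ 2 ∂ρ = ∫ x, ‖v x‖ ^ 2 ∂ν := by
    conv_rhs => rw [← hc.snd]
    rw [integral_map measurable_snd.aemeasurable]
    rw [hc.snd]
    exact hm2.aestronglyMeasurable
  rw [← h6, h]
  refine integral_mono_of_nonneg (Filter.Eventually.of_forall fun x => by positivity) ?_
    (Filter.Eventually.of_forall fun x => ?_)
  · exact hint'
  · exact J1_jensen hv

private theorem J1_comp {ρ : Measure (X × X)} [IsProbabilityMeasure ρ] (hc : Coup ν ρ) :
    ρ.condKernel ∘ₘ ν = ν := by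
  have h := Measure.snd_compProd ν ρ.condKernel
  rw [J1_dis hc] at h
  rw [← h]
  exact hc.snd

private theorem J1_comap {S : X → X} (hS : MeasurePreserving S ν ν) {ρ : Measure (X × X)}
    [IsProbabilityMeasure ρ] (hc : Coup ν ρ) :
    (ρ.condKernel.comap S hS.measurable) ∘ₘ ν = ν := by
  ext s hs
  rw [Measure.bind_apply hs (Kernel.aemeasurable _)]
  simp_rw [Kernel.comap_apply]
  have h1 : ∫⁻ a, (ρ.condKernel (S a)) s ∂ν = ∫⁻ a, (ρ.condKernel a) s ∂ν := by
    exact hS.lintegral_comp (ρ.condKernel.measurable_coe hs)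
  rw [h1, ← Measure.bind_apply hs (Kernel.aemeasurable _), J1_comp hc]

theorem rel_coup {S : X → X} (hS : MeasurePreserving S ν ν) {ρ₁ ρ₂ : Measure (X × X)}
    [IsProbabilityMeasure ρ₁] [IsProbabilityMeasure ρ₂] (h₁ : Coup ν ρ₁) (h₂ : Coup ν ρ₂) :
    Coup ν (relProd ν S hS.measurable ρ₁ ρ₂) := by
  constructor
  · unfold relProd
    rw [Measure.map_comp _ _ measurable_fst, ← Kernel.fst_eq, Kernel.fst_prod]
    exact J1_comp h₁
  · unfold relProd
    rw [Measure.map_comp _ _ measurable_snd, ← Kernel.snd_eq, Kernel.snd_prod]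
    exact J1_comap hS h₂

theorem rel_int {S : X → X} (hS : MeasurePreserving S ν ν) {ρ₁ ρ₂ : Measure (X × X)}
    [IsProbabilityMeasure ρ₁] [IsProbabilityMeasure ρ₂] {v w : X → ℂ} (hv : BM v) (hw : BM w) :
    ∫ z, v z.1 * w z.2 ∂(relProd ν S hS.measurable ρ₁ ρ₂) =
      ∫ x, op ρ₁ v x * op ρ₂ w (S x) ∂ν := by
  obtain ⟨C, hC⟩ := hv.bdd
  obtain ⟨D, hD⟩ := hw.bdd
  have hint : Integrable (fun z : X × X => v z.1 * w z.2)
      (relProd ν S hS.measurable ρ₁ ρ₂) := by
    refine Integrable.of_bound ((hv.meas.comp measurable_fst).mul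
      (hw.meas.comp measurable_snd)).aestronglyMeasurable (C * D) (Filter.Eventually.of_forall ?_)
    intro z
    rw [norm_mul]
    exact mul_le_mul (hC _) (hD _) (norm_nonneg _) ((norm_nonneg _).trans (hC z.1))
  unfold relProd at hint ⊢
  rw [Measure.comp_eq_comp_const_apply] at hint ⊢
  rw [Kernel.integral_comp hint, Kernel.const_apply]
  refine integral_congr_ae (Filter.Eventually.of_forall fun x => ?_)
  simp only [Kernel.prod_apply, Kernel.comap_apply]
  exact integral_prod_mul v w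

/-- two couplings with the same integrals of products are equal -/
theorem coup_ext {ρ₁ ρ₂ : Measure (X × X)} [IsProbabilityMeasure ρ₁] [IsProbabilityMeasure ρ₂]
    (h : ∀ v w : X → ℂ, B1 v → B1 w → ∫ z, v z.1 * w z.2 ∂ρ₁ = ∫ z, v z.1 * w z.2 ∂ρ₂) :
    ρ₁ = ρ₂ := by
  refine Measure.ext_prod fun {s t} hs ht => ?_
  have hB : ∀ s : Set X, MeasurableSet s → B1 (s.indicator fun _ => (1 : ℂ)) := fun s hs =>
    ⟨measurable_const.indicator hs, fun x => by
      by_cases hx : x ∈ s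
      · simp [hx]
      · simp [hx]⟩
  have h1 := h _ _ (hB s hs) (hB t ht)
  have h2 : ∀ z : X × X, (s.indicator (fun _ => (1 : ℂ)) z.1) * (t.indicator (fun _ => (1 : ℂ)) z.2)
      = (s ×ˢ t).indicator (fun _ => (1 : ℂ)) z := fun z => by
    by_cases h3 : z.1 ∈ s <;> by_cases h4 : z.2 ∈ t <;> simp [Set.indicator, h3, h4, Set.mem_prod]
  simp_rw [h2] at h1
  rw [integral_indicator_const _ (hs.prod ht), integral_indicator_const _ (hs.prod ht)] at h1
  have h5 : ρ₁.real (s ×ˢ t) = ρ₂.real (s ×ˢ t) := by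
    have := congrArg Complex.re h1
    simpa using this
  exact (measureReal_eq_measureReal_iff).1 h5

/-- a bounded function orthogonal to all bounded functions vanishes -/
theorem ae_zero_of_orth {v : X → ℂ} (hv : BM v)
    (h : ∀ w : X → ℂ, B1 w → ∫ x, w x * v x ∂ν = 0) : ∀ᵐ x ∂ν, v x = 0 := by
  obtain ⟨C, hC⟩ := hv.bdd
  have hC0 : 0 ≤ C := (norm_nonneg _).trans (hC (Classical.arbitrary X))
  have hC1 : (0 : ℝ) < C + 1 := by linarith
  have hB : B1 (fun x => ((C + 1 : ℝ) : ℂ)⁻¹ * conj (v x)) := by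
    refine ⟨(Complex.continuous_conj.measurable.comp hv.meas).const_mul _, fun x => ?_⟩
    rw [norm_mul, norm_inv, Complex.norm_real, Real.norm_eq_abs, abs_of_pos hC1,
      Complex.norm_conj, inv_mul_le_iff₀ hC1, mul_one]
    exact (hC x).trans (by linarith)
  have h1 := h _ hB
  have h2 : ∀ x, ((C + 1 : ℝ) : ℂ)⁻¹ * conj (v x) * v x
      = (((C + 1)⁻¹ * ‖v x‖ ^ 2 : ℝ) : ℂ) := fun x => by
    rw [mul_assoc, Complex.conj_mul']
    push_cast
    ring
  simp_rw [h2] at h1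
  rw [integral_complex_ofReal] at h1
  have h3 : ∫ x, (C + 1)⁻¹ * ‖v x‖ ^ 2 ∂ν = 0 := by exact_mod_cast h1
  rw [integral_const_mul] at h3
  have h4 : ∫ x, ‖v x‖ ^ 2 ∂ν = 0 := by
    rcases mul_eq_zero.1 h3 with h5 | h5
    · exact absurd h5 (inv_ne_zero hC1.ne')
    · exact h5
  have hi2 : Integrable (fun x => ‖v x‖ ^ 2) ν := by
    refine Integrable.of_bound (hv.meas.norm.pow_const 2).aestronglyMeasurable (C ^ 2)
      (Filter.Eventually.of_forall ?_)
    intro x
    rw [Real.norm_eq_abs, abs_of_nonneg (by positivity)]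
    exact pow_le_pow_left₀ (norm_nonneg _) (hC x) 2
  rw [integral_eq_zero_iff_of_nonneg (fun x => by positivity) hi2] at h4
  filter_upwards [h4] with x hx
  have : ‖v x‖ ^ 2 = 0 := hx
  simpa using this

end Pool.Agent.Sar
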