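import Pool.Agent.Sar.K2b
import Pool.Agent.Sar.J1

/-! MP_13664e_an, module A1: the basic inequality. -/

set_option autoImplicit false
set_option linter.unusedSectionVars false
set_option linter.unusedVariables false

namespace Pool.Agent.Sar

open MeasureTheory ProbabilityTheory Filter Topology
open scoped ENNReal ComplexConjugate

variable {X : Type*} [mX : MeasurableSpace X] [StandardBorelSpace X] [Nonempty X]
  {ν : Measure X} [IsProbabilityMeasure ν]

private theorem A1_row (g : ℕ → ℝ) (hg : ∀ n, 0 ≤ g n) (J j : ℕ) (hj : j < J) :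
    ∑ j' ∈ Finset.range J, g (Nat.dist j j') ≤ g 0 + 2 * ∑ h ∈ Finset.Ico 1 J, g h := by
  have hsplit : Finset.range J = (Finset.range j ∪ {j}) ∪ Finset.Ico (j + 1) J := by
    ext i
    simp only [Finset.mem_union, Finset.mem_range, Finset.mem_singleton, Finset.mem_Ico]
    omega
  rw [hsplit, Finset.sum_union, Finset.sum_union, Finset.sum_singleton, Nat.dist_self]
  · have h1 : ∑ j' ∈ Finset.range j, g (Nat.dist j j') ≤ ∑ h ∈ Finset.Ico 1 J, g h := by
      have e : ∑ j' ∈ Finset.range j, g (Nat.dist j j') =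
          ∑ h ∈ (Finset.range j).image (fun j' => Nat.dist j j'), g h := by
        rw [Finset.sum_image]
        intro x hx y hy hxy
        simp only [Finset.coe_range, Set.mem_Iio, Nat.dist] at hx hy hxy
        omega
      rw [e]
      apply Finset.sum_le_sum_of_subset_of_nonneg
      · intro x hx
        simp only [Finset.mem_image, Finset.mem_range, Nat.dist] at hx
        obtain ⟨y, hy, rfl⟩ := hx
        simp only [Finset.mem_Ico]
        omega
      · intro i _ _
        exact hg i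
    have h2 : ∑ j' ∈ Finset.Ico (j + 1) J, g (Nat.dist j j') ≤ ∑ h ∈ Finset.Ico 1 J, g h := by
      have e : ∑ j' ∈ Finset.Ico (j + 1) J, g (Nat.dist j j') =
          ∑ h ∈ (Finset.Ico (j + 1) J).image (fun j' => Nat.dist j j'), g h := by
        rw [Finset.sum_image]
        intro x hx y hy hxy
        simp only [Finset.coe_Ico, Set.mem_Ico, Nat.dist] at hx hy hxy
        omega
      rw [e]
      apply Finset.sum_le_sum_of_subset_of_nonneg
      · intro x hx
        simp only [Finset.mem_image, Finset.mem_Ico, Nat.dist] at hx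
        obtain ⟨y, hy, rfl⟩ := hx
        simp only [Finset.mem_Ico]
        omega
      · intro i _ _
        exact hg i
    linarith
  · rw [Finset.disjoint_singleton_right]
    simp
  · rw [Finset.disjoint_left]
    intro x hx
    simp only [Finset.mem_union, Finset.mem_range, Finset.mem_singleton, Finset.mem_Ico] at hx ⊢
    omega

private theorem A1_intcomp {S : X → X} (hS : MeasurePreserving S ν ν) {f : X → ℂ}
    (hf : Measurable f) : ∫ x, f (S x) ∂ν = ∫ x, f x ∂ν := by
  have h := integral_map (μ := ν) hS.measurable.aemeasurable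
    (f := f) hf.aestronglyMeasurable
  rw [hS.map_eq] at h
  exact h.symm

private theorem A1_B1_int {f : X → ℂ} (hf : BM f) : Integrable f ν := by
  obtain ⟨C, hC⟩ := hf.bdd
  exact Integrable.of_bound hf.meas.aestronglyMeasurable C (ae_of_all _ hC)

private theorem A1_B1_mul {f g : X → ℂ} (hf : B1 f) (hg : B1 g) : B1 (fun x => f x * g x) :=
  ⟨hf.meas.mul hg.meas, fun x => by
    rw [norm_mul]
    exact mul_le_one₀ (hf.bdd x) (norm_nonneg _) (hg.bdd x)⟩

private theorem A1_B1_conj {f : X → ℂ} (hf : B1 f) : B1 (fun x => conj (f x)) :=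
  ⟨Complex.continuous_conj.measurable.comp hf.meas, fun x => by
    rw [RCLike.norm_conj]
    exact hf.bdd x⟩

private theorem A1_B1_comp {f : X → ℂ} (hf : B1 f) {S : X → X} (hS : Measurable S) :
    B1 (fun x => f (S x)) := ⟨hf.meas.comp hS, fun x => hf.bdd _⟩

private theorem A1_BM {f : X → ℂ} (hf : B1 f) : BM f := ⟨hf.meas, 1, hf.bdd⟩

/-- the symmetry of the conditional expectation -/
private theorem A1_symm {T : X → X} {v w : X → ℂ} (hv : BM v) (hw : BM w) :
    ∫ x, v x * cex ν T w x ∂ν = ∫ x, cex ν T v x * w x ∂ν := by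
  have h1 := cex_int (ν := ν) (T := T) hv (cex_Kr hw) (cex_BM hw).bdd
  have h2 := cex_int (ν := ν) (T := T) hw (cex_Kr hv) (cex_BM hv).bdd
  rw [← h1]
  simp_rw [mul_comm (cex ν T v _)]
  rw [h2]

theorem A1 {T : X ≃ᵐ X} (hE : Ergodic T ν) {a : ℝ} (ha : 0 < a)
    (hat : ∀ᵐ x ∂ν, ENNReal.ofReal a ≤ condExpKernel ν (Kr ν T) x {x})
    {F u : X → ℂ} (hF : B1 F) (hu : B1 u) {J : ℕ} (hJ : 1 ≤ J) :
    a * ‖∫ x, F x * conj (u x) ∂ν‖ ^ 2 ≤
      1 / J + (2 / J) * ∑ h ∈ Finset.Ico 1 J,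
        ‖∫ x, cex ν T (fun y => F y * conj (F ((⇑T)^[h] y))) x *
          conj (u x) * u ((⇑T)^[h] x) ∂ν‖ := by
  classical
  have hTm : ∀ n, Measurable ((⇑T)^[n]) := fun n => T.measurable.iterate n
  have hTp : ∀ n, MeasurePreserving ((⇑T)^[n]) ν ν := fun n => hE.toMeasurePreserving.iterate n
  have hJ0 : (0 : ℝ) < J := by exact_mod_cast hJ
  -- the two kernels
  set E : ℕ → ℕ → X → ℂ := fun j j' x => F ((⇑T)^[j] x) * conj (F ((⇑T)^[j'] x)) with hEdef
  set D : ℕ → ℕ → X → ℂ := fun j j' x => conj (u ((⇑T)^[j] x)) * u ((⇑T)^[j'] x) with hDdef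
  have hE1 : ∀ j j', B1 (E j j') := fun j j' =>
    A1_B1_mul (A1_B1_comp hF (hTm j)) (A1_B1_conj (A1_B1_comp hF (hTm j')))
  have hD1 : ∀ j j', B1 (D j j') := fun j j' =>
    A1_B1_mul (A1_B1_conj (A1_B1_comp hu (hTm j))) (A1_B1_comp hu (hTm j'))
  set c : ℕ → ℕ → ℂ := fun j j' => ∫ x, E j j' x * cex ν T (D j j') x ∂ν with hcdef
  set g : ℕ → ℝ := fun h => ‖∫ x, cex ν T (E 0 h) x * D 0 h x ∂ν‖ with hgdef
  have hc1 : ∀ j h, c j (j + h) = ∫ x, cex ν T (E 0 h) x * D 0 h x ∂ν := by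
    intro j h
    have e1 : c j (j + h) = ∫ x, cex ν T (E j (j + h)) x * D j (j + h) x ∂ν :=
      A1_symm (A1_BM (hE1 _ _)) (A1_BM (hD1 _ _))
    rw [e1]
    have e2 : ∀ᵐ x ∂ν, cex ν T (E j (j + h)) x = cex ν T (E 0 h) ((⇑T)^[j] x) := by
      have := cex_comp_iter hE (A1_BM (hE1 0 h)) j
      have e3 : (fun y => E 0 h ((⇑T)^[j] y)) = E j (j + h) := by
        funext y
        simp only [hEdef]
        rw [add_comm j h, Function.iterate_add_apply]
        simp
      rw [e3] at this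
      exact this
    have e4 : ∀ x, D j (j + h) x = D 0 h ((⇑T)^[j] x) := by
      intro y
      simp only [hDdef]
      rw [add_comm j h, Function.iterate_add_apply]
      simp
    have e5 : ∫ x, cex ν T (E j (j + h)) x * D j (j + h) x ∂ν =
        ∫ x, (fun y => cex ν T (E 0 h) y * D 0 h y) ((⇑T)^[j] x) ∂ν := by
      apply integral_congr_ae
      filter_upwards [e2] with x hx
      simp only [hx, e4]
    rw [e5]
    exact A1_intcomp (hTp j) ((cex_BM (A1_BM (hE1 0 h))).meas.mul (hD1 0 h).meas)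
  have hc2 : ∀ j j', c j' j = conj (c j j') := by
    intro j j'
    simp only [hcdef]
    rw [← integral_conj]
    apply integral_congr_ae
    apply ae_of_all
    intro x
    simp only [map_mul]
    rw [← cex_conj]
    have h1 : (fun y => conj (D j j' y)) = D j' j := by
      funext y
      simp only [hDdef, map_mul, Complex.conj_conj]
      ring
    have h2 : E j' j x = conj (E j j' x) := by
      simp only [hEdef, map_mul, Complex.conj_conj]
      ring
    rw [h1, h2]
  have hcn : ∀ j j', ‖c j j'‖ = g (Nat.dist j j') := by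
    intro j j'
    rcases le_total j j' with h | h
    · obtain ⟨k, rfl⟩ := Nat.exists_eq_add_of_le h
      have : Nat.dist j (j + k) = k := by simp [Nat.dist]
      rw [hc1, this]
    · obtain ⟨k, rfl⟩ := Nat.exists_eq_add_of_le h
      have : Nat.dist (j' + k) j' = k := by simp [Nat.dist]
      rw [hc2 j' (j' + k), RCLike.norm_conj, hc1, this]
  have hg0 : g 0 ≤ 1 := by
    simp only [hgdef]
    have hb : B1 (fun x => cex ν T (E 0 0) x * D 0 0 x) := A1_B1_mul (cex_B1 (hE1 0 0)) (hD1 0 0)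
    calc ‖∫ x, cex ν T (E 0 0) x * D 0 0 x ∂ν‖ ≤ ∫ x, ‖cex ν T (E 0 0) x * D 0 0 x‖ ∂ν :=
          norm_integral_le_integral_norm _
      _ ≤ ∫ _x, (1 : ℝ) ∂ν := by
          apply integral_mono_of_nonneg (ae_of_all _ fun x => norm_nonneg _)
            (integrable_const _) (ae_of_all _ fun x => hb.bdd x)
      _ = 1 := by simp
  -- the function G
  set G : X → X → ℂ := fun x s => ∑ j ∈ Finset.range J, F ((⇑T)^[j] x) * conj (u ((⇑T)^[j] s))
    with hGdef
  have hGG : ∀ x s, ((‖G x s‖ ^ 2 : ℝ) : ℂ) =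
      ∑ j ∈ Finset.range J, ∑ j' ∈ Finset.range J, E j j' x * D j j' s := by
    intro x s
    have : ((‖G x s‖ ^ 2 : ℝ) : ℂ) = G x s * conj (G x s) := by
      rw [Complex.mul_conj, Complex.normSq_eq_norm_sq]
    rw [this]
    simp only [hGdef, map_sum, Finset.sum_mul_sum, map_mul, Complex.conj_conj, hEdef, hDdef]
    apply Finset.sum_congr rfl
    intro j _
    apply Finset.sum_congr rfl
    intro j' _
    ring
  have hGm : ∀ x, Measurable (G x) := fun x => Finset.measurable_sum _ fun j _ =>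
    (Complex.continuous_conj.measurable.comp (hu.meas.comp (hTm j))).const_mul _
  have hGb : ∀ x s, ‖G x s‖ ≤ J := by
    intro x s
    calc ‖G x s‖ ≤ ∑ j ∈ Finset.range J, ‖F ((⇑T)^[j] x) * conj (u ((⇑T)^[j] s))‖ :=
          norm_sum_le _ _
      _ ≤ ∑ _j ∈ Finset.range J, (1 : ℝ) := by
          apply Finset.sum_le_sum
          intro j _
          rw [norm_mul, RCLike.norm_conj]
          exact mul_le_one₀ (hF.bdd _) (norm_nonneg _) (hu.bdd _)
      _ = J := by simp
  set κ := condExpKernel ν (Kr ν T) with hκ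
  -- inner integral
  have hin : ∀ x, ((∫ s, ‖G x s‖ ^ 2 ∂(κ x) : ℝ) : ℂ) =
      ∑ j ∈ Finset.range J, ∑ j' ∈ Finset.range J, E j j' x * cex ν T (D j j') x := by
    intro x
    rw [← integral_complex_ofReal]
    have : ∀ s, ((‖G x s‖ ^ 2 : ℝ) : ℂ) =
      ∑ j ∈ Finset.range J, ∑ j' ∈ Finset.range J, E j j' x * D j j' s := hGG x
    rw [integral_congr_ae (ae_of_all _ this)]
    have hI : ∀ j j', Integrable (fun s => E j j' x * D j j' s) (κ x) := fun j j' =>
      (Integrable.of_bound (hD1 j j').meas.aestronglyMeasurable 1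
        (ae_of_all _ (hD1 j j').bdd)).const_mul _
    rw [integral_finset_sum _ fun j _ => integrable_finset_sum _ fun j' _ => hI j j']
    apply Finset.sum_congr rfl
    intro j _
    rw [integral_finset_sum _ fun j' _ => hI j j']
    apply Finset.sum_congr rfl
    intro j' _
    rw [integral_const_mul]
    rfl
  -- diagonal bound
  have hdiag : ∀ᵐ x ∂ν, a * ‖G x x‖ ^ 2 ≤ ∫ s, ‖G x s‖ ^ 2 ∂(κ x) := by
    filter_upwards [hat] with x hx
    have hreal : a ≤ (κ x).real {x} := by
      rw [Measure.real, ← ENNReal.ofReal_le_iff_le_toReal (measure_ne_top _ _)]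
      exact hx
    have hint : Integrable (fun s => ‖G x s‖ ^ 2) (κ x) := by
      apply Integrable.of_bound ((hGm x).norm.pow_const 2).aestronglyMeasurable ((J : ℝ) ^ 2)
      apply ae_of_all
      intro s
      rw [Real.norm_of_nonneg (by positivity)]
      exact pow_le_pow_left₀ (norm_nonneg _) (hGb x s) 2
    have h1 : ∫ s in ({x} : Set X), ‖G x s‖ ^ 2 ∂(κ x) ≤ ∫ s, ‖G x s‖ ^ 2 ∂(κ x) :=
      setIntegral_le_integral hint (ae_of_all _ fun s => by positivity)
    rw [integral_singleton] at h1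
    refine le_trans ?_ h1
    rw [smul_eq_mul]
    exact mul_le_mul_of_nonneg_right hreal (by positivity)
  -- the mean of G on the diagonal
  have hmean : ∫ x, G x x ∂ν = J * ∫ x, F x * conj (u x) ∂ν := by
    simp only [hGdef]
    rw [integral_finset_sum]
    · have : ∀ j ∈ Finset.range J, ∫ x, F ((⇑T)^[j] x) * conj (u ((⇑T)^[j] x)) ∂ν =
          ∫ x, F x * conj (u x) ∂ν := by
        intro j _
        exact A1_intcomp (hTp j) (f := fun x => F x * conj (u x))
          (A1_B1_mul hF (A1_B1_conj hu)).meas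
      rw [Finset.sum_congr rfl this]
      simp
    · intro j _
      exact A1_B1_int (A1_BM (A1_B1_mul (A1_B1_comp hF (hTm j))
        (A1_B1_conj (A1_B1_comp hu (hTm j)))))
  have hGdm : Measurable (fun x => G x x) := Finset.measurable_sum _ fun j _ =>
    (hF.meas.comp (hTm j)).mul (Complex.continuous_conj.measurable.comp (hu.meas.comp (hTm j)))
  have hsq : ‖∫ x, G x x ∂ν‖ ^ 2 ≤ ∫ x, ‖G x x‖ ^ 2 ∂ν := by
    have hmem : MemLp (fun x => ‖G x x‖) 2 ν :=
      MemLp.of_bound hGdm.norm.aestronglyMeasurable J (ae_of_all _ fun x => by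
        rw [norm_norm]; exact hGb x x)
    have hv := variance_nonneg (fun x => ‖G x x‖) ν
    rw [variance_eq_sub hmem] at hv
    have h1 : ‖∫ x, G x x ∂ν‖ ≤ ∫ x, ‖G x x‖ ∂ν := norm_integral_le_integral_norm _
    have h2 : ‖∫ x, G x x ∂ν‖ ^ 2 ≤ (∫ x, ‖G x x‖ ∂ν) ^ 2 :=
      pow_le_pow_left₀ (norm_nonneg _) h1 2
    have h3 : (∫ x, ‖G x x‖ ∂ν) ^ 2 ≤ ∫ x, ‖G x x‖ ^ 2 ∂ν := by
      have : (∫ x, ((fun x => ‖G x x‖) ^ 2) x ∂ν) = ∫ x, ‖G x x‖ ^ 2 ∂ν := by
        simp [Pi.pow_apply]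
      rw [← this]
      linarith
    exact h2.trans h3
  -- the total
  have htot : ((∫ x, ∫ s, ‖G x s‖ ^ 2 ∂(κ x) ∂ν : ℝ) : ℂ) =
      ∑ j ∈ Finset.range J, ∑ j' ∈ Finset.range J, c j j' := by
    rw [← integral_complex_ofReal, integral_congr_ae (ae_of_all _ hin)]
    have hI : ∀ j j', Integrable (fun x => E j j' x * cex ν T (D j j') x) ν := fun j j' =>
      A1_B1_int (A1_BM (A1_B1_mul (hE1 j j') (cex_B1 (hD1 j j'))))
    rw [integral_finset_sum _ fun j _ => integrable_finset_sum _ fun j' _ => hI j j']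
    apply Finset.sum_congr rfl
    intro j _
    rw [integral_finset_sum _ fun j' _ => hI j j']
  have hintin : Integrable (fun x => ∫ s, ‖G x s‖ ^ 2 ∂(κ x)) ν := by
    have hm : Measurable (fun x => ((∫ s, ‖G x s‖ ^ 2 ∂(κ x) : ℝ) : ℂ)) := by
      have : (fun x => ((∫ s, ‖G x s‖ ^ 2 ∂(κ x) : ℝ) : ℂ)) = fun x =>
          ∑ j ∈ Finset.range J, ∑ j' ∈ Finset.range J, E j j' x * cex ν T (D j j') x :=
        funext hin
      rw [this]
      exact Finset.measurable_sum _ fun j _ => Finset.measurable_sum _ fun j' _ =>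
        (hE1 j j').meas.mul (cex_B1 (hD1 j j')).meas
    have hm2 : Measurable (fun x => ∫ s, ‖G x s‖ ^ 2 ∂(κ x)) := by
      have := Complex.measurable_re.comp hm
      exact this
    apply Integrable.of_bound hm2.aestronglyMeasurable ((J : ℝ) ^ 2)
    apply ae_of_all
    intro x
    rw [Real.norm_of_nonneg (integral_nonneg fun s => by positivity)]
    calc ∫ s, ‖G x s‖ ^ 2 ∂(κ x) ≤ ∫ _s, (J : ℝ) ^ 2 ∂(κ x) := by
          apply integral_mono_of_nonneg (ae_of_all _ fun s => by positivity)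
            (integrable_const _) (ae_of_all _ fun s =>
              pow_le_pow_left₀ (norm_nonneg _) (hGb x s) 2)
      _ = (J : ℝ) ^ 2 := by simp
  have hmain : a * ‖∫ x, G x x ∂ν‖ ^ 2 ≤
      ∑ j ∈ Finset.range J, ∑ j' ∈ Finset.range J, g (Nat.dist j j') := by
    calc a * ‖∫ x, G x x ∂ν‖ ^ 2 ≤ a * ∫ x, ‖G x x‖ ^ 2 ∂ν :=
          mul_le_mul_of_nonneg_left hsq ha.le
      _ = ∫ x, a * ‖G x x‖ ^ 2 ∂ν := by rw [integral_const_mul]
      _ ≤ ∫ x, ∫ s, ‖G x s‖ ^ 2 ∂(κ x) ∂ν := by
          apply integral_mono_ae _ hintin hdiag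
          apply Integrable.const_mul
          apply Integrable.of_bound (hGdm.norm.pow_const 2).aestronglyMeasurable ((J : ℝ) ^ 2)
          apply ae_of_all
          intro s
          rw [Real.norm_of_nonneg (by positivity)]
          exact pow_le_pow_left₀ (norm_nonneg _) (hGb s s) 2
      _ = ‖((∫ x, ∫ s, ‖G x s‖ ^ 2 ∂(κ x) ∂ν : ℝ) : ℂ)‖ := by
          rw [Complex.norm_real, Real.norm_of_nonneg]
          exact integral_nonneg fun x => integral_nonneg fun s => by positivity
      _ = ‖∑ j ∈ Finset.range J, ∑ j' ∈ Finset.range J, c j j'‖ := by rw [htot]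
      _ ≤ ∑ j ∈ Finset.range J, ∑ j' ∈ Finset.range J, ‖c j j'‖ := by
          refine (norm_sum_le _ _).trans (Finset.sum_le_sum fun j _ => norm_sum_le _ _)
      _ = ∑ j ∈ Finset.range J, ∑ j' ∈ Finset.range J, g (Nat.dist j j') := by
          simp_rw [hcn]
  have hcomb : ∑ j ∈ Finset.range J, ∑ j' ∈ Finset.range J, g (Nat.dist j j') ≤
      J * (1 + 2 * ∑ h ∈ Finset.Ico 1 J, g h) := by
    calc ∑ j ∈ Finset.range J, ∑ j' ∈ Finset.range J, g (Nat.dist j j') ≤
        ∑ _j ∈ Finset.range J, (1 + 2 * ∑ h ∈ Finset.Ico 1 J, g h) := by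
          apply Finset.sum_le_sum
          intro j hj
          have := A1_row g (fun n => norm_nonneg _) J j (Finset.mem_range.1 hj)
          linarith
      _ = J * (1 + 2 * ∑ h ∈ Finset.Ico 1 J, g h) := by
          rw [Finset.sum_const, Finset.card_range, nsmul_eq_mul]
  have hfin : a * ((J : ℝ) ^ 2 * ‖∫ x, F x * conj (u x) ∂ν‖ ^ 2) ≤
      J * (1 + 2 * ∑ h ∈ Finset.Ico 1 J, g h) := by
    have : ‖∫ x, G x x ∂ν‖ ^ 2 = (J : ℝ) ^ 2 * ‖∫ x, F x * conj (u x) ∂ν‖ ^ 2 := by
      rw [hmean, norm_mul, mul_pow]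
      simp
    rw [← this]
    exact hmain.trans hcomb
  have hg' : ∀ h, g h = ‖∫ x, cex ν T (fun y => F y * conj (F ((⇑T)^[h] y))) x *
          conj (u x) * u ((⇑T)^[h] x) ∂ν‖ := by
    intro h
    simp only [hgdef, hEdef, hDdef, Function.iterate_zero, id_eq, mul_assoc]
  simp_rw [← hg']
  have key : a * ‖∫ x, F x * conj (u x) ∂ν‖ ^ 2 * (J : ℝ) ^ 2 ≤
      (1 / J + 2 / J * ∑ h ∈ Finset.Ico 1 J, g h) * (J : ℝ) ^ 2 := by
    have e : (1 / J + 2 / J * ∑ h ∈ Finset.Ico 1 J, g h) * (J : ℝ) ^ 2 =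
        J * (1 + 2 * ∑ h ∈ Finset.Ico 1 J, g h) := by
      field_simp
    rw [e]
    linarith [hfin]
  exact le_of_mul_le_mul_right key (by positivity)

end Pool.Agent.Sar
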