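import Pool.Agent.Sar.K2b
import Pool.Agent.Sar.J1

/-! MP_13664e_an, module A2: domination of an invariant coupling. -/

set_option autoImplicit false
set_option linter.unusedSectionVars false

namespace Pool.Agent.Sar

open MeasureTheory ProbabilityTheory Filter Topology
open scoped ENNReal ComplexConjugate

variable {X : Type*} [mX : MeasurableSpace X] [StandardBorelSpace X] [Nonempty X]
  {ν : Measure X} [IsProbabilityMeasure ν]

/-- `E(F∘T^n · conj (F∘T^n') | Kr)` -/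
noncomputable def WW (ν : Measure X) [IsFiniteMeasure ν] (T : X ≃ᵐ X) (F : X → ℂ) (n n' : ℕ) :
    X → ℂ :=
  cex ν T (fun y => F ((⇑T)^[n] y) * conj (F ((⇑T)^[n'] y)))

theorem A2_atom {κ : Measure X} [IsProbabilityMeasure κ] {x : X} {a : ℝ}
    (hx : ENNReal.ofReal a ≤ κ {x}) {h : X → ℝ} (h0 : ∀ y, 0 ≤ h y) (hi : Integrable h κ) :
    a * h x ≤ ∫ y, h y ∂κ := by
  have h1 : a ≤ κ.real {x} := (ENNReal.ofReal_le_iff_le_toReal (measure_ne_top _ _)).mp hx
  have h2 : ∫ y in {x}, h y ∂κ ≤ ∫ y, h y ∂κ := setIntegral_le_integral hi (ae_of_all _ h0)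
  rw [integral_singleton, smul_eq_mul] at h2
  exact (mul_le_mul_of_nonneg_right h1 (h0 x)).trans h2

theorem A2_jensen {Y : Type*} [MeasurableSpace Y] {Q : Measure Y} [IsProbabilityMeasure Q]
    {g : Y → ℂ} {C : ℝ} (hg : Measurable g) (hC : ∀ y, ‖g y‖ ≤ C) :
    ‖∫ y, g y ∂Q‖ ^ 2 ≤ ∫ y, ‖g y‖ ^ 2 ∂Q := by
  have hi : Integrable (fun y => ‖g y‖) Q :=
    Integrable.of_bound hg.norm.aestronglyMeasurable C (ae_of_all _ fun y => by
      rw [norm_norm]; exact hC y)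
  have hi2 : Integrable (fun y => ‖g y‖ ^ 2) Q :=
    Integrable.of_bound (hg.norm.pow_const 2).aestronglyMeasurable (C ^ 2)
      (ae_of_all _ fun y => by
        rw [norm_pow, norm_norm]
        exact pow_le_pow_left₀ (norm_nonneg _) (hC y) 2)
  set m := ∫ y, ‖g y‖ ∂Q with hm
  have h1 : 0 ≤ ∫ y, (‖g y‖ - m) ^ 2 ∂Q := integral_nonneg fun y => sq_nonneg _
  have h2 : ∫ y, (‖g y‖ - m) ^ 2 ∂Q = ∫ y, ‖g y‖ ^ 2 ∂Q - m ^ 2 := by
    have h3 : ∀ y, (‖g y‖ - m) ^ 2 = ‖g y‖ ^ 2 - (2 * m) * ‖g y‖ + m ^ 2 := fun y => by ring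
    simp only [h3]
    have h6 : Integrable (fun y => ‖g y‖ ^ 2 - 2 * m * ‖g y‖) Q := hi2.sub (hi.const_mul (2 * m))
    rw [integral_add h6 (integrable_const _),
      integral_sub hi2 (hi.const_mul _), integral_const_mul, integral_const, ← hm]
    simp
    ring
  have h4 : ‖∫ y, g y ∂Q‖ ≤ m := norm_integral_le_integral_norm _
  have h5 : ‖∫ y, g y ∂Q‖ ^ 2 ≤ m ^ 2 := pow_le_pow_left₀ (norm_nonneg _) h4 2
  linarith

theorem A2_F_BM {F : X → ℂ} (hF : B1 F) (T : X ≃ᵐ X) (n : ℕ) : BM (fun y => F ((⇑T)^[n] y)) :=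
  ⟨hF.meas.comp (T.measurable.iterate n), 1, fun x => hF.bdd _⟩

/-- the kernel `∑ F(T^n s) conj F(T^n y)` -/
noncomputable def A2_g (T : X ≃ᵐ X) (F : X → ℂ) (N : ℕ) (s y : X) : ℂ :=
  ∑ n ∈ Finset.range N, F ((⇑T)^[n] s) * conj (F ((⇑T)^[n] y))

theorem A2_sq (T : X ≃ᵐ X) (F : X → ℂ) (N : ℕ) (s y : X) :
    ((‖A2_g T F N s y‖ ^ 2 : ℝ) : ℂ) = ∑ n ∈ Finset.range N, ∑ n' ∈ Finset.range N,
      (F ((⇑T)^[n] s) * conj (F ((⇑T)^[n'] s))) *
        (conj (F ((⇑T)^[n] y)) * F ((⇑T)^[n'] y)) := by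
  rw [← Complex.normSq_eq_norm_sq, ← Complex.mul_conj]
  unfold A2_g
  rw [map_sum, Finset.sum_mul_sum]
  refine Finset.sum_congr rfl fun n _ => Finset.sum_congr rfl fun n' _ => ?_
  rw [map_mul, Complex.conj_conj]
  ring

theorem A2_point {T : X ≃ᵐ X} {a : ℝ} (ha : 0 < a) {F : X → ℂ} (hF : B1 F) (N : ℕ) {x y : X}
    (hx : ENNReal.ofReal a ≤ condExpKernel ν (Kr ν T) x {x})
    (hy : ENNReal.ofReal a ≤ condExpKernel ν (Kr ν T) y {y}) :
    a ^ 2 * ‖A2_g T F N x y‖ ^ 2 ≤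
      (∑ n ∈ Finset.range N, ∑ n' ∈ Finset.range N,
        WW ν T F n n' x * conj (WW ν T F n n' y)).re := by
  have hf : ∀ n, BM (fun y => F ((⇑T)^[n] y)) := A2_F_BM hF T
  have hff : ∀ n n', BM (fun y => F ((⇑T)^[n] y) * conj (F ((⇑T)^[n'] y))) := fun n n' =>
    K2b_mul (hf n) (K2b_conj (hf n'))
  have hff' : ∀ n n', BM (fun y => conj (F ((⇑T)^[n] y)) * F ((⇑T)^[n'] y)) := fun n n' =>
    K2b_mul (K2b_conj (hf n)) (hf n')
  set κ := condExpKernel ν (Kr ν T) x with hκ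
  set κ' := condExpKernel ν (Kr ν T) y with hκ'
  set H : X → ℝ := fun t => ∫ s, ‖A2_g T F N s t‖ ^ 2 ∂κ with hH
  have e1 : ∀ t, ((H t : ℝ) : ℂ) = ∑ n ∈ Finset.range N, ∑ n' ∈ Finset.range N,
      WW ν T F n n' x * (conj (F ((⇑T)^[n] t)) * F ((⇑T)^[n'] t)) := by
    intro t
    rw [hH]
    change ((∫ s, ‖A2_g T F N s t‖ ^ 2 ∂κ : ℝ) : ℂ) = _
    rw [← integral_complex_ofReal]
    simp only [A2_sq]
    rw [integral_finsetSum _ fun n _ => integrable_finsetSum _ fun n' _ =>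
      (K2b_int (hff n n')).mul_const _]
    refine Finset.sum_congr rfl fun n _ => ?_
    rw [integral_finsetSum _ fun n' _ => (K2b_int (hff n n')).mul_const _]
    refine Finset.sum_congr rfl fun n' _ => ?_
    rw [integral_mul_const]
    rfl
  have e2 : ((∫ t, H t ∂κ' : ℝ) : ℂ) = ∑ n ∈ Finset.range N, ∑ n' ∈ Finset.range N,
      WW ν T F n n' x * conj (WW ν T F n n' y) := by
    rw [← integral_complex_ofReal]
    simp only [e1]
    rw [integral_finsetSum _ fun n _ => integrable_finsetSum _ fun n' _ =>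
      (K2b_int (hff' n n')).const_mul _]
    refine Finset.sum_congr rfl fun n _ => ?_
    rw [integral_finsetSum _ fun n' _ => (K2b_int (hff' n n')).const_mul _]
    refine Finset.sum_congr rfl fun n' _ => ?_
    rw [integral_const_mul]
    congr 1
    unfold WW
    rw [← cex_conj]
    unfold cex
    refine integral_congr_ae (ae_of_all _ fun t => ?_)
    change conj (F ((⇑T)^[n] t)) * F ((⇑T)^[n'] t) =
      conj (F ((⇑T)^[n] t) * conj (F ((⇑T)^[n'] t)))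
    rw [map_mul, Complex.conj_conj]
  have hgi : ∀ t, Integrable (fun s => ‖A2_g T F N s t‖ ^ 2) κ := by
    intro t
    have hm : Measurable (fun s => A2_g T F N s t) :=
      Finset.measurable_fun_sum _ fun n _ => (hf n).meas.mul_const _
    refine Integrable.of_bound (hm.norm.pow_const 2).aestronglyMeasurable ((N : ℝ) ^ 2)
      (ae_of_all _ fun s => ?_)
    rw [norm_pow, norm_norm]
    refine pow_le_pow_left₀ (norm_nonneg _) ?_ 2
    refine (norm_sum_le _ _).trans ?_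
    refine (Finset.sum_le_sum (g := fun _ => (1 : ℝ)) fun n _ => ?_).trans (by simp)
    rw [norm_mul, RCLike.norm_conj]
    exact mul_le_one₀ (hF.bdd _) (norm_nonneg _) (hF.bdd _)
  have hHi : Integrable H κ' := by
    have h1 : Integrable (fun t => ((H t : ℝ) : ℂ)) κ' := by
      simp only [e1]
      exact integrable_finsetSum _ fun n _ => integrable_finsetSum _ fun n' _ =>
        (K2b_int (hff' n n')).const_mul _
    have h2 := h1.re
    simpa using h2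
  have hH0 : ∀ t, 0 ≤ H t := fun t => integral_nonneg fun s => by positivity
  have i1 : a * ‖A2_g T F N x y‖ ^ 2 ≤ H y :=
    A2_atom hx (h := fun s => ‖A2_g T F N s y‖ ^ 2) (fun s => by positivity) (hgi y)
  have i2 : a * H y ≤ ∫ t, H t ∂κ' := A2_atom hy hH0 hHi
  rw [← e2, Complex.ofReal_re]
  calc a ^ 2 * ‖A2_g T F N x y‖ ^ 2 = a * (a * ‖A2_g T F N x y‖ ^ 2) := by ring
    _ ≤ a * H y := mul_le_mul_of_nonneg_left i1 ha.le
    _ ≤ _ := i2

theorem A2 {T : X ≃ᵐ X} (hT : MeasurePreserving T ν ν) {a : ℝ} (ha : 0 < a)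
    (hat : ∀ᵐ x ∂ν, ENNReal.ofReal a ≤ condExpKernel ν (Kr ν T) x {x})
    {Q : Measure (X × X)} [IsProbabilityMeasure Q] (hc : Coup ν Q)
    (inv : Q.map (Prod.map T T) = Q) {F : X → ℂ} (hF : B1 F) {N : ℕ} (hN : 1 ≤ N) :
    a ^ 2 * ‖∫ z : X × X, F z.1 * conj (F z.2) ∂Q‖ ^ 2 ≤
      ((N : ℝ) ^ 2)⁻¹ * ∑ n ∈ Finset.range N, ∑ n' ∈ Finset.range N,
        (∫ z : X × X, WW ν T F n n' z.1 * conj (WW ν T F n n' z.2) ∂Q).re := by
  have hf : ∀ n, BM (fun y => F ((⇑T)^[n] y)) := A2_F_BM hF T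
  have hmp : MeasurePreserving (Prod.map T T) Q Q :=
    ⟨T.measurable.prodMap T.measurable, inv⟩
  have hfz : ∀ n, Measurable (fun z : X × X => F ((⇑T)^[n] z.1) * conj (F ((⇑T)^[n] z.2))) :=
    fun n => ((hf n).meas.comp measurable_fst).mul
      ((K2b_conj (hf n)).meas.comp measurable_snd)
  have hfb : ∀ n (z : X × X), ‖F ((⇑T)^[n] z.1) * conj (F ((⇑T)^[n] z.2))‖ ≤ 1 := by
    intro n z
    rw [norm_mul, RCLike.norm_conj]
    exact mul_le_one₀ (hF.bdd _) (norm_nonneg _) (hF.bdd _)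
  have hshift : ∀ n, ∫ z : X × X, F ((⇑T)^[n] z.1) * conj (F ((⇑T)^[n] z.2)) ∂Q =
      ∫ z : X × X, F z.1 * conj (F z.2) ∂Q := by
    intro n
    have h1 := hmp.iterate n
    have h2 : ∫ z, F z.1 * conj (F z.2) ∂(Q.map (Prod.map T T)^[n]) =
        ∫ z, F ((Prod.map T T)^[n] z).1 * conj (F ((Prod.map T T)^[n] z).2) ∂Q :=
      integral_map h1.measurable.aemeasurable (hfz 0).aestronglyMeasurable
    rw [h1.map_eq] at h2
    rw [h2]
    refine integral_congr_ae (ae_of_all _ fun z => ?_)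
    simp only [Prod.map_iterate, Prod.map_fst, Prod.map_snd]
  set g : X × X → ℂ := fun z => A2_g T F N z.1 z.2 with hg
  have hgm : Measurable g := Finset.measurable_fun_sum _ fun n _ => hfz n
  have hgb : ∀ z, ‖g z‖ ≤ N := by
    intro z
    refine (norm_sum_le _ _).trans ?_
    exact (Finset.sum_le_sum (g := fun _ => (1 : ℝ)) fun n _ => hfb n z).trans (by simp)
  have hgi : ∫ z, g z ∂Q = N * ∫ z : X × X, F z.1 * conj (F z.2) ∂Q := by
    have h1 : ∫ z, g z ∂Q = ∑ n ∈ Finset.range N,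
        ∫ z : X × X, F ((⇑T)^[n] z.1) * conj (F ((⇑T)^[n] z.2)) ∂Q :=
      integral_finsetSum _ fun n _ =>
        Integrable.of_bound (hfz n).aestronglyMeasurable 1 (ae_of_all _ (hfb n))
    rw [h1]
    simp only [hshift]
    simp
  have hWB : ∀ n n', BM (WW ν T F n n') := fun n n' =>
    cex_BM (K2b_mul (hf n) (K2b_conj (hf n')))
  have hWi : ∀ n n', Integrable
      (fun z : X × X => WW ν T F n n' z.1 * conj (WW ν T F n n' z.2)) Q := by
    intro n n'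
    have hm := (((hWB n n').meas.comp measurable_fst).mul
      ((K2b_conj (hWB n n')).meas.comp measurable_snd) :
      Measurable (fun z : X × X => WW ν T F n n' z.1 * conj (WW ν T F n n' z.2)))
    obtain ⟨C, hC⟩ := (hWB n n').bdd
    refine Integrable.of_bound hm.aestronglyMeasurable (C * C) (ae_of_all _ fun z => ?_)
    rw [norm_mul, RCLike.norm_conj]
    exact mul_le_mul (hC _) (hC _) (norm_nonneg _) ((norm_nonneg _).trans (hC z.1))
  have hjen : ‖∫ z, g z ∂Q‖ ^ 2 ≤ ∫ z, ‖g z‖ ^ 2 ∂Q := A2_jensen hgm hgb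
  have hgi2 : Integrable (fun z => ‖g z‖ ^ 2) Q :=
    Integrable.of_bound (hgm.norm.pow_const 2).aestronglyMeasurable ((N : ℝ) ^ 2)
      (ae_of_all _ fun z => by
        rw [norm_pow, norm_norm]
        exact pow_le_pow_left₀ (norm_nonneg _) (hgb z) 2)
  set R : X × X → ℂ := fun z => ∑ n ∈ Finset.range N, ∑ n' ∈ Finset.range N,
    WW ν T F n n' z.1 * conj (WW ν T F n n' z.2) with hR
  have hRi : Integrable R Q :=
    integrable_finsetSum _ fun n _ => integrable_finsetSum _ fun n' _ => hWi n n'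
  have hpt : ∀ᵐ z ∂Q, a ^ 2 * ‖g z‖ ^ 2 ≤ (R z).re := by
    filter_upwards [hc.ae_fst hat, hc.ae_snd hat] with z hz1 hz2
    exact A2_point ha hF N hz1 hz2
  have hint : a ^ 2 * ∫ z, ‖g z‖ ^ 2 ∂Q ≤ ∫ z, (R z).re ∂Q := by
    rw [← integral_const_mul]
    exact integral_mono_ae (hgi2.const_mul _) hRi.re hpt
  have hRe : ∫ z, (R z).re ∂Q = ∑ n ∈ Finset.range N, ∑ n' ∈ Finset.range N,
      (∫ z : X × X, WW ν T F n n' z.1 * conj (WW ν T F n n' z.2) ∂Q).re := by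
    have h1 : ∫ z, (R z).re ∂Q = (∫ z, R z ∂Q).re := integral_re hRi
    have h2 : ∫ z, R z ∂Q = ∑ n ∈ Finset.range N, ∑ n' ∈ Finset.range N,
        ∫ z : X × X, WW ν T F n n' z.1 * conj (WW ν T F n n' z.2) ∂Q := by
      rw [hR, integral_finsetSum _ fun n _ => integrable_finsetSum _ fun n' _ => hWi n n']
      exact Finset.sum_congr rfl fun n _ => integral_finsetSum _ fun n' _ => hWi n n'
    rw [h1, h2, Complex.re_sum]
    exact Finset.sum_congr rfl fun n _ => Complex.re_sum _ _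
  have hN0 : (0 : ℝ) < (N : ℝ) ^ 2 := by positivity
  rw [← hRe, ← div_eq_inv_mul, le_div_iff₀ hN0]
  rw [hgi, norm_mul, Complex.norm_natCast, mul_pow] at hjen
  calc a ^ 2 * ‖∫ z : X × X, F z.1 * conj (F z.2) ∂Q‖ ^ 2 * (N : ℝ) ^ 2
      = a ^ 2 * ((N : ℝ) ^ 2 * ‖∫ z : X × X, F z.1 * conj (F z.2) ∂Q‖ ^ 2) := by ring
    _ ≤ a ^ 2 * ∫ z, ‖g z‖ ^ 2 ∂Q := mul_le_mul_of_nonneg_left hjen (by positivity)
    _ ≤ _ := hint

end Pool.Agent.Sar
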