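import Pool.Agent.Sar.N1
import Pool.Agent.Sar.B0

/-! MP_13664e_an, module B1: the criterion of Daboussi–Delange, Katai, Bourgain–Sarnak–Ziegler,
dyadic blocks of primes, averaged form. -/

set_option autoImplicit false

namespace Pool.Agent.Sar

open Filter Topology
open scoped ComplexConjugate

private theorem B1_swap (P : Finset ℕ) (hP : ∀ p ∈ P, p.Prime) (f : ℕ → ℂ) (N : ℕ) :
    ∑ n ∈ Finset.Icc 1 N, f n * ((P.filter (fun p => p ∣ n)).card : ℂ) =
      ∑ p ∈ P, ∑ m ∈ Finset.Icc 1 (N / p), f (p * m) := by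
  have h1 : ∀ n ∈ Finset.Icc 1 N, f n * ((P.filter (fun p => p ∣ n)).card : ℂ) =
      ∑ p ∈ P, if p ∣ n then f n else 0 := by
    intro n _
    rw [Finset.card_filter, Nat.cast_sum, Finset.mul_sum]
    refine Finset.sum_congr rfl fun p _ => ?_
    split_ifs <;> simp
  rw [Finset.sum_congr rfl h1, Finset.sum_comm]
  refine Finset.sum_congr rfl fun p hp => ?_
  rw [← Finset.sum_filter]
  have hp0 := (hP p hp).pos
  symm
  refine Finset.sum_nbij' (fun m => p * m) (fun n => n / p) ?_ ?_ ?_ ?_ ?_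
  · intro m hm
    rw [Finset.mem_Icc] at hm
    rw [Finset.mem_filter, Finset.mem_Icc]
    have h2 := (Nat.le_div_iff_mul_le hp0).1 hm.2
    refine ⟨⟨Nat.mul_pos hp0 hm.1, by rw [mul_comm]; exact h2⟩, dvd_mul_right _ _⟩
  · intro n hn
    rw [Finset.mem_filter, Finset.mem_Icc] at hn
    rw [Finset.mem_Icc]
    exact ⟨Nat.div_pos (Nat.le_of_dvd (by omega) hn.2) hp0, Nat.div_le_div_right hn.1.2⟩
  · intro m _
    exact Nat.mul_div_cancel_left m hp0
  · intro n hn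
    rw [Finset.mem_filter] at hn
    exact Nat.mul_div_cancel' hn.2
  · intro m _
    rfl

private theorem B1_mob {p : ℕ} (hp : p.Prime) (m : ℕ) (z : ℂ) :
    ‖z * ((ArithmeticFunction.moebius (p * m) : ℤ) : ℂ) +
      z * ((ArithmeticFunction.moebius m : ℤ) : ℂ)‖ ≤ if p ∣ m then ‖z‖ else 0 := by
  split_ifs with h
  · have h0 : ArithmeticFunction.moebius (p * m) = 0 := by
      apply ArithmeticFunction.moebius_eq_zero_of_not_squarefree
      intro hs
      obtain ⟨k, rfl⟩ := h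
      have := hs p ⟨k, by ring⟩
      exact hp.one_lt.ne' (Nat.isUnit_iff.1 this)
    rw [h0, Int.cast_zero, mul_zero, zero_add, norm_mul]
    have h1 : ‖((ArithmeticFunction.moebius m : ℤ) : ℂ)‖ ≤ 1 := by
      rw [Complex.norm_intCast]
      exact_mod_cast ArithmeticFunction.abs_moebius_le_one
    exact mul_le_of_le_one_right (norm_nonneg _) h1
  · have h1 : ArithmeticFunction.moebius (p * m) = - ArithmeticFunction.moebius m := by
      rw [ArithmeticFunction.isMultiplicative_moebius.map_mul_of_coprime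
        ((Nat.Prime.coprime_iff_not_dvd hp).2 h), ArithmeticFunction.moebius_apply_prime hp]
      ring
    rw [h1, Int.cast_neg, mul_neg, neg_add_cancel, norm_zero]

private theorem B1_cut {α : Type*} [AddCommMonoid α] {D p N : ℕ} (hD : 0 < D) (hp : D ≤ p)
    (F : ℕ → α) : ∑ m ∈ Finset.Icc 1 (N / D), (if p * m ≤ N then F m else 0) =
      ∑ m ∈ Finset.Icc 1 (N / p), F m := by
  rw [← Finset.sum_filter]
  refine Finset.sum_congr ?_ fun _ _ => rfl
  ext m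
  rw [Finset.mem_filter, Finset.mem_Icc, Finset.mem_Icc, Nat.le_div_iff_mul_le hD,
    Nat.le_div_iff_mul_le (hD.trans_le hp)]
  constructor
  · rintro ⟨⟨h1, _⟩, h3⟩
    exact ⟨h1, by rw [mul_comm]; exact h3⟩
  · rintro ⟨h1, h2⟩
    exact ⟨⟨h1, le_trans (Nat.mul_le_mul_left m hp) h2⟩, by rw [mul_comm]; exact h2⟩

private theorem B1_block {a : ℕ → ℂ} {B : ℝ} (ha : ∀ n, ‖a n‖ ≤ B)
    (g : Finset ℕ) {D : ℕ} (hD : 0 < D) (hg : ∀ p ∈ g, D ≤ p) (c : ℕ → ℕ → ℝ) {δ : ℝ} (N : ℕ)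
    (hc : ∀ p ∈ g, ∀ p' ∈ g, p ≠ p' →
      ‖∑ m ∈ Finset.Icc 1 (N / max p p'), a (p * m) * conj (a (p' * m))‖ ≤
        (N : ℝ) / D * (c p p' + δ)) :
    ‖∑ p ∈ g, ∑ m ∈ Finset.Icc 1 (N / p), a (p * m) *
      ((ArithmeticFunction.moebius m : ℤ) : ℂ)‖ ^ 2 ≤
      ((N : ℝ) / D) ^ 2 * (B ^ 2 * g.card + ∑ p ∈ g, ∑ p' ∈ g.erase p, (c p p' + δ)) := by
  have hB : 0 ≤ B := (norm_nonneg _).trans (ha 0)
  have hND : ((N / D : ℕ) : ℝ) ≤ (N : ℝ) / D := Nat.cast_div_le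
  have hND0 : 0 ≤ (N : ℝ) / D := by positivity
  set b : ℕ → ℕ → ℂ := fun p m => if p * m ≤ N then a (p * m) else 0 with hb
  have hb1 : ∀ p m, ‖b p m‖ ≤ B := by
    intro p m
    simp only [hb]
    split_ifs
    · exact ha _
    · simpa using hB
  -- rearrangement
  have h1 : ∑ p ∈ g, ∑ m ∈ Finset.Icc 1 (N / p), a (p * m) *
      ((ArithmeticFunction.moebius m : ℤ) : ℂ) =
      ∑ m ∈ Finset.Icc 1 (N / D), (∑ p ∈ g, b p m) *
        ((ArithmeticFunction.moebius m : ℤ) : ℂ) := by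
    have h2 : ∀ p ∈ g, ∑ m ∈ Finset.Icc 1 (N / p), a (p * m) *
        ((ArithmeticFunction.moebius m : ℤ) : ℂ) =
        ∑ m ∈ Finset.Icc 1 (N / D), b p m * ((ArithmeticFunction.moebius m : ℤ) : ℂ) := by
      intro p hp
      rw [← B1_cut hD (hg p hp)]
      refine Finset.sum_congr rfl fun m _ => ?_
      simp only [hb]
      split_ifs <;> simp
    rw [Finset.sum_congr rfl h2, Finset.sum_comm]
    refine Finset.sum_congr rfl fun m _ => ?_
    rw [Finset.sum_mul]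
  have h2 : ‖∑ m ∈ Finset.Icc 1 (N / D), (∑ p ∈ g, b p m) *
        ((ArithmeticFunction.moebius m : ℤ) : ℂ)‖ ≤
      ∑ m ∈ Finset.Icc 1 (N / D), ‖∑ p ∈ g, b p m‖ := by
    refine (norm_sum_le _ _).trans (Finset.sum_le_sum fun m _ => ?_)
    rw [norm_mul]
    have h1 : ‖((ArithmeticFunction.moebius m : ℤ) : ℂ)‖ ≤ 1 := by
      rw [Complex.norm_intCast]
      exact_mod_cast ArithmeticFunction.abs_moebius_le_one
    exact mul_le_of_le_one_right (norm_nonneg _) h1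
  have h3 : (∑ m ∈ Finset.Icc 1 (N / D), ‖∑ p ∈ g, b p m‖) ^ 2 ≤
      ((N : ℝ) / D) * ∑ m ∈ Finset.Icc 1 (N / D), ‖∑ p ∈ g, b p m‖ ^ 2 := by
    refine sq_sum_le_card_mul_sum_sq.trans ?_
    rw [Nat.card_Icc, Nat.add_sub_cancel]
    exact mul_le_mul_of_nonneg_right hND (Finset.sum_nonneg fun _ _ => by positivity)
  -- expansion
  have h4 : ∑ m ∈ Finset.Icc 1 (N / D), ‖∑ p ∈ g, b p m‖ ^ 2 ≤
      ∑ p ∈ g, ∑ p' ∈ g, ‖∑ m ∈ Finset.Icc 1 (N / D), b p m * conj (b p' m)‖ := by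
    have e1 : ((∑ m ∈ Finset.Icc 1 (N / D), ‖∑ p ∈ g, b p m‖ ^ 2 : ℝ) : ℂ) =
        ∑ p ∈ g, ∑ p' ∈ g, ∑ m ∈ Finset.Icc 1 (N / D), b p m * conj (b p' m) := by
      have e2 : ∀ m ∈ Finset.Icc 1 (N / D), (((‖∑ p ∈ g, b p m‖ ^ 2 : ℝ)) : ℂ) =
          ∑ p ∈ g, ∑ p' ∈ g, b p m * conj (b p' m) := by
        intro m _
        rw [← Finset.sum_mul_sum, ← map_sum, Complex.mul_conj']
        push_cast
        rfl
      rw [Complex.ofReal_sum, Finset.sum_congr rfl e2, Finset.sum_comm]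
      refine Finset.sum_congr rfl fun p _ => ?_
      rw [Finset.sum_comm]
    have e3 : ∑ m ∈ Finset.Icc 1 (N / D), ‖∑ p ∈ g, b p m‖ ^ 2 =
        ‖((∑ m ∈ Finset.Icc 1 (N / D), ‖∑ p ∈ g, b p m‖ ^ 2 : ℝ) : ℂ)‖ := by
      rw [Complex.norm_real, Real.norm_eq_abs, abs_of_nonneg
        (Finset.sum_nonneg fun _ _ => by positivity)]
    rw [e3, e1]
    refine (norm_sum_le _ _).trans (Finset.sum_le_sum fun p _ => ?_)
    exact norm_sum_le _ _
  have h5 : ∀ p ∈ g, ∑ p' ∈ g, ‖∑ m ∈ Finset.Icc 1 (N / D), b p m * conj (b p' m)‖ ≤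
      ((N : ℝ) / D) * (B ^ 2 + ∑ p' ∈ g.erase p, (c p p' + δ)) := by
    intro p hp
    rw [← Finset.add_sum_erase _ _ hp, mul_add]
    refine add_le_add ?_ ?_
    · refine (norm_sum_le _ _).trans ?_
      have h6 : ∀ m ∈ Finset.Icc 1 (N / D), ‖b p m * conj (b p m)‖ ≤ B ^ 2 := by
        intro m _
        rw [norm_mul, RCLike.norm_conj, ← pow_two]
        exact pow_le_pow_left₀ (norm_nonneg _) (hb1 p m) 2
      refine (Finset.sum_le_card_nsmul _ _ _ h6).trans ?_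
      rw [nsmul_eq_mul, Nat.card_Icc, Nat.add_sub_cancel]
      exact mul_le_mul_of_nonneg_right hND (by positivity)
    · rw [Finset.mul_sum]
      refine Finset.sum_le_sum fun p' hp' => ?_
      rw [Finset.mem_erase] at hp'
      have h7 : ∑ m ∈ Finset.Icc 1 (N / D), b p m * conj (b p' m) =
          ∑ m ∈ Finset.Icc 1 (N / max p p'), a (p * m) * conj (a (p' * m)) := by
        rw [← B1_cut hD ((hg p hp).trans (le_max_left p p'))]
        refine Finset.sum_congr rfl fun m _ => ?_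
        simp only [hb]
        by_cases h8 : p * m ≤ N
        · by_cases h9 : p' * m ≤ N
          · rw [if_pos h8, if_pos h9, if_pos]
            rcases max_choice p p' with h | h <;> rw [h] <;> assumption
          · rw [if_pos h8, if_neg h9, map_zero, mul_zero, if_neg]
            intro h10
            exact h9 ((Nat.mul_le_mul_right m (le_max_right p p')).trans h10)
        · rw [if_neg h8, zero_mul, if_neg]
          intro h10
          exact h8 ((Nat.mul_le_mul_right m (le_max_left p p')).trans h10)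
      rw [h7]
      exact hc p hp p' hp'.2 hp'.1.symm
  have h6 : ∑ p ∈ g, ∑ p' ∈ g, ‖∑ m ∈ Finset.Icc 1 (N / D), b p m * conj (b p' m)‖ ≤
      ((N : ℝ) / D) * (B ^ 2 * g.card + ∑ p ∈ g, ∑ p' ∈ g.erase p, (c p p' + δ)) := by
    refine (Finset.sum_le_sum h5).trans (le_of_eq ?_)
    rw [← Finset.mul_sum, Finset.sum_add_distrib, Finset.sum_const, nsmul_eq_mul]
    ring
  rw [h1]
  calc ‖∑ m ∈ Finset.Icc 1 (N / D), (∑ p ∈ g, b p m) *
        ((ArithmeticFunction.moebius m : ℤ) : ℂ)‖ ^ 2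
      ≤ (∑ m ∈ Finset.Icc 1 (N / D), ‖∑ p ∈ g, b p m‖) ^ 2 :=
        pow_le_pow_left₀ (norm_nonneg _) h2 2
    _ ≤ ((N : ℝ) / D) * ∑ m ∈ Finset.Icc 1 (N / D), ‖∑ p ∈ g, b p m‖ ^ 2 := h3
    _ ≤ ((N : ℝ) / D) * (((N : ℝ) / D) *
        (B ^ 2 * g.card + ∑ p ∈ g, ∑ p' ∈ g.erase p, (c p p' + δ))) :=
        mul_le_mul_of_nonneg_left (h4.trans h6) hND0
    _ = _ := by ring

private theorem B1_card (i : ℕ) : ((blk i).card : ℝ) ≤ 2 ^ i := by
  have h1 : (blk i).card ≤ 2 ^ i := by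
    refine (Finset.card_filter_le _ _).trans ?_
    rw [Nat.card_Ico, pow_succ]
    omega
  exact_mod_cast h1

private theorem B1_mem {i p : ℕ} (hp : p ∈ blk i) : p.Prime ∧ 2 ^ i ≤ p ∧ Nat.log 2 p = i := by
  unfold blk at hp
  rw [Finset.mem_filter, Finset.mem_Ico] at hp
  exact ⟨hp.2, hp.1.1, Nat.log_eq_of_pow_le_of_lt_pow hp.1.1 hp.1.2⟩

private theorem B1_block2 {a : ℕ → ℂ} {B : ℝ} (ha : ∀ n, ‖a n‖ ≤ B) {i : ℕ} (hi : 1 ≤ i)
    (g : Finset ℕ) (hg : g ⊆ blk i) (c : ℕ → ℕ → ℝ) {δ : ℝ} (hδ : 0 < δ) (N : ℕ)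
    {C : ℝ} (hC : pib i ≤ C * 2 ^ i / i)
    (hs : ∑ p ∈ g, ∑ p' ∈ g.erase p, c p p' ≤ δ * pib i ^ 2)
    (hc : ∀ p ∈ g, ∀ p' ∈ g, p ≠ p' →
      ‖∑ m ∈ Finset.Icc 1 (N / max p p'), a (p * m) * conj (a (p' * m))‖ ≤
        (N : ℝ) / 2 ^ i * (c p p' + δ)) :
    ‖∑ p ∈ g, ∑ m ∈ Finset.Icc 1 (N / p), a (p * m) *
      ((ArithmeticFunction.moebius m : ℤ) : ℂ)‖ ≤
      N * (B * (3 / 4) ^ i + 2 * Real.sqrt δ * C / i) := by
  have hB : 0 ≤ B := (norm_nonneg _).trans (ha 0)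
  have hgc : (g.card : ℝ) ≤ pib i := by
    unfold pib
    exact_mod_cast Finset.card_le_card hg
  have hp0 : 0 ≤ pib i := by unfold pib; positivity
  have hi0 : (0 : ℝ) < i := by exact_mod_cast hi
  have h2i : (0 : ℝ) < 2 ^ i := by positivity
  have hC0 : 0 ≤ C := by
    by_contra h
    push Not at h
    have : C * 2 ^ i / i < 0 := div_neg_of_neg_of_pos (mul_neg_of_neg_of_pos h h2i) hi0
    linarith
  have h1 := B1_block ha g (D := 2 ^ i) (by positivity) (fun p hp => (B1_mem (hg hp)).2.1) c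
    (δ := δ) N (by
      intro p hp p' hp' hne
      have := hc p hp p' hp' hne
      rwa [Nat.cast_pow, Nat.cast_ofNat])
  rw [Nat.cast_pow, Nat.cast_ofNat] at h1
  have h2 : ∑ p ∈ g, ∑ p' ∈ g.erase p, (c p p' + δ) ≤ 2 * δ * pib i ^ 2 := by
    have h3 : ∑ p ∈ g, ∑ p' ∈ g.erase p, (c p p' + δ) ≤
        ∑ p ∈ g, ∑ p' ∈ g.erase p, c p p' + ∑ _p ∈ g, pib i * δ := by
      rw [← Finset.sum_add_distrib]
      refine Finset.sum_le_sum fun p _ => ?_
      rw [Finset.sum_add_distrib, Finset.sum_const, nsmul_eq_mul]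
      have h4 : ((g.erase p).card : ℝ) ≤ pib i :=
        le_trans (by exact_mod_cast Finset.card_le_card (Finset.erase_subset p g)) hgc
      have := mul_le_mul_of_nonneg_right h4 hδ.le
      linarith
    have h4 : ∑ _p ∈ g, pib i * δ ≤ pib i ^ 2 * δ := by
      rw [Finset.sum_const, nsmul_eq_mul, pow_two, mul_assoc]
      exact mul_le_mul_of_nonneg_right hgc (by positivity)
    linarith
  have h5 : B ^ 2 * (g.card : ℝ) ≤ B ^ 2 * pib i := mul_le_mul_of_nonneg_left hgc (by positivity)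
  have hN0 : (0 : ℝ) ≤ N := Nat.cast_nonneg N
  have h6 : ‖∑ p ∈ g, ∑ m ∈ Finset.Icc 1 (N / p), a (p * m) *
      ((ArithmeticFunction.moebius m : ℤ) : ℂ)‖ ^ 2 ≤
      ((N : ℝ) / 2 ^ i) ^ 2 * (B ^ 2 * pib i + 2 * δ * pib i ^ 2) :=
    h1.trans (mul_le_mul_of_nonneg_left (add_le_add h5 h2) (by positivity))
  have hsq : Real.sqrt δ ^ 2 = δ := Real.sq_sqrt hδ.le
  have hpc : pib i / 2 ^ i ≤ C / i := by
    rw [div_le_iff₀ h2i]
    calc pib i ≤ C * 2 ^ i / i := hC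
      _ = C / i * 2 ^ i := by ring
  have hpc0 : 0 ≤ pib i / 2 ^ i := by positivity
  have h7 : pib i / (2 ^ i) ^ 2 ≤ ((3 / 4 : ℝ) ^ i) ^ 2 := by
    have h8 : pib i ≤ 2 ^ i := B1_card i
    have h9 : pib i / (2 ^ i) ^ 2 ≤ 2 ^ i / (2 ^ i) ^ 2 := by gcongr
    have h10 : (2 : ℝ) ^ i / (2 ^ i) ^ 2 = (1 / 2) ^ i := by
      rw [one_div, inv_pow]
      field_simp
    have h11 : ((3 / 4 : ℝ) ^ i) ^ 2 = (9 / 16) ^ i := by
      rw [← pow_mul, mul_comm i 2, pow_mul]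
      norm_num
    rw [h10] at h9
    rw [h11]
    exact h9.trans (pow_le_pow_left₀ (by norm_num) (by norm_num) i)
  have hX0 : 0 ≤ B * (3 / 4 : ℝ) ^ i := by positivity
  have hY0 : 0 ≤ 2 * Real.sqrt δ * C / i := by positivity
  have h8 : ((N : ℝ) / 2 ^ i) ^ 2 * (B ^ 2 * pib i + 2 * δ * pib i ^ 2) ≤
      (N * (B * (3 / 4) ^ i + 2 * Real.sqrt δ * C / i)) ^ 2 := by
    have e1 : ((N : ℝ) / 2 ^ i) ^ 2 * (B ^ 2 * pib i + 2 * δ * pib i ^ 2) =
        (N : ℝ) ^ 2 * (B ^ 2 * (pib i / (2 ^ i) ^ 2) + 2 * δ * (pib i / 2 ^ i) ^ 2) := by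
      field_simp
    rw [e1, mul_pow]
    refine mul_le_mul_of_nonneg_left ?_ (by positivity)
    have e2 : B ^ 2 * (pib i / (2 ^ i) ^ 2) ≤ (B * (3 / 4 : ℝ) ^ i) ^ 2 := by
      rw [mul_pow]
      exact mul_le_mul_of_nonneg_left h7 (by positivity)
    have e3 : 2 * δ * (pib i / 2 ^ i) ^ 2 ≤ (2 * Real.sqrt δ * C / i) ^ 2 := by
      have e4 : (pib i / 2 ^ i) ^ 2 ≤ (C / i) ^ 2 := pow_le_pow_left₀ hpc0 hpc 2
      have e5 : (2 * Real.sqrt δ * C / i) ^ 2 = 4 * δ * (C / i) ^ 2 := by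
        rw [show 2 * Real.sqrt δ * C / i = 2 * Real.sqrt δ * (C / i) by ring, mul_pow, mul_pow, hsq]
        ring
      rw [e5]
      have e6 : 0 ≤ (C / i) ^ 2 := by positivity
      nlinarith [mul_le_mul_of_nonneg_left e4 (by positivity : (0 : ℝ) ≤ 2 * δ)]
    nlinarith [mul_nonneg hX0 hY0]
  exact (pow_le_pow_iff_left₀ (norm_nonneg _) (mul_nonneg hN0 (add_nonneg hX0 hY0)) two_ne_zero).1
    (h6.trans h8)

private theorem B1_geom (s : Finset ℕ) : ∑ i ∈ s, (3 / 4 : ℝ) ^ i ≤ 4 := by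
  have h1 : Summable fun i : ℕ => (3 / 4 : ℝ) ^ i :=
    summable_geometric_of_lt_one (by norm_num) (by norm_num)
  refine (h1.sum_le_tsum s fun i _ => by positivity).trans (le_of_eq ?_)
  rw [tsum_geometric_of_lt_one (by norm_num) (by norm_num)]
  norm_num

private theorem B1_harm {i0 I : ℕ} (h0 : 1 ≤ i0) :
    ∑ i ∈ Finset.Ico i0 I, (1 : ℝ) / i ≤ 1 + Real.log I := by
  have h1 := harmonic_le_one_add_log I
  have h2 : ((harmonic I : ℚ) : ℝ) = ∑ i ∈ Finset.Icc 1 I, (1 : ℝ) / i := by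
    rw [harmonic_eq_sum_Icc]
    push_cast
    exact Finset.sum_congr rfl fun i _ => (one_div _).symm
  rw [h2] at h1
  refine le_trans (Finset.sum_le_sum_of_subset_of_nonneg ?_ ?_) h1
  · intro i hi
    rw [Finset.mem_Ico] at hi
    rw [Finset.mem_Icc]
    omega
  · intro i _ _
    positivity

/-- the sum of the deviations -/
private theorem B1_dev {a : ℕ → ℂ} {B : ℝ} (ha : ∀ n, ‖a n‖ ≤ B) (x : ℕ → ℝ) {N : ℕ} {W : ℝ}
    (hW : 0 ≤ W) (h : ∑ n ∈ Finset.Icc 1 N, |x n| ^ 2 ≤ N * (1 + W)) :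
    ‖∑ n ∈ Finset.Icc 1 N, a n * ((ArithmeticFunction.moebius n : ℤ) : ℂ) * ((x n : ℝ) : ℂ)‖ ≤
      B * (N * Real.sqrt (1 + W)) := by
  have hB : 0 ≤ B := (norm_nonneg _).trans (ha 0)
  have h1 : ‖∑ n ∈ Finset.Icc 1 N, a n * ((ArithmeticFunction.moebius n : ℤ) : ℂ) *
      ((x n : ℝ) : ℂ)‖ ≤ B * ∑ n ∈ Finset.Icc 1 N, |x n| := by
    rw [Finset.mul_sum]
    refine (norm_sum_le _ _).trans (Finset.sum_le_sum fun n _ => ?_)
    rw [norm_mul, norm_mul, Complex.norm_real, Real.norm_eq_abs]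
    have h1 : ‖((ArithmeticFunction.moebius n : ℤ) : ℂ)‖ ≤ 1 := by
      rw [Complex.norm_intCast]
      exact_mod_cast ArithmeticFunction.abs_moebius_le_one
    refine mul_le_mul_of_nonneg_right ?_ (abs_nonneg _)
    calc ‖a n‖ * ‖((ArithmeticFunction.moebius n : ℤ) : ℂ)‖ ≤ B * 1 :=
          mul_le_mul (ha n) h1 (norm_nonneg _) hB
      _ = B := mul_one B
  refine h1.trans (mul_le_mul_of_nonneg_left ?_ hB)
  have h2 : (∑ n ∈ Finset.Icc 1 N, |x n|) ^ 2 ≤ (N * Real.sqrt (1 + W)) ^ 2 := by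
    refine sq_sum_le_card_mul_sum_sq.trans ?_
    rw [Nat.card_Icc, Nat.add_sub_cancel, mul_pow, Real.sq_sqrt (by linarith), pow_two, mul_assoc]
    exact mul_le_mul_of_nonneg_left h (Nat.cast_nonneg N)
  exact (pow_le_pow_iff_left₀ (Finset.sum_nonneg fun _ _ => abs_nonneg _) (by positivity)
    two_ne_zero).1 h2

/-- multiples of `p` -/
private theorem B1_mult {p : ℕ} (hp : 0 < p) {B : ℝ} (hB : 0 ≤ B) (N : ℕ) :
    ∑ m ∈ Finset.Icc 1 (N / p), (if p ∣ m then B else 0) ≤ B * (N / (p : ℝ) ^ 2) := by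
  rw [← Finset.sum_filter, Finset.sum_const, nsmul_eq_mul, mul_comm]
  refine mul_le_mul_of_nonneg_left ?_ hB
  have h1 : (Finset.filter (fun m => p ∣ m) (Finset.Icc 1 (N / p))).card = N / p / p :=
    Nat.Ioc_filter_dvd_card_eq_div (N / p) p
  rw [h1]
  refine (Nat.cast_div_le).trans ?_
  rw [pow_two, ← div_div]
  have hp' : (0 : ℝ) < p := by exact_mod_cast hp
  exact div_le_div_of_nonneg_right Nat.cast_div_le hp'.le

open Classical in
theorem kbsz (hLam : Pool.Agent.BGG.SWLam) : ∃ K : ℝ, 0 < K ∧ ∀ (B : ℝ) (a : ℕ → ℂ), (∀ n, ‖a n‖ ≤ B) →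
    ∀ (G : ℕ → Prop) (c : ℕ → ℕ → ℝ), (∀ p p', 0 ≤ c p p') →
    (∀ p p' : ℕ, p.Prime → p'.Prime → G p → G p' → p ≠ p' → ∀ ε : ℝ, 0 < ε →
      ∀ᶠ M : ℕ in atTop,
        ‖(M : ℂ)⁻¹ * ∑ m ∈ Finset.Icc 1 M, a (p * m) * conj (a (p' * m))‖ ≤ c p p' + ε) →
    ∀ δ η : ℝ, 0 < δ → 0 < η →
    (∀ᶠ i : ℕ in atTop, ∑ p ∈ (blk i).filter G, ∑ p' ∈ ((blk i).filter G).erase p, c p p' ≤
      δ * pib i ^ 2) →
    (∃ᶠ I : ℕ in atTop, η * Real.log I ≤
      ∑ i ∈ Finset.range I, ∑ p ∈ (blk i).filter G, (1 : ℝ) / p) →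
    ∀ ε : ℝ, 0 < ε → ∀ᶠ N : ℕ in atTop,
      ‖(N : ℂ)⁻¹ * ∑ n ∈ Finset.Icc 1 N, a n * ((ArithmeticFunction.moebius n : ℤ) : ℂ)‖ ≤
        K * Real.sqrt δ / η + ε := by
  obtain ⟨C, hC, hpib⟩ := pib_upper hLam
  refine ⟨8 * C, by positivity, ?_⟩
  intro B a ha G c hc0 hcorr δ η hδ hη hblk hfreq ε hε
  have hB : 0 ≤ B := (norm_nonneg _).trans (ha 0)
  obtain ⟨i1, hi1⟩ := eventually_atTop.1 hblk
  set i0 := max i1 1 with hi0
  have hi0' : 1 ≤ i0 := le_max_right _ _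
  set g : ℕ → Finset ℕ := fun i => (blk i).filter G with hg
  have hgs : ∀ i, g i ⊆ blk i := fun i => Finset.filter_subset _ _
  set W0 : ℝ := ∑ i ∈ Finset.range i0, ∑ p ∈ g i, (1 : ℝ) / p with hW0
  set L : ℝ := max 1 (max (2 * W0 / η) (max (2 / η) (2 / η * (10 * B / ε) ^ 2))) with hL
  have hlog : ∀ᶠ I : ℕ in atTop, L ≤ Real.log I ∧ i0 ≤ I := by
    have h1 : Tendsto (fun I : ℕ => Real.log I) atTop atTop :=
      Real.tendsto_log_atTop.comp tendsto_natCast_atTop_atTop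
    exact (h1.eventually_ge_atTop L).and (eventually_ge_atTop i0)
  obtain ⟨I, hI1, hI2, hI3⟩ := (hfreq.and_eventually hlog).exists
  set W : ℝ := ∑ i ∈ Finset.Ico i0 I, ∑ p ∈ g i, (1 : ℝ) / p with hW
  have hWW : ∑ i ∈ Finset.range I, ∑ p ∈ g i, (1 : ℝ) / p = W0 + W := by
    rw [hW0, hW, Finset.range_eq_Ico, Finset.range_eq_Ico]
    exact (Finset.sum_Ico_consecutive _ (Nat.zero_le _) hI3).symm
  have hl1 : 1 ≤ Real.log I := (le_max_left _ _).trans hI2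
  have hl2 : 2 * W0 / η ≤ Real.log I :=
    ((le_max_left _ _).trans (le_max_right _ _)).trans hI2
  have hl3 : 2 / η ≤ Real.log I :=
    ((le_max_left _ _).trans ((le_max_right _ _).trans (le_max_right _ _))).trans hI2
  have hl4 : 2 / η * (10 * B / ε) ^ 2 ≤ Real.log I :=
    ((le_max_right _ _).trans ((le_max_right _ _).trans (le_max_right _ _))).trans hI2
  have hWlog : η / 2 * Real.log I ≤ W := by
    have h1 : η * Real.log I ≤ W0 + W := by rw [← hWW]; exact hI1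
    rw [div_le_iff₀ hη] at hl2
    linarith
  have hW1 : 1 ≤ W := by
    refine le_trans ?_ hWlog
    rw [div_le_iff₀ hη] at hl3
    linarith
  have hWB : (10 * B / ε) ^ 2 ≤ W := by
    refine le_trans ?_ hWlog
    have h1 : η / 2 * (2 / η * (10 * B / ε) ^ 2) ≤ η / 2 * Real.log I :=
      mul_le_mul_of_nonneg_left hl4 (by positivity)
    have h2 : η / 2 * (2 / η * (10 * B / ε) ^ 2) = (10 * B / ε) ^ 2 := by field_simp
    linarith
  -- the primes
  set P : Finset ℕ := (Finset.Ico i0 I).biUnion g with hPdef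
  have hdisj : ∀ i ∈ Finset.Ico i0 I, ∀ j ∈ Finset.Ico i0 I, i ≠ j → Disjoint (g i) (g j) := by
    intro i _ j _ hij
    rw [Finset.disjoint_left]
    intro p hp hp'
    exact hij ((B1_mem (hgs i hp)).2.2.symm.trans (B1_mem (hgs j hp')).2.2)
  have hPsum : ∀ {A : Type} [AddCommMonoid A] (f : ℕ → A),
      ∑ p ∈ P, f p = ∑ i ∈ Finset.Ico i0 I, ∑ p ∈ g i, f p := fun f =>
    Finset.sum_biUnion hdisj
  have hPp : ∀ p ∈ P, p.Prime := by
    intro p hp
    rw [hPdef, Finset.mem_biUnion] at hp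
    obtain ⟨i, _, hi⟩ := hp
    exact (B1_mem (hgs i hi)).1
  have hPW : ∑ p ∈ P, (1 : ℝ) / p = W := hPsum _
  -- eventual statements
  have hev1 := turan_kubilius P hPp
  rw [hPW] at hev1
  have hev2 : ∀ᶠ N : ℕ in atTop, ∀ i ∈ Finset.Ico i0 I, ∀ p ∈ g i, ∀ p' ∈ g i, p ≠ p' →
      ‖∑ m ∈ Finset.Icc 1 (N / max p p'), a (p * m) * conj (a (p' * m))‖ ≤
        (N : ℝ) / 2 ^ i * (c p p' + δ) := by
    rw [Filter.eventually_all_finset]
    intro i _
    rw [Filter.eventually_all_finset]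
    intro p hp
    rw [Filter.eventually_all_finset]
    intro p' hp'
    by_cases hne : p = p'
    · exact Eventually.of_forall fun N h => absurd hne h
    obtain ⟨hp1, hp2, _⟩ := B1_mem (hgs i hp)
    obtain ⟨hp1', _, _⟩ := B1_mem (hgs i hp')
    have h1 := hcorr p p' hp1 hp1' (Finset.mem_filter.1 hp).2 (Finset.mem_filter.1 hp').2 hne δ hδ
    have hmx : 2 ^ i ≤ max p p' := hp2.trans (le_max_left _ _)
    have hmx0 : max p p' ≠ 0 := by
      have : 0 < 2 ^ i := by positivity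
      omega
    have h2 := (Nat.tendsto_div_const_atTop hmx0).eventually h1
    filter_upwards [h2] with N hN _
    set M := N / max p p' with hM
    have hc1 : 0 ≤ c p p' + δ := by have := hc0 p p'; linarith
    have h3 : ‖∑ m ∈ Finset.Icc 1 M, a (p * m) * conj (a (p' * m))‖ ≤ (M : ℝ) * (c p p' + δ) := by
      rcases Nat.eq_zero_or_pos M with h0 | h0
      · rw [h0]
        simp
      · have h4 : (0 : ℝ) < M := by exact_mod_cast h0
        rw [norm_mul, norm_inv, Complex.norm_natCast] at hN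
        have h5 := mul_le_mul_of_nonneg_left hN h4.le
        rwa [← mul_assoc, mul_inv_cancel₀ h4.ne', one_mul] at h5
    refine h3.trans (mul_le_mul_of_nonneg_right ?_ hc1)
    refine (Nat.cast_div_le).trans ?_
    have h6 : (2 : ℝ) ^ i ≤ ((max p p' : ℕ) : ℝ) := by exact_mod_cast hmx
    exact div_le_div_of_nonneg_left (Nat.cast_nonneg N) (by positivity) h6
  filter_upwards [hev1, hev2, eventually_ge_atTop 1] with N hN1 hN2 hN3
  have hN0 : (0 : ℝ) < N := by exact_mod_cast hN3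
  -- the sum over the primes of P
  set F1 : ℂ := ∑ n ∈ Finset.Icc 1 N, a n * ((ArithmeticFunction.moebius n : ℤ) : ℂ) *
    ((P.filter (fun p => p ∣ n)).card : ℂ) with hF1
  have hF1' : F1 = ∑ p ∈ P, ∑ m ∈ Finset.Icc 1 (N / p),
      a (p * m) * ((ArithmeticFunction.moebius (p * m) : ℤ) : ℂ) :=
    B1_swap P hPp (fun n => a n * ((ArithmeticFunction.moebius n : ℤ) : ℂ)) N
  set F2 : ℂ := ∑ p ∈ P, ∑ m ∈ Finset.Icc 1 (N / p),
      a (p * m) * ((ArithmeticFunction.moebius m : ℤ) : ℂ) with hF2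
  have hbF2 : ‖F2‖ ≤ ∑ i ∈ Finset.Ico i0 I,
      N * (B * (3 / 4) ^ i + 2 * Real.sqrt δ * C / i) := by
    rw [hF2, hPsum]
    refine (norm_sum_le _ _).trans (Finset.sum_le_sum fun i hi => ?_)
    have hi' := Finset.mem_Ico.1 hi
    have hi2 : 1 ≤ i := hi0'.trans hi'.1
    exact B1_block2 ha hi2 (g i) (hgs i) c hδ N (hpib i hi2)
      (hi1 i ((le_max_left _ _).trans hi'.1)) (hN2 i hi)
  have hbF12 : ‖F1 + F2‖ ≤ ∑ i ∈ Finset.Ico i0 I, N * (B * (3 / 4) ^ i) := by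
    rw [hF1', hF2, ← Finset.sum_add_distrib, hPsum]
    refine (norm_sum_le _ _).trans (Finset.sum_le_sum fun i hi => ?_)
    have h2i : (0 : ℝ) < 2 ^ i := by positivity
    have h1 : ∀ p ∈ g i, ‖∑ m ∈ Finset.Icc 1 (N / p), a (p * m) *
        ((ArithmeticFunction.moebius (p * m) : ℤ) : ℂ) + ∑ m ∈ Finset.Icc 1 (N / p), a (p * m) *
        ((ArithmeticFunction.moebius m : ℤ) : ℂ)‖ ≤ B * (N / (2 ^ i) ^ 2) := by
      intro p hp
      obtain ⟨hp1, hp2, _⟩ := B1_mem (hgs i hp)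
      rw [← Finset.sum_add_distrib]
      refine (norm_sum_le _ _).trans ?_
      refine (Finset.sum_le_sum (fun m _ => (B1_mob hp1 m (a (p * m))).trans ?_)).trans
        ((B1_mult hp1.pos hB N).trans ?_)
      · split_ifs
        · exact ha _
        · exact le_rfl
      · have h2 : (2 : ℝ) ^ i ≤ p := by exact_mod_cast hp2
        refine mul_le_mul_of_nonneg_left ?_ hB
        exact div_le_div_of_nonneg_left hN0.le (by positivity)
          (pow_le_pow_left₀ h2i.le h2 2)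
    refine (norm_sum_le _ _).trans ((Finset.sum_le_sum h1).trans ?_)
    rw [Finset.sum_const, nsmul_eq_mul]
    have h3 : ((g i).card : ℝ) ≤ 2 ^ i :=
      le_trans (by exact_mod_cast Finset.card_le_card (hgs i)) (B1_card i)
    calc ((g i).card : ℝ) * (B * (N / (2 ^ i) ^ 2)) ≤ 2 ^ i * (B * (N / (2 ^ i) ^ 2)) :=
          mul_le_mul_of_nonneg_right h3 (by positivity)
      _ = N * (B * (1 / 2) ^ i) := by
          rw [one_div, inv_pow]
          field_simp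
      _ ≤ N * (B * (3 / 4) ^ i) := by
          refine mul_le_mul_of_nonneg_left (mul_le_mul_of_nonneg_left ?_ hB) hN0.le
          exact pow_le_pow_left₀ (by norm_num) (by norm_num) i
  have hbF1 : ‖F1‖ ≤ N * (8 * B + 2 * Real.sqrt δ * C * (1 + Real.log I)) := by
    have h1 : ‖F1‖ ≤ ‖F1 + F2‖ + ‖F2‖ := by
      have h2 : F1 = (F1 + F2) - F2 := by ring
      calc ‖F1‖ = ‖(F1 + F2) - F2‖ := by rw [← h2]
        _ ≤ ‖F1 + F2‖ + ‖F2‖ := norm_sub_le _ _
    refine h1.trans ((add_le_add hbF12 hbF2).trans ?_)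
    have e1 : ∑ i ∈ Finset.Ico i0 I, (N : ℝ) * (B * (3 / 4) ^ i) +
        ∑ i ∈ Finset.Ico i0 I, (N : ℝ) * (B * (3 / 4) ^ i + 2 * Real.sqrt δ * C / i) =
        N * (2 * B * ∑ i ∈ Finset.Ico i0 I, (3 / 4 : ℝ) ^ i +
          2 * Real.sqrt δ * C * ∑ i ∈ Finset.Ico i0 I, (1 : ℝ) / i) := by
      rw [Finset.mul_sum, Finset.mul_sum, ← Finset.sum_add_distrib, ← Finset.sum_add_distrib,
        Finset.mul_sum]
      exact Finset.sum_congr rfl fun i _ => by ring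
    rw [e1]
    refine mul_le_mul_of_nonneg_left ?_ hN0.le
    have h3 := mul_le_mul_of_nonneg_left (B1_geom (Finset.Ico i0 I))
      (by positivity : (0 : ℝ) ≤ 2 * B)
    have h5 := mul_le_mul_of_nonneg_left (B1_harm (I := I) hi0')
      (by positivity : (0 : ℝ) ≤ 2 * Real.sqrt δ * C)
    linarith
  -- comparison with W * S
  set S : ℂ := ∑ n ∈ Finset.Icc 1 N, a n * ((ArithmeticFunction.moebius n : ℤ) : ℂ) with hS
  have hWS : (W : ℂ) * S = F1 - ∑ n ∈ Finset.Icc 1 N, a n *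
      ((ArithmeticFunction.moebius n : ℤ) : ℂ) *
      ((((P.filter (fun p => p ∣ n)).card : ℝ) - W : ℝ) : ℂ) := by
    rw [hF1, hS, Finset.mul_sum, ← Finset.sum_sub_distrib]
    refine Finset.sum_congr rfl fun n _ => ?_
    push_cast
    ring
  have hdev := B1_dev ha (fun n => ((P.filter (fun p => p ∣ n)).card : ℝ) - W) (N := N)
    (by linarith : (0 : ℝ) ≤ W) hN1
  have hWS2 : W * ‖S‖ ≤ N * (8 * B + 2 * Real.sqrt δ * C * (1 + Real.log I)) +
      B * (N * Real.sqrt (1 + W)) := by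
    have h1 : W * ‖S‖ = ‖(W : ℂ) * S‖ := by
      rw [norm_mul, Complex.norm_real, Real.norm_eq_abs, abs_of_nonneg (by linarith)]
    rw [h1, hWS]
    exact (norm_sub_le _ _).trans (add_le_add hbF1 hdev)
  -- numbers
  have hsW : 1 ≤ Real.sqrt W := by rw [Real.one_le_sqrt]; exact hW1
  have hsW2 : Real.sqrt W * Real.sqrt W = W := Real.mul_self_sqrt (by linarith)
  have hs1W : Real.sqrt (1 + W) ≤ 2 * Real.sqrt W := by
    rw [Real.sqrt_le_left (by positivity), mul_pow, Real.sq_sqrt (by linarith)]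
    linarith
  have hBW : 10 * B ≤ ε * Real.sqrt W := by
    have h1 : 10 * B / ε ≤ Real.sqrt W := Real.le_sqrt_of_sq_le hWB
    rw [div_le_iff₀ hε] at h1
    linarith
  have hnum1 : 8 * B + B * Real.sqrt (1 + W) ≤ ε * W := by
    have h1 : B * Real.sqrt (1 + W) ≤ B * (2 * Real.sqrt W) := mul_le_mul_of_nonneg_left hs1W hB
    have h2 : 8 * B ≤ 8 * B * Real.sqrt W := le_mul_of_one_le_right (by positivity) hsW
    have h3 : 10 * B * Real.sqrt W ≤ ε * Real.sqrt W * Real.sqrt W :=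
      mul_le_mul_of_nonneg_right hBW (Real.sqrt_nonneg _)
    have h4 : ε * Real.sqrt W * Real.sqrt W = ε * W := by rw [mul_assoc, hsW2]
    linarith
  have hnum2 : 2 * Real.sqrt δ * C * (1 + Real.log I) ≤ 8 * C * Real.sqrt δ / η * W := by
    have h1 : 2 * Real.sqrt δ * C * (1 + Real.log I) ≤
        2 * Real.sqrt δ * C * (2 * Real.log I) :=
      mul_le_mul_of_nonneg_left (by linarith) (by positivity)
    have h2 : Real.log I ≤ 2 / η * W := by
      rw [div_mul_eq_mul_div, le_div_iff₀ hη]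
      linarith
    have h3 : 2 * Real.sqrt δ * C * (2 * Real.log I) ≤
        2 * Real.sqrt δ * C * (2 * (2 / η * W)) :=
      mul_le_mul_of_nonneg_left (by linarith) (by positivity)
    have h4 : 2 * Real.sqrt δ * C * (2 * (2 / η * W)) = 8 * C * Real.sqrt δ / η * W := by ring
    linarith
  have hWpos : 0 < W := by linarith
  have hfin : ‖S‖ ≤ N * (8 * C * Real.sqrt δ / η + ε) := by
    have h1 : W * ‖S‖ ≤ W * (N * (8 * C * Real.sqrt δ / η + ε)) := by
      refine hWS2.trans ?_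
      have h2 : N * (8 * B + 2 * Real.sqrt δ * C * (1 + Real.log I)) +
          B * (N * Real.sqrt (1 + W)) =
          N * ((8 * B + B * Real.sqrt (1 + W)) + 2 * Real.sqrt δ * C * (1 + Real.log I)) := by
        ring
      rw [h2]
      have h3 : W * (N * (8 * C * Real.sqrt δ / η + ε)) =
          N * (ε * W + 8 * C * Real.sqrt δ / η * W) := by ring
      rw [h3]
      exact mul_le_mul_of_nonneg_left (add_le_add hnum1 hnum2) hN0.le
    exact le_of_mul_le_mul_left h1 hWpos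
  rw [norm_mul, norm_inv, Complex.norm_natCast, inv_mul_le_iff₀ hN0]
  exact hfin

end Pool.Agent.Sar
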