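import Pool.Agent.Sar.J3

/-! MP_13664e_an, module C1: Cauchy–Schwarz over pairs of primes. -/

set_option autoImplicit false

namespace Pool.Agent.Sar

open MeasureTheory ProbabilityTheory Filter Topology
open scoped ENNReal ComplexConjugate

variable {X : Type*} [mX : MeasurableSpace X] [StandardBorelSpace X] [Nonempty X]
  {ν : Measure X} [IsProbabilityMeasure ν]

theorem C1 {ι : Type*} (s : Finset ι) (D : ι → Measure (X × X))
    [∀ i, IsProbabilityMeasure (D i)] (hD : ∀ i ∈ s, Coup ν (D i)) {v F : X → ℂ} (hv : B1 v)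
    (hF : B1 F) :
    (∑ i ∈ s, ‖∫ z : X × X, v z.1 * F z.2 ∂(D i)‖) ^ 2 ≤
      ∑ i ∈ s, ∑ j ∈ s, ‖∫ z : X × X, F z.1 * conj (F z.2) ∂(RR ν (D i) (D j))‖ := by
  have bm : ∀ {f : X → ℂ}, B1 f → BM f := fun hf => ⟨hf.meas, 1, hf.bdd⟩
  have hFc : B1 (fun y => conj (F y)) :=
    ⟨Complex.continuous_conj.measurable.comp hF.meas, fun x => by
      rw [RCLike.norm_conj]; exact hF.bdd x⟩
  set I : ι → ℂ := fun i => ∫ z : X × X, v z.1 * F z.2 ∂(D i) with hI
  set g : ι → X → ℂ := fun i => op (D i) F with hg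
  have hgB : ∀ i, B1 (g i) := fun i => op_B1 hF
  have hIg : ∀ i ∈ s, I i = ∫ x, v x * g i x ∂ν := fun i hi => (op_int (hD i hi) (bm hF) (bm hv)).symm
  -- phases
  have hph : ∀ i, ∃ e : ℂ, ‖e‖ ≤ 1 ∧ e * I i = (‖I i‖ : ℂ) := by
    intro i
    by_cases h0 : I i = 0
    · exact ⟨0, by simp, by simp [h0]⟩
    · refine ⟨conj (I i) / ‖I i‖, ?_, ?_⟩
      · rw [norm_div, RCLike.norm_conj, Complex.norm_real, norm_norm,
          div_self (norm_ne_zero_iff.2 h0)]
      · have h1 : (‖I i‖ : ℂ) ≠ 0 := by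
          exact_mod_cast norm_ne_zero_iff.2 h0
        rw [div_mul_eq_mul_div, mul_comm, Complex.mul_conj, Complex.normSq_eq_norm_sq,
          div_eq_iff h1]
        push_cast
        ring
  choose e he heI using hph
  have hint : ∀ {f : X → ℂ} {C : ℝ}, Measurable f → (∀ x, ‖f x‖ ≤ C) → Integrable f ν :=
    fun hf hb => Integrable.of_bound hf.aestronglyMeasurable _ (Eventually.of_forall hb)
  set G : X → ℂ := fun x => ∑ i ∈ s, e i * g i x with hG
  have hGm : Measurable G := Finset.measurable_sum _ fun i _ => (hgB i).meas.const_mul _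
  have hGb : ∀ x, ‖G x‖ ≤ s.card := by
    intro x
    refine (norm_sum_le _ _).trans ?_
    calc ∑ i ∈ s, ‖e i * g i x‖ ≤ ∑ i ∈ s, (1 : ℝ) := by
          refine Finset.sum_le_sum fun i _ => ?_
          rw [norm_mul]
          exact mul_le_one₀ (he i) (norm_nonneg _) ((hgB i).bdd x)
      _ = s.card := by simp
  have h1 : ((∑ i ∈ s, ‖I i‖ : ℝ) : ℂ) = ∫ x, v x * G x ∂ν := by
    have e1 : ∀ x, v x * G x = ∑ i ∈ s, e i * (v x * g i x) := by
      intro x
      rw [hG]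
      simp only
      rw [Finset.mul_sum]
      exact Finset.sum_congr rfl fun i _ => by ring
    simp_rw [e1]
    rw [integral_finsetSum]
    · push_cast
      refine Finset.sum_congr rfl fun i hi => ?_
      rw [integral_const_mul, ← hIg i hi, heI]
    · intro i _
      refine (hint (C := 1 * 1) (hv.meas.mul (hgB i).meas) fun x => ?_).const_mul _
      show ‖v x * g i x‖ ≤ _
      rw [norm_mul]
      exact mul_le_mul (hv.bdd x) ((hgB i).bdd x) (norm_nonneg _) zero_le_one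
  have hGn : Integrable (fun x => ‖G x‖) ν := (hint hGm hGb).norm
  have hGn2 : Integrable (fun x => ‖G x‖ ^ 2) ν := by
    refine Integrable.of_bound (C := (s.card : ℝ) ^ 2)
      (hGm.norm.pow_const 2).aestronglyMeasurable (Eventually.of_forall fun x => ?_)
    rw [norm_pow, norm_norm]
    exact pow_le_pow_left₀ (norm_nonneg _) (hGb x) 2
  have h2 : ∑ i ∈ s, ‖I i‖ ≤ ∫ x, ‖G x‖ ∂ν := by
    have e1 : ‖∫ x, v x * G x ∂ν‖ ≤ ∫ x, ‖G x‖ ∂ν := by
      refine norm_integral_le_of_norm_le hGn (Eventually.of_forall fun x => ?_)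
      rw [norm_mul]
      exact mul_le_of_le_one_left (norm_nonneg _) (hv.bdd x)
    rw [← h1, Complex.norm_real] at e1
    exact (le_abs_self _).trans e1
  have h3 : (∫ x, ‖G x‖ ∂ν) ^ 2 ≤ ∫ x, ‖G x‖ ^ 2 ∂ν := by
    set t := ∫ x, ‖G x‖ ∂ν with ht
    have e0 : 0 ≤ ∫ x, (‖G x‖ - t) ^ 2 ∂ν := integral_nonneg fun x => sq_nonneg _
    have e1 : ∀ x, (‖G x‖ - t) ^ 2 = (‖G x‖ ^ 2 - 2 * t * ‖G x‖) + t ^ 2 := fun x => by ring
    have e2 : ∫ x, (‖G x‖ - t) ^ 2 ∂ν = ∫ x, ‖G x‖ ^ 2 ∂ν - t ^ 2 := by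
      simp_rw [e1]
      have e3 : Integrable (fun x => ‖G x‖ ^ 2 - 2 * t * ‖G x‖) ν := hGn2.sub (hGn.const_mul _)
      rw [integral_add e3 (integrable_const _),
        integral_sub hGn2 (hGn.const_mul _), integral_const_mul, ← ht]
      simp
      ring
    linarith
  have h4 : ((∫ x, ‖G x‖ ^ 2 ∂ν : ℝ) : ℂ) = ∑ i ∈ s, ∑ j ∈ s, (e i * conj (e j)) *
      ∫ z : X × X, F z.1 * conj (F z.2) ∂(RR ν (D i) (D j)) := by
    rw [← integral_complex_ofReal]
    have e1 : ∀ x, ((‖G x‖ ^ 2 : ℝ) : ℂ) = ∑ i ∈ s, ∑ j ∈ s, (e i * conj (e j)) *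
        (g i x * conj (g j x)) := by
      intro x
      rw [← Complex.normSq_eq_norm_sq, ← Complex.mul_conj, hG]
      simp only
      rw [map_sum, Finset.sum_mul_sum]
      refine Finset.sum_congr rfl fun i _ => Finset.sum_congr rfl fun j _ => ?_
      rw [map_mul]
      ring
    simp_rw [e1]
    have hij : ∀ i j, Integrable (fun x => (e i * conj (e j)) * (g i x * conj (g j x))) ν := by
      intro i j
      refine (hint (C := 1 * 1) ((hgB i).meas.mul
        (Complex.continuous_conj.measurable.comp (hgB j).meas)) fun x => ?_).const_mul _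
      show ‖g i x * conj (g j x)‖ ≤ _
      rw [norm_mul, RCLike.norm_conj]
      exact mul_le_mul ((hgB i).bdd x) ((hgB j).bdd x) (norm_nonneg _) zero_le_one
    rw [integral_finsetSum _ fun i _ => integrable_finsetSum _ fun j _ => hij i j]
    refine Finset.sum_congr rfl fun i _ => ?_
    rw [integral_finsetSum _ fun j _ => hij i j]
    refine Finset.sum_congr rfl fun j _ => ?_
    rw [integral_const_mul, RR_int (bm hF) (bm hFc)]
    simp_rw [op_conj]
    rfl
  have h5 : ∫ x, ‖G x‖ ^ 2 ∂ν ≤ ∑ i ∈ s, ∑ j ∈ s,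
      ‖∫ z : X × X, F z.1 * conj (F z.2) ∂(RR ν (D i) (D j))‖ := by
    have e0 : 0 ≤ ∫ x, ‖G x‖ ^ 2 ∂ν := integral_nonneg fun x => sq_nonneg _
    have e1 : ∫ x, ‖G x‖ ^ 2 ∂ν = ‖((∫ x, ‖G x‖ ^ 2 ∂ν : ℝ) : ℂ)‖ := by
      rw [Complex.norm_real, Real.norm_of_nonneg e0]
    rw [e1, h4]
    refine (norm_sum_le _ _).trans (Finset.sum_le_sum fun i _ => ?_)
    refine (norm_sum_le _ _).trans (Finset.sum_le_sum fun j _ => ?_)
    rw [norm_mul, norm_mul, RCLike.norm_conj]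
    exact mul_le_of_le_one_left (norm_nonneg _)
      (mul_le_one₀ (he i) (norm_nonneg _) (he j))
  calc (∑ i ∈ s, ‖I i‖) ^ 2 ≤ (∫ x, ‖G x‖ ∂ν) ^ 2 :=
        pow_le_pow_left₀ (Finset.sum_nonneg fun _ _ => norm_nonneg _) h2 2
    _ ≤ _ := h3.trans h5

end Pool.Agent.Sar
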