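import Pool.Agent.Sar.K1

/-! MP_13664e_an, module G1: positivity of the torsion part for every displacement. -/

set_option autoImplicit false

namespace Pool.Agent.Sar

open MeasureTheory ProbabilityTheory Filter Topology
open scoped ENNReal ComplexConjugate

variable {X : Type*} [mX : MeasurableSpace X] {ν : Measure X} [IsProbabilityMeasure ν]

private theorem G1_int {Z : Type*} [MeasurableSpace Z] {μ : Measure Z} [IsFiniteMeasure μ]
    {v : Z → ℂ} (hv : Measurable v) {C : ℝ} (hb : ∀ x, ‖v x‖ ≤ C) :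
    Integrable v μ :=
  Integrable.of_bound hv.aestronglyMeasurable C (Eventually.of_forall hb)

private theorem G1_dich (L : Finset ℂ) (hLmul : ∀ l ∈ L, ∀ l' ∈ L, l * l' ∈ L)
    (hL0 : ∀ l ∈ L, l ≠ 0) (e e' : ℂ → ℂ) (c : ℂ → ℂ → ℂ)
    (hc : ∀ l ∈ L, ∀ l' ∈ L, ‖c l l'‖ = 1)
    (h : ∀ l ∈ L, ∀ l' ∈ L, e (l * l') = c l l' * (e l * e l'))
    (h' : ∀ l ∈ L, ∀ l' ∈ L, e' (l * l') = c l l' * (e' l * e' l')) :
    ∑ l ∈ L, e l * conj (e' l) = 0 ∨ ∑ l ∈ L, e l * conj (e' l) = L.card := by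
  by_cases hK : ∑ l ∈ L, e l * conj (e' l) = 0
  · exact Or.inl hK
  right
  have hmul : ∀ l ∈ L, ∀ l' ∈ L, e (l * l') * conj (e' (l * l')) =
      (e l * conj (e' l)) * (e l' * conj (e' l')) := by
    intro l hl l' hl'
    rw [h l hl l' hl', h' l hl l' hl']
    have h1 : c l l' * conj (c l l') = 1 := by
      rw [Complex.mul_conj, Complex.normSq_eq_norm_sq, hc l hl l' hl']
      simp
    calc c l l' * (e l * e l') * conj (c l l' * (e' l * e' l'))
        = (c l l' * conj (c l l')) * ((e l * conj (e' l)) * (e l' * conj (e' l'))) := by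
          simp only [map_mul]; ring
      _ = _ := by rw [h1, one_mul]
  have hone : ∀ l' ∈ L, e l' * conj (e' l') = 1 := by
    intro l' hl'
    have himg : L.image (fun l => l' * l) = L := by
      refine Finset.eq_of_subset_of_card_le ?_ ?_
      · intro x hx
        obtain ⟨l, hl, rfl⟩ := Finset.mem_image.mp hx
        exact hLmul l' hl' l hl
      · rw [Finset.card_image_of_injective]
        intro x y hxy
        exact mul_left_cancel₀ (hL0 l' hl') hxy
    have h2 : (e l' * conj (e' l')) * ∑ l ∈ L, e l * conj (e' l) = ∑ l ∈ L, e l * conj (e' l) := by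
      conv_rhs => rw [← himg]
      rw [Finset.sum_image (fun x _ y _ hxy => mul_left_cancel₀ (hL0 l' hl') hxy), Finset.mul_sum]
      refine Finset.sum_congr rfl fun l hl => ?_
      rw [hmul l' hl' l hl]
    have h3 : (e l' * conj (e' l') - 1) * ∑ l ∈ L, e l * conj (e' l) = 0 := by
      rw [sub_mul, h2, one_mul, sub_self]
    rcases mul_eq_zero.mp h3 with h4 | h4
    · exact sub_eq_zero.mp h4
    · exact absurd h4 hK
  rw [Finset.sum_congr rfl hone]
  simp

private theorem G1_gram {ι : Type*} (s : Finset ι) (a b : ι → ℂ) (k k' : ℂ) :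
    ∑ n ∈ s, ∑ n' ∈ s, (a n * conj (a n') * k) * (conj (b n * conj (b n')) * k') =
      k * k' * ((‖∑ n ∈ s, a n * conj (b n)‖ ^ 2 : ℝ) : ℂ) := by
  have h1 : ((‖∑ n ∈ s, a n * conj (b n)‖ ^ 2 : ℝ) : ℂ) =
      (∑ n ∈ s, a n * conj (b n)) * ∑ n ∈ s, conj (a n) * b n := by
    rw [← Complex.normSq_eq_norm_sq, ← Complex.mul_conj, map_sum]
    congr 1
    refine Finset.sum_congr rfl fun n _ => ?_
    simp
  rw [h1, Finset.sum_mul_sum, Finset.mul_sum]
  refine Finset.sum_congr rfl fun n _ => ?_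
  rw [Finset.mul_sum]
  refine Finset.sum_congr rfl fun n' _ => ?_
  simp only [map_mul, Complex.conj_conj]
  ring

/-- `L` = all eigenvalues with `l ^ q = 1`. -/
theorem G1 {T : X ≃ᵐ X} (hE : Ergodic T ν) {q : ℕ} (hq : 1 ≤ q) (L : Finset ℂ)
    (hL : ∀ l : ℂ, l ∈ L ↔ l ∈ EV ν T ∧ l ^ q = 1) {F : X → ℂ} (hF : B1 F) (N t s : ℕ) :
    0 ≤ (∑ n ∈ Finset.range N, ∑ n' ∈ Finset.range N, ∑ l ∈ L,
      ((‖fc ν T (fun x => F ((⇑T)^[n] x) * conj (F ((⇑T)^[n'] x))) l‖ ^ 2 : ℝ) : ℂ) *
        (l ^ t * conj (l ^ s))).re := by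
  have hT : MeasurePreserving T ν ν := hE.toMeasurePreserving
  have hTn : ∀ n, Measurable (⇑T)^[n] := fun n => T.measurable.iterate n
  have hLE : ∀ l ∈ L, l ∈ EV ν T := fun l hl => ((hL l).mp hl).1
  have hLmul : ∀ l ∈ L, ∀ l' ∈ L, l * l' ∈ L := by
    intro l hl l' hl'
    rw [hL]
    refine ⟨EV_mul (hLE l hl) (hLE l' hl'), ?_⟩
    rw [mul_pow, ((hL l).mp hl).2, ((hL l').mp hl').2, one_mul]
  have hL0 : ∀ l ∈ L, l ≠ 0 := by
    intro l hl h
    have := ((hL l).mp hl).2
    rw [h, zero_pow (by omega)] at this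
    exact zero_ne_one this
  obtain ⟨e, he⟩ : ∃ e : ℂ → X → ℂ, e = fun l => eg ν T l := ⟨_, rfl⟩
  have hem : ∀ l, Measurable (e l) := fun l => by rw [he]; exact eg_meas l
  have hen : ∀ l x, ‖e l x‖ = 1 := fun l x => by rw [he]; exact eg_norm l x
  -- the constants of multiplicativity
  have hcex : ∀ l l' : ℂ, ∃ c : ℂ, l ∈ L → l' ∈ L →
      ‖c‖ = 1 ∧ ∀ᵐ x ∂ν, e (l * l') x = c * (e l x * e l' x) := by
    intro l l'
    by_cases h : l ∈ L ∧ l' ∈ L
    · obtain ⟨c, hc1, hc2⟩ := eig_unique hE (eg_spec (EV_mul (hLE l h.1) (hLE l' h.2)))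
        (eig_mul (eg_spec (hLE l h.1)) (eg_spec (hLE l' h.2)))
      refine ⟨c, fun _ _ => ⟨hc1, ?_⟩⟩
      rw [he]; exact hc2
    · exact ⟨0, fun h1 h2 => absurd ⟨h1, h2⟩ h⟩
  choose c hc using hcex
  obtain ⟨G, hG⟩ : ∃ G : X → Prop, G = fun x => ∀ l ∈ L, ∀ l' ∈ L,
      e (l * l') x = c l l' * (e l x * e l' x) := ⟨_, rfl⟩
  have hGae : ∀ᵐ x ∂ν, G x := by
    rw [hG]
    simp only [Filter.eventually_all_finset]
    intro l hl l' hl'
    exact (hc l l' hl hl').2
  obtain ⟨K, hK⟩ : ∃ K : X → X → ℂ, K = fun x y => ∑ l ∈ L, e l x * conj (e l y) := ⟨_, rfl⟩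
  have hKd : ∀ x y, G x → G y → K x y = 0 ∨ K x y = L.card := by
    intro x y hx hy
    rw [hG] at hx hy
    rw [hK]
    exact G1_dich L hLmul hL0 (fun l => e l x) (fun l => e l y) c
      (fun l hl l' hl' => (hc l l' hl hl').1) hx hy
  have hKm : ∀ x, Measurable (K x) := by
    intro x
    rw [hK]
    exact Finset.measurable_sum _ fun l _ =>
      (Complex.continuous_conj.measurable.comp (hem l)).const_mul _
  have hKb : ∀ x y, ‖K x y‖ ≤ L.card := by
    intro x y
    rw [hK]
    refine (norm_sum_le _ _).trans ?_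
    have : ∀ l ∈ L, ‖e l x * conj (e l y)‖ ≤ 1 := by
      intro l _
      rw [norm_mul, RCLike.norm_conj, hen, hen, one_mul]
    exact (Finset.sum_le_sum this).trans (by simp)
  obtain ⟨v, hv⟩ : ∃ v : ℕ → ℕ → X → ℂ,
      v = fun n n' x => F ((⇑T)^[n] x) * conj (F ((⇑T)^[n'] x)) := ⟨_, rfl⟩
  have hvm : ∀ n n', Measurable (v n n') := by
    intro n n'
    rw [hv]
    exact (hF.meas.comp (hTn n)).mul
      (Complex.continuous_conj.measurable.comp (hF.meas.comp (hTn n')))
  have hvb : ∀ n n' x, ‖v n n' x‖ ≤ 1 := by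
    intro n n' x
    rw [hv]
    simp only [norm_mul, RCLike.norm_conj]
    exact mul_le_one₀ (hF.bdd _) (norm_nonneg _) (hF.bdd _)
  obtain ⟨W, hW⟩ : ∃ W : ℕ → ℕ → X → ℂ,
      W = fun n n' x => ∑ l ∈ L, fc ν T (v n n') l * e l x := ⟨_, rfl⟩
  have hfcb : ∀ n n' l, ‖fc ν T (v n n') l‖ ≤ 1 := by
    intro n n' l
    unfold fc
    refine (norm_integral_le_of_norm_le_const (C := 1) (Eventually.of_forall fun x => ?_)).trans ?_
    · rw [norm_mul, RCLike.norm_conj, eg_norm, mul_one]; exact hvb n n' x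
    · simp
  have hWm : ∀ n n', Measurable (W n n') := by
    intro n n'
    rw [hW]
    exact Finset.measurable_sum _ fun l _ => (hem l).const_mul _
  have hWb : ∀ n n' x, ‖W n n' x‖ ≤ L.card := by
    intro n n' x
    rw [hW]
    refine (norm_sum_le _ _).trans ?_
    have : ∀ l ∈ L, ‖fc ν T (v n n') l * e l x‖ ≤ 1 := by
      intro l _
      rw [norm_mul, hen, mul_one]
      exact hfcb n n' l
    exact (Finset.sum_le_sum this).trans (by simp)
  have hWK : ∀ n n' a, W n n' a = ∫ y, v n n' y * K a y ∂ν := by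
    intro n n' a
    have h1 : ∀ y, v n n' y * K a y = ∑ l ∈ L, (v n n' y * conj (e l y)) * e l a := by
      intro y
      rw [hK]
      simp only [Finset.mul_sum]
      exact Finset.sum_congr rfl fun l _ => by ring
    simp only [h1]
    rw [integral_finsetSum]
    · rw [hW]
      refine Finset.sum_congr rfl fun l _ => ?_
      rw [integral_mul_const]
      unfold fc
      rw [he]
    · intro l _
      refine G1_int (C := 1) (((hvm n n').mul
        (Complex.continuous_conj.measurable.comp (hem l))).mul_const _) fun y => ?_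
      rw [norm_mul, norm_mul, RCLike.norm_conj, hen, hen, mul_one, mul_one]
      exact hvb n n' y
  -- positivity at two good points
  have hpos : ∀ a b, G a → G b →
      0 ≤ (∑ n ∈ Finset.range N, ∑ n' ∈ Finset.range N, W n n' a * conj (W n n' b)).re := by
    intro a b ha hb
    have h1 : ∀ n n', W n n' a * conj (W n n' b) =
        ∫ z, (v n n' z.1 * K a z.1) * (conj (v n n' z.2) * conj (K b z.2)) ∂(ν.prod ν) := by
      intro n n'
      have h2 : conj (W n n' b) = ∫ y, conj (v n n' y) * conj (K b y) ∂ν := by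
        rw [hWK, ← integral_conj]
        refine integral_congr_ae (Eventually.of_forall fun y => ?_)
        simp
      rw [h2, hWK n n' a]
      exact (integral_prod_mul (fun y => v n n' y * K a y)
        (fun y => conj (v n n' y) * conj (K b y))).symm
    have h3 : ∑ n ∈ Finset.range N, ∑ n' ∈ Finset.range N, W n n' a * conj (W n n' b) =
        ∫ z, K a z.1 * conj (K b z.2) * ((‖∑ n ∈ Finset.range N,
          F ((⇑T)^[n] z.1) * conj (F ((⇑T)^[n] z.2))‖ ^ 2 : ℝ) : ℂ) ∂(ν.prod ν) := by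
      simp only [h1]
      have hi : ∀ n n', Integrable (fun z : X × X =>
          (v n n' z.1 * K a z.1) * (conj (v n n' z.2) * conj (K b z.2))) (ν.prod ν) := by
        intro n n'
        refine G1_int (C := (1 * L.card) * (1 * L.card)) ?_ fun z => ?_
        · exact (((hvm n n').comp measurable_fst).mul ((hKm a).comp measurable_fst)).mul
            ((Complex.continuous_conj.measurable.comp ((hvm n n').comp measurable_snd)).mul
              (Complex.continuous_conj.measurable.comp ((hKm b).comp measurable_snd)))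
        · rw [norm_mul, norm_mul, norm_mul, RCLike.norm_conj, RCLike.norm_conj]
          gcongr
          · exact hvb _ _ _
          · exact hKb _ _
          · exact hvb _ _ _
          · exact hKb _ _
      have h4 : ∀ n, ∑ n' ∈ Finset.range N, ∫ z, (v n n' z.1 * K a z.1) *
          (conj (v n n' z.2) * conj (K b z.2)) ∂(ν.prod ν) =
          ∫ z, ∑ n' ∈ Finset.range N, (v n n' z.1 * K a z.1) *
          (conj (v n n' z.2) * conj (K b z.2)) ∂(ν.prod ν) := fun n =>
        (integral_finsetSum _ fun n' _ => hi n n').symm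
      simp only [h4]
      rw [← integral_finsetSum _ fun n _ => integrable_finsetSum _ fun n' _ => hi n n']
      refine integral_congr_ae (Eventually.of_forall fun z => ?_)
      simp only [hv]
      exact G1_gram (Finset.range N) (fun n => F ((⇑T)^[n] z.1)) (fun n => F ((⇑T)^[n] z.2))
        (K a z.1) (conj (K b z.2))
    rw [h3]
    have h5 : ∀ᵐ z ∂(ν.prod ν), G z.1 ∧ G z.2 := by
      have e1 : ∀ᵐ z ∂(ν.prod ν), G z.1 := Measure.quasiMeasurePreserving_fst.ae hGae
      have e2 : ∀ᵐ z ∂(ν.prod ν), G z.2 := Measure.quasiMeasurePreserving_snd.ae hGae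
      exact e1.and e2
    have h6 : ∀ᵐ z ∂(ν.prod ν), K a z.1 * conj (K b z.2) * ((‖∑ n ∈ Finset.range N,
          F ((⇑T)^[n] z.1) * conj (F ((⇑T)^[n] z.2))‖ ^ 2 : ℝ) : ℂ) =
        (((K a z.1 * conj (K b z.2) * ((‖∑ n ∈ Finset.range N,
          F ((⇑T)^[n] z.1) * conj (F ((⇑T)^[n] z.2))‖ ^ 2 : ℝ) : ℂ)).re : ℝ) : ℂ) ∧
        0 ≤ (K a z.1 * conj (K b z.2) * ((‖∑ n ∈ Finset.range N,
          F ((⇑T)^[n] z.1) * conj (F ((⇑T)^[n] z.2))‖ ^ 2 : ℝ) : ℂ)).re := by
      filter_upwards [h5] with z hz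
      have hr : ∃ r : ℝ, 0 ≤ r ∧ K a z.1 * conj (K b z.2) * ((‖∑ n ∈ Finset.range N,
          F ((⇑T)^[n] z.1) * conj (F ((⇑T)^[n] z.2))‖ ^ 2 : ℝ) : ℂ) = (r : ℂ) := by
        rcases hKd a z.1 ha hz.1 with k1 | k1 <;> rcases hKd b z.2 hb hz.2 with k2 | k2
        · exact ⟨0, le_refl _, by rw [k1]; simp⟩
        · exact ⟨0, le_refl _, by rw [k1]; simp⟩
        · exact ⟨0, le_refl _, by rw [k2]; simp⟩
        · refine ⟨L.card * L.card * (‖∑ n ∈ Finset.range N,
            F ((⇑T)^[n] z.1) * conj (F ((⇑T)^[n] z.2))‖ ^ 2), by positivity, ?_⟩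
          rw [k1, k2, Complex.conj_natCast]
          push_cast
          ring
      obtain ⟨r, hr0, hr⟩ := hr
      rw [hr]
      simp [hr0]
    have h7 : ∫ z, K a z.1 * conj (K b z.2) * ((‖∑ n ∈ Finset.range N,
          F ((⇑T)^[n] z.1) * conj (F ((⇑T)^[n] z.2))‖ ^ 2 : ℝ) : ℂ) ∂(ν.prod ν) =
        ((∫ z, (K a z.1 * conj (K b z.2) * ((‖∑ n ∈ Finset.range N,
          F ((⇑T)^[n] z.1) * conj (F ((⇑T)^[n] z.2))‖ ^ 2 : ℝ) : ℂ)).re ∂(ν.prod ν) : ℝ) : ℂ) := by
      rw [← integral_complex_ofReal]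
      exact integral_congr_ae (h6.mono fun z hz => hz.1)
    rw [h7, Complex.ofReal_re]
    exact integral_nonneg_of_ae (h6.mono fun z hz => hz.2)
  -- the integral over `x`
  have hA : ∀ n n', ∑ l ∈ L, ((‖fc ν T (v n n') l‖ ^ 2 : ℝ) : ℂ) * (l ^ t * conj (l ^ s)) =
      ∫ x, W n n' ((⇑T)^[t] x) * conj (W n n' ((⇑T)^[s] x)) ∂ν := by
    intro n n'
    have hae : ∀ᵐ x ∂ν, W n n' ((⇑T)^[t] x) * conj (W n n' ((⇑T)^[s] x)) =
        ∑ l ∈ L, ∑ l' ∈ L, (fc ν T (v n n') l * l ^ t * conj (fc ν T (v n n') l' * l' ^ s)) *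
          (e l x * conj (e l' x)) := by
      have hit : ∀ k : ℕ, ∀ᵐ x ∂ν, ∀ l ∈ L, e l ((⇑T)^[k] x) = l ^ k * e l x := by
        intro k
        simp only [Filter.eventually_all_finset]
        intro l hl
        rw [he]
        exact eig_iter hT (eg_spec (hLE l hl)) k
      filter_upwards [hit t, hit s] with x h1 h2
      rw [hW]
      simp only [map_sum]
      rw [Finset.sum_mul_sum]
      refine Finset.sum_congr rfl fun l hl => Finset.sum_congr rfl fun l' hl' => ?_
      rw [h1 l hl, h2 l' hl']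
      simp only [map_mul]
      ring
    rw [integral_congr_ae hae]
    have hi : ∀ l l', Integrable (fun x =>
        (fc ν T (v n n') l * l ^ t * conj (fc ν T (v n n') l' * l' ^ s)) *
          (e l x * conj (e l' x))) ν := by
      intro l l'
      refine Integrable.const_mul (G1_int (C := 1) ?_ fun x => ?_) _
      · exact (hem l).mul (Complex.continuous_conj.measurable.comp (hem l'))
      · rw [norm_mul, RCLike.norm_conj, hen, hen, one_mul]
    rw [integral_finsetSum _ fun l _ => integrable_finsetSum _ fun l' _ => hi l l']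
    refine Finset.sum_congr rfl fun l hl => ?_
    rw [integral_finsetSum _ fun l' _ => hi l l', Finset.sum_eq_single l]
    · rw [integral_const_mul]
      have h1 : ∫ x, e l x * conj (e l x) ∂ν = 1 := by
        rw [he]; exact fc_eg_self
      rw [h1, mul_one, map_mul, ← Complex.normSq_eq_norm_sq, ← Complex.mul_conj]
      ring
    · intro l' hl' hne
      rw [integral_const_mul]
      have h1 : ∫ x, e l x * conj (e l' x) ∂ν = 0 := by
        rw [he]; exact fc_eg_ne hT (hLE l hl) (hLE l' hl') (Ne.symm hne)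
      rw [h1, mul_zero]
    · intro h; exact absurd hl h
  have hgoal : ∑ n ∈ Finset.range N, ∑ n' ∈ Finset.range N, ∑ l ∈ L,
      ((‖fc ν T (fun x => F ((⇑T)^[n] x) * conj (F ((⇑T)^[n'] x))) l‖ ^ 2 : ℝ) : ℂ) *
        (l ^ t * conj (l ^ s)) =
      ∫ x, ∑ n ∈ Finset.range N, ∑ n' ∈ Finset.range N,
        W n n' ((⇑T)^[t] x) * conj (W n n' ((⇑T)^[s] x)) ∂ν := by
    have hi : ∀ n n', Integrable (fun x =>
        W n n' ((⇑T)^[t] x) * conj (W n n' ((⇑T)^[s] x))) ν := by
      intro n n'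
      refine G1_int (C := L.card * L.card) ?_ fun x => ?_
      · exact ((hWm n n').comp (hTn t)).mul
          (Complex.continuous_conj.measurable.comp ((hWm n n').comp (hTn s)))
      · rw [norm_mul, RCLike.norm_conj]
        gcongr
        · exact hWb _ _ _
        · exact hWb _ _ _
    rw [integral_finsetSum _ fun n _ => integrable_finsetSum _ fun n' _ => hi n n']
    refine Finset.sum_congr rfl fun n _ => ?_
    rw [integral_finsetSum _ fun n' _ => hi n n']
    refine Finset.sum_congr rfl fun n' _ => ?_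
    rw [← hA n n', hv]
  rw [hgoal]
  have hi : Integrable (fun x => ∑ n ∈ Finset.range N, ∑ n' ∈ Finset.range N,
        W n n' ((⇑T)^[t] x) * conj (W n n' ((⇑T)^[s] x))) ν := by
    refine integrable_finsetSum _ fun n _ => integrable_finsetSum _ fun n' _ => ?_
    refine G1_int (C := L.card * L.card) ?_ fun x => ?_
    · exact ((hWm n n').comp (hTn t)).mul
        (Complex.continuous_conj.measurable.comp ((hWm n n').comp (hTn s)))
    · rw [norm_mul, RCLike.norm_conj]
      gcongr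
      · exact hWb _ _ _
      · exact hWb _ _ _
  have hre := integral_re hi
  have hre' : (∫ x, ∑ n ∈ Finset.range N, ∑ n' ∈ Finset.range N,
        W n n' ((⇑T)^[t] x) * conj (W n n' ((⇑T)^[s] x)) ∂ν).re =
      ∫ x, (∑ n ∈ Finset.range N, ∑ n' ∈ Finset.range N,
        W n n' ((⇑T)^[t] x) * conj (W n n' ((⇑T)^[s] x))).re ∂ν := by
    exact hre.symm
  rw [hre']
  refine integral_nonneg_of_ae ?_
  have g1 : ∀ᵐ x ∂ν, G ((⇑T)^[t] x) := (hT.iterate t).quasiMeasurePreserving.ae hGae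
  have g2 : ∀ᵐ x ∂ν, G ((⇑T)^[s] x) := (hT.iterate s).quasiMeasurePreserving.ae hGae
  filter_upwards [g1, g2] with x h1 h2
  exact hpos _ _ h1 h2

end Pool.Agent.Sar
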