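import Pool.Agent.Sar.K1

/-! MP_13664e_an, module K4: good primes. -/

set_option autoImplicit false

namespace Pool.Agent.Sar

open MeasureTheory ProbabilityTheory Filter Topology
open scoped ENNReal ComplexConjugate

variable {X : Type*} [mX : MeasurableSpace X] {ν : Measure X} [IsProbabilityMeasure ν] {T : X → X}

/-- no nontrivial `p`-th root of unity is an eigenvalue -/
theorem good_root_one {p : ℕ} (hp : Good ν T p) {z : ℂ} (hz : z ∈ EV ν T) (h : z ^ p = 1) :
    z = 1 := by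
  by_contra hne
  haveI : Fact p.Prime := ⟨hp.1⟩
  have ho : orderOf z = p := orderOf_eq_prime h hne
  have hprim : IsPrimitiveRoot z p := by
    rw [← ho]
    exact IsPrimitiveRoot.orderOf z
  have hz1 : zt p ^ p = 1 := by
    have := Complex.isPrimitiveRoot_exp p hp.1.ne_zero
    exact this.pow_eq_one
  haveI : NeZero p := ⟨hp.1.ne_zero⟩
  obtain ⟨i, -, hi⟩ := hprim.eq_pow_of_pow_eq_one hz1
  apply hp.2
  rw [← hi]
  exact EV_pow hz i

theorem good_root (hT : MeasurePreserving T ν ν) {p : ℕ} (hp : Good ν T p) {a b : ℂ}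
    (ha : a ∈ EV ν T) (hb : b ∈ EV ν T) (h : a ^ p = b ^ p) : a = b := by
  have hb1 : ‖b‖ = 1 := EV_norm hT hb
  have hb0 : b ≠ 0 := by
    intro h0
    rw [h0, norm_zero] at hb1
    exact zero_ne_one hb1
  have hz : a * b⁻¹ ∈ EV ν T := EV_mul ha (EV_inv hT hb)
  have h1 := good_root_one hp hz (by
    rw [mul_pow, h, ← mul_pow, mul_inv_cancel₀ hb0, one_pow])
  calc a = a * b⁻¹ * b := by rw [mul_assoc, inv_mul_cancel₀ hb0, mul_one]
    _ = b := by rw [h1, one_mul]

/-- twisted sums -/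
private noncomputable def K4_F (T : X → X) (p : ℕ) (f : X → ℂ) (a : ℂ) (x : X) : ℂ :=
  ∑ j ∈ Finset.range p, a ^ j * f (T^[j] x)

private theorem K4_F_succ (T : X → X) {p : ℕ} {f : X → ℂ} (hf : ∀ x, f (T^[p] x) = f x) {a : ℂ}
    (ha : a ^ p = 1) (x : X) : a * K4_F T p f a (T x) = K4_F T p f a x := by
  unfold K4_F
  rw [Finset.mul_sum]
  have h1 : ∀ j ∈ Finset.range p, a * (a ^ j * f (T^[j] (T x))) =
      a ^ (j + 1) * f (T^[j + 1] x) := by
    intro j _
    rw [Function.iterate_succ_apply, pow_succ]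
    ring
  rw [Finset.sum_congr rfl h1]
  have h2 := Finset.sum_range_succ (fun j => a ^ j * f (T^[j] x)) p
  have h3 := Finset.sum_range_succ' (fun j => a ^ j * f (T^[j] x)) p
  rw [h2] at h3
  simp only [pow_zero, one_mul, Function.iterate_zero, id_eq, ha, hf] at h3
  exact (add_right_cancel h3).symm

private theorem K4_F_sum (T : X → X) {p : ℕ} (hp : 0 < p) (f : X → ℂ) {ζ : ℂ}
    (hζ : IsPrimitiveRoot ζ p) (x : X) :
    ∑ k ∈ Finset.range p, K4_F T p f (ζ ^ k) x = p * f x := by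
  unfold K4_F
  rw [Finset.sum_comm]
  have h1 : ∀ j ∈ Finset.range p, ∑ k ∈ Finset.range p, (ζ ^ k) ^ j * f (T^[j] x) =
      if j = 0 then (p : ℂ) * f x else 0 := by
    intro j hj
    rw [← Finset.sum_mul]
    by_cases h0 : j = 0
    · subst h0
      simp
    · rw [if_neg h0]
      have h2 : ∑ k ∈ Finset.range p, (ζ ^ k) ^ j = ∑ k ∈ Finset.range p, (ζ ^ j) ^ k := by
        refine Finset.sum_congr rfl fun k _ => ?_
        rw [← pow_mul, ← pow_mul, mul_comm]
      have h3 : ζ ^ j ≠ 1 := by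
        intro h4
        have h5 := Nat.le_of_dvd (Nat.pos_of_ne_zero h0) ((hζ.pow_eq_one_iff_dvd j).1 h4)
        have := Finset.mem_range.1 hj
        omega
      have h4 := mul_geom_sum (ζ ^ j) p
      rw [← pow_mul, mul_comm j p, pow_mul, hζ.pow_eq_one, one_pow, sub_self] at h4
      rw [h2]
      rcases mul_eq_zero.1 h4 with h5 | h5
      · exact absurd (sub_eq_zero.1 h5) h3
      · rw [h5, zero_mul]
  rw [Finset.sum_congr rfl h1, Finset.sum_ite_eq' (Finset.range p) 0, if_pos (Finset.mem_range.2 hp)]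

theorem good_erg (hE : Ergodic T ν) {p : ℕ} (hp : Good ν T p) : Ergodic (T^[p]) ν := by
  refine ⟨hE.toMeasurePreserving.iterate p, ⟨fun {s} hs hinv => ?_⟩⟩
  have hp0 : 0 < p := hp.1.pos
  have hpc : (p : ℂ) ≠ 0 := by exact_mod_cast hp.1.ne_zero
  apply hE.quasiErgodic.aeconst_set₀ hs.nullMeasurableSet
  obtain ⟨f, hfdef⟩ : ∃ f : X → ℂ, f = s.indicator fun _ => (1 : ℂ) := ⟨_, rfl⟩
  have hfm : Measurable f := by
    rw [hfdef]
    exact measurable_const.indicator hs
  have hfb : ∀ x, ‖f x‖ ≤ 1 := by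
    intro x
    rw [hfdef]
    by_cases hx : x ∈ s
    · rw [Set.indicator_of_mem hx]; simp
    · rw [Set.indicator_of_notMem hx]; simp
  have hfT : ∀ x, f (T^[p] x) = f x := by
    intro x
    have hx : T^[p] x ∈ s ↔ x ∈ s := by
      rw [← Set.mem_preimage, hinv]
    rw [hfdef]
    by_cases h : x ∈ s
    · rw [Set.indicator_of_mem h, Set.indicator_of_mem (hx.2 h)]
    · rw [Set.indicator_of_notMem h, Set.indicator_of_notMem (fun h' => h (hx.1 h'))]
  have hζ : IsPrimitiveRoot (zt p) p := Complex.isPrimitiveRoot_exp p hp.1.ne_zero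
  have hFm : ∀ a, Measurable (K4_F T p f a) := by
    intro a
    unfold K4_F
    refine Finset.measurable_fun_sum _ fun j _ => ?_
    exact (hfm.comp (hE.toMeasurePreserving.iterate j).measurable).const_mul _
  have hFi : ∀ a, Integrable (K4_F T p f a) ν := by
    intro a
    unfold K4_F
    refine integrable_finsetSum _ fun j _ => ?_
    refine Integrable.const_mul ?_ _
    refine Integrable.of_bound ((hfm.comp
      (hE.toMeasurePreserving.iterate j).measurable).aestronglyMeasurable) 1 ?_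
    exact Eventually.of_forall fun x => hfb _
  have hzero : ∀ a : ℂ, a ^ p = 1 → a ≠ 1 → ∀ᵐ x ∂ν, K4_F T p f a x = 0 := by
    intro a ha hne
    by_contra hcon
    have ha0 : a ≠ 0 := by
      intro h0
      rw [h0, zero_pow hp.1.ne_zero] at ha
      exact zero_ne_one ha
    have h1 : ∀ᵐ x ∂ν, K4_F T p f a (T x) = a⁻¹ * K4_F T p f a x := by
      refine Eventually.of_forall fun x => ?_
      rw [← K4_F_succ T hfT ha x, ← mul_assoc, inv_mul_cancel₀ ha0, one_mul]
    have h2 := (eig_of_fun hE (hFi a) h1 hcon).1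
    have h3 := good_root_one hp h2 (by rw [inv_pow, ha, inv_one])
    exact hne (inv_eq_one.1 h3)
  have hall : ∀ᵐ x ∂ν, (p : ℂ) * f x = K4_F T p f 1 x := by
    have h1 : ∀ᵐ x ∂ν, ∀ k ∈ Finset.range p, k ≠ 0 → K4_F T p f (zt p ^ k) x = 0 := by
      rw [Filter.eventually_all_finset]
      intro k hk
      by_cases hk0 : k = 0
      · exact Eventually.of_forall fun x h => absurd hk0 h
      · have h2 : (zt p ^ k) ^ p = 1 := by
          rw [← pow_mul, mul_comm, pow_mul, hζ.pow_eq_one, one_pow]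
        have h3 : zt p ^ k ≠ 1 := by
          intro h4
          have h5 := Nat.le_of_dvd (Nat.pos_of_ne_zero hk0) ((hζ.pow_eq_one_iff_dvd k).1 h4)
          have := Finset.mem_range.1 hk
          omega
        filter_upwards [hzero _ h2 h3] with x hx _
        exact hx
    filter_upwards [h1] with x hx
    rw [← K4_F_sum T hp0 f hζ x, Finset.sum_eq_single_of_mem 0 (Finset.mem_range.2 hp0)
      (fun k hk hk0 => hx k hk hk0), pow_zero]
  have hall' := hE.toMeasurePreserving.quasiMeasurePreserving.ae hall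
  have hff : ∀ᵐ x ∂ν, f (T x) = f x := by
    filter_upwards [hall, hall'] with x hx hx'
    have h1 := K4_F_succ T hfT (one_pow p) x
    rw [one_mul, ← hx, ← hx'] at h1
    exact mul_left_cancel₀ hpc h1
  filter_upwards [hff] with x hx
  apply propext
  change T x ∈ s ↔ x ∈ s
  rw [hfdef] at hx
  by_cases h : x ∈ s
  · rw [Set.indicator_of_mem h] at hx
    by_cases h' : T x ∈ s
    · exact iff_of_true h' h
    · rw [Set.indicator_of_notMem h'] at hx
      exact absurd hx zero_ne_one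
  · rw [Set.indicator_of_notMem h] at hx
    by_cases h' : T x ∈ s
    · rw [Set.indicator_of_mem h'] at hx
      exact absurd hx one_ne_zero
    · exact iff_of_false h' h

/-- eigenfunctions of `T^p` are eigenfunctions of `T` -/
theorem good_eig (hE : Ergodic T ν) {p : ℕ} (hp : Good ν T p) {β : ℂ} {v : X → ℂ}
    (hv : Integrable v ν) (h : ∀ᵐ x ∂ν, v (T^[p] x) = β * v x) (h0 : ¬ (∀ᵐ x ∂ν, v x = 0)) :
    ∃ l ∈ EV ν T, l ^ p = β ∧ ∃ c : ℂ, c ≠ 0 ∧ ∀ᵐ x ∂ν, v x = c * eg ν T l x := by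
  have hEp := good_erg hE hp
  obtain ⟨hβ, c, hc0, hc⟩ := eig_of_fun hEp hv h h0
  have he := eg_spec hβ
  obtain ⟨e, hedef⟩ : ∃ e, e = eg ν T^[p] β := ⟨_, rfl⟩
  rw [← hedef] at he hc
  have hβn : ‖β‖ = 1 := EV_norm hEp.toMeasurePreserving hβ
  -- the quotient
  have hqm : Measurable fun x => e (T x) * conj (e x) :=
    (he.meas.comp hE.toMeasurePreserving.measurable).mul
      (Complex.continuous_conj.measurable.comp he.meas)
  have hββ : β * conj β = 1 := by
    rw [Complex.mul_conj, Complex.normSq_eq_norm_sq, hβn]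
    simp
  have hee : ∀ x, e x * conj (e x) = 1 := by
    intro x
    rw [Complex.mul_conj, Complex.normSq_eq_norm_sq, he.norm x]
    simp
  have h1 := hE.toMeasurePreserving.quasiMeasurePreserving.ae he.eq
  have hqinv : (fun x => e (T x) * conj (e x)) ∘ T^[p] =ᵐ[ν] fun x => e (T x) * conj (e x) := by
    filter_upwards [he.eq, h1] with x hx hx'
    simp only [Function.comp_apply]
    have h2 : T (T^[p] x) = T^[p] (T x) := by
      rw [← Function.iterate_succ_apply' T p x, Function.iterate_succ_apply]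
    rw [h2, hx', hx, map_mul]
    calc β * e (T x) * (conj β * conj (e x)) = (β * conj β) * (e (T x) * conj (e x)) := by ring
      _ = e (T x) * conj (e x) := by rw [hββ, one_mul]
  obtain ⟨l, hl⟩ := hEp.ae_eq_const_of_ae_eq_comp_ae hqm.aestronglyMeasurable hqinv
  have hTe : ∀ᵐ x ∂ν, e (T x) = l * e x := by
    filter_upwards [hl] with x hx
    simp only [Function.const_apply] at hx
    rw [← hx, mul_assoc, mul_comm (conj (e x)), hee, mul_one]
  have hIs : IsEig ν T l e := ⟨he.meas, he.norm, hTe⟩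
  have hlEV : l ∈ EV ν T := ⟨e, hIs⟩
  refine ⟨l, hlEV, ?_, ?_⟩
  · have h2 := eig_iter hE.toMeasurePreserving hIs p
    obtain ⟨x, hx, hx'⟩ := (h2.and he.eq).exists
    rw [hx'] at hx
    have hex : e x ≠ 0 := by
      intro h3
      have := he.norm x
      rw [h3, norm_zero] at this
      exact zero_ne_one this
    exact (mul_right_cancel₀ hex hx).symm
  · obtain ⟨c', hc'n, hc'⟩ := eig_unique hE hIs (eg_spec hlEV)
    have hc'0 : c' ≠ 0 := by
      intro h3
      rw [h3, norm_zero] at hc'n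
      exact zero_ne_one hc'n
    refine ⟨c * c', mul_ne_zero hc0 hc'0, ?_⟩
    filter_upwards [hc, hc'] with x hx hx'
    rw [hx, hx', mul_assoc]

/-- torsion eigenvalues have order prime to the good primes -/
theorem good_coprime (hT : MeasurePreserving T ν ν) {p : ℕ} (hp : Good ν T p) {l : ℂ}
    (hl : l ∈ EV ν T) (ht : Tors l) : Nat.Coprime p (orderOf l) ∧ 0 < orderOf l := by
  obtain ⟨q, hq, hlq⟩ := ht
  have hpos : 0 < orderOf l := orderOf_pos_iff.2 (isOfFinOrder_iff_pow_eq_one.2 ⟨q, hq, hlq⟩)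
  refine ⟨?_, hpos⟩
  rw [Nat.Prime.coprime_iff_not_dvd hp.1]
  rintro ⟨m, hm⟩
  have hm0 : 0 < m := by
    rcases Nat.eq_zero_or_pos m with h | h
    · rw [h, mul_zero] at hm
      omega
    · exact h
  have h1 : (l ^ m) ^ p = 1 := by
    rw [← pow_mul, mul_comm, ← hm, pow_orderOf_eq_one]
  have h2 := good_root_one hp (EV_pow hl m) h1
  have h3 := Nat.le_of_dvd hm0 (orderOf_dvd_of_pow_eq_one h2)
  rw [hm] at h3
  have h4 := hp.1.two_le
  nlinarith

/-- Bezout: compatible pairs have a common root -/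
theorem good_bezout (hT : MeasurePreserving T ν ν) {p₀ p : ℕ} (h0 : Good ν T p₀)
    (hp : Good ν T p) (hne : p₀ ≠ p) {l l' : ℂ} (hl : l ∈ EV ν T) (hl' : l' ∈ EV ν T)
    (h : l ^ p₀ = l' ^ p) : ∃ m ∈ EV ν T, m ^ p = l ∧ m ^ p₀ = l' := by
  have hl0 : l ≠ 0 := by
    intro h3
    have h4 := EV_norm hT hl
    rw [h3, norm_zero] at h4
    exact zero_ne_one h4
  have hl0' : l' ≠ 0 := by
    intro h3
    have h4 := EV_norm hT hl'
    rw [h3, norm_zero] at h4
    exact zero_ne_one h4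
  have hcop : Nat.Coprime p₀ p := (Nat.coprime_primes h0.1 hp.1).2 hne
  have hbez := Nat.gcd_eq_gcd_ab p₀ p
  rw [hcop.gcd_eq_one, Nat.cast_one] at hbez
  obtain ⟨a, ha⟩ : ∃ a, a = Nat.gcdA p₀ p := ⟨_, rfl⟩
  obtain ⟨b, hb⟩ : ∃ b, b = Nat.gcdB p₀ p := ⟨_, rfl⟩
  rw [← ha, ← hb] at hbez
  have hm : l' ^ a * l ^ b ∈ EV ν T := EV_mul (EV_zpow hT hl' a) (EV_zpow hT hl b)
  have hmp : (l' ^ a * l ^ b) ^ p = l := by
    rw [mul_pow, ← zpow_natCast (l' ^ a) p, ← zpow_natCast (l ^ b) p, ← zpow_mul, ← zpow_mul,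
      mul_comm a (p : ℤ), zpow_mul, zpow_natCast, ← h, ← zpow_natCast l p₀, ← zpow_mul,
      ← zpow_add₀ hl0, mul_comm b (p : ℤ), ← hbez, zpow_one]
  refine ⟨l' ^ a * l ^ b, hm, hmp, ?_⟩
  refine good_root hT hp (EV_pow hm p₀) hl' ?_
  rw [← pow_mul, mul_comm p₀ p, pow_mul, hmp, h]

/-- if `l ^ (k p₀)` is a `p`-th power of an eigenvalue with `k` prime to `p`, so is `l` -/
theorem good_isPow (hT : MeasurePreserving T ν ν) {p : ℕ} (hp : p.Prime) {k : ℕ}
    (hk : Nat.Coprime k p) {l : ℂ} (hl : l ∈ EV ν T) (h : IsPow ν T p (l ^ k)) :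
    IsPow ν T p l := by
  have hl0 : l ≠ 0 := by
    intro h3
    have h4 := EV_norm hT hl
    rw [h3, norm_zero] at h4
    exact zero_ne_one h4
  obtain ⟨m, hm, hmp⟩ := h
  have hm0 : m ≠ 0 := by
    intro h3
    have h4 := EV_norm hT hm
    rw [h3, norm_zero] at h4
    exact zero_ne_one h4
  have hbez := Nat.gcd_eq_gcd_ab k p
  rw [hk.gcd_eq_one, Nat.cast_one] at hbez
  obtain ⟨a, ha⟩ : ∃ a, a = Nat.gcdA k p := ⟨_, rfl⟩
  obtain ⟨b, hb⟩ : ∃ b, b = Nat.gcdB k p := ⟨_, rfl⟩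
  rw [← ha, ← hb] at hbez
  refine ⟨m ^ a * l ^ b, EV_mul (EV_zpow hT hm a) (EV_zpow hT hl b), ?_⟩
  rw [mul_pow, ← zpow_natCast (m ^ a) p, ← zpow_natCast (l ^ b) p, ← zpow_mul, ← zpow_mul,
    mul_comm a (p : ℤ), zpow_mul, zpow_natCast, hmp, ← zpow_natCast l k, ← zpow_mul,
    ← zpow_add₀ hl0, mul_comm b (p : ℤ), ← hbez, zpow_one]

end Pool.Agent.Sar
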