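import Pool.Agent.Sar.P1
import Pool.Agent.Sar.K4

/-! MP_13664e_an, module P2: joinings of `T^p` with itself are `T × T`-invariant (`p` good). -/

set_option autoImplicit false

namespace Pool.Agent.Sar

open MeasureTheory ProbabilityTheory Filter Topology
open scoped ENNReal ComplexConjugate

variable {X : Type*} [mX : MeasurableSpace X] [StandardBorelSpace X] [Nonempty X]
  {ν : Measure X} [IsProbabilityMeasure ν]

private theorem P2_inv {S : X × X → X × X} (hS : Measurable S) {D : Measure (X × X)} {p : ℕ}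
    (hp0 : p ≠ 0) (hD : D.map S^[p] = D) :
    ((p : ℝ≥0∞)⁻¹ • ∑ j ∈ Finset.range p, D.map S^[j]).map S =
      (p : ℝ≥0∞)⁻¹ • ∑ j ∈ Finset.range p, D.map S^[j] := by
  obtain ⟨q, rfl⟩ := Nat.exists_eq_succ_of_ne_zero hp0
  rw [Measure.map_smul]
  congr 1
  ext A hA
  rw [Measure.map_apply hS hA, Measure.finsetSum_apply, Measure.finsetSum_apply]
  have h1 : ∀ j, (D.map S^[j]) (S ⁻¹' A) = (D.map S^[j + 1]) A := by
    intro j
    rw [Measure.map_apply (hS.iterate j) (hS hA), Measure.map_apply (hS.iterate (j + 1)) hA]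
    congr 1
    ext z
    simp only [Set.mem_preimage, Function.iterate_succ_apply']
  simp only [h1]
  rw [Finset.sum_range_succ, Finset.sum_range_succ' (fun j => (D.map S^[j]) A)]
  congr 1
  have : q.succ = q + 1 := rfl
  rw [this] at hD
  rw [hD]
  simp

private theorem P2_root_sum {z : ℂ} {p : ℕ} (hz : IsPrimitiveRoot z p) (j : ℕ)
    (hj0 : j ≠ 0) (hj : j < p) : ∑ k ∈ Finset.range p, ((z ^ k)⁻¹) ^ j = 0 := by
  have h1 : ((z⁻¹) ^ j) ≠ 1 := by
    intro h
    have h2 : z ^ j = 1 := by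
      rw [inv_pow] at h
      exact inv_eq_one.mp h
    have := (hz.pow_eq_one_iff_dvd j).mp h2
    exact absurd (Nat.le_of_dvd (Nat.pos_of_ne_zero hj0) this) (by omega)
  have h3 : ∀ k, ((z ^ k)⁻¹) ^ j = ((z⁻¹) ^ j) ^ k := by
    intro k
    rw [← inv_pow, ← pow_mul, ← pow_mul, mul_comm]
  simp only [h3]
  rw [geom_sum_eq h1]
  have h4 : ((z⁻¹) ^ j) ^ p = 1 := by
    rw [← pow_mul, mul_comm, pow_mul, inv_pow, hz.pow_eq_one]
    simp
  rw [h4]
  simp

theorem P2 {T : X ≃ᵐ X} (hE : Ergodic T ν) {m : ℕ} {a : ℝ} {ℓ : X → Fin m}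
    (hL : Lab ν T m a ℓ) {p : ℕ} (hp : Good ν T p) (hm : m ^ 2 < p)
    {D : Measure (X × X)} [IsProbabilityMeasure D] (hD : Coup ν D)
    (inv : D.map (Prod.map (⇑T)^[p] (⇑T)^[p]) = D) : D.map (Prod.map T T) = D := by
  have hT : MeasurePreserving T ν ν := hE.toMeasurePreserving
  have hpp : p.Prime := hp.1
  have hp0 : p ≠ 0 := hpp.ne_zero
  have hpR : (p : ℝ≥0∞) ≠ 0 := by exact_mod_cast hp0
  have hpC : (p : ℂ) ≠ 0 := by exact_mod_cast hp0
  obtain ⟨S, hSdef⟩ : ∃ S : X × X → X × X, S = Prod.map T T := ⟨_, rfl⟩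
  have hSm : Measurable S := by rw [hSdef]; exact T.measurable.prodMap T.measurable
  have hSn : ∀ j, S^[j] = Prod.map (⇑T)^[j] (⇑T)^[j] := by
    intro j; rw [hSdef, Prod.map_iterate]
  have hDp : D.map S^[p] = D := by rw [hSn]; exact inv
  obtain ⟨D', hD'⟩ : ∃ D' : Measure (X × X),
      D' = (p : ℝ≥0∞)⁻¹ • ∑ j ∈ Finset.range p, D.map S^[j] := ⟨_, rfl⟩
  have hprobj : ∀ j, IsProbabilityMeasure (D.map S^[j]) := fun j =>
    Measure.isProbabilityMeasure_map (hSm.iterate j).aemeasurable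
  have hprob : IsProbabilityMeasure D' := by
    constructor
    rw [hD', Measure.smul_apply, Measure.finsetSum_apply]
    have : ∀ j ∈ Finset.range p, (D.map S^[j]) Set.univ = 1 := fun j _ => (hprobj j).measure_univ
    rw [Finset.sum_congr rfl this]
    simp only [Finset.sum_const, Finset.card_range, nsmul_eq_mul, mul_one, smul_eq_mul]
    exact ENNReal.inv_mul_cancel hpR (ENNReal.natCast_ne_top p)
  have hinv' : D'.map S = D' := by rw [hD']; exact P2_inv hSm hp0 hDp
  have hcoupj : ∀ j, (D.map S^[j]).map Prod.fst = ν ∧ (D.map S^[j]).map Prod.snd = ν := by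
    intro j
    rw [Measure.map_map measurable_fst (hSm.iterate j), Measure.map_map measurable_snd (hSm.iterate j)]
    have e1 : Prod.fst ∘ S^[j] = (⇑T)^[j] ∘ (Prod.fst : X × X → X) := by
      rw [hSn]; rfl
    have e2 : Prod.snd ∘ S^[j] = (⇑T)^[j] ∘ (Prod.snd : X × X → X) := by
      rw [hSn]; rfl
    rw [e1, e2, ← Measure.map_map (T.measurable.iterate j) measurable_fst,
      ← Measure.map_map (T.measurable.iterate j) measurable_snd, hD.fst, hD.snd]
    exact ⟨(hT.iterate j).map_eq, (hT.iterate j).map_eq⟩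
  have hcoup : Coup ν D' := by
    have key : ∀ g : X × X → X, Measurable g → (∀ j, (D.map S^[j]).map g = ν) → D'.map g = ν := by
      intro g hg h
      rw [hD', Measure.map_smul]
      ext A hA
      rw [Measure.smul_apply, Measure.map_apply hg hA, Measure.finsetSum_apply]
      have : ∀ j ∈ Finset.range p, (D.map S^[j]) (g ⁻¹' A) = ν A := by
        intro j _
        rw [← Measure.map_apply hg hA, h j]
      rw [Finset.sum_congr rfl this]
      simp only [Finset.sum_const, Finset.card_range, nsmul_eq_mul, smul_eq_mul]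
      rw [← mul_assoc, ENNReal.inv_mul_cancel hpR (ENNReal.natCast_ne_top p), one_mul]
    exact ⟨key _ measurable_fst fun j => (hcoupj j).1, key _ measurable_snd fun j => (hcoupj j).2⟩
  have hle : D ≤ (p : ℝ≥0∞) • D' := by
    rw [hD', smul_smul, ENNReal.mul_inv_cancel hpR (ENNReal.natCast_ne_top p), one_smul]
    have h0 : D = D.map S^[0] := by simp
    conv_lhs => rw [h0]
    intro A
    rw [Measure.finsetSum_apply]
    exact Finset.single_le_sum (f := fun j => (D.map S^[j]) A) (fun _ _ => bot_le)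
      (Finset.mem_range.mpr (Nat.pos_of_ne_zero hp0))
  have hac : D ≪ D' := by
    intro A hA
    have := hle A
    rw [Measure.smul_apply, hA, smul_zero] at this
    exact le_antisymm this bot_le
  have hmpS : MeasurePreserving S D' D' := ⟨hSm, hinv'⟩
  have hmpD : MeasurePreserving S^[p] D D := ⟨hSm.iterate p, hDp⟩
  have hmpD' : MeasurePreserving S^[p] D' D' := hmpS.iterate p
  have hf : D.rnDeriv D' ∘ S^[p] =ᵐ[D'] D.rnDeriv D' := hmpD.rnDeriv_comp_aeEq hmpD'
  have hfle : ∀ᵐ z ∂D', D.rnDeriv D' z ≤ p := by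
    refine ae_le_of_forall_setLIntegral_le_of_sigmaFinite (D.measurable_rnDeriv D') ?_
    intro s _ _
    refine (Measure.setLIntegral_rnDeriv_le s).trans ?_
    rw [setLIntegral_const]
    have := hle s
    rwa [Measure.smul_apply, smul_eq_mul] at this
  -- the density as a bounded complex function
  obtain ⟨g, hg⟩ : ∃ g : X × X → ℂ, g = fun z => (((min (D.rnDeriv D' z) p).toReal : ℝ) : ℂ) :=
    ⟨_, rfl⟩
  have hgm : Measurable g := by
    rw [hg]
    exact Complex.measurable_ofReal.comp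
      ((D.measurable_rnDeriv D').min measurable_const).ennreal_toReal
  have hgb : ∀ z, ‖g z‖ ≤ p := by
    intro z
    rw [hg]
    simp only [Complex.norm_real, Real.norm_eq_abs, abs_of_nonneg ENNReal.toReal_nonneg]
    have : (min (D.rnDeriv D' z) (p : ℝ≥0∞)).toReal ≤ ((p : ℝ≥0∞)).toReal :=
      ENNReal.toReal_mono (ENNReal.natCast_ne_top p) (min_le_right _ _)
    simpa using this
  have hgp : ∀ᵐ z ∂D', g (S^[p] z) = g z := by
    filter_upwards [hf] with z hz
    rw [hg]
    simp only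
    have : D.rnDeriv D' (S^[p] z) = D.rnDeriv D' z := hz
    rw [this]
  -- Fourier components
  obtain ⟨gz, hgz⟩ : ∃ gz : ℂ → X × X → ℂ,
      gz = fun z x => ∑ j ∈ Finset.range p, (z⁻¹) ^ j * g (S^[j] x) := ⟨_, rfl⟩
  have hgzm : ∀ z, Measurable (gz z) := by
    intro z
    rw [hgz]
    exact Finset.measurable_sum _ fun j _ => (hgm.comp (hSm.iterate j)).const_mul _
  have hgzS : ∀ z : ℂ, z ≠ 0 → z ^ p = 1 → ∀ᵐ x ∂D', gz z (S x) = z * gz z x := by
    intro z hz0 hz
    filter_upwards [hgp] with x hx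
    rw [hgz]
    simp only
    have hx' : g (S^[p] x) = g x := hx
    have h1 : ∀ j, (z⁻¹) ^ j * g (S^[j] (S x)) = z * ((z⁻¹) ^ (j + 1) * g (S^[j + 1] x)) := by
      intro j
      rw [Function.iterate_succ_apply, pow_succ]
      field_simp
    simp only [h1]
    rw [← Finset.mul_sum]
    congr 1
    obtain ⟨q, hq⟩ := Nat.exists_eq_succ_of_ne_zero hp0
    rw [hq, Finset.sum_range_succ,
      Finset.sum_range_succ' (fun j => (z⁻¹) ^ j * g (S^[j] x))]
    congr 1
    have hq' : q + 1 = p := hq.symm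
    rw [hq', hx', inv_pow, hz]
    simp
  have hgz0 : ∀ z : ℂ, z ^ p = 1 → z ≠ 1 → ∀ᵐ x ∂D', gz z x = 0 := by
    intro z hz hz1
    have hz0 : z ≠ 0 := by
      intro h; rw [h, zero_pow hp0] at hz; exact zero_ne_one hz
    have hzn : ‖z‖ = 1 := by
      have : ‖z‖ ^ p = 1 := by rw [← norm_pow, hz, norm_one]
      exact (pow_eq_one_iff_of_nonneg (norm_nonneg _) hp0).mp this
    have hzb : ∀ x, ‖gz z x‖ ≤ p * p := by
      intro x
      rw [hgz]
      refine (norm_sum_le _ _).trans ?_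
      have : ∀ j ∈ Finset.range p, ‖(z⁻¹) ^ j * g (S^[j] x)‖ ≤ p := by
        intro j _
        rw [norm_mul, norm_pow, norm_inv, hzn, inv_one, one_pow, one_mul]
        exact hgb _
      refine (Finset.sum_le_sum this).trans ?_
      simp
    refine P1 (φ := gz z) hE hL hcoup (hgzm z) ⟨p * p, hzb⟩ ?_
    intro n hn1 hnm l₁ hl₁ l₂ hl₂
    by_contra hI
    have e1 := (eg_spec hl₁).eq
    have e2 := (eg_spec hl₂).eq
    have e1' : ∀ᵐ x ∂D', eg ν T l₁ (T x.1) = l₁ * eg ν T l₁ x.1 := by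
      have : ∀ᵐ y ∂(D'.map Prod.fst), eg ν T l₁ (T y) = l₁ * eg ν T l₁ y := by
        rw [hcoup.fst]; exact e1
      exact ae_of_ae_map measurable_fst.aemeasurable this
    have e2' : ∀ᵐ x ∂D', eg ν T l₂ (T x.2) = l₂ * eg ν T l₂ x.2 := by
      have : ∀ᵐ y ∂(D'.map Prod.snd), eg ν T l₂ (T y) = l₂ * eg ν T l₂ y := by
        rw [hcoup.snd]; exact e2
      exact ae_of_ae_map measurable_snd.aemeasurable this
    have hint : ∫ x, gz z x ^ n * (eg ν T l₁ x.1 * eg ν T l₂ x.2) ∂D' =
        (z ^ n * (l₁ * l₂)) * ∫ x, gz z x ^ n * (eg ν T l₁ x.1 * eg ν T l₂ x.2) ∂D' := by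
      have hmeas : Measurable (fun x : X × X => gz z x ^ n * (eg ν T l₁ x.1 * eg ν T l₂ x.2)) :=
        ((hgzm z).pow_const n).mul (((eg_meas l₁).comp measurable_fst).mul
          ((eg_meas l₂).comp measurable_snd))
      calc ∫ x, gz z x ^ n * (eg ν T l₁ x.1 * eg ν T l₂ x.2) ∂D'
          = ∫ x, gz z x ^ n * (eg ν T l₁ x.1 * eg ν T l₂ x.2) ∂(D'.map S) := by rw [hinv']
        _ = ∫ x, gz z (S x) ^ n * (eg ν T l₁ (S x).1 * eg ν T l₂ (S x).2) ∂D' :=
            integral_map hSm.aemeasurable hmeas.aestronglyMeasurable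
        _ = ∫ x, (z ^ n * (l₁ * l₂)) * (gz z x ^ n * (eg ν T l₁ x.1 * eg ν T l₂ x.2)) ∂D' := by
            refine integral_congr_ae ?_
            filter_upwards [hgzS z hz0 hz, e1', e2'] with x hx h1 h2
            have s1 : (S x).1 = T x.1 := by rw [hSdef]; rfl
            have s2 : (S x).2 = T x.2 := by rw [hSdef]; rfl
            rw [s1, s2, hx, h1, h2, mul_pow]
            ring
        _ = _ := integral_const_mul _ _
    have hone : z ^ n * (l₁ * l₂) = 1 := by
      have h5 : (1 - z ^ n * (l₁ * l₂)) *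
          ∫ x, gz z x ^ n * (eg ν T l₁ x.1 * eg ν T l₂ x.2) ∂D' = 0 := by
        rw [sub_mul, one_mul, ← hint, sub_self]
      rcases mul_eq_zero.mp h5 with h6 | h6
      · exact (sub_eq_zero.mp h6).symm
      · exact absurd h6 hI
    have hzn_mem : z ^ n ∈ EV ν T := by
      have h7 : z ^ n = (l₁ * l₂)⁻¹ := eq_inv_of_mul_eq_one_left hone
      rw [h7]
      exact EV_inv hT (EV_mul hl₁ hl₂)
    have h8 : z ^ n = 1 := good_root_one hp hzn_mem (by rw [← pow_mul, mul_comm, pow_mul, hz, one_pow])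
    have h9 : orderOf z = p := by
      have : Fact p.Prime := ⟨hpp⟩
      exact orderOf_eq_prime hz hz1
    have h10 : p ∣ n := by rw [← h9]; exact orderOf_dvd_of_pow_eq_one h8
    have := Nat.le_of_dvd (by omega) h10
    omega
  -- inversion
  have hprim : IsPrimitiveRoot (zt p) p := Complex.isPrimitiveRoot_exp p hp0
  have hall : ∀ᵐ x ∂D', ∀ k ∈ Finset.range p, k ≠ 0 → gz ((zt p) ^ k) x = 0 := by
    rw [ae_all_iff]
    intro k
    by_cases hk : k ∈ Finset.range p ∧ k ≠ 0
    · have hk1 : (zt p) ^ k ≠ 1 := by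
        intro h
        have := (hprim.pow_eq_one_iff_dvd k).mp h
        have h2 := Nat.le_of_dvd (Nat.pos_of_ne_zero hk.2) this
        have h3 := Finset.mem_range.mp hk.1
        omega
      have hkp : ((zt p) ^ k) ^ p = 1 := by
        rw [← pow_mul, mul_comm, pow_mul, hprim.pow_eq_one, one_pow]
      filter_upwards [hgz0 _ hkp hk1] with x hx _ _
      exact hx
    · refine Eventually.of_forall fun x h1 h2 => absurd ⟨h1, h2⟩ hk
  have hinvf : ∀ x, (∀ k ∈ Finset.range p, k ≠ 0 → gz ((zt p) ^ k) x = 0) →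
      (p : ℂ) * g x = gz 1 x := by
    intro x hx
    have h1 : ∑ k ∈ Finset.range p, gz ((zt p) ^ k) x = gz 1 x := by
      rw [Finset.sum_eq_single 0]
      · simp
      · intro k hk hk0; exact hx k hk hk0
      · intro h; exact absurd (Finset.mem_range.mpr (Nat.pos_of_ne_zero hp0)) h
    rw [← h1, hgz]
    simp only
    rw [Finset.sum_comm, Finset.sum_eq_single 0]
    · simp
    · intro j hj hj0
      rw [← Finset.sum_mul, P2_root_sum hprim j hj0 (Finset.mem_range.mp hj), zero_mul]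
    · intro h; exact absurd (Finset.mem_range.mpr (Nat.pos_of_ne_zero hp0)) h
  have hallS : ∀ᵐ x ∂D', ∀ k ∈ Finset.range p, k ≠ 0 → gz ((zt p) ^ k) (S x) = 0 :=
    hmpS.quasiMeasurePreserving.ae hall
  have hginv : ∀ᵐ x ∂D', g (S x) = g x := by
    filter_upwards [hall, hallS, hgzS 1 one_ne_zero (one_pow p)] with x h1 h2 h3
    have h4 := hinvf x h1
    have h5 := hinvf (S x) h2
    rw [h3, one_mul, ← h4] at h5
    exact mul_left_cancel₀ hpC h5
  -- the density is invariant
  have hfinv : ∀ᵐ x ∂D', D.rnDeriv D' (S x) = D.rnDeriv D' x := by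
    have hfleS : ∀ᵐ x ∂D', D.rnDeriv D' (S x) ≤ p := hmpS.quasiMeasurePreserving.ae hfle
    filter_upwards [hginv, hfle, hfleS] with x h1 h2 h3
    rw [hg] at h1
    simp only [min_eq_left h2, min_eq_left h3] at h1
    have h4 : (D.rnDeriv D' (S x)).toReal = (D.rnDeriv D' x).toReal := by exact_mod_cast h1
    exact (ENNReal.toReal_eq_toReal_iff' (ne_top_of_le_ne_top (ENNReal.natCast_ne_top p) h3)
      (ne_top_of_le_ne_top (ENNReal.natCast_ne_top p) h2)).mp h4
  have hDeq : D'.withDensity (D.rnDeriv D') = D := Measure.withDensity_rnDeriv_eq D D' hac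
  rw [← hSdef]
  ext A hA
  rw [Measure.map_apply hSm hA]
  conv_lhs => rw [← hDeq]
  conv_rhs => rw [← hDeq]
  rw [withDensity_apply _ (hSm hA), withDensity_apply _ hA]
  calc ∫⁻ x in S ⁻¹' A, D.rnDeriv D' x ∂D'
      = ∫⁻ x in S ⁻¹' A, D.rnDeriv D' (S x) ∂D' := by
        refine lintegral_congr_ae ?_
        refine ae_restrict_of_ae ?_
        filter_upwards [hfinv] with x hx
        exact hx.symm
    _ = ∫⁻ x in A, D.rnDeriv D' x ∂(D'.map S) :=
        (setLIntegral_map hA (D.measurable_rnDeriv D') hSm).symm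
    _ = ∫⁻ x in A, D.rnDeriv D' x ∂D' := by rw [hinv']

end Pool.Agent.Sar
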