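import Pool.Agent.Sar.C2a
import Pool.Agent.Sar.P2
import Pool.Agent.Sar.G1
import Pool.Agent.Sar.K3
import Pool.Agent.Sar.N2

/-! MP_13664e_an, module C2: for a fixed shift `h ≥ 1` the correlations of `D_{p'}^* D_p` vanish on
average. -/

set_option autoImplicit false

namespace Pool.Agent.Sar

open MeasureTheory ProbabilityTheory Filter Topology
open scoped ENNReal ComplexConjugate

variable {X : Type*} [mX : MeasurableSpace X] [StandardBorelSpace X] [Nonempty X]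
  {ν : Measure X} [IsProbabilityMeasure ν]

open Classical in
/-- the good primes of the block `i`, different from `p₀` -/
noncomputable def gb (ν : Measure X) (T : X → X) (i p₀ : ℕ) : Finset ℕ :=
  ((blk i).filter (fun p => Good ν T p)).erase p₀

theorem C2_alg (L : Finset ℂ) (cN : ℂ → ℝ) (s : Finset ℕ) (k : ℕ → ℕ) :
    ∑ p ∈ s, ∑ p' ∈ s, ∑ l ∈ L, cN l * (l ^ (k p) * conj (l ^ (k p'))).re =
      ∑ l ∈ L, cN l * ‖∑ p ∈ s, l ^ (k p)‖ ^ 2 := by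
  have h1 : ∀ l : ℂ, (‖∑ p ∈ s, l ^ (k p)‖ ^ 2 : ℝ) =
      ∑ p ∈ s, ∑ p' ∈ s, (l ^ (k p) * conj (l ^ (k p'))).re := by
    intro l
    have h2 : ((‖∑ p ∈ s, l ^ (k p)‖ ^ 2 : ℝ) : ℂ) =
        (∑ p ∈ s, l ^ (k p)) * conj (∑ p ∈ s, l ^ (k p)) := by
      rw [Complex.mul_conj, Complex.normSq_eq_norm_sq]
    have h3 := congrArg Complex.re h2
    rw [Complex.ofReal_re] at h3
    rw [h3, map_sum, Finset.sum_mul_sum, Complex.re_sum]
    exact Finset.sum_congr rfl fun p _ => Complex.re_sum _ _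
  simp_rw [h1, Finset.mul_sum]
  symm
  rw [Finset.sum_comm]
  refine Finset.sum_congr rfl fun p _ => ?_
  rw [Finset.sum_comm]

/-- the averaged squared Fourier coefficients -/
noncomputable def C2c (ν : Measure X) (T : X → X) (F : X → ℂ) (N : ℕ) (l : ℂ) : ℝ :=
  ((N : ℝ) ^ 2)⁻¹ * ∑ n ∈ Finset.range N, ∑ n' ∈ Finset.range N,
    ‖fc ν T (fun x => F (T^[n] x) * conj (F (T^[n'] x))) l‖ ^ 2

theorem C2c_nonneg (ν : Measure X) (T : X → X) (F : X → ℂ) (N : ℕ) (l : ℂ) :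
    0 ≤ C2c ν T F N l := by
  unfold C2c; positivity

theorem C2_iter {T : X ≃ᵐ X} {F : X → ℂ} (hF : B1 F) (n n' : ℕ) :
    B1 (fun x => F ((⇑T)^[n] x) * conj (F ((⇑T)^[n'] x))) := by
  refine ⟨?_, fun x => ?_⟩
  · exact (hF.meas.comp (T.measurable.iterate n)).mul
      ((Complex.continuous_conj.measurable).comp (hF.meas.comp (T.measurable.iterate n')))
  · rw [norm_mul, RCLike.norm_conj]
    exact mul_le_one₀ (hF.bdd _) (norm_nonneg _) (hF.bdd _)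

theorem C2_bm {F : X → ℂ} (hF : B1 F) : BM F := ⟨hF.meas, 1, hF.bdd⟩

theorem C2c_sum {T : X ≃ᵐ X} (hE : Ergodic T ν) {F : X → ℂ} (hF : B1 F) {N : ℕ} (hN : 1 ≤ N)
    (L : Finset ℂ) (hL : ↑L ⊆ EV ν T) : ∑ l ∈ L, C2c ν T F N l ≤ 1 := by
  have h1 : ∀ n n' : ℕ, ∑ l ∈ L,
      ‖fc ν T (fun x => F ((⇑T)^[n] x) * conj (F ((⇑T)^[n'] x))) l‖ ^ 2 ≤ 1 := by
    intro n n'
    refine (bessel hE (C2_bm (C2_iter hF n n')) L hL).trans ?_
    have h2 : ∫ x, ‖F ((⇑T)^[n] x) * conj (F ((⇑T)^[n'] x))‖ ^ 2 ∂ν ≤ ∫ _x : X, (1 : ℝ) ∂ν := by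
      refine integral_mono_of_nonneg (Eventually.of_forall fun x => by positivity)
        (integrable_const _) (Eventually.of_forall fun x => ?_)
      have := (C2_iter (T := T) hF n n').bdd x
      exact pow_le_one₀ (norm_nonneg _) this
    simpa using h2
  unfold C2c
  rw [← Finset.mul_sum]
  have h3 : ∑ l ∈ L, ∑ n ∈ Finset.range N, ∑ n' ∈ Finset.range N,
      ‖fc ν T (fun x => F ((⇑T)^[n] x) * conj (F ((⇑T)^[n'] x))) l‖ ^ 2 ≤ (N : ℝ) ^ 2 := by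
    rw [Finset.sum_comm]
    calc _ ≤ ∑ n ∈ Finset.range N, (N : ℝ) := by
          refine Finset.sum_le_sum fun n _ => ?_
          rw [Finset.sum_comm]
          refine (Finset.sum_le_sum fun n' _ => h1 n n').trans ?_
          simp
      _ = (N : ℝ) ^ 2 := by simp [sq]
  have hN' : (0 : ℝ) < (N : ℝ) ^ 2 := by positivity
  rw [inv_mul_le_iff₀ hN']
  linarith


open Classical in
/-- finiteness of the set of small torsion eigenvalues -/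
noncomputable def C2Z (ν : Measure X) (T : X → X) (h Q0 : ℕ) : Finset ℂ :=
  ((Finset.Ico 1 Q0).biUnion (fun r => (Polynomial.nthRoots (h * r) (1 : ℂ)).toFinset)).filter
    (fun l => l ∈ EV ν T)

theorem C2Z_sub (ν : Measure X) (T : X → X) (h Q0 : ℕ) : ↑(C2Z ν T h Q0) ⊆ EV ν T := by
  intro l hl
  classical
  have : l ∈ C2Z ν T h Q0 := hl
  unfold C2Z at this
  exact (Finset.mem_filter.1 this).2

theorem C2Z_mem {T : X → X} {h Q0 : ℕ} (hh : 1 ≤ h) {l : ℂ} (hl : l ∈ EV ν T)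
    (h0 : 0 < orderOf (l ^ h)) (h1 : orderOf (l ^ h) < Q0) : l ∈ C2Z ν T h Q0 := by
  classical
  unfold C2Z
  refine Finset.mem_filter.2 ⟨Finset.mem_biUnion.2 ⟨orderOf (l ^ h),
    Finset.mem_Ico.2 ⟨h0, h1⟩, ?_⟩, hl⟩
  rw [Multiset.mem_toFinset, Polynomial.mem_nthRoots (Nat.mul_pos hh h0), pow_mul]
  exact pow_orderOf_eq_one _

open Classical in
/-- the eigenvalues with `l ^ q = 1` -/
noncomputable def C2L (ν : Measure X) (T : X → X) (q : ℕ) : Finset ℂ :=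
  (Polynomial.nthRoots q (1 : ℂ)).toFinset.filter (fun l => l ∈ EV ν T)

theorem C2L_mem {T : X → X} {q : ℕ} (hq : 1 ≤ q) (l : ℂ) :
    l ∈ C2L ν T q ↔ l ∈ EV ν T ∧ l ^ q = 1 := by
  classical
  unfold C2L
  rw [Finset.mem_filter, Multiset.mem_toFinset, Polynomial.mem_nthRoots hq, and_comm]

theorem C2_sum_tendsto {T : X ≃ᵐ X} (hE : Ergodic T ν) {F : X → ℂ} (hF : B1 F)
    (hF0 : ∀ l ∈ EV ν T, fc ν T F l = 0) (Z : Finset ℂ) (hZ : ↑Z ⊆ EV ν T) {δ : ℝ}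
    (hδ : 0 < δ) : ∃ N : ℕ, 1 ≤ N ∧ ∑ l ∈ Z, C2c ν T F N l ≤ δ := by
  have h1 : Tendsto (fun N : ℕ => ∑ l ∈ Z, C2c ν T F N l) atTop (𝓝 (∑ l ∈ Z, (0 : ℝ))) :=
    tendsto_finsetSum _ fun l hl => kvn2 hE (C2_bm hF) hF0 (hZ hl)
  rw [Finset.sum_const_zero] at h1
  have h2 := (h1.eventually (ge_mem_nhds hδ)).and (eventually_ge_atTop 1)
  obtain ⟨N, h3, h4⟩ := h2.exists
  exact ⟨N, h4, h3⟩

/-- common approximation of the functions `WW n n'` -/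
theorem C2_approx {T : X ≃ᵐ X} (hE : Ergodic T ν) {F : X → ℂ} (hF : B1 F) (N : ℕ) {δ : ℝ}
    (hδ : 0 < δ) : ∃ L0 : Finset ℂ, (↑L0 ⊆ EV ν T) ∧ ∀ n < N, ∀ n' < N, ∀ L' : Finset ℂ,
      L0 ⊆ L' → (↑L' ⊆ EV ν T) →
      ∫ x, ‖WW ν T F n n' x - ∑ l ∈ L', fc ν T (WW ν T F n n') l * eg ν T l x‖ ^ 2 ∂ν ≤ δ := by
  classical
  have h1 : ∀ n n' : ℕ, ∃ L : Finset ℂ, (↑L ⊆ EV ν T) ∧ ∀ L' : Finset ℂ, L ⊆ L' →
      (↑L' ⊆ EV ν T) →
      ∫ x, ‖WW ν T F n n' x - ∑ l ∈ L', fc ν T (WW ν T F n n') l * eg ν T l x‖ ^ 2 ∂ν ≤ δ := by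
    intro n n'
    have hb := cex_B1 (ν := ν) (T := T) (C2_iter (T := T) hF n n')
    exact Kr_dense hE (cex_Kr (C2_bm (C2_iter (T := T) hF n n'))) ⟨1, hb.bdd⟩ hδ
  choose L hL hL' using h1
  refine ⟨(Finset.range N).biUnion (fun n => (Finset.range N).biUnion (fun n' => L n n')), ?_, ?_⟩
  · intro l hl
    rw [Finset.coe_biUnion] at hl
    simp only [Set.mem_iUnion, Finset.coe_biUnion] at hl
    obtain ⟨n, _, n', _, h3⟩ := hl
    exact hL n n' h3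
  · intro n hn n' hn' L' hsub hsub'
    refine hL' n n' L' (fun l hl => hsub ?_) hsub'
    exact Finset.mem_biUnion.2 ⟨n, Finset.mem_range.2 hn,
      Finset.mem_biUnion.2 ⟨n', Finset.mem_range.2 hn', hl⟩⟩

theorem C2_expand {T : X ≃ᵐ X} (F : X → ℂ) (N : ℕ) (L : Finset ℂ) (t s : ℕ) :
    ∑ l ∈ L, C2c ν T F N l * (l ^ t * conj (l ^ s)).re =
      ((N : ℝ) ^ 2)⁻¹ * (∑ n ∈ Finset.range N, ∑ n' ∈ Finset.range N, ∑ l ∈ L,
      ((‖fc ν T (fun x => F ((⇑T)^[n] x) * conj (F ((⇑T)^[n'] x))) l‖ ^ 2 : ℝ) : ℂ) *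
        (l ^ t * conj (l ^ s))).re := by
  unfold C2c
  rw [Complex.re_sum]
  simp_rw [Complex.re_sum, Complex.re_ofReal_mul]
  rw [Finset.mul_sum]
  simp_rw [Finset.mul_sum]
  have : ∀ l ∈ L, (∑ n ∈ Finset.range N, ∑ n' ∈ Finset.range N, ((N : ℝ) ^ 2)⁻¹ *
      ‖fc ν T (fun x => F ((⇑T)^[n] x) * conj (F ((⇑T)^[n'] x))) l‖ ^ 2) *
        (l ^ t * conj (l ^ s)).re = ∑ n ∈ Finset.range N, ∑ n' ∈ Finset.range N,
      ((N : ℝ) ^ 2)⁻¹ * (‖fc ν T (fun x => F ((⇑T)^[n] x) * conj (F ((⇑T)^[n'] x))) l‖ ^ 2 *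
        (l ^ t * conj (l ^ s)).re) := by
    intro l _
    rw [Finset.sum_mul]
    refine Finset.sum_congr rfl fun n _ => ?_
    rw [Finset.sum_mul]
    exact Finset.sum_congr rfl fun n' _ => by ring
  rw [Finset.sum_congr rfl this, Finset.sum_comm]
  refine Finset.sum_congr rfl fun n _ => ?_
  rw [Finset.sum_comm]

theorem C2_nonneg {T : X ≃ᵐ X} (hE : Ergodic T ν) {F : X → ℂ} (hF : B1 F) (N : ℕ) {q : ℕ}
    (hq : 1 ≤ q) (t s : ℕ) :
    0 ≤ ∑ l ∈ C2L ν T q, C2c ν T F N l * (l ^ t * conj (l ^ s)).re := by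
  rw [C2_expand]
  exact mul_nonneg (by positivity) (G1 hE hq _ (C2L_mem hq) hF N t s)

theorem C2_pair {T : X ≃ᵐ X} (hE : Ergodic T ν) {m : ℕ} {a : ℝ} {ℓ : X → Fin m}
    (hL : Lab ν T m a ℓ) {F : X → ℂ} (hF : B1 F) {h : ℕ} {p₀ p p' : ℕ} (h0 : Good ν T p₀)
    (hp : Good ν T p) (hp' : Good ν T p') (hne : p₀ ≠ p) (hne' : p₀ ≠ p') (hm : m ^ 2 < p)
    (hm' : m ^ 2 < p') {ρ ρ' : Measure (X × X)} [IsProbabilityMeasure ρ]
    [IsProbabilityMeasure ρ'] (hJ : Jn ν T p₀ p ρ) (hJ' : Jn ν T p₀ p' ρ')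
    {q : ℕ} (hq : 1 ≤ q) {c : ℕ} (hc : p₀ * c ≡ 1 [MOD q]) {N : ℕ} (hN : 1 ≤ N)
    {I : Finset ℂ} (hI : ∀ l ∈ I, l ∈ EV ν T ∧ ¬ Tors l) (hIp : ∀ l ∈ I, ¬ IsPow ν T p₀ l)
    {δ : ℝ} (hδ : 0 < δ) (hδ1 : δ ≤ 1)
    (happ : ∀ n < N, ∀ n' < N, ∫ x, ‖WW ν T F n n' x -
      ∑ l ∈ C2L ν T q ∪ I, fc ν T (WW ν T F n n') l * eg ν T l x‖ ^ 2 ∂ν ≤ δ ^ 2) :
    a ^ 2 * ‖∫ z : X × X, F z.1 * conj (F z.2) ∂(RR ν (DD ν T h ρ) (DD ν T h ρ'))‖ ^ 2 ≤
      ∑ l ∈ C2L ν T q, C2c ν T F N l * (l ^ (h * p * c) * conj (l ^ (h * p' * c))).re +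
        2 * δ := by
  have hT := hE.toMeasurePreserving
  have hD := DD_coup (T := T) hT h hJ.coup
  have hD' := DD_coup (T := T) hT h hJ'.coup
  have iD := P2 hE hL hp hm hD (DD_inv hT h hJ.coup hJ.inv)
  have iD' := P2 hE hL hp' hm' hD' (DD_inv hT h hJ'.coup hJ'.inv)
  have hR := RR_coup hD hD'
  have iR := RR_inv (T := T) hT hD hD' iD iD'
  refine (A2 hT hL.pos hL.atom hR iR hF hN).trans ?_
  rw [C2_expand, Complex.re_sum]
  have hdis : Disjoint (C2L ν T q) I := by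
    rw [Finset.disjoint_left]
    intro l h1 h2
    exact (hI l h2).2 ⟨q, hq, ((C2L_mem hq l).1 h1).2⟩
  have hterm : ∀ n < N, ∀ n' < N,
      (∫ z : X × X, WW ν T F n n' z.1 * conj (WW ν T F n n' z.2)
        ∂(RR ν (DD ν T h ρ) (DD ν T h ρ'))).re ≤
      (∑ l ∈ C2L ν T q,
      ((‖fc ν T (fun x => F ((⇑T)^[n] x) * conj (F ((⇑T)^[n'] x))) l‖ ^ 2 : ℝ) : ℂ) *
        (l ^ (h * p * c) * conj (l ^ (h * p' * c)))).re + 2 * δ := by
    intro n hn n' hn'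
    have h1 := C2a hE h0 hp hp' hne hne' hJ hJ' h hq hc (C2L ν T q) I
      (fun l hl => (C2L_mem hq l).1 hl) (fun l hl => ⟨(hI l hl).1, hIp l hl⟩) hdis
      (cex_B1 (ν := ν) (T := T) (C2_iter (T := T) hF n n')) hδ.le hδ1 (happ n hn n' hn')
    have h2 : ∀ l ∈ C2L ν T q, fc ν T (cex ν T (fun x => F ((⇑T)^[n] x) *
        conj (F ((⇑T)^[n'] x)))) l = fc ν T (fun x => F ((⇑T)^[n] x) *
        conj (F ((⇑T)^[n'] x))) l := fun l hl =>
      fc_cex hT (C2_bm (C2_iter (T := T) hF n n')) ((C2L_mem hq l).1 hl).1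
    rw [Finset.sum_congr rfl (fun l hl => by rw [h2 l hl])] at h1
    have h3 := (Complex.re_le_norm _).trans h1
    rw [Complex.sub_re] at h3
    have h4 : WW ν T F n n' = cex ν T (fun x => F ((⇑T)^[n] x) * conj (F ((⇑T)^[n'] x))) := rfl
    rw [h4]
    linarith
  have hN' : (0 : ℝ) < (N : ℝ) ^ 2 := by positivity
  have hsum : ∑ n ∈ Finset.range N, ∑ n' ∈ Finset.range N,
      (∫ z : X × X, WW ν T F n n' z.1 * conj (WW ν T F n n' z.2)
        ∂(RR ν (DD ν T h ρ) (DD ν T h ρ'))).re ≤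
      ∑ n ∈ Finset.range N, (∑ n' ∈ Finset.range N, ∑ l ∈ C2L ν T q,
      ((‖fc ν T (fun x => F ((⇑T)^[n] x) * conj (F ((⇑T)^[n'] x))) l‖ ^ 2 : ℝ) : ℂ) *
        (l ^ (h * p * c) * conj (l ^ (h * p' * c)))).re + (N : ℝ) ^ 2 * (2 * δ) := by
    have e1 : (N : ℝ) ^ 2 * (2 * δ) = ∑ n ∈ Finset.range N, ∑ n' ∈ Finset.range N, 2 * δ := by
      simp; ring
    rw [e1, ← Finset.sum_add_distrib]
    refine Finset.sum_le_sum fun n hn => ?_
    rw [Complex.re_sum, ← Finset.sum_add_distrib]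
    exact Finset.sum_le_sum fun n' hn' => hterm n (Finset.mem_range.1 hn) n'
      (Finset.mem_range.1 hn')
  calc _ ≤ ((N : ℝ) ^ 2)⁻¹ * (∑ n ∈ Finset.range N, (∑ n' ∈ Finset.range N,
      ∑ l ∈ C2L ν T q,
      ((‖fc ν T (fun x => F ((⇑T)^[n] x) * conj (F ((⇑T)^[n'] x))) l‖ ^ 2 : ℝ) : ℂ) *
        (l ^ (h * p * c) * conj (l ^ (h * p' * c)))).re + (N : ℝ) ^ 2 * (2 * δ)) := by
        gcongr
    _ = _ := by
        rw [mul_add, ← mul_assoc, inv_mul_cancel₀ hN'.ne', one_mul]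

/-- arithmetic input: averages of roots of unity over the block, uniformly in `c` prime to `q` -/
theorem C2_prime (hLam : Pool.Agent.BGG.SWLam) {L : Finset ℂ} {q : ℕ} (hq : 1 ≤ q)
    (hL : ∀ l ∈ L, l ^ q = 1) (h : ℕ) {δ : ℝ} (hδ : 0 < δ) :
    ∀ᶠ i : ℕ in atTop, ∀ l ∈ L, ∀ c : ℕ, Nat.Coprime c q →
      ‖∑ p ∈ blk i, l ^ (h * p * c)‖ ≤ (1 / ((orderOf (l ^ h)).totient : ℝ) + δ) * pib i := by
  have h1 : ∀ᶠ i : ℕ in atTop, ∀ l ∈ L, ∀ c ∈ (Finset.range q).filter (fun c => Nat.Coprime c q),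
      ‖∑ p ∈ blk i, l ^ (h * p * c)‖ ≤ (1 / ((orderOf (l ^ h)).totient : ℝ) + δ) * pib i := by
    rw [Filter.eventually_all_finset]
    intro l hl
    rw [Filter.eventually_all_finset]
    intro c hc
    have hc' : Nat.Coprime c q := (Finset.mem_filter.1 hc).2
    have hlq : (l ^ h) ^ q = 1 := by rw [← pow_mul, mul_comm, pow_mul, hL l hl, one_pow]
    have hr : 1 ≤ orderOf (l ^ h) := by
      rw [Nat.one_le_iff_ne_zero, ← Nat.pos_iff_ne_zero]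
      exact orderOf_pos_iff.2 (isOfFinOrder_iff_pow_eq_one.2 ⟨q, hq, hlq⟩)
    have hdvd : orderOf (l ^ h) ∣ q := orderOf_dvd_of_pow_eq_one hlq
    have hco : (orderOf (l ^ h)).Coprime c := (Nat.Coprime.coprime_dvd_right hdvd hc').symm
    have hz : IsPrimitiveRoot ((l ^ h) ^ c) (orderOf (l ^ h)) := by
      rw [IsPrimitiveRoot.iff_orderOf]
      exact Nat.Coprime.orderOf_pow hco
    filter_upwards [prime_root hLam hr hz hδ] with i hi
    have h2 : ∑ p ∈ blk i, l ^ (h * p * c) = ∑ p ∈ blk i, ((l ^ h) ^ c) ^ p := by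
      refine Finset.sum_congr rfl fun p _ => ?_
      rw [← pow_mul, ← pow_mul]
      congr 1
      ring
    rw [h2]
    by_cases hp : pib i = 0
    · have h3 : blk i = ∅ := by
        have : ((blk i).card : ℝ) = 0 := hp
        exact Finset.card_eq_zero.1 (by exact_mod_cast this)
      rw [hp, h3]
      simp
    · have h4 : 0 < pib i := lt_of_le_of_ne (Nat.cast_nonneg _) (Ne.symm hp)
      rw [norm_mul, norm_inv, Complex.norm_real, Real.norm_of_nonneg h4.le,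
        inv_mul_le_iff₀ h4] at hi
      linarith [mul_comm (pib i) (1 / ((orderOf (l ^ h)).totient : ℝ) + δ)]
  filter_upwards [h1] with i hi l hl c hc
  have h2 : Nat.Coprime (c % q) q := by
    have := Nat.mod_modEq c q
    rw [Nat.Coprime, this.gcd_eq]
    exact hc
  have h3 := hi l hl (c % q) (Finset.mem_filter.2 ⟨Finset.mem_range.2 (Nat.mod_lt _ hq), h2⟩)
  have h4 : ∑ p ∈ blk i, l ^ (h * p * c) = ∑ p ∈ blk i, l ^ (h * p * (c % q)) := by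
    refine Finset.sum_congr rfl fun p _ => ?_
    conv_lhs => rw [← Nat.mod_add_div c q]
    rw [mul_add, pow_add]
    have : l ^ (h * p * (q * (c / q))) = 1 := by
      rw [show h * p * (q * (c / q)) = q * (h * p * (c / q)) by ring, pow_mul, hL l hl, one_pow]
    rw [this, mul_one]
  rw [h4]
  exact h3

theorem C2_inv {p₀ q : ℕ} (hq : 1 ≤ q) (hp : p₀.Prime) (hlt : q < p₀) :
    ∃ c : ℕ, p₀ * c ≡ 1 [MOD q] ∧ Nat.Coprime c q := by
  have hco : Nat.Coprime p₀ q := (Nat.Prime.coprime_iff_not_dvd hp).2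
    (fun hd => absurd (Nat.le_of_dvd hq hd) (not_le.2 hlt))
  haveI : NeZero q := ⟨by omega⟩
  obtain ⟨c, hc⟩ : ∃ c : ℕ, p₀ * c ≡ 1 [MOD q] := by
    refine ⟨((p₀ : ZMod q)⁻¹).val, ?_⟩
    rw [← ZMod.natCast_eq_natCast_iff]
    push_cast
    rw [ZMod.natCast_zmod_val]
    exact ZMod.coe_mul_inv_eq_one p₀ hco
  refine ⟨c, hc, ?_⟩
  have h1 : (p₀ * c).gcd q = 1 := by rw [hc.gcd_eq]; simp
  exact Nat.Coprime.coprime_mul_left h1

theorem C2 (hLam : Pool.Agent.BGG.SWLam) {T : X ≃ᵐ X} (hE : Ergodic T ν) {m : ℕ} {a : ℝ}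
    {ℓ : X → Fin m} (hL : Lab ν T m a ℓ) {F : X → ℂ} (hF : B1 F)
    (hF0 : ∀ l ∈ EV ν T, fc ν T F l = 0) {h : ℕ} (hh : 1 ≤ h) {ε : ℝ} (hε : 0 < ε) :
    ∃ I : Finset ℂ, (∀ l ∈ I, l ∈ EV ν T ∧ ¬ Tors l) ∧ ∀ᶠ i : ℕ in atTop,
      ∀ p₀ ∈ blk i, Good ν T p₀ → (∀ l ∈ I, ¬ IsPow ν T p₀ l) →
      ∀ (ρ : ℕ → Measure (X × X)) [∀ p, IsProbabilityMeasure (ρ p)],
        (∀ p ∈ gb ν T i p₀, Jn ν T p₀ p (ρ p)) →
        ∑ p ∈ gb ν T i p₀, ∑ p' ∈ gb ν T i p₀,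
          ‖∫ z : X × X, F z.1 * conj (F z.2) ∂(RR ν (DD ν T h (ρ p)) (DD ν T h (ρ p')))‖ ≤
          ε * pib i ^ 2 := by
  classical
  have ha := hL.pos
  set δ : ℝ := min 1 (ε ^ 2 * a ^ 2 / 10) with hδdef
  have hδ : 0 < δ := lt_min one_pos (by positivity)
  have hδ1 : δ ≤ 1 := min_le_left _ _
  have hδ2 : 10 * δ ≤ ε ^ 2 * a ^ 2 := by
    have := min_le_right 1 (ε ^ 2 * a ^ 2 / 10)
    linarith
  obtain ⟨Q0, hQ0⟩ := totient_large hδ
  obtain ⟨N, hN, hNZ⟩ := C2_sum_tendsto hE hF hF0 (C2Z ν T h Q0) (C2Z_sub ν T h Q0) hδ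
  obtain ⟨L0, hL0, hL0'⟩ := C2_approx hE hF N (show (0 : ℝ) < δ ^ 2 by positivity)
  set q : ℕ := ∏ l ∈ L0.filter (fun l => Tors l), orderOf l with hqdef
  have hpos : ∀ l ∈ L0.filter (fun l => Tors l), 0 < orderOf l := by
    intro l hl
    obtain ⟨k, hk, hk'⟩ := (Finset.mem_filter.1 hl).2
    exact orderOf_pos_iff.2 (isOfFinOrder_iff_pow_eq_one.2 ⟨k, hk, hk'⟩)
  have hq : 1 ≤ q := Finset.prod_pos hpos
  set I : Finset ℂ := L0.filter (fun l => ¬ Tors l) with hIdef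
  have hI : ∀ l ∈ I, l ∈ EV ν T ∧ ¬ Tors l := fun l hl =>
    ⟨hL0 (Finset.mem_filter.1 hl).1, (Finset.mem_filter.1 hl).2⟩
  have hsub : L0 ⊆ C2L ν T q ∪ I := by
    intro l hl
    by_cases ht : Tors l
    · refine Finset.mem_union_left _ ((C2L_mem hq l).2 ⟨hL0 hl, ?_⟩)
      have hmem : l ∈ L0.filter (fun l => Tors l) := Finset.mem_filter.2 ⟨hl, ht⟩
      exact orderOf_dvd_iff_pow_eq_one.1 (Finset.dvd_prod_of_mem _ hmem)
    · exact Finset.mem_union_right _ (Finset.mem_filter.2 ⟨hl, ht⟩)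
  have hsub' : ↑(C2L ν T q ∪ I) ⊆ EV ν T := by
    intro l hl
    rcases Finset.mem_union.1 (Finset.mem_coe.1 hl) with h1 | h1
    · exact ((C2L_mem hq l).1 h1).1
    · exact (hI l h1).1
  have happ := fun n hn n' hn' => hL0' n hn n' hn' _ hsub hsub'
  have hLq : ∀ l ∈ C2L ν T q, l ^ q = 1 := fun l hl => ((C2L_mem hq l).1 hl).2
  refine ⟨I, hI, ?_⟩
  have hlarge : ∀ᶠ i : ℕ in atTop, q + m ^ 2 < 2 ^ i := by
    filter_upwards [eventually_ge_atTop (q + m ^ 2)] with i hi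
    exact lt_of_le_of_lt hi Nat.lt_two_pow_self
  filter_upwards [hlarge, C2_prime hLam hq hLq h hδ] with i hi hprime p₀ hp₀ h0 hIp ρ _ hJ
  have hge : ∀ p ∈ blk i, 2 ^ i ≤ p := fun p hp =>
    (Finset.mem_Ico.1 (Finset.mem_filter.1 hp).1).1
  have hgb : ∀ p ∈ gb ν T i p₀, p ≠ p₀ ∧ p ∈ blk i ∧ Good ν T p := by
    intro p hp
    unfold gb at hp
    obtain ⟨h1, h2⟩ := Finset.mem_erase.1 hp
    exact ⟨h1, (Finset.mem_filter.1 h2).1, (Finset.mem_filter.1 h2).2⟩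
  have hgbsub : gb ν T i p₀ ⊆ blk i := fun p hp => (hgb p hp).2.1
  obtain ⟨c, hc, hcq⟩ := C2_inv hq h0.1 (lt_of_lt_of_le (by omega) (hge p₀ hp₀))
  have hm : ∀ p ∈ gb ν T i p₀, m ^ 2 < p := fun p hp =>
    lt_of_lt_of_le (by omega) (hge p (hgb p hp).2.1)
  have hpair : ∀ p ∈ gb ν T i p₀, ∀ p' ∈ gb ν T i p₀,
      a ^ 2 * ‖∫ z : X × X, F z.1 * conj (F z.2)
        ∂(RR ν (DD ν T h (ρ p)) (DD ν T h (ρ p')))‖ ^ 2 ≤
      ∑ l ∈ C2L ν T q, C2c ν T F N l * (l ^ (h * p * c) * conj (l ^ (h * p' * c))).re +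
        2 * δ := fun p hp p' hp' =>
    C2_pair hE hL hF h0 (hgb p hp).2.2 (hgb p' hp').2.2 (hgb p hp).1.symm (hgb p' hp').1.symm
      (hm p hp) (hm p' hp') (hJ p hp) (hJ p' hp') hq hc hN hI hIp hδ hδ1 happ
  have hcard : ((gb ν T i p₀).card : ℝ) ≤ pib i := by
    unfold pib
    exact_mod_cast Finset.card_le_card hgbsub
  have hpi0 : 0 ≤ pib i := Nat.cast_nonneg _
  -- the sum of the squares
  have hsq : a ^ 2 * ∑ p ∈ gb ν T i p₀, ∑ p' ∈ gb ν T i p₀, ‖∫ z : X × X, F z.1 * conj (F z.2)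
        ∂(RR ν (DD ν T h (ρ p)) (DD ν T h (ρ p')))‖ ^ 2 ≤ 10 * δ * pib i ^ 2 := by
    have e1 : a ^ 2 * ∑ p ∈ gb ν T i p₀, ∑ p' ∈ gb ν T i p₀, ‖∫ z : X × X, F z.1 * conj (F z.2)
        ∂(RR ν (DD ν T h (ρ p)) (DD ν T h (ρ p')))‖ ^ 2 ≤
        ∑ p ∈ gb ν T i p₀, ∑ p' ∈ gb ν T i p₀,
          (∑ l ∈ C2L ν T q, C2c ν T F N l * (l ^ (h * p * c) * conj (l ^ (h * p' * c))).re +
        2 * δ) := by
      rw [Finset.mul_sum]
      refine Finset.sum_le_sum fun p hp => ?_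
      rw [Finset.mul_sum]
      exact Finset.sum_le_sum fun p' hp' => hpair p hp p' hp'
    have e2 : ∑ p ∈ gb ν T i p₀, ∑ p' ∈ gb ν T i p₀,
          (∑ l ∈ C2L ν T q, C2c ν T F N l * (l ^ (h * p * c) * conj (l ^ (h * p' * c))).re +
        2 * δ) = ∑ p ∈ gb ν T i p₀, ∑ p' ∈ gb ν T i p₀,
          ∑ l ∈ C2L ν T q, C2c ν T F N l * (l ^ (h * p * c) * conj (l ^ (h * p' * c))).re +
        ((gb ν T i p₀).card : ℝ) ^ 2 * (2 * δ) := by
      simp_rw [Finset.sum_add_distrib]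
      simp
      ring
    have e3 : ∑ p ∈ gb ν T i p₀, ∑ p' ∈ gb ν T i p₀,
          ∑ l ∈ C2L ν T q, C2c ν T F N l * (l ^ (h * p * c) * conj (l ^ (h * p' * c))).re ≤
        ∑ p ∈ blk i, ∑ p' ∈ blk i,
          ∑ l ∈ C2L ν T q, C2c ν T F N l * (l ^ (h * p * c) * conj (l ^ (h * p' * c))).re := by
      have hnn : ∀ p p' : ℕ, 0 ≤ ∑ l ∈ C2L ν T q, C2c ν T F N l *
          (l ^ (h * p * c) * conj (l ^ (h * p' * c))).re := fun p p' =>
        C2_nonneg hE hF N hq _ _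
      refine (Finset.sum_le_sum fun p _ => Finset.sum_le_sum_of_subset_of_nonneg hgbsub
        fun p' _ _ => hnn p p').trans ?_
      exact Finset.sum_le_sum_of_subset_of_nonneg hgbsub
        fun p _ _ => Finset.sum_nonneg fun p' _ => hnn p p'
    have e4 := C2_alg (C2L ν T q) (C2c ν T F N) (blk i) (fun p => h * p * c)
    have e5 : ∑ l ∈ C2L ν T q, C2c ν T F N l * ‖∑ p ∈ blk i, l ^ (h * p * c)‖ ^ 2 ≤
        8 * δ * pib i ^ 2 := by
      have f1 : ∀ l ∈ C2L ν T q, C2c ν T F N l * ‖∑ p ∈ blk i, l ^ (h * p * c)‖ ^ 2 ≤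
          ((if l ∈ C2Z ν T h Q0 then C2c ν T F N l else 0) * 4 +
            C2c ν T F N l * (4 * δ)) * pib i ^ 2 := by
        intro l hl
        have g1 := hprime l hl c hcq
        have g0 := C2c_nonneg ν T F N l
        have hlq : (l ^ h) ^ q = 1 := by rw [← pow_mul, mul_comm, pow_mul, hLq l hl, one_pow]
        have hr : 0 < orderOf (l ^ h) :=
          orderOf_pos_iff.2 (isOfFinOrder_iff_pow_eq_one.2 ⟨q, hq, hlq⟩)
        have htot : 0 ≤ 1 / ((orderOf (l ^ h)).totient : ℝ) := by positivity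
        have g2 : ‖∑ p ∈ blk i, l ^ (h * p * c)‖ ^ 2 ≤
            (1 / ((orderOf (l ^ h)).totient : ℝ) + δ) ^ 2 * pib i ^ 2 := by
          rw [← mul_pow]
          exact pow_le_pow_left₀ (norm_nonneg _) g1 2
        by_cases hlt : orderOf (l ^ h) < Q0
        · have hmem : l ∈ C2Z ν T h Q0 := C2Z_mem hh ((C2L_mem hq l).1 hl).1 hr hlt
          rw [if_pos hmem]
          have htot1 : 1 / ((orderOf (l ^ h)).totient : ℝ) ≤ 1 := by
            have : 1 ≤ (orderOf (l ^ h)).totient := Nat.totient_pos.2 hr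
            have h3 : (1 : ℝ) ≤ ((orderOf (l ^ h)).totient : ℝ) := by exact_mod_cast this
            rw [div_le_one (by linarith)]
            exact h3
          have g3 : (1 / ((orderOf (l ^ h)).totient : ℝ) + δ) ^ 2 ≤ 4 := by nlinarith
          calc _ ≤ C2c ν T F N l * (4 * pib i ^ 2) :=
                mul_le_mul_of_nonneg_left (g2.trans (mul_le_mul_of_nonneg_right g3
                  (by positivity))) g0
            _ ≤ _ := by
                have : 0 ≤ C2c ν T F N l * (4 * δ) * pib i ^ 2 := by positivity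
                nlinarith
        · have g3 := hQ0 _ (not_lt.1 hlt)
          have g4 : (1 / ((orderOf (l ^ h)).totient : ℝ) + δ) ^ 2 ≤ 4 * δ := by nlinarith
          have g5 : 0 ≤ (if l ∈ C2Z ν T h Q0 then C2c ν T F N l else 0) * 4 := by
            split_ifs
            · positivity
            · simp
          calc _ ≤ C2c ν T F N l * (4 * δ * pib i ^ 2) :=
                mul_le_mul_of_nonneg_left (g2.trans (mul_le_mul_of_nonneg_right g4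
                  (by positivity))) g0
            _ ≤ _ := by
                have := mul_nonneg g5 (sq_nonneg (pib i))
                nlinarith
      refine (Finset.sum_le_sum f1).trans ?_
      rw [← Finset.sum_mul, Finset.sum_add_distrib, ← Finset.sum_mul, ← Finset.sum_mul]
      have f2 : ∑ l ∈ C2L ν T q, (if l ∈ C2Z ν T h Q0 then C2c ν T F N l else 0) ≤ δ := by
        rw [← Finset.sum_filter]
        refine le_trans ?_ hNZ
        refine Finset.sum_le_sum_of_subset_of_nonneg (fun l hl => (Finset.mem_filter.1 hl).2)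
          fun l _ _ => C2c_nonneg ν T F N l
      have f3 := C2c_sum hE hF hN (C2L ν T q)
        (fun l hl => ((C2L_mem hq l).1 (Finset.mem_coe.1 hl)).1)
      have f4 : (∑ l ∈ C2L ν T q, (if l ∈ C2Z ν T h Q0 then C2c ν T F N l else 0)) * 4 +
          (∑ l ∈ C2L ν T q, C2c ν T F N l) * (4 * δ) ≤ 8 * δ := by nlinarith
      exact mul_le_mul_of_nonneg_right f4 (by positivity)
    have e6 : ((gb ν T i p₀).card : ℝ) ^ 2 * (2 * δ) ≤ 2 * δ * pib i ^ 2 := by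
      have : ((gb ν T i p₀).card : ℝ) ^ 2 ≤ pib i ^ 2 :=
        pow_le_pow_left₀ (Nat.cast_nonneg _) hcard 2
      nlinarith
    rw [e2] at e1
    linarith
  -- Cauchy-Schwarz
  have hcs : (∑ p ∈ gb ν T i p₀, ∑ p' ∈ gb ν T i p₀, ‖∫ z : X × X, F z.1 * conj (F z.2)
        ∂(RR ν (DD ν T h (ρ p)) (DD ν T h (ρ p')))‖) ^ 2 ≤
      ((gb ν T i p₀).card : ℝ) ^ 2 * ∑ p ∈ gb ν T i p₀, ∑ p' ∈ gb ν T i p₀,
        ‖∫ z : X × X, F z.1 * conj (F z.2)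
        ∂(RR ν (DD ν T h (ρ p)) (DD ν T h (ρ p')))‖ ^ 2 := by
    rw [← Finset.sum_product', ← Finset.sum_product']
    refine sq_sum_le_card_mul_sum_sq.trans ?_
    rw [Finset.card_product]
    push_cast
    rw [sq]
  have hS0 : 0 ≤ ∑ p ∈ gb ν T i p₀, ∑ p' ∈ gb ν T i p₀, ‖∫ z : X × X, F z.1 * conj (F z.2)
        ∂(RR ν (DD ν T h (ρ p)) (DD ν T h (ρ p')))‖ ^ 2 := by positivity
  have hS1 : ∑ p ∈ gb ν T i p₀, ∑ p' ∈ gb ν T i p₀, ‖∫ z : X × X, F z.1 * conj (F z.2)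
        ∂(RR ν (DD ν T h (ρ p)) (DD ν T h (ρ p')))‖ ^ 2 ≤ ε ^ 2 * pib i ^ 2 := by
    have h1 : a ^ 2 * ∑ p ∈ gb ν T i p₀, ∑ p' ∈ gb ν T i p₀, ‖∫ z : X × X, F z.1 * conj (F z.2)
        ∂(RR ν (DD ν T h (ρ p)) (DD ν T h (ρ p')))‖ ^ 2 ≤ a ^ 2 * (ε ^ 2 * pib i ^ 2) := by
      refine hsq.trans ?_
      calc 10 * δ * pib i ^ 2 ≤ (ε ^ 2 * a ^ 2) * pib i ^ 2 :=
            mul_le_mul_of_nonneg_right hδ2 (by positivity)
        _ = _ := by ring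
    exact le_of_mul_le_mul_left h1 (by positivity)
  have hfin : (∑ p ∈ gb ν T i p₀, ∑ p' ∈ gb ν T i p₀, ‖∫ z : X × X, F z.1 * conj (F z.2)
        ∂(RR ν (DD ν T h (ρ p)) (DD ν T h (ρ p')))‖) ^ 2 ≤ (ε * pib i ^ 2) ^ 2 := by
    refine hcs.trans ?_
    calc _ ≤ pib i ^ 2 * (ε ^ 2 * pib i ^ 2) :=
          mul_le_mul (pow_le_pow_left₀ (Nat.cast_nonneg _) hcard 2) hS1 hS0 (by positivity)
      _ = _ := by ring
  exact le_of_sq_le_sq hfin (by positivity)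

end Pool.Agent.Sar
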