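import Pool.Agent.Sar.J4
import Pool.Agent.Sar.K2b
import Pool.Agent.Sar.A2

/-! MP_13664e_an, module C2a: the Kronecker part of `D_{p'}^* D_p`. -/

set_option autoImplicit false

namespace Pool.Agent.Sar

open MeasureTheory ProbabilityTheory Filter Topology
open scoped ENNReal ComplexConjugate

variable {X : Type*} [mX : MeasurableSpace X] [StandardBorelSpace X] [Nonempty X]
  {ν : Measure X} [IsProbabilityMeasure ν]

omit [StandardBorelSpace X] [Nonempty X] in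
theorem C2a_orth {T : X → X} (hT : MeasurePreserving T ν ν) (L : Finset ℂ)
    (hL : ∀ l ∈ L, l ∈ EV ν T) (a b : ℂ → ℂ) :
    ∫ x, (∑ l ∈ L, a l * eg ν T l x) * conj (∑ l ∈ L, b l * eg ν T l x) ∂ν =
      ∑ l ∈ L, a l * conj (b l) := by
  classical
  have e1 : ∀ x, (∑ l ∈ L, a l * eg ν T l x) * conj (∑ l ∈ L, b l * eg ν T l x) =
      ∑ l ∈ L, ∑ l' ∈ L, (a l * conj (b l')) * (eg ν T l x * conj (eg ν T l' x)) := by
    intro x
    rw [map_sum, Finset.sum_mul_sum]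
    refine Finset.sum_congr rfl fun l _ => Finset.sum_congr rfl fun l' _ => ?_
    rw [map_mul]
    ring
  simp_rw [e1]
  have hint : ∀ l l', Integrable
      (fun x => (a l * conj (b l')) * (eg ν T l x * conj (eg ν T l' x))) ν := by
    intro l l'
    refine (Integrable.of_bound (C := 1) ((eg_meas (ν := ν) (T := T) l).mul
      (Complex.continuous_conj.measurable.comp
        (eg_meas (ν := ν) (T := T) l'))).aestronglyMeasurable
      (Eventually.of_forall fun x => ?_)).const_mul _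
    show ‖eg ν T l x * conj (eg ν T l' x)‖ ≤ _
    rw [norm_mul, RCLike.norm_conj, eg_norm, eg_norm, one_mul]
  rw [integral_finsetSum _ fun l _ => integrable_finsetSum _ fun l' _ => hint l l']
  refine Finset.sum_congr rfl fun l hl => ?_
  rw [integral_finsetSum _ fun l' _ => hint l l']
  rw [Finset.sum_eq_single l]
  · rw [integral_const_mul]
    have : ∀ x, eg ν T l x * conj (eg ν T l x) = 1 := by
      intro x
      rw [Complex.mul_conj, Complex.normSq_eq_norm_sq, eg_norm]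
      simp
    simp_rw [this]
    simp
  · intro l' hl' hne
    rw [integral_const_mul, eig_orth hT (eg_spec (hL l hl)) (eg_spec (hL l' hl')) hne.symm,
      mul_zero]
  · intro h
    exact absurd hl h

omit [StandardBorelSpace X] [Nonempty X] in
theorem C2a_normsq {T : X → X} (hT : MeasurePreserving T ν ν) (L : Finset ℂ)
    (hL : ∀ l ∈ L, l ∈ EV ν T) (a : ℂ → ℂ) :
    ∫ x, ‖∑ l ∈ L, a l * eg ν T l x‖ ^ 2 ∂ν = ∑ l ∈ L, ‖a l‖ ^ 2 := by
  have h1 := C2a_orth hT L hL a a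
  have h2 : ∀ z : ℂ, z * conj z = ((‖z‖ ^ 2 : ℝ) : ℂ) := fun z => by
    rw [Complex.mul_conj, Complex.normSq_eq_norm_sq]
  simp_rw [h2] at h1
  rw [integral_complex_ofReal] at h1
  exact_mod_cast h1

omit [StandardBorelSpace X] [Nonempty X] in
/-- Cauchy–Schwarz -/
theorem C2a_cs {f g : X → ℂ} (hf : BM f) (hg : BM g) {ε : ℝ} (hε : 0 ≤ ε)
    (h1 : ∫ x, ‖f x‖ ^ 2 ∂ν ≤ 1) (h2 : ∫ x, ‖g x‖ ^ 2 ∂ν ≤ ε ^ 2) :
    ‖∫ x, f x * g x ∂ν‖ ≤ ε := by
  obtain ⟨C, hC⟩ := hf.bdd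
  obtain ⟨D, hD⟩ := hg.bdd
  have hsq : ∀ {u : X → ℂ} {B : ℝ}, Measurable u → (∀ x, ‖u x‖ ≤ B) →
      Integrable (fun x => ‖u x‖ ^ 2) ν := by
    intro u B hu hB
    refine Integrable.of_bound (C := B ^ 2)
      (hu.norm.pow_const 2).aestronglyMeasurable (Eventually.of_forall fun x => ?_)
    rw [norm_pow, norm_norm]
    exact pow_le_pow_left₀ (norm_nonneg _) (hB x) 2
  have key : ∀ t : ℝ, 0 < t → ‖∫ x, f x * g x ∂ν‖ ≤ t / 2 + ε ^ 2 / (2 * t) := by
    intro t ht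
    have e1 : ‖∫ x, f x * g x ∂ν‖ ≤ ∫ x, (t / 2 * ‖f x‖ ^ 2 + 1 / (2 * t) * ‖g x‖ ^ 2) ∂ν := by
      refine norm_integral_le_of_norm_le
        (((hsq hf.meas hC).const_mul _).add ((hsq hg.meas hD).const_mul _))
        (Eventually.of_forall fun x => ?_)
      rw [norm_mul]
      have h3 : 0 ≤ (t * ‖f x‖ - ‖g x‖) ^ 2 / (2 * t) := by positivity
      have h4 : (t * ‖f x‖ - ‖g x‖) ^ 2 / (2 * t) =
          (t / 2 * ‖f x‖ ^ 2 + 1 / (2 * t) * ‖g x‖ ^ 2) - ‖f x‖ * ‖g x‖ := by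
        field_simp
        ring
      linarith
    rw [integral_add ((hsq hf.meas hC).const_mul _) ((hsq hg.meas hD).const_mul _),
      integral_const_mul, integral_const_mul] at e1
    refine e1.trans (add_le_add ?_ ?_)
    · calc t / 2 * ∫ x, ‖f x‖ ^ 2 ∂ν ≤ t / 2 * 1 := by gcongr
        _ = t / 2 := mul_one _
    · calc 1 / (2 * t) * ∫ x, ‖g x‖ ^ 2 ∂ν ≤ 1 / (2 * t) * ε ^ 2 := by gcongr
        _ = ε ^ 2 / (2 * t) := by ring
  refine le_of_forall_pos_le_add fun η hη => ?_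
  have h5 := key (ε + η) (by positivity)
  have h6 : ε ^ 2 / (2 * (ε + η)) ≤ (ε + η) / 2 := by
    rw [div_le_div_iff₀ (by positivity) (by norm_num)]
    nlinarith
  linarith

/-- `W` is approximated by its Fourier sum over `L ∪ I`, where the elements of `L` satisfy
`l ^ q = 1` and those of `I` are not `p₀`-th powers of eigenvalues. -/
theorem C2a {T : X ≃ᵐ X} (hE : Ergodic T ν) {p₀ p p' : ℕ} (h0 : Good ν T p₀)
    (hp : Good ν T p) (hp' : Good ν T p') (hne : p₀ ≠ p) (hne' : p₀ ≠ p')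
    {ρ ρ' : Measure (X × X)} [IsProbabilityMeasure ρ] [IsProbabilityMeasure ρ']
    (hJ : Jn ν T p₀ p ρ) (hJ' : Jn ν T p₀ p' ρ') (h : ℕ)
    {q : ℕ} (hq : 1 ≤ q) {c : ℕ} (hc : p₀ * c ≡ 1 [MOD q])
    (L I : Finset ℂ) (hL : ∀ l ∈ L, l ∈ EV ν T ∧ l ^ q = 1)
    (hI : ∀ l ∈ I, l ∈ EV ν T ∧ ¬ IsPow ν T p₀ l) (hLI : Disjoint L I)
    {W : X → ℂ} (hW : B1 W) {ε : ℝ} (hε : 0 ≤ ε) (hε1 : ε ≤ 1)
    (happ : ∫ x, ‖W x - ∑ l ∈ L ∪ I, fc ν T W l * eg ν T l x‖ ^ 2 ∂ν ≤ ε ^ 2) :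
    ‖∫ z : X × X, W z.1 * conj (W z.2) ∂(RR ν (DD ν T h ρ) (DD ν T h ρ')) -
      ∑ l ∈ L, ((‖fc ν T W l‖ ^ 2 : ℝ) : ℂ) * (l ^ (h * p * c) * conj (l ^ (h * p' * c)))‖ ≤
      2 * ε := by
  classical
  have hT := hE.toMeasurePreserving
  have bm : ∀ {f : X → ℂ}, B1 f → BM f := fun hf => ⟨hf.meas, 1, hf.bdd⟩
  have hD := DD_coup (T := T) hT h hJ.coup
  have hD' := DD_coup (T := T) hT h hJ'.coup
  set D := DD ν T h ρ with hDdef
  set D' := DD ν T h ρ' with hDdef'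
  set P : X → ℂ := fun x => ∑ l ∈ L ∪ I, fc ν T W l * eg ν T l x with hP
  set E : X → ℂ := fun x => W x - P x with hEdef
  have hPm : Measurable P := Finset.measurable_sum _ fun l _ =>
    (eg_meas (ν := ν) (T := T) l).const_mul _
  have hterm : ∀ l, BM (fun x => fc ν T W l * eg ν T l x) := fun l =>
    ⟨(eg_meas l).const_mul _, ‖fc ν T W l‖, fun x => by rw [norm_mul, eg_norm, mul_one]⟩
  have hPB : BM P := ⟨hPm, ∑ l ∈ L ∪ I, ‖fc ν T W l‖, fun x => by
    refine (norm_sum_le _ _).trans (Finset.sum_le_sum fun l _ => ?_)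
    rw [norm_mul, eg_norm, mul_one]⟩
  have hEB : BM E := by
    obtain ⟨C, hC⟩ := hPB.bdd
    exact ⟨hW.meas.sub hPm, 1 + C, fun x => (norm_sub_le _ _).trans (add_le_add (hW.bdd x) (hC x))⟩
  -- the operators on P
  have hopP : ∀ (p₁ : ℕ) (ρ₁ : Measure (X × X)) [IsProbabilityMeasure ρ₁], Good ν T p₁ →
      p₀ ≠ p₁ → Jn ν T p₀ p₁ ρ₁ → ∀ᵐ x ∂ν, op (DD ν T h ρ₁) P x =
        ∑ l ∈ L, (fc ν T W l * l ^ (h * p₁ * c)) * eg ν T l x := by
    intro p₁ ρ₁ _ hp₁ hne₁ hJ₁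
    have hz : ∀ᵐ x ∂ν, ∀ l ∈ I, op (DD ν T h ρ₁) (eg ν T l) x = 0 := by
      rw [Finset.eventually_all]
      exact fun l hl => DD_eig_zero hE h0 hp₁ hne₁ hJ₁ (hI l hl).1 (hI l hl).2 h
    have ht : ∀ᵐ x ∂ν, ∀ l ∈ L, op (DD ν T h ρ₁) (eg ν T l) x =
        l ^ (h * p₁ * c) * eg ν T l x := by
      rw [Finset.eventually_all]
      exact fun l hl => DD_eig_tors hE h0 hp₁ hne₁ hJ₁ (hL l hl).1 hq (hL l hl).2 hc h
    filter_upwards [hz, ht] with x hzx htx
    have e1 : op (DD ν T h ρ₁) P x = ∑ l ∈ L ∪ I, op (DD ν T h ρ₁)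
        (fun y => fc ν T W l * eg ν T l y) x :=
      op_sum (L ∪ I) (fun l y => fc ν T W l * eg ν T l y) (fun l _ => hterm l) x
    rw [e1, Finset.sum_union hLI]
    have e2 : ∑ l ∈ I, op (DD ν T h ρ₁) (fun y => fc ν T W l * eg ν T l y) x = 0 := by
      refine Finset.sum_eq_zero fun l hl => ?_
      have := op_smul (ρ := DD ν T h ρ₁) (fc ν T W l) (eg ν T l) x
      rw [this, hzx l hl, mul_zero]
    rw [e2, add_zero]
    refine Finset.sum_congr rfl fun l hl => ?_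
    have := op_smul (ρ := DD ν T h ρ₁) (fc ν T W l) (eg ν T l) x
    rw [this, htx l hl]
    ring
  have hP1 := hopP p ρ hp hne hJ
  have hP2 := hopP p' ρ' hp' hne' hJ'
  have hLe : ∀ l ∈ L, l ∈ EV ν T := fun l hl => (hL l hl).1
  have hln : ∀ l ∈ L, ‖l‖ = 1 := fun l hl => EV_norm hT (hLe l hl)
  -- main term
  have hmain : ∫ x, op D P x * conj (op D' P x) ∂ν = ∑ l ∈ L, ((‖fc ν T W l‖ ^ 2 : ℝ) : ℂ) *
      (l ^ (h * p * c) * conj (l ^ (h * p' * c))) := by
    have e1 : ∫ x, op D P x * conj (op D' P x) ∂ν =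
        ∫ x, (∑ l ∈ L, (fc ν T W l * l ^ (h * p * c)) * eg ν T l x) *
          conj (∑ l ∈ L, (fc ν T W l * l ^ (h * p' * c)) * eg ν T l x) ∂ν := by
      refine integral_congr_ae ?_
      filter_upwards [hP1, hP2] with x h1 h2
      show op (DD ν T h ρ) P x * conj (op (DD ν T h ρ') P x) = _
      rw [h1, h2]
    rw [e1, C2a_orth hT L hLe]
    refine Finset.sum_congr rfl fun l _ => ?_
    rw [map_mul]
    have : ((‖fc ν T W l‖ ^ 2 : ℝ) : ℂ) = fc ν T W l * conj (fc ν T W l) := by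
      rw [Complex.mul_conj, Complex.normSq_eq_norm_sq]
    rw [this]
    ring
  -- the norm of op D P
  have hPn : ∫ x, ‖op D P x‖ ^ 2 ∂ν ≤ 1 := by
    have e1 : ∫ x, ‖op D P x‖ ^ 2 ∂ν =
        ∫ x, ‖∑ l ∈ L, (fc ν T W l * l ^ (h * p * c)) * eg ν T l x‖ ^ 2 ∂ν := by
      refine integral_congr_ae ?_
      filter_upwards [hP1] with x h1
      show ‖op (DD ν T h ρ) P x‖ ^ 2 = _
      rw [h1]
    rw [e1, C2a_normsq hT L hLe]
    have e2 : ∑ l ∈ L, ‖fc ν T W l * l ^ (h * p * c)‖ ^ 2 = ∑ l ∈ L, ‖fc ν T W l‖ ^ 2 := by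
      refine Finset.sum_congr rfl fun l hl => ?_
      rw [norm_mul, norm_pow, hln l hl, one_pow, mul_one]
    rw [e2]
    refine (bessel hE (bm hW) L (fun l hl => hLe l (Finset.mem_coe.1 hl))).trans ?_
    have e3 : ∫ x, ‖W x‖ ^ 2 ∂ν ≤ ∫ _x : X, (1 : ℝ) ∂ν := by
      refine integral_mono_of_nonneg (Eventually.of_forall fun x => by positivity)
        (integrable_const _) (Eventually.of_forall fun x => ?_)
      exact pow_le_one₀ (norm_nonneg _) (hW.bdd x)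
    simpa using e3
  have hWc : B1 (fun y => conj (W y)) :=
    ⟨Complex.continuous_conj.measurable.comp hW.meas, fun x => by
      rw [RCLike.norm_conj]; exact hW.bdd x⟩
  have hA : ∫ z : X × X, W z.1 * conj (W z.2) ∂(RR ν D D') =
      ∫ x, op D W x * conj (op D' W x) ∂ν := by
    have := RR_int (ν := ν) (D₁ := D) (D₂ := D') (bm hW) (bm hWc)
    rw [this]
    simp_rw [op_conj]
  have conjBM : ∀ {f : X → ℂ}, BM f → BM (fun x => conj (f x)) := by
    intro f hf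
    obtain ⟨C, hC⟩ := hf.bdd
    exact ⟨Complex.continuous_conj.measurable.comp hf.meas, C, fun x => by
      rw [RCLike.norm_conj]; exact hC x⟩
  have hint : ∀ {f g : X → ℂ}, BM f → BM g → Integrable (fun x => f x * conj (g x)) ν := by
    intro f g hf hg
    obtain ⟨C, hC⟩ := hf.bdd
    obtain ⟨C', hC'⟩ := hg.bdd
    refine Integrable.of_bound (C := C * C') (hf.meas.mul
      (Complex.continuous_conj.measurable.comp hg.meas)).aestronglyMeasurable
      (Eventually.of_forall fun x => ?_)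
    show ‖f x * conj (g x)‖ ≤ _
    rw [norm_mul, RCLike.norm_conj]
    exact mul_le_mul (hC x) (hC' x) (norm_nonneg _) ((norm_nonneg _).trans (hC x))
  have oW : BM (op D W) := op_BM (bm hW)
  have oW' : BM (op D' W) := op_BM (bm hW)
  have oP : BM (op D P) := op_BM hPB
  have oP' : BM (op D' P) := op_BM hPB
  have oE : BM (op D E) := op_BM hEB
  have oE' : BM (op D' E) := op_BM hEB
  have hsubD : ∀ x, op D E x = op D W x - op D P x := fun x => op_sub (bm hW) hPB x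
  have hsubD' : ∀ x, op D' E x = op D' W x - op D' P x := fun x => op_sub (bm hW) hPB x
  have hdecomp : ∫ x, op D W x * conj (op D' W x) ∂ν - ∫ x, op D P x * conj (op D' P x) ∂ν =
      ∫ x, conj (op D' W x) * op D E x ∂ν + ∫ x, op D P x * conj (op D' E x) ∂ν := by
    have e0 : Integrable (fun x => conj (op D' W x) * op D E x) ν := by
      have := hint oE oW'
      refine this.congr (Eventually.of_forall fun x => ?_)
      simp only
      ring
    rw [← integral_sub (hint oW oW') (hint oP oP'), ← integral_add e0 (hint oP oE')]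
    congr 1
    ext x
    rw [hsubD, hsubD', map_sub]
    ring
  rw [hA, ← hmain, hdecomp]
  have hE2 : ∫ x, ‖op D E x‖ ^ 2 ∂ν ≤ ε ^ 2 := (op_L2 hD hEB).trans happ
  have hE2' : ∫ x, ‖conj (op D' E x)‖ ^ 2 ∂ν ≤ ε ^ 2 := by
    simp_rw [RCLike.norm_conj]
    exact (op_L2 hD' hEB).trans happ
  have hW2 : ∫ x, ‖conj (op D' W x)‖ ^ 2 ∂ν ≤ 1 := by
    have e3 : ∫ x, ‖conj (op D' W x)‖ ^ 2 ∂ν ≤ ∫ _x : X, (1 : ℝ) ∂ν := by
      refine integral_mono_of_nonneg (Eventually.of_forall fun x => by positivity)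
        (integrable_const _) (Eventually.of_forall fun x => ?_)
      show ‖conj (op D' W x)‖ ^ 2 ≤ 1
      rw [RCLike.norm_conj]
      exact pow_le_one₀ (norm_nonneg _) ((op_B1 hW).bdd x)
    simpa using e3
  have n1 := C2a_cs (ν := ν) (conjBM oW') oE hε hW2 hE2
  have n2 := C2a_cs (ν := ν) oP (conjBM oE') hε hPn hE2'
  refine (norm_add_le _ _).trans ?_
  linarith

end Pool.Agent.Sar
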