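import Pool.Agent.Sar.J2

/-! MP_13664e_an, module J3: the couplings `D_h` and `R`. -/

set_option autoImplicit false

namespace Pool.Agent.Sar

open MeasureTheory ProbabilityTheory Filter Topology
open scoped ENNReal ComplexConjugate

variable {X : Type*} [mX : MeasurableSpace X] [StandardBorelSpace X] [Nonempty X]
  {ν : Measure X} [IsProbabilityMeasure ν]

/-- the shift by `h` -/
noncomputable def DD (ν : Measure X) (T : X ≃ᵐ X) (h : ℕ) (ρ : Measure (X × X))
    [IsFiniteMeasure ρ] : Measure (X × X) :=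
  relProd ν (⇑T)^[h] (T.measurable.iterate h) ρ ρ

instance (T : X ≃ᵐ X) (h : ℕ) (ρ : Measure (X × X)) [IsFiniteMeasure ρ] :
    IsProbabilityMeasure (DD ν T h ρ) := by
  unfold DD; infer_instance

/-- the relative product `D_{p'}^* D_p` -/
noncomputable def RR (ν : Measure X) (D₁ D₂ : Measure (X × X)) [IsFiniteMeasure D₁]
    [IsFiniteMeasure D₂] : Measure (X × X) :=
  relProd ν id measurable_id D₁ D₂

instance (D₁ D₂ : Measure (X × X)) [IsFiniteMeasure D₁] [IsFiniteMeasure D₂] :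
    IsProbabilityMeasure (RR ν D₁ D₂) := by
  unfold RR; infer_instance

variable {T : X ≃ᵐ X}

theorem DD_coup (hT : MeasurePreserving T ν ν) (h : ℕ) {ρ : Measure (X × X)}
    [IsProbabilityMeasure ρ] (hc : Coup ν ρ) : Coup ν (DD ν T h ρ) := by
  exact rel_coup (hT.iterate h) hc hc

theorem DD_int (hT : MeasurePreserving T ν ν) (h : ℕ) {ρ : Measure (X × X)}
    [IsProbabilityMeasure ρ] {v w : X → ℂ} (hv : BM v) (hw : BM w) :
    ∫ z, v z.1 * w z.2 ∂(DD ν T h ρ) = ∫ x, op ρ v x * op ρ w ((⇑T)^[h] x) ∂ν := by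
  exact rel_int (hT.iterate h) hv hw

/-- `D_h` is `T^p × T^p`-invariant -/
theorem DD_inv (hT : MeasurePreserving T ν ν) (h : ℕ) {p₀ p : ℕ} {ρ : Measure (X × X)}
    [IsProbabilityMeasure ρ] (hc : Coup ν ρ) (inv : ρ.map (Prod.map (⇑T)^[p₀] (⇑T)^[p]) = ρ) :
    (DD ν T h ρ).map (Prod.map (⇑T)^[p] (⇑T)^[p]) = DD ν T h ρ := by
  have hA : MeasurePreserving (itE T p₀) ν ν := by
    rw [itE_coe]; exact hT.iterate p₀
  have i1 : ρ.map (Prod.map (itE T p₀) (itE T p)) = ρ := by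
    rw [itE_coe, itE_coe]; exact inv
  have h1 := rel_inv (A := itE T p₀) (B₁ := itE T p) (B₂ := itE T p) hc hc hA i1 i1
    (S := (⇑T)^[h]) (hT.iterate h) (fun x => by
      rw [itE_coe, ← Function.iterate_add_apply, ← Function.iterate_add_apply, add_comm])
  rw [itE_coe] at h1
  exact h1

theorem RR_coup {D₁ D₂ : Measure (X × X)} [IsProbabilityMeasure D₁] [IsProbabilityMeasure D₂]
    (h₁ : Coup ν D₁) (h₂ : Coup ν D₂) : Coup ν (RR ν D₁ D₂) := by
  exact rel_coup (MeasurePreserving.id ν) h₁ h₂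

theorem RR_int {D₁ D₂ : Measure (X × X)} [IsProbabilityMeasure D₁] [IsProbabilityMeasure D₂]
    {v w : X → ℂ} (hv : BM v) (hw : BM w) :
    ∫ z, v z.1 * w z.2 ∂(RR ν D₁ D₂) = ∫ x, op D₁ v x * op D₂ w x ∂ν := by
  exact rel_int (MeasurePreserving.id ν) hv hw

theorem RR_inv (hT : MeasurePreserving T ν ν) {D₁ D₂ : Measure (X × X)}
    [IsProbabilityMeasure D₁] [IsProbabilityMeasure D₂] (h₁ : Coup ν D₁) (h₂ : Coup ν D₂)
    (i₁ : D₁.map (Prod.map T T) = D₁) (i₂ : D₂.map (Prod.map T T) = D₂) :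
    (RR ν D₁ D₂).map (Prod.map T T) = RR ν D₁ D₂ := by
  exact rel_inv (A := T) (B₁ := T) (B₂ := T) h₁ h₂ hT i₁ i₂ (MeasurePreserving.id ν) (fun _ => rfl)

end Pool.Agent.Sar
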