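import Pool.Agent.Sar.P1
import Pool.Agent.Sar.K4
import Pool.Agent.Sar.J3

/-! MP_13664e_an, module P3: eigenvalues which are not `p`-th powers do not contribute. -/

set_option autoImplicit false
set_option linter.unusedSectionVars false
set_option linter.unusedVariables false

namespace Pool.Agent.Sar

open MeasureTheory ProbabilityTheory Filter Topology
open scoped ENNReal ComplexConjugate

variable {X : Type*} [mX : MeasurableSpace X] [StandardBorelSpace X] [Nonempty X]
  {ν : Measure X} [IsProbabilityMeasure ν]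

private theorem P3_BM {v : X → ℂ} (hv : B1 v) : BM v := ⟨hv.meas, 1, hv.bdd⟩

/-- a bounded function on the product is determined by its integrals against products -/
private theorem P3_zero {D : Measure (X × X)} [IsProbabilityMeasure D] {G : X × X → ℂ}
    (hG : Measurable G) {C : ℝ} (hC : ∀ z, ‖G z‖ ≤ C)
    (h : ∀ v w : X → ℂ, B1 v → B1 w → ∫ z, (v z.1 * w z.2) * G z ∂D = 0) :
    ∀ᵐ z ∂D, G z = 0 := by
  have hint : Integrable G D :=
    Integrable.of_bound hG.aestronglyMeasurable C (Filter.Eventually.of_forall hC)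
  have hB : ∀ s : Set X, MeasurableSet s → B1 (s.indicator fun _ => (1 : ℂ)) := fun s hs =>
    ⟨measurable_const.indicator hs, fun x => by
      by_cases hx : x ∈ s
      · simp [hx]
      · simp [hx]⟩
  have hrect : ∀ s t : Set X, MeasurableSet s → MeasurableSet t → ∫ z in s ×ˢ t, G z ∂D = 0 := by
    intro s t hs ht
    rw [← h _ _ (hB s hs) (hB t ht), ← integral_indicator (hs.prod ht)]
    refine integral_congr_ae (Filter.Eventually.of_forall fun z => ?_)
    by_cases h3 : z.1 ∈ s <;> by_cases h4 : z.2 ∈ t <;> simp [Set.indicator, h3, h4, Set.mem_prod]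
  have hall : ∀ A : Set (X × X), MeasurableSet A → ∫ z in A, G z ∂D = 0 := by
    intro A hA
    induction A, hA using MeasurableSpace.induction_on_inter generateFrom_prod.symm
      isPiSystem_prod with
    | empty => simp
    | basic A hA =>
      obtain ⟨s, hs, t, ht, rfl⟩ := hA
      exact hrect s t hs ht
    | compl A hA ih =>
      have h1 := integral_add_compl hA hint
      have h2 : ∫ z, G z ∂D = 0 := by
        have h3 := hrect Set.univ Set.univ MeasurableSet.univ MeasurableSet.univ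
        rwa [Set.univ_prod_univ, setIntegral_univ] at h3
      rw [ih, zero_add, h2] at h1
      exact h1
    | iUnion f hd hm ih =>
      rw [integral_iUnion hm hd hint.integrableOn]
      simp [ih]
  exact hint.ae_eq_zero_of_forall_setIntegral_eq_zero fun s hs _ => hall s hs

/-- the kernel of the two points over `x₀` -/
private noncomputable def P3_k (T : X ≃ᵐ X) (h : ℕ) (ρ : Measure (X × X)) [IsFiniteMeasure ρ] :
    Kernel X (X × X) :=
  ρ.condKernel ×ₖ (ρ.condKernel.comap (⇑T)^[h] (T.measurable.iterate h))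

private instance (T : X ≃ᵐ X) (h : ℕ) (ρ : Measure (X × X)) [IsFiniteMeasure ρ] :
    IsMarkovKernel (P3_k T h ρ) := by
  unfold P3_k; infer_instance

/-- law of the three points -/
private noncomputable def P3_M (ν : Measure X) [IsProbabilityMeasure ν] (T : X ≃ᵐ X) (h : ℕ)
    (ρ : Measure (X × X)) [IsFiniteMeasure ρ] : Measure ((X × X) × X) :=
  (ν ⊗ₘ P3_k T h ρ).map Prod.swap

private instance (T : X ≃ᵐ X) (h : ℕ) (ρ : Measure (X × X)) [IsFiniteMeasure ρ] :
    IsProbabilityMeasure (P3_M ν T h ρ) := by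
  unfold P3_M
  exact Measure.isProbabilityMeasure_map measurable_swap.aemeasurable

private theorem P3_fst (T : X ≃ᵐ X) (h : ℕ) (ρ : Measure (X × X)) [IsFiniteMeasure ρ] :
    (P3_M ν T h ρ).fst = DD ν T h ρ := by
  unfold P3_M Measure.fst
  rw [Measure.map_map measurable_fst measurable_swap]
  have h1 : (Prod.fst ∘ Prod.swap : X × (X × X) → X × X) = Prod.snd := rfl
  rw [h1]
  have h2 := Measure.snd_compProd ν (P3_k T h ρ)
  exact h2

private noncomputable def P3_Phi (ν : Measure X) [IsProbabilityMeasure ν] (T : X ≃ᵐ X) (h : ℕ)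
    (ρ : Measure (X × X)) [IsFiniteMeasure ρ] (l : ℂ) (z : X × X) : ℂ :=
  ∫ x, eg ν T l x ∂((P3_M ν T h ρ).condKernel z)

private theorem P3_Phi_meas (T : X ≃ᵐ X) (h : ℕ) (ρ : Measure (X × X)) [IsFiniteMeasure ρ]
    (l : ℂ) : Measurable (P3_Phi ν T h ρ l) := by
  have h1 := ((eg_meas (ν := ν) (T := ⇑T) l).stronglyMeasurable.integral_kernel
    (κ := (P3_M ν T h ρ).condKernel)).measurable
  exact h1

private theorem P3_Phi_bdd (T : X ≃ᵐ X) (h : ℕ) (ρ : Measure (X × X)) [IsFiniteMeasure ρ]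
    (l : ℂ) (z : X × X) : ‖P3_Phi ν T h ρ l z‖ ≤ 1 := by
  have h1 := norm_integral_le_of_norm_le_const (μ := (P3_M ν T h ρ).condKernel z)
    (f := eg ν T l) (C := 1) (Filter.Eventually.of_forall fun x => (eg_norm l x).le)
  simpa [P3_Phi] using h1

private theorem P3_formula {T : X ≃ᵐ X} (h : ℕ) (ρ : Measure (X × X)) [IsFiniteMeasure ρ]
    (l : ℂ) {v w : X → ℂ} (hv : B1 v) (hw : B1 w) :
    ∫ z, (v z.1 * w z.2) * P3_Phi ν T h ρ l z ∂(DD ν T h ρ) =
      ∫ x, eg ν T l x * op ρ v x * op ρ w ((⇑T)^[h] x) ∂ν := by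
  have hm1 : Measurable fun y : (X × X) × X => (v y.1.1 * w y.1.2) * eg ν T l y.2 :=
    ((hv.meas.comp (measurable_fst.comp measurable_fst)).mul
      (hw.meas.comp (measurable_snd.comp measurable_fst))).mul ((eg_meas l).comp measurable_snd)
  have hb1 : ∀ y : (X × X) × X, ‖(v y.1.1 * w y.1.2) * eg ν T l y.2‖ ≤ 1 := by
    intro y
    rw [norm_mul, norm_mul, eg_norm, mul_one]
    calc ‖v y.1.1‖ * ‖w y.1.2‖ ≤ 1 * 1 :=
          mul_le_mul (hv.bdd _) (hw.bdd _) (norm_nonneg _) zero_le_one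
      _ = 1 := mul_one 1
  have hint : Integrable (fun y : (X × X) × X => (v y.1.1 * w y.1.2) * eg ν T l y.2)
      (P3_M ν T h ρ) :=
    Integrable.of_bound hm1.aestronglyMeasurable 1 (Filter.Eventually.of_forall hb1)
  have hdis : (DD ν T h ρ) ⊗ₘ (P3_M ν T h ρ).condKernel = P3_M ν T h ρ := by
    have h1 := (P3_M ν T h ρ).disintegrate (P3_M ν T h ρ).condKernel
    rwa [P3_fst] at h1
  have e1 : ∫ y, (v y.1.1 * w y.1.2) * eg ν T l y.2 ∂(P3_M ν T h ρ) =
      ∫ z, (v z.1 * w z.2) * P3_Phi ν T h ρ l z ∂(DD ν T h ρ) := by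
    have h1 := hint
    rw [← hdis] at h1
    have h2 := Measure.integral_compProd h1
    rw [hdis] at h2
    rw [h2]
    refine integral_congr_ae (Filter.Eventually.of_forall fun z => ?_)
    exact integral_const_mul (v z.1 * w z.2) (eg ν T l)
  rw [← e1]
  have e2 : ∫ y, (v y.1.1 * w y.1.2) * eg ν T l y.2 ∂(P3_M ν T h ρ) =
      ∫ y, (v y.2.1 * w y.2.2) * eg ν T l y.1 ∂(ν ⊗ₘ P3_k T h ρ) := by
    unfold P3_M
    rw [integral_map measurable_swap.aemeasurable hm1.aestronglyMeasurable]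
    rfl
  have hm2 : Measurable fun y : X × (X × X) => (v y.2.1 * w y.2.2) * eg ν T l y.1 :=
    ((hv.meas.comp (measurable_fst.comp measurable_snd)).mul
      (hw.meas.comp (measurable_snd.comp measurable_snd))).mul ((eg_meas l).comp measurable_fst)
  have hint2 : Integrable (fun y : X × (X × X) => (v y.2.1 * w y.2.2) * eg ν T l y.1)
      (ν ⊗ₘ P3_k T h ρ) :=
    Integrable.of_bound hm2.aestronglyMeasurable 1 (Filter.Eventually.of_forall fun y =>
      hb1 (y.2, y.1))
  rw [e2, Measure.integral_compProd hint2]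
  refine integral_congr_ae (Filter.Eventually.of_forall fun x => ?_)
  have e3 : ∫ z : X × X, (v z.1 * w z.2) * eg ν T l x ∂(P3_k T h ρ x) =
      (∫ z : X × X, v z.1 * w z.2 ∂(P3_k T h ρ x)) * eg ν T l x := integral_mul_const _ _
  have e4 : ∫ z : X × X, v z.1 * w z.2 ∂(P3_k T h ρ x) = op ρ v x * op ρ w ((⇑T)^[h] x) := by
    unfold P3_k op
    rw [Kernel.prod_apply, Kernel.comap_apply]
    exact integral_prod_mul v w
  simp only
  rw [e3, e4]
  ring

private theorem P3_comp {v : X → ℂ} (hv : B1 v) {B : X → X} (hB : Measurable B) :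
    B1 (fun y => v (B y)) := ⟨hv.meas.comp hB, fun x => hv.bdd _⟩

theorem P3 {T : X ≃ᵐ X} (hE : Ergodic T ν) {m : ℕ} {a : ℝ} {ℓ : X → Fin m}
    (hL : Lab ν T m a ℓ) {p₀ p : ℕ} (h0 : Good ν T p₀) (hp : Good ν T p) (hne : p₀ ≠ p)
    (hm : m ^ 2 < p) {ρ : Measure (X × X)} [IsProbabilityMeasure ρ] (hc : Coup ν ρ)
    (inv : ρ.map (Prod.map (⇑T)^[p₀] (⇑T)^[p]) = ρ) {l : ℂ} (hl : l ∈ EV ν T)
    (hn : ¬ IsPow ν T p l) {v w : X → ℂ} (hv : B1 v) (hw : B1 w) (h : ℕ) :
    ∫ x, eg ν T l x * op ρ v x * op ρ w ((⇑T)^[h] x) ∂ν = 0 := by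
  have hT := hE.toMeasurePreserving
  obtain ⟨Φ, hΦd⟩ : ∃ Φ : X × X → ℂ, Φ = P3_Phi ν T h ρ l := ⟨_, rfl⟩
  have hΦm : Measurable Φ := by rw [hΦd]; exact P3_Phi_meas T h ρ l
  have hΦb : ∀ z, ‖Φ z‖ ≤ 1 := by rw [hΦd]; exact P3_Phi_bdd T h ρ l
  have hform : ∀ {v w : X → ℂ}, B1 v → B1 w → ∫ z, (v z.1 * w z.2) * Φ z ∂(DD ν T h ρ) =
      ∫ x, eg ν T l x * op ρ v x * op ρ w ((⇑T)^[h] x) ∂ν := by
    intro v w hv hw
    rw [hΦd]
    exact P3_formula h ρ l hv hw
  have hDinv := DD_inv hT h hc inv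
  have hDc := DD_coup hT h hc
  obtain ⟨S, hSd⟩ : ∃ S : X × X → X × X, S = Prod.map (⇑T)^[p] (⇑T)^[p] := ⟨_, rfl⟩
  have hSm : Measurable S := by
    rw [hSd]; exact (T.measurable.iterate p).prodMap (T.measurable.iterate p)
  rw [← hSd] at hDinv
  have hSint : ∀ F : X × X → ℂ, Measurable F →
      ∫ z, F (S z) ∂(DD ν T h ρ) = ∫ z, F z ∂(DD ν T h ρ) := by
    intro F hF
    have h1 := integral_map (μ := DD ν T h ρ) hSm.aemeasurable (f := F)
      hF.aestronglyMeasurable
    rw [hDinv] at h1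
    exact h1.symm
  -- the transformation of `Φ`
  have hcomm : ∀ {u : X → ℂ}, BM u →
      ∀ᵐ x ∂ν, op ρ (fun y => u ((⇑T)^[p] y)) x = op ρ u ((⇑T)^[p₀] x) := by
    intro u hu
    have i1 : ρ.map (Prod.map (itE T p₀) (itE T p)) = ρ := by
      rw [itE_coe, itE_coe]; exact inv
    have hA : MeasurePreserving (itE T p₀) ν ν := by
      rw [itE_coe]; exact hT.iterate p₀
    have h1 := op_comp hc hA i1 hu
    simp only [itE_coe] at h1
    exact h1
  have htrans : ∀ {v w : X → ℂ}, B1 v → B1 w →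
      l ^ p₀ * ∫ x, eg ν T l x * op ρ (fun y => v ((⇑T)^[p] y)) x *
        op ρ (fun y => w ((⇑T)^[p] y)) ((⇑T)^[h] x) ∂ν =
      ∫ x, eg ν T l x * op ρ v x * op ρ w ((⇑T)^[h] x) ∂ν := by
    intro v w hv hw
    have a1 := hcomm (P3_BM hv)
    have a2 : ∀ᵐ x ∂ν, op ρ (fun y => w ((⇑T)^[p] y)) ((⇑T)^[h] x) =
        op ρ w ((⇑T)^[p₀] ((⇑T)^[h] x)) :=
      (hT.iterate h).quasiMeasurePreserving.ae (hcomm (P3_BM hw))
    have a3 := eig_iter hT (eg_spec hl) p₀
    have hmeas : Measurable fun x => eg ν T l x * op ρ v x * op ρ w ((⇑T)^[h] x) :=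
      ((eg_meas l).mul (op_B1 hv).meas).mul ((op_B1 hw).meas.comp (T.measurable.iterate h))
    have e1 : ∫ x, (fun x => eg ν T l x * op ρ v x * op ρ w ((⇑T)^[h] x)) ((⇑T)^[p₀] x) ∂ν =
        ∫ x, eg ν T l x * op ρ v x * op ρ w ((⇑T)^[h] x) ∂ν := by
      have h1 := integral_map (μ := ν) (hT.iterate p₀).measurable.aemeasurable
        hmeas.aestronglyMeasurable
      rw [(hT.iterate p₀).map_eq] at h1
      exact h1.symm
    rw [← e1, ← integral_const_mul]
    refine integral_congr_ae ?_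
    filter_upwards [a1, a2, a3] with x h1 h2 h3
    have h4 : (⇑T)^[p₀] ((⇑T)^[h] x) = (⇑T)^[h] ((⇑T)^[p₀] x) := by
      rw [← Function.iterate_add_apply, ← Function.iterate_add_apply, add_comm]
    rw [h1, h2, h3, h4]
    ring
  have hΦS : ∀ᵐ z ∂(DD ν T h ρ), Φ (S z) = l ^ p₀ * Φ z := by
    have hl1 : ‖l ^ p₀‖ = 1 := by rw [norm_pow, EV_norm hT hl, one_pow]
    have h1 := P3_zero (D := DD ν T h ρ) (G := fun z => Φ (S z) - l ^ p₀ * Φ z)
      ((hΦm.comp hSm).sub (hΦm.const_mul _)) (C := 2) (fun z => by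
        refine (norm_sub_le _ _).trans ?_
        rw [norm_mul, hl1, one_mul]
        have := hΦb (S z)
        have := hΦb z
        linarith) (fun v w hv hw => by
        -- `v = v' ∘ T ^ p`
        obtain ⟨v', hv'd⟩ : ∃ v' : X → ℂ, v' = fun y => v ((itE T p).symm y) := ⟨_, rfl⟩
        obtain ⟨w', hw'd⟩ : ∃ w' : X → ℂ, w' = fun y => w ((itE T p).symm y) := ⟨_, rfl⟩
        have hv' : B1 v' := by rw [hv'd]; exact P3_comp hv (itE T p).symm.measurable
        have hw' : B1 w' := by rw [hw'd]; exact P3_comp hw (itE T p).symm.measurable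
        have ev : (fun y => v' ((⇑T)^[p] y)) = v := by
          funext y
          rw [hv'd, ← itE_coe]
          simp
        have ew : (fun y => w' ((⇑T)^[p] y)) = w := by
          funext y
          rw [hw'd, ← itE_coe]
          simp
        have hbd : ∀ z : X × X, ‖v z.1 * w z.2‖ ≤ 1 := fun z => by
          rw [norm_mul]
          calc ‖v z.1‖ * ‖w z.2‖ ≤ 1 * 1 :=
                mul_le_mul (hv.bdd _) (hw.bdd _) (norm_nonneg _) zero_le_one
            _ = 1 := mul_one 1
        have hvw : Measurable fun z : X × X => v z.1 * w z.2 :=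
          (hv.meas.comp measurable_fst).mul (hw.meas.comp measurable_snd)
        have i1 : Integrable (fun z => (v z.1 * w z.2) * Φ (S z)) (DD ν T h ρ) :=
          Integrable.of_bound (hvw.mul (hΦm.comp hSm)).aestronglyMeasurable 1
            (Filter.Eventually.of_forall fun z => by
              rw [norm_mul]
              calc ‖v z.1 * w z.2‖ * ‖Φ (S z)‖ ≤ 1 * 1 :=
                    mul_le_mul (hbd z) (hΦb _) (norm_nonneg _) zero_le_one
                _ = 1 := mul_one 1)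
        have i2 : Integrable (fun z => l ^ p₀ * ((v z.1 * w z.2) * Φ z)) (DD ν T h ρ) :=
          (Integrable.of_bound (f := fun z => (v z.1 * w z.2) * Φ z)
            (hvw.mul hΦm).aestronglyMeasurable 1
            (Filter.Eventually.of_forall fun z => by
              rw [norm_mul]
              calc ‖v z.1 * w z.2‖ * ‖Φ z‖ ≤ 1 * 1 :=
                    mul_le_mul (hbd z) (hΦb _) (norm_nonneg _) zero_le_one
                _ = 1 := mul_one 1)).const_mul _
        have e1 : ∫ z, (v z.1 * w z.2) * (Φ (S z) - l ^ p₀ * Φ z) ∂(DD ν T h ρ) =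
            ∫ z, (v z.1 * w z.2) * Φ (S z) ∂(DD ν T h ρ) -
              ∫ z, l ^ p₀ * ((v z.1 * w z.2) * Φ z) ∂(DD ν T h ρ) := by
          rw [← integral_sub i1 i2]
          refine integral_congr_ae (Filter.Eventually.of_forall fun z => ?_)
          simp only
          ring
        have e2 : ∫ z, (v z.1 * w z.2) * Φ (S z) ∂(DD ν T h ρ) =
            ∫ z, (v' z.1 * w' z.2) * Φ z ∂(DD ν T h ρ) := by
          rw [← hSint (fun z => (v' z.1 * w' z.2) * Φ z)
            (((hv'.meas.comp measurable_fst).mul (hw'.meas.comp measurable_snd)).mul hΦm)]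
          refine integral_congr_ae (Filter.Eventually.of_forall fun z => ?_)
          have h2 : v' (S z).1 = v z.1 := by
            rw [hSd]
            exact congrFun ev z.1
          have h3 : w' (S z).2 = w z.2 := by
            rw [hSd]
            exact congrFun ew z.2
          simp only
          rw [h2, h3]
        have e3 := htrans hv' hw'
        rw [ev, ew] at e3
        rw [e1, e2, integral_const_mul, hform hv' hw', hform hv hw, e3, sub_self])
    filter_upwards [h1] with z hz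
    exact sub_eq_zero.1 hz
  have hΦ0 : ∀ᵐ z ∂(DD ν T h ρ), Φ z = 0 := by
    refine P1 hE hL hDc hΦm ⟨1, hΦb⟩ fun n hn1 hn2 l₁ hl₁ l₂ hl₂ => ?_
    by_contra hJ
    obtain ⟨F, hFd⟩ : ∃ F : X × X → ℂ,
      F = fun z => Φ z ^ n * (eg ν T l₁ z.1 * eg ν T l₂ z.2) := ⟨_, rfl⟩
    have hFm : Measurable F := by
      rw [hFd]
      exact (hΦm.pow_const n).mul (((eg_meas l₁).comp measurable_fst).mul
        ((eg_meas l₂).comp measurable_snd))
    have b1 := hDc.ae_fst (eig_iter hT (eg_spec hl₁) p)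
    have b2 := hDc.ae_snd (eig_iter hT (eg_spec hl₂) p)
    have e1 : ∫ z, F (S z) ∂(DD ν T h ρ) =
        (l ^ p₀) ^ n * (l₁ ^ p * l₂ ^ p) * ∫ z, F z ∂(DD ν T h ρ) := by
      rw [← integral_const_mul]
      refine integral_congr_ae ?_
      filter_upwards [hΦS, b1, b2] with z h1 h2 h3
      rw [hFd]
      simp only
      rw [h1, mul_pow]
      have h4 : (S z).1 = (⇑T)^[p] z.1 := by rw [hSd]; rfl
      have h5 : (S z).2 = (⇑T)^[p] z.2 := by rw [hSd]; rfl
      rw [h4, h5, h2, h3]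
      ring
    rw [hSint F hFm] at e1
    have hJ' : ∫ z, F z ∂(DD ν T h ρ) ≠ 0 := by rw [hFd]; exact hJ
    have e2 : (l ^ p₀) ^ n * (l₁ ^ p * l₂ ^ p) = 1 := by
      have h1 : ((l ^ p₀) ^ n * (l₁ ^ p * l₂ ^ p)) * ∫ z, F z ∂(DD ν T h ρ) =
          1 * ∫ z, F z ∂(DD ν T h ρ) := by
        rw [one_mul]
        exact e1.symm
      exact mul_right_cancel₀ hJ' h1
    have hl12 : l₁ * l₂ ∈ EV ν T := EV_mul hl₁ hl₂
    have hl120 : l₁ * l₂ ≠ 0 := by
      intro h3
      have h4 := EV_norm hT hl12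
      rw [h3, norm_zero] at h4
      exact zero_ne_one h4
    have e3 : IsPow ν T p (l ^ (n * p₀)) := by
      refine ⟨(l₁ * l₂)⁻¹, EV_inv hT hl12, ?_⟩
      have h5 : (l₁ * l₂) ^ p ≠ 0 := pow_ne_zero _ hl120
      rw [inv_pow]
      have h6 : l ^ (n * p₀) * (l₁ * l₂) ^ p = 1 := by
        rw [mul_pow, mul_comm n p₀, pow_mul]
        exact e2
      field_simp
      linear_combination (-1 : ℂ) * h6
    refine hn (good_isPow hT hp.1 ?_ hl e3)
    refine Nat.Coprime.mul_left ?_ ?_
    · rw [Nat.coprime_comm, Nat.Prime.coprime_iff_not_dvd hp.1]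
      intro hd
      have := Nat.le_of_dvd (by omega) hd
      omega
    · exact (Nat.coprime_primes h0.1 hp.1).2 hne
  rw [← hform hv hw]
  have e : ∫ z, (v z.1 * w z.2) * Φ z ∂(DD ν T h ρ) = ∫ _z : X × X, (0 : ℂ) ∂(DD ν T h ρ) := by
    refine integral_congr_ae ?_
    filter_upwards [hΦ0] with z hz
    rw [hz, mul_zero]
  rw [e, integral_zero]

end Pool.Agent.Sar
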