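import Pool.Agent.Sar.C1
import Pool.Agent.Sar.C2
import Pool.Agent.Sar.P3

/-! MP_13664e_an, module D3: the terms of the basic inequality vanish on average (primes avoiding a finite set of roots). -/

set_option autoImplicit false

namespace Pool.Agent.Sar

open MeasureTheory ProbabilityTheory Filter Topology
open scoped ENNReal ComplexConjugate

variable {X : Type*} [mX : MeasurableSpace X] [StandardBorelSpace X] [Nonempty X]
  {ν : Measure X} [IsProbabilityMeasure ν]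

theorem C3_inv {q : ℕ} (hq : 1 ≤ q) : ∃ c : ℕ → ℕ, ∀ b, Nat.Coprime b q → b * c b ≡ 1 [MOD q] := by
  have h1 : ∀ b : ℕ, ∃ c : ℕ, Nat.Coprime b q → b * c ≡ 1 [MOD q] := by
    intro b
    by_cases hb : Nat.Coprime b q
    · have : NeZero q := ⟨by omega⟩
      refine ⟨((b : ZMod q)⁻¹).val, fun _ => ?_⟩
      rw [← ZMod.natCast_eq_natCast_iff]
      push_cast
      rw [ZMod.natCast_zmod_val]
      exact ZMod.coe_mul_inv_eq_one b hb
    · exact ⟨0, fun h => absurd h hb⟩
  choose c hc using h1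
  exact ⟨c, hc⟩

omit [StandardBorelSpace X] [Nonempty X] in
theorem C3_int_sq {f : X → ℝ} (hf : Integrable f ν) (hf2 : Integrable (fun x => f x ^ 2) ν)
    {ε : ℝ} (hε : 0 ≤ ε) (h : ∫ x, f x ^ 2 ∂ν ≤ ε ^ 2) : ∫ x, f x ∂ν ≤ ε := by
  set t := ∫ x, f x ∂ν with ht
  have h1 : 0 ≤ ∫ x, (f x - t) ^ 2 ∂ν := integral_nonneg fun x => sq_nonneg _
  have h2 : ∫ x, (f x - t) ^ 2 ∂ν = ∫ x, f x ^ 2 ∂ν - t ^ 2 := by
    have e1 : ∀ x, (f x - t) ^ 2 = (f x ^ 2 - 2 * t * f x) + t ^ 2 := fun x => by ring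
    simp_rw [e1]
    have e2 : Integrable (fun x => f x ^ 2 - 2 * t * f x) ν := hf2.sub (hf.const_mul _)
    rw [integral_add e2 (integrable_const _),
      integral_sub hf2 (hf.const_mul _), integral_const_mul, ← ht]
    simp
    ring
  have h3 : t ^ 2 ≤ ε ^ 2 := by linarith
  exact (abs_le_of_sq_le_sq' h3 hε).2

omit [StandardBorelSpace X] [Nonempty X] in
theorem C3_fc_le {T : X → X} {W : X → ℂ} (hW : B1 W) (l : ℂ) : ‖fc ν T W l‖ ≤ 1 := by
  unfold fc
  refine (norm_integral_le_of_norm_le_const (C := 1) (Eventually.of_forall fun x => ?_)).trans ?_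
  · rw [norm_mul, RCLike.norm_conj, eg_norm, mul_one]
    exact hW.bdd x
  · simp

omit [StandardBorelSpace X] [Nonempty X] in
/-- splitting of the integral -/
theorem C3_split {T : X → X} {W u u' : X → ℂ} (hW : B1 W) (hu : B1 u) (hu' : B1 u')
    (L : Finset ℂ) {ε : ℝ} (hε : 0 ≤ ε)
    (happ : ∫ x, ‖W x - ∑ l ∈ L, fc ν T W l * eg ν T l x‖ ^ 2 ∂ν ≤ ε ^ 2) :
    ‖∫ x, W x * u x * u' x ∂ν‖ ≤ ε + ∑ l ∈ L, ‖∫ x, eg ν T l x * u x * u' x ∂ν‖ := by
  set E : X → ℂ := fun x => W x - ∑ l ∈ L, fc ν T W l * eg ν T l x with hE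
  have hEm : Measurable E := hW.meas.sub
    (Finset.measurable_sum _ fun l _ => (eg_meas (ν := ν) (T := T) l).const_mul _)
  have hEb : ∀ x, ‖E x‖ ≤ 1 + L.card := by
    intro x
    refine (norm_sub_le _ _).trans (add_le_add (hW.bdd x) ?_)
    refine (norm_sum_le _ _).trans ?_
    calc ∑ l ∈ L, ‖fc ν T W l * eg ν T l x‖ ≤ ∑ l ∈ L, (1 : ℝ) := by
          refine Finset.sum_le_sum fun l _ => ?_
          rw [norm_mul, eg_norm, mul_one]
          exact C3_fc_le hW l
      _ = L.card := by simp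
  have hint : ∀ {f : X → ℂ} {C : ℝ}, Measurable f → (∀ x, ‖f x‖ ≤ C) → Integrable f ν :=
    fun hf hb => Integrable.of_bound hf.aestronglyMeasurable _ (Eventually.of_forall hb)
  have hEuu : Integrable (fun x => E x * u x * u' x) ν := by
    refine hint (C := (1 + L.card) * 1 * 1) ((hEm.mul hu.meas).mul hu'.meas) fun x => ?_
    rw [norm_mul, norm_mul]
    gcongr
    · exact hEb x
    · exact hu.bdd x
    · exact hu'.bdd x
  have heuu : ∀ l ∈ L, Integrable (fun x => fc ν T W l * (eg ν T l x * u x * u' x)) ν := by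
    intro l _
    refine (hint (C := 1 * 1 * 1) (((eg_meas (ν := ν) (T := T) l).mul hu.meas).mul hu'.meas)
      fun x => ?_).const_mul _
    show ‖eg ν T l x * u x * u' x‖ ≤ _
    rw [norm_mul, norm_mul]
    gcongr
    · exact (eg_norm l x).le
    · exact hu.bdd x
    · exact hu'.bdd x
  have e1 : ∫ x, W x * u x * u' x ∂ν = ∫ x, E x * u x * u' x ∂ν +
      ∑ l ∈ L, fc ν T W l * ∫ x, eg ν T l x * u x * u' x ∂ν := by
    have e2 : ∀ l ∈ L, fc ν T W l * ∫ x, eg ν T l x * u x * u' x ∂ν =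
        ∫ x, fc ν T W l * (eg ν T l x * u x * u' x) ∂ν := fun l _ =>
      (integral_const_mul _ _).symm
    rw [Finset.sum_congr rfl e2, ← integral_finsetSum _ heuu,
      ← integral_add hEuu (integrable_finsetSum _ heuu)]
    congr 1
    ext x
    have e3 : ∑ l ∈ L, fc ν T W l * (eg ν T l x * u x * u' x) =
        (∑ l ∈ L, fc ν T W l * eg ν T l x) * u x * u' x := by
      rw [Finset.sum_mul, Finset.sum_mul]
      exact Finset.sum_congr rfl fun l _ => by ring
    rw [e3, hE]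
    ring
  rw [e1]
  refine (norm_add_le _ _).trans (add_le_add ?_ ?_)
  · have h1 : ‖∫ x, E x * u x * u' x ∂ν‖ ≤ ∫ x, ‖E x‖ ∂ν := by
      refine norm_integral_le_of_norm_le (hint hEm hEb).norm (Eventually.of_forall fun x => ?_)
      rw [norm_mul, norm_mul]
      calc ‖E x‖ * ‖u x‖ * ‖u' x‖ ≤ ‖E x‖ * 1 * 1 := by
            gcongr
            · exact hu.bdd x
            · exact hu'.bdd x
        _ = ‖E x‖ := by ring
    refine h1.trans (C3_int_sq (hint hEm hEb).norm ?_ hε happ)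
    refine Integrable.of_bound (C := (1 + L.card) ^ 2)
      (hEm.norm.pow_const 2).aestronglyMeasurable (Eventually.of_forall fun x => ?_)
    rw [norm_pow, norm_norm]
    exact pow_le_pow_left₀ (norm_nonneg _) (hEb x) 2
  · refine (norm_sum_le _ _).trans (Finset.sum_le_sum fun l _ => ?_)
    rw [norm_mul]
    exact mul_le_of_le_one_left (norm_nonneg _) (C3_fc_le hW l)

theorem D3 (hLam : Pool.Agent.BGG.SWLam) {T : X ≃ᵐ X} (hE : Ergodic T ν) {m : ℕ} {a : ℝ}
    {ℓ : X → Fin m} (hL : Lab ν T m a ℓ) {F : X → ℂ} (hF : B1 F)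
    (hF0 : ∀ l ∈ EV ν T, fc ν T F l = 0) {h : ℕ} (hh : 1 ≤ h) {ε : ℝ} (hε : 0 < ε) :
    ∃ I : Finset ℂ, (∀ l ∈ I, l ∈ EV ν T ∧ ¬ Tors l) ∧ ∀ᶠ i : ℕ in atTop,
      ∀ p₀ ∈ blk i, Good ν T p₀ → (∀ l ∈ I, ¬ IsPow ν T p₀ l) →
      ∀ s ⊆ gb ν T i p₀, (∀ p ∈ s, ∀ l ∈ I, ¬ IsPow ν T p l) →
      ∀ (ρ : ℕ → Measure (X × X)) [∀ p, IsProbabilityMeasure (ρ p)],
        (∀ p ∈ gb ν T i p₀, Jn ν T p₀ p (ρ p)) →
        ∑ p ∈ s,
          ‖∫ x, cex ν T (fun y => F y * conj (F ((⇑T)^[h] y))) x *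
            conj (op (ρ p) F x) * op (ρ p) F ((⇑T)^[h] x) ∂ν‖ ≤ ε * pib i := by
  classical
  have hT := hE.toMeasurePreserving
  set W : X → ℂ := cex ν T (fun y => F y * conj (F ((⇑T)^[h] y))) with hWdef
  have hG : B1 (fun y => F y * conj (F ((⇑T)^[h] y))) := by
    have := C2_iter (T := T) hF 0 h
    simpa using this
  have hW : B1 W := cex_B1 hG
  obtain ⟨L0, hL0, hL0'⟩ := Kr_dense hE (cex_Kr (C2_bm hG)) ⟨1, hW.bdd⟩
    (show (0 : ℝ) < (ε / 4) ^ 2 by positivity)
  set q : ℕ := ∏ l ∈ L0.filter (fun l => Tors l), orderOf l with hqdef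
  have hpos : ∀ l ∈ L0.filter (fun l => Tors l), 0 < orderOf l := by
    intro l hl
    obtain ⟨k, hk, hk'⟩ := (Finset.mem_filter.1 hl).2
    exact orderOf_pos_iff.2 (isOfFinOrder_iff_pow_eq_one.2 ⟨k, hk, hk'⟩)
  have hq : 1 ≤ q := Finset.prod_pos hpos
  set I' : Finset ℂ := L0.filter (fun l => ¬ Tors l) with hIdef
  have hI' : ∀ l ∈ I', l ∈ EV ν T ∧ ¬ Tors l := fun l hl =>
    ⟨hL0 (Finset.mem_filter.1 hl).1, (Finset.mem_filter.1 hl).2⟩
  have hsub : L0 ⊆ C2L ν T q ∪ I' := by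
    intro l hl
    by_cases ht : Tors l
    · refine Finset.mem_union_left _ ((C2L_mem hq l).2 ⟨hL0 hl, ?_⟩)
      have hmem : l ∈ L0.filter (fun l => Tors l) := Finset.mem_filter.2 ⟨hl, ht⟩
      exact orderOf_dvd_iff_pow_eq_one.1 (Finset.dvd_prod_of_mem _ hmem)
    · exact Finset.mem_union_right _ (Finset.mem_filter.2 ⟨hl, ht⟩)
  have hsub' : ↑(C2L ν T q ∪ I') ⊆ EV ν T := by
    intro l hl
    rcases Finset.mem_union.1 (Finset.mem_coe.1 hl) with h1 | h1
    · exact ((C2L_mem hq l).1 h1).1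
    · exact (hI' l h1).1
  have happ := hL0' _ hsub hsub'
  -- the constants
  set K : ℝ := 1 + q * (C2L ν T q).card with hK
  have hK0 : 0 < K := by positivity
  set ε3 : ℝ := (ε / 4 / K) ^ 2 with hε3
  have hε3pos : 0 < ε3 := by positivity
  obtain ⟨I, hI, hC2⟩ := C2 hLam hE hL hF hF0 hh hε3pos
  obtain ⟨c, hc⟩ := C3_inv hq
  refine ⟨I ∪ I', fun l hl => (Finset.mem_union.1 hl).elim (hI l) (hI' l), ?_⟩
  have hlarge : ∀ᶠ i : ℕ in atTop, q + m ^ 2 < 2 ^ i := by
    filter_upwards [eventually_ge_atTop (q + m ^ 2)] with i hi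
    exact lt_of_le_of_lt hi Nat.lt_two_pow_self
  filter_upwards [hlarge, hC2] with i hi hC2i p₀ hp₀ h0 hIp s hsgb hsI ρ _ hJ
  have hge : ∀ p ∈ blk i, 2 ^ i ≤ p := fun p hp =>
    (Finset.mem_Ico.1 (Finset.mem_filter.1 hp).1).1
  have hgb : ∀ p ∈ gb ν T i p₀, p ≠ p₀ ∧ p ∈ blk i ∧ Good ν T p := by
    intro p hp
    unfold gb at hp
    obtain ⟨h1, h2⟩ := Finset.mem_erase.1 hp
    exact ⟨h1, (Finset.mem_filter.1 h2).1, (Finset.mem_filter.1 h2).2⟩
  have hgbsub : gb ν T i p₀ ⊆ blk i := fun p hp => (hgb p hp).2.1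
  have hcard : (s.card : ℝ) ≤ pib i := by
    unfold pib
    exact_mod_cast Finset.card_le_card (hsgb.trans hgbsub)
  have hpi0 : 0 ≤ pib i := Nat.cast_nonneg _
  have hC := hC2i p₀ hp₀ h0 (fun l hl => hIp l (Finset.mem_union_left _ hl)) ρ hJ
  -- the terms
  set A : ℂ → ℕ → ℝ := fun l p => ‖∫ x, eg ν T l x * op (ρ p) (fun y => conj (F y)) x *
    op (ρ p) F ((⇑T)^[h] x) ∂ν‖ with hA
  have hFc : B1 (fun y => conj (F y)) :=
    ⟨Complex.continuous_conj.measurable.comp hF.meas, fun x => by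
      rw [RCLike.norm_conj]; exact hF.bdd x⟩
  have hu : ∀ p, B1 (op (ρ p) (fun y => conj (F y))) := fun p => op_B1 hFc
  have hu' : ∀ p, B1 (fun x => op (ρ p) F ((⇑T)^[h] x)) := fun p =>
    ⟨(op_B1 hF).meas.comp (T.measurable.iterate h), fun x => (op_B1 hF).bdd _⟩
  have hAle : ∀ l p, A l p ≤ 1 := by
    intro l p
    refine (norm_integral_le_of_norm_le_const (C := 1)
      (Eventually.of_forall fun x => ?_)).trans ?_
    · rw [norm_mul, norm_mul, eg_norm, one_mul]
      exact mul_le_one₀ ((hu p).bdd x) (norm_nonneg _) ((hu' p).bdd x)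
    · simp
  have hterm : ∀ p ∈ s, ‖∫ x, W x * conj (op (ρ p) F x) *
      op (ρ p) F ((⇑T)^[h] x) ∂ν‖ ≤ ε / 4 + (∑ l ∈ C2L ν T q, A l p + ∑ l ∈ I', A l p) := by
    intro p _
    have h1 := C3_split hW (hu p) (hu' p) _ (show (0 : ℝ) ≤ ε / 4 by positivity) happ
    have h2 : ∀ x, op (ρ p) (fun y => conj (F y)) x = conj (op (ρ p) F x) := fun x =>
      op_conj x
    simp_rw [h2] at h1
    refine h1.trans (add_le_add le_rfl ?_)
    refine le_trans (le_of_eq ?_) (Finset.sum_union_inter (s₁ := C2L ν T q) (s₂ := I')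
      (f := fun l => A l p) ▸ le_add_of_nonneg_right (Finset.sum_nonneg fun l _ => norm_nonneg _))
    simp only [hA, h2]
  refine (Finset.sum_le_sum hterm).trans ?_
  rw [Finset.sum_add_distrib, Finset.sum_add_distrib]
  -- first part
  have g1 : ∑ _p ∈ s, ε / 4 ≤ ε / 4 * pib i := by
    rw [Finset.sum_const, nsmul_eq_mul, mul_comm]
    exact mul_le_mul_of_nonneg_left hcard (by positivity)
  -- non torsion part
  have g2 : ∑ p ∈ s, ∑ l ∈ I', A l p = 0 := by
    refine Finset.sum_eq_zero fun p hp => Finset.sum_eq_zero fun l hl => ?_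
    have hp' := hsgb hp
    have h2 := P3 hE hL h0 (hgb p hp').2.2 (hgb p hp').1.symm
      (lt_of_lt_of_le (by omega) (hge p (hgb p hp').2.1)) (hJ p hp').coup
      (hJ p hp').inv (hI' l hl).1 (hsI p hp l (Finset.mem_union_right _ hl)) hFc hF h
    simp only [hA]
    rw [h2, norm_zero]
  -- torsion part
  have g3 : ∑ p ∈ s, ∑ l ∈ C2L ν T q, A l p ≤ ε / 4 * pib i := by
    rw [Finset.sum_comm]
    have h1 : ∀ l ∈ C2L ν T q, ∑ p ∈ s, A l p ≤ q * ((ε / 4 / K) * pib i) := by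
      intro l hl
      have hmaps : ∀ p ∈ s, p % q ∈ Finset.range q := fun p _ =>
        Finset.mem_range.2 (Nat.mod_lt _ hq)
      rw [← Finset.sum_fiberwise_of_maps_to hmaps]
      have h2 : ∀ b ∈ Finset.range q, ∑ p ∈ s.filter (fun p => p % q = b), A l p ≤
          (ε / 4 / K) * pib i := by
        intro b _
        have hssub0 : s.filter (fun p => p % q = b) ⊆ gb ν T i p₀ :=
          (Finset.filter_subset _ _).trans hsgb
        have hs0 : ∀ p ∈ s.filter (fun p => p % q = b), p % q = b := fun p hp =>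
          (Finset.mem_filter.1 hp).2
        revert hssub0 hs0
        generalize s.filter (fun p => p % q = b) = s
        intro hssub hs0
        set v : X → ℂ := fun x => eg ν T (l ^ (p₀ * c b)) x * conj (F x) with hv
        have hvB : B1 v := ⟨(eg_meas _).mul hFc.meas, fun x => by
          rw [hv]; simp only; rw [norm_mul, eg_norm, one_mul]; exact hFc.bdd x⟩
        have h3 : ∀ p ∈ s, A l p = ‖∫ z : X × X, v z.1 * F z.2 ∂(DD ν T h (ρ p))‖ := by
          intro p hp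
          have hp' := hssub hp
          have hpb : p % q = b := hs0 p hp
          have hpP : p.Prime := (hgb p hp').2.2.1
          have hco : Nat.Coprime p q := (Nat.Prime.coprime_iff_not_dvd hpP).2
            (fun hd => absurd (Nat.le_of_dvd hq hd)
              (not_le.2 (lt_of_lt_of_le (by omega) (hge p (hgb p hp').2.1))))
          have hmod : p ≡ b [MOD q] := by
            rw [← hpb]; exact (Nat.mod_modEq p q).symm
          have hbco : Nat.Coprime b q := by
            rw [Nat.Coprime, ← hmod.gcd_eq]; exact hco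
          have hcb : p * c b ≡ 1 [MOD q] := (hmod.mul_right _).trans (hc b hbco)
          exact tors_transport hE h0 (hgb p hp').2.2 (hgb p hp').1.symm (hJ p hp')
            ((C2L_mem hq l).1 hl).1 hq ((C2L_mem hq l).1 hl).2 hcb hFc hF h
        rw [Finset.sum_congr rfl h3]
        have h4 := C1 (ν := ν) s (fun p => DD ν T h (ρ p))
          (fun p hp => DD_coup (T := T) hT h (hJ p (hssub hp)).coup) hvB hF
        have h5 : ∑ p ∈ s, ∑ p' ∈ s, ‖∫ z : X × X, F z.1 * conj (F z.2)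
            ∂(RR ν (DD ν T h (ρ p)) (DD ν T h (ρ p')))‖ ≤ ε3 * pib i ^ 2 := by
          refine le_trans ?_ hC
          refine (Finset.sum_le_sum fun p _ => Finset.sum_le_sum_of_subset_of_nonneg hssub
            fun _ _ _ => norm_nonneg _).trans ?_
          exact Finset.sum_le_sum_of_subset_of_nonneg hssub
            fun p _ _ => Finset.sum_nonneg fun p' _ => norm_nonneg _
        have h6 : (∑ p ∈ s, ‖∫ z : X × X, v z.1 * F z.2 ∂(DD ν T h (ρ p))‖) ^ 2 ≤
            ((ε / 4 / K) * pib i) ^ 2 := by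
          refine h4.trans (h5.trans (le_of_eq ?_))
          rw [hε3]; ring
        exact le_of_sq_le_sq h6 (by positivity)
      refine (Finset.sum_le_sum h2).trans ?_
      simp
    refine (Finset.sum_le_sum h1).trans ?_
    rw [Finset.sum_const, nsmul_eq_mul]
    have h2 : ((C2L ν T q).card : ℝ) * (q * (ε / 4 / K)) ≤ ε / 4 := by
      have h3 : ((C2L ν T q).card : ℝ) * (q * (ε / 4 / K)) =
          (q * (C2L ν T q).card : ℝ) * (ε / 4) / K := by ring
      rw [h3, div_le_iff₀ hK0, hK]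
      nlinarith
    calc _ = (((C2L ν T q).card : ℝ) * (q * (ε / 4 / K))) * pib i := by ring
      _ ≤ _ := mul_le_mul_of_nonneg_right h2 hpi0
  nlinarith [mul_nonneg hε.le hpi0]

end Pool.Agent.Sar
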