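import Pool.Agent.Sar.D3
import Pool.Agent.Sar.A1

/-! MP_13664e_an, module D4: averaged asymptotic orthogonality of powers. -/

set_option autoImplicit false

namespace Pool.Agent.Sar

open MeasureTheory ProbabilityTheory Filter Topology
open scoped ENNReal ComplexConjugate

variable {X : Type*} [mX : MeasurableSpace X] [StandardBorelSpace X] [Nonempty X]
  {ν : Measure X} [IsProbabilityMeasure ν]

theorem D4 (hLam : Pool.Agent.BGG.SWLam) {T : X ≃ᵐ X} (hE : Ergodic T ν) {m : ℕ} {a : ℝ}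
    {ℓ : X → Fin m} (hL : Lab ν T m a ℓ) {F : X → ℂ} (hF : B1 F)
    (hF0 : ∀ l ∈ EV ν T, fc ν T F l = 0) {ε : ℝ} (hε : 0 < ε) :
    ∃ I : Finset ℂ, (∀ l ∈ I, l ∈ EV ν T ∧ ¬ Tors l) ∧ ∀ᶠ i : ℕ in atTop,
      ∀ p₀ ∈ blk i, Good ν T p₀ → (∀ l ∈ I, ¬ IsPow ν T p₀ l) →
      ∀ s ⊆ gb ν T i p₀, (∀ p ∈ s, ∀ l ∈ I, ¬ IsPow ν T p l) →
      ∀ (ρ : ℕ → Measure (X × X)) [∀ p, IsProbabilityMeasure (ρ p)],
        (∀ p ∈ gb ν T i p₀, Jn ν T p₀ p (ρ p)) →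
        ∑ p ∈ s, ‖∫ z : X × X, F z.1 * conj (F z.2) ∂(ρ p)‖ ≤ ε * pib i := by
  classical
  have ha := hL.pos
  have haε : 0 < a * ε ^ 2 := by positivity
  obtain ⟨J, hJ1, hJ⟩ : ∃ J : ℕ, 1 ≤ J ∧ (1 : ℝ) / J ≤ a * ε ^ 2 / 2 := by
    obtain ⟨n, hn⟩ := exists_nat_ge (2 / (a * ε ^ 2))
    have hn0 : (0 : ℝ) < n := lt_of_lt_of_le (by positivity) hn
    refine ⟨n, by exact_mod_cast hn0, ?_⟩
    rw [div_le_iff₀ haε] at hn
    rw [div_le_div_iff₀ hn0 (by norm_num)]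
    linarith
  have hC3 : ∀ h : ℕ, ∃ I : Finset ℂ, (∀ l ∈ I, l ∈ EV ν T ∧ ¬ Tors l) ∧ (1 ≤ h →
      ∀ᶠ i : ℕ in atTop,
      ∀ p₀ ∈ blk i, Good ν T p₀ → (∀ l ∈ I, ¬ IsPow ν T p₀ l) →
      ∀ s ⊆ gb ν T i p₀, (∀ p ∈ s, ∀ l ∈ I, ¬ IsPow ν T p l) →
      ∀ (ρ : ℕ → Measure (X × X)) [∀ p, IsProbabilityMeasure (ρ p)],
        (∀ p ∈ gb ν T i p₀, Jn ν T p₀ p (ρ p)) →
        ∑ p ∈ s,
          ‖∫ x, cex ν T (fun y => F y * conj (F ((⇑T)^[h] y))) x *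
            conj (op (ρ p) F x) * op (ρ p) F ((⇑T)^[h] x) ∂ν‖ ≤ (a * ε ^ 2 / 4) * pib i) := by
    intro h
    by_cases hh : 1 ≤ h
    · obtain ⟨I, hI, hI'⟩ := D3 hLam hE hL hF hF0 hh
        (show 0 < a * ε ^ 2 / 4 by positivity)
      exact ⟨I, hI, fun _ => hI'⟩
    · exact ⟨∅, fun l hl => absurd hl (Finset.notMem_empty l), fun h' => absurd h' hh⟩
  choose I hI hI' using hC3
  refine ⟨(Finset.Ico 1 J).biUnion I, ?_, ?_⟩
  · intro l hl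
    obtain ⟨h, _, hl'⟩ := Finset.mem_biUnion.1 hl
    exact hI h l hl'
  have hev := (Filter.eventually_all_finset (Finset.Ico 1 J)).2
    (fun h hh => hI' h (Finset.mem_Ico.1 hh).1)
  filter_upwards [hev] with i hi p₀ hp₀ h0 hIp s hsgb hsI ρ _ hJn
  have hgbsub : gb ν T i p₀ ⊆ blk i := by
    intro p hp
    unfold gb at hp
    exact (Finset.mem_filter.1 (Finset.mem_erase.1 hp).2).1
  have hcard : (s.card : ℝ) ≤ pib i := by
    unfold pib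
    exact_mod_cast Finset.card_le_card (hsgb.trans hgbsub)
  have hpi0 : 0 ≤ pib i := Nat.cast_nonneg _
  have hsum : ∀ h ∈ Finset.Ico 1 J, ∑ p ∈ s,
          ‖∫ x, cex ν T (fun y => F y * conj (F ((⇑T)^[h] y))) x *
            conj (op (ρ p) F x) * op (ρ p) F ((⇑T)^[h] x) ∂ν‖ ≤ (a * ε ^ 2 / 4) * pib i :=
    fun h hh => hi h hh p₀ hp₀ h0
      (fun l hl => hIp l (Finset.mem_biUnion.2 ⟨h, hh, hl⟩)) s hsgb
      (fun p hp l hl => hsI p hp l (Finset.mem_biUnion.2 ⟨h, hh, hl⟩)) ρ hJn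
  have hFc : B1 (fun y => conj (F y)) :=
    ⟨Complex.continuous_conj.measurable.comp hF.meas, fun x => by
      rw [RCLike.norm_conj]; exact hF.bdd x⟩
  have hint : ∀ p ∈ s, ∫ z : X × X, F z.1 * conj (F z.2) ∂(ρ p) =
      ∫ x, F x * conj (op (ρ p) F x) ∂ν := by
    intro p hp
    rw [← op_int (hJn p (hsgb hp)).coup (C2_bm hFc) (C2_bm hF)]
    simp_rw [op_conj]
  have hone : ∀ p ∈ s, a * ‖∫ z : X × X, F z.1 * conj (F z.2) ∂(ρ p)‖ ^ 2 ≤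
      1 / J + (2 / J) * ∑ h ∈ Finset.Ico 1 J,
        ‖∫ x, cex ν T (fun y => F y * conj (F ((⇑T)^[h] y))) x *
          conj (op (ρ p) F x) * op (ρ p) F ((⇑T)^[h] x) ∂ν‖ := by
    intro p hp
    rw [hint p hp]
    exact A1 hE ha hL.atom hF (op_B1 hF) hJ1
  have hJ0 : (0 : ℝ) < J := by exact_mod_cast hJ1
  have hsq : a * ∑ p ∈ s, ‖∫ z : X × X, F z.1 * conj (F z.2) ∂(ρ p)‖ ^ 2 ≤
      a * (ε ^ 2 * pib i) := by
    rw [Finset.mul_sum]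
    refine (Finset.sum_le_sum hone).trans ?_
    rw [Finset.sum_add_distrib, ← Finset.mul_sum, Finset.sum_comm]
    have e1 : ∑ _p ∈ s, (1 : ℝ) / J ≤ (a * ε ^ 2 / 2) * pib i := by
      rw [Finset.sum_const, nsmul_eq_mul, mul_comm]
      exact mul_le_mul hJ hcard (Nat.cast_nonneg _) (by positivity)
    have e2 : ∑ h ∈ Finset.Ico 1 J, ∑ p ∈ s,
          ‖∫ x, cex ν T (fun y => F y * conj (F ((⇑T)^[h] y))) x *
            conj (op (ρ p) F x) * op (ρ p) F ((⇑T)^[h] x) ∂ν‖ ≤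
        J * ((a * ε ^ 2 / 4) * pib i) := by
      refine (Finset.sum_le_sum hsum).trans ?_
      rw [Finset.sum_const, nsmul_eq_mul, Nat.card_Ico]
      refine mul_le_mul_of_nonneg_right ?_ (by positivity)
      exact_mod_cast Nat.sub_le J 1
    have e3 : (2 / (J : ℝ)) * ∑ h ∈ Finset.Ico 1 J, ∑ p ∈ s,
          ‖∫ x, cex ν T (fun y => F y * conj (F ((⇑T)^[h] y))) x *
            conj (op (ρ p) F x) * op (ρ p) F ((⇑T)^[h] x) ∂ν‖ ≤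
        (2 / (J : ℝ)) * (J * ((a * ε ^ 2 / 4) * pib i)) :=
      mul_le_mul_of_nonneg_left e2 (by positivity)
    have e4 : (2 / (J : ℝ)) * (J * ((a * ε ^ 2 / 4) * pib i)) = (a * ε ^ 2 / 2) * pib i := by
      field_simp
      ring
    rw [e4] at e3
    calc _ ≤ (a * ε ^ 2 / 2) * pib i + (a * ε ^ 2 / 2) * pib i := add_le_add e1 e3
      _ = _ := by ring
  have hsq' : ∑ p ∈ s, ‖∫ z : X × X, F z.1 * conj (F z.2) ∂(ρ p)‖ ^ 2 ≤
      ε ^ 2 * pib i := le_of_mul_le_mul_left hsq ha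
  have hcs : (∑ p ∈ s, ‖∫ z : X × X, F z.1 * conj (F z.2) ∂(ρ p)‖) ^ 2 ≤
      (s.card : ℝ) *
        ∑ p ∈ s, ‖∫ z : X × X, F z.1 * conj (F z.2) ∂(ρ p)‖ ^ 2 :=
    sq_sum_le_card_mul_sum_sq
  have hfin : (∑ p ∈ s, ‖∫ z : X × X, F z.1 * conj (F z.2) ∂(ρ p)‖) ^ 2 ≤
      (ε * pib i) ^ 2 := by
    refine hcs.trans ?_
    calc _ ≤ pib i * (ε ^ 2 * pib i) := mul_le_mul hcard hsq'
          (Finset.sum_nonneg fun _ _ => sq_nonneg _) hpi0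
      _ = _ := by ring
  exact le_of_sq_le_sq hfin (by positivity)

end Pool.Agent.Sar
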