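import Pool.Agent.Sar.N1

/-! MP_13664e_an, module D5: translation of the density hypothesis to dyadic blocks, with a
uniform constant. -/

set_option autoImplicit false

namespace Pool.Agent.Sar

open Filter Topology

open Classical in
private theorem sum_blocks' (G : ℕ → Prop) (x I : ℕ) (hx : x ≤ 2 ^ I) :
    ∑ p ∈ (Finset.range x).filter (fun p => p.Prime ∧ G p), (1 : ℝ) / p ≤
      ∑ i ∈ Finset.range I, ∑ p ∈ (blk i).filter G, (1 : ℝ) / p := by
  have mem_blk : ∀ {i p : ℕ}, p ∈ blk i ↔ (2 ^ i ≤ p ∧ p < 2 ^ (i + 1)) ∧ p.Prime := by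
    intro i p
    unfold blk
    rw [Finset.mem_filter, Finset.mem_Ico]
  rw [← Finset.sum_biUnion]
  · refine Finset.sum_le_sum_of_subset_of_nonneg ?_ fun p _ _ => by positivity
    intro p hp
    simp only [Finset.mem_filter, Finset.mem_range] at hp
    rw [Finset.mem_biUnion]
    refine ⟨Nat.log 2 p, ?_, ?_⟩
    · rw [Finset.mem_range]
      exact Nat.log_lt_of_lt_pow hp.2.1.ne_zero (by omega)
    · rw [Finset.mem_filter, mem_blk]
      exact ⟨⟨⟨Nat.pow_log_le_self 2 hp.2.1.ne_zero,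
        Nat.lt_pow_succ_log_self (by norm_num) p⟩, hp.2.1⟩, hp.2.2⟩
  · intro i _ j _ hij
    rw [Function.onFun, Finset.disjoint_left]
    intro p hp hq
    have h1 := (mem_blk.1 (Finset.mem_filter.1 hp).1).1
    have h2 := (mem_blk.1 (Finset.mem_filter.1 hq).1).1
    rcases lt_or_gt_of_ne hij with h | h
    · have h3 : 2 ^ (i + 1) ≤ 2 ^ j := Nat.pow_le_pow_right (by norm_num) h
      omega
    · have h3 : 2 ^ (j + 1) ≤ 2 ^ i := Nat.pow_le_pow_right (by norm_num) h
      omega

open Classical in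
theorem block_unif (G : ℕ → Prop) {η : ℝ} (hη : 0 < η)
    (hf : ∃ᶠ x : ℕ in atTop, η * Real.log (Real.log x) ≤
      ∑ p ∈ (Finset.range x).filter (fun p => p.Prime ∧ G p), (1 : ℝ) / p) :
    ∃ᶠ I : ℕ in atTop, (η / 2) * Real.log I ≤
      ∑ i ∈ Finset.range I, ∑ p ∈ (blk i).filter G, (1 : ℝ) / p := by
  have hT : Tendsto (fun x : ℕ => Nat.log 2 x + 1) atTop atTop :=
    (tendsto_add_atTop_nat 1).comp (tendsto_atTop.2 fun n =>
      (eventually_ge_atTop (2 ^ n)).mono fun x hx => Nat.le_log_of_pow_le (by norm_num) hx)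
  refine hT.frequently ?_
  have hlog : Tendsto (fun x : ℕ => Real.log x) atTop atTop :=
    Real.tendsto_log_atTop.comp tendsto_natCast_atTop_atTop
  refine (hf.and_eventually (hlog.eventually_ge_atTop 3)).mono ?_
  rintro x ⟨hx, hL⟩
  refine le_trans ?_ (hx.trans (sum_blocks' G x _ (Nat.lt_pow_succ_log_self (by norm_num) x).le))
  have hx0 : x ≠ 0 := by
    rintro rfl
    simp at hL
    linarith
  have hl2 : (1 / 2 : ℝ) ≤ Real.log 2 := by
    have := Real.log_two_gt_d9
    linarith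
  have h1 : ((Nat.log 2 x : ℕ) : ℝ) * Real.log 2 ≤ Real.log x := by
    rw [← Real.log_pow]
    refine Real.log_le_log (by positivity) ?_
    exact_mod_cast Nat.pow_log_le_self 2 hx0
  have h2 : ((Nat.log 2 x : ℕ) : ℝ) ≤ 2 * Real.log x := by
    have h3 : ((Nat.log 2 x : ℕ) : ℝ) * (1 / 2) ≤ ((Nat.log 2 x : ℕ) : ℝ) * Real.log 2 :=
      mul_le_mul_of_nonneg_left hl2 (by positivity)
    linarith
  have h4 : Real.log ((Nat.log 2 x + 1 : ℕ) : ℝ) ≤ 2 * Real.log (Real.log x) := by
    have h5 : 2 * Real.log (Real.log x) = Real.log (Real.log x ^ 2) := by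
      rw [Real.log_pow]
      push_cast
      ring
    rw [h5]
    refine Real.log_le_log (by positivity) ?_
    push_cast
    nlinarith
  calc η / 2 * Real.log ((Nat.log 2 x + 1 : ℕ) : ℝ) ≤ η / 2 * (2 * Real.log (Real.log x)) :=
        mul_le_mul_of_nonneg_left h4 (by positivity)
    _ = η * Real.log (Real.log x) := by ring

end Pool.Agent.Sar
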