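import Pool.Agent.Sar.K4

/-! MP_13664e_an, module E0b: uniqueness of marginals. -/

set_option autoImplicit false

namespace Pool.Agent.Sar

open MeasureTheory ProbabilityTheory Filter Topology
open scoped ENNReal ComplexConjugate

variable {X : Type*} [MetricSpace X] [CompactSpace X] [mX : MeasurableSpace X] [BorelSpace X]
  [Nonempty X] {ν : Measure X} [IsProbabilityMeasure ν]

/-- a `T^p`-invariant measure whose average over the shifts is `ν` equals `ν` for good `p` -/
theorem marg_unique (T : X ≃ₜ X) (hE : Ergodic T ν) {p : ℕ} (hp : Good ν T p)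
    {κ : Measure X} [IsProbabilityMeasure κ] (inv : κ.map ((⇑T)^[p]) = κ)
    (h : ∀ g : C(X, ℂ), (p : ℂ)⁻¹ * ∑ j ∈ Finset.range p, ∫ y, g ((⇑T)^[j] y) ∂κ =
      ∫ y, g y ∂ν) : κ = ν := by
  have hp0 : 0 < p := hp.1.pos
  have hTm : ∀ j : ℕ, Measurable ((⇑T)^[j]) := fun j => (T.continuous.iterate j).measurable
  have hpr : ∀ j : ℕ, IsProbabilityMeasure (κ.map ((⇑T)^[j])) := fun j =>
    Measure.isProbabilityMeasure_map (hTm j).aemeasurable
  have hsum : (∑ j ∈ Finset.range p, κ.map ((⇑T)^[j])) = (p : ℝ≥0∞) • ν := by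
    have : IsFiniteMeasure (∑ j ∈ Finset.range p, κ.map ((⇑T)^[j])) := by
      infer_instance
    have : IsFiniteMeasure ((p : ℝ≥0∞) • ν) := Measure.smul_finite ν (ENNReal.natCast_ne_top p)
    refine ext_of_forall_integral_eq_of_IsFiniteMeasure fun f => ?_
    have hint : ∀ (μ : Measure X) [IsFiniteMeasure μ], Integrable (fun x => f x) μ :=
      fun μ _ => f.integrable μ
    rw [integral_finsetSum_measure (fun j _ => hint _), integral_smul_measure]
    have h1 : ∀ j ∈ Finset.range p, ∫ x, f x ∂(κ.map ((⇑T)^[j])) = ∫ y, f ((⇑T)^[j] y) ∂κ := by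
      intro j _
      exact integral_map (hTm j).aemeasurable f.continuous.aestronglyMeasurable
    rw [Finset.sum_congr rfl h1]
    have h2 := h ⟨fun x => ((f x : ℝ) : ℂ), Complex.continuous_ofReal.comp f.continuous⟩
    simp only [ContinuousMap.coe_mk] at h2
    simp only [integral_complex_ofReal] at h2
    have h3 : ((∑ j ∈ Finset.range p, ∫ y, f ((⇑T)^[j] y) ∂κ : ℝ) : ℂ) = (p : ℂ) * ((∫ y, f y ∂ν : ℝ) : ℂ) := by
      rw [← h2, ← mul_assoc, mul_inv_cancel₀ (by exact_mod_cast hp0.ne'), one_mul]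
      push_cast
      rfl
    have h4 : (∑ j ∈ Finset.range p, ∫ y, f ((⇑T)^[j] y) ∂κ : ℝ) = (p : ℝ) * (∫ y, f y ∂ν) := by
      exact_mod_cast h3
    rw [h4]
    simp
  have hac : κ ≪ ν := by
    intro s hs
    have h1 : (∑ j ∈ Finset.range p, κ.map ((⇑T)^[j])) s = 0 := by
      rw [hsum]; simp [hs]
    have h2 : (κ.map ((⇑T)^[0])) s ≤ (∑ j ∈ Finset.range p, κ.map ((⇑T)^[j])) s := by
      rw [Measure.coe_finsetSum, Finset.sum_apply]
      exact Finset.single_le_sum (f := fun j => (κ.map ((⇑T)^[j])) s) (fun _ _ => zero_le)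
        (Finset.mem_range.2 hp0)
    have h3 : κ.map ((⇑T)^[0]) = κ := by
      simp
    rw [h3, h1] at h2
    exact le_antisymm h2 zero_le
  exact (good_erg hE hp).eq_of_absolutelyContinuous ⟨hTm p, inv⟩ hac

end Pool.Agent.Sar
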