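import Pool.Agent.Sar.K4
import Pool.Agent.Sar.J1
import Pool.Agent.Sar.E0
import Pool.Agent.Sar.E0b

/-! MP_13664e_an, module E1: empirical joinings. -/

set_option autoImplicit false

namespace Pool.Agent.Sar

open MeasureTheory ProbabilityTheory Filter Topology
open scoped ENNReal ComplexConjugate

variable {X : Type*} [MetricSpace X] [CompactSpace X] [mX : MeasurableSpace X] [BorelSpace X]
  [Nonempty X] {ν : Measure X} [IsProbabilityMeasure ν]

/-- `x` is generic for `ν` -/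
def Generic (ν : Measure X) (T : X → X) (x : X) : Prop :=
  ∀ g : C(X, ℂ), Tendsto (fun N : ℕ => (N : ℂ)⁻¹ * ∑ n ∈ Finset.range N, g (T^[n] x)) atTop
    (𝓝 (∫ y, g y ∂ν))

/-- the torsion eigenvalues have continuous eigenfunctions -/
def RatCont (ν : Measure X) (T : X → X) : Prop :=
  ∀ l ∈ EV ν T, Tors l → ∃ g : C(X, ℂ), (∀ x, g (T x) = l * g x) ∧ ¬ (∀ᵐ x ∂ν, g x = 0)

private theorem E1_ext {Y : Type*} [TopologicalSpace Y] [CompactSpace Y] [MeasurableSpace Y]
    [BorelSpace Y] [HasOuterApproxClosed Y] {μ κ : Measure Y} [IsFiniteMeasure μ]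
    [IsFiniteMeasure κ] (h : ∀ g : C(Y, ℂ), ∫ y, g y ∂μ = ∫ y, g y ∂κ) : μ = κ := by
  refine ext_of_forall_integral_eq_of_IsFiniteMeasure fun f => ?_
  have h1 := h ⟨fun y => ((f y : ℝ) : ℂ), Complex.continuous_ofReal.comp f.continuous⟩
  simp only [ContinuousMap.coe_mk] at h1
  rw [integral_complex_ofReal, integral_complex_ofReal] at h1
  exact_mod_cast h1

private theorem E1_sum (u : ℕ → ℂ) (p N : ℕ) :
    ∑ j ∈ Finset.range p, ∑ n ∈ Finset.Icc 1 N, u (p * n + j) =
      ∑ m ∈ Finset.range (p * (N + 1)), u m - ∑ m ∈ Finset.range p, u m := by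
  induction N with
  | zero => simp
  | succ N ih =>
    have h1 : ∑ j ∈ Finset.range p, ∑ n ∈ Finset.Icc 1 (N + 1), u (p * n + j)
        = ∑ j ∈ Finset.range p, ∑ n ∈ Finset.Icc 1 N, u (p * n + j)
          + ∑ j ∈ Finset.range p, u (p * (N + 1) + j) := by
      rw [← Finset.sum_add_distrib]
      refine Finset.sum_congr rfl fun j _ => ?_
      rw [Finset.sum_Icc_succ_top (by omega)]
    rw [h1, ih, show p * (N + 1 + 1) = p * (N + 1) + p by ring, Finset.sum_range_add]
    ring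

private theorem E1_avg {u : ℕ → ℂ} {I : ℂ}
    (hu : Tendsto (fun N : ℕ => (N : ℂ)⁻¹ * ∑ n ∈ Finset.range N, u n) atTop (𝓝 I))
    {p : ℕ} (hp : 0 < p) :
    Tendsto (fun N : ℕ => (p : ℂ)⁻¹ * ∑ j ∈ Finset.range p,
      ((N : ℂ)⁻¹ * ∑ n ∈ Finset.Icc 1 N, u (p * n + j))) atTop (𝓝 I) := by
  have h0 : Tendsto (fun N : ℕ => (N : ℂ)⁻¹) atTop (𝓝 0) := tendsto_inv_atTop_nhds_zero_nat
  have h1 : Tendsto (fun N : ℕ => p * (N + 1)) atTop atTop := by
    refine tendsto_atTop_mono (fun N => ?_) tendsto_id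
    simp only [id]
    nlinarith
  have h2 := hu.comp h1
  have h3 : Tendsto (fun N : ℕ => 1 + (N : ℂ)⁻¹) atTop (𝓝 (1 + 0)) := tendsto_const_nhds.add h0
  have h4 : Tendsto (fun N : ℕ => (N : ℂ)⁻¹ * ((p : ℂ)⁻¹ * ∑ m ∈ Finset.range p, u m)) atTop
      (𝓝 (0 * ((p : ℂ)⁻¹ * ∑ m ∈ Finset.range p, u m))) := h0.mul_const _
  have h5 := (h3.mul h2).sub h4
  rw [add_zero, one_mul, zero_mul, sub_zero] at h5
  refine h5.congr' ?_
  filter_upwards [eventually_ge_atTop 1] with N hN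
  rw [← Finset.mul_sum, E1_sum]
  simp only [Function.comp]
  have hN0 : (N : ℂ) ≠ 0 := by exact_mod_cast (by omega : N ≠ 0)
  have hp0 : (p : ℂ) ≠ 0 := by exact_mod_cast hp.ne'
  have hN1 : (N : ℂ) + 1 ≠ 0 := by exact_mod_cast (by omega : N + 1 ≠ 0)
  push_cast
  field_simp

private theorem E1_shift {w : ℕ → ℂ} {C : ℝ} (hC : ∀ n, ‖w n‖ ≤ C) :
    Tendsto (fun N : ℕ => (N : ℂ)⁻¹ * ∑ n ∈ Finset.Icc 1 N, w (n + 1)
      - (N : ℂ)⁻¹ * ∑ n ∈ Finset.Icc 1 N, w n) atTop (𝓝 0) := by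
  have h0 : Tendsto (fun N : ℕ => (N : ℝ)⁻¹ * (2 * C)) atTop (𝓝 (0 * (2 * C))) :=
    tendsto_inv_atTop_nhds_zero_nat.mul_const _
  rw [zero_mul] at h0
  refine squeeze_zero_norm (fun N => ?_) h0
  have h1 : ∀ N : ℕ, ∑ n ∈ Finset.Icc 1 N, w (n + 1) - ∑ n ∈ Finset.Icc 1 N, w n
      = w (N + 1) - w 1 := by
    intro N
    induction N with
    | zero => simp
    | succ N ih =>
      rw [Finset.sum_Icc_succ_top (by omega), Finset.sum_Icc_succ_top (by omega)]
      linear_combination ih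
  rw [← mul_sub, h1, norm_mul, norm_inv, Complex.norm_natCast]
  refine mul_le_mul_of_nonneg_left ?_ (by positivity)
  calc ‖w (N + 1) - w 1‖ ≤ ‖w (N + 1)‖ + ‖w 1‖ := norm_sub_le _ _
    _ ≤ 2 * C := by linarith [hC (N + 1), hC 1]

private theorem E1_pow {T : X → X} {l : ℂ} {g : X → ℂ} (hg : ∀ x, g (T x) = l * g x) (n : ℕ)
    (x : X) : g (T^[n] x) = l ^ n * g x := by
  induction n with
  | zero => simp
  | succ n ih => rw [Function.iterate_succ_apply', hg, ih]; ring

/-- the continuous eigenfunction does not vanish at a generic point -/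
private theorem E1_ne {T : X → X} (hT : MeasurePreserving T ν ν) {l : ℂ} (hl : l ∈ EV ν T)
    (g : C(X, ℂ)) (hg : ∀ x, g (T x) = l * g x) (h0 : ¬ (∀ᵐ x ∂ν, g x = 0)) {x : X}
    (hx : Generic ν T x) : g x ≠ 0 := by
  intro hgx
  apply h0
  have h1 := hx ⟨fun y => g y * conj (g y), g.continuous.mul
    (Complex.continuous_conj.comp g.continuous)⟩
  simp only [ContinuousMap.coe_mk] at h1
  have h2 : ∀ n, g (T^[n] x) * conj (g (T^[n] x)) = 0 := fun n => by
    rw [E1_pow hg n x, hgx]; simp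
  simp only [h2, Finset.sum_const_zero, mul_zero] at h1
  have h3 : ∫ y, g y * conj (g y) ∂ν = 0 := tendsto_nhds_unique h1 tendsto_const_nhds
  have h4 : ∀ y, g y * conj (g y) = ((‖g y‖ ^ 2 : ℝ) : ℂ) := fun y => by
    rw [Complex.mul_conj']; push_cast; rfl
  simp_rw [h4] at h3
  rw [integral_complex_ofReal] at h3
  have h5 : ∫ y, ‖g y‖ ^ 2 ∂ν = 0 := by exact_mod_cast h3
  have hint : Integrable (fun y => ‖g y‖ ^ 2) ν :=
    (g.continuous.norm.pow 2).integrable_of_hasCompactSupport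
      (HasCompactSupport.of_compactSpace _)
  rw [integral_eq_zero_iff_of_nonneg (fun y => by positivity) hint] at h5
  filter_upwards [h5] with y hy
  have : ‖g y‖ ^ 2 = 0 := hy
  simpa using this

private theorem E1_bdd (g : C(X, ℂ)) : ∃ C : ℝ, ∀ y, ‖g y‖ ≤ C := ⟨‖g‖, g.norm_coe_le_norm⟩

private theorem E1_marg (T : X ≃ₜ X) (hE : Ergodic T ν) {x : X} (hx : Generic ν T x) {p : ℕ}
    (hp : Good ν T p) {U : Ultrafilter ℕ} (hU : (U : Filter ℕ) ≤ atTop) {κ : Measure X}
    [IsProbabilityMeasure κ]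
    (hκ : ∀ g : C(X, ℂ), Tendsto (fun N : ℕ => (N : ℂ)⁻¹ * ∑ n ∈ Finset.Icc 1 N,
      g ((⇑T)^[p * n] x)) U (𝓝 (∫ z, g z ∂κ))) : κ = ν := by
  have hTc : ∀ j : ℕ, Continuous ((⇑T)^[j]) := fun j => T.continuous.iterate j
  refine marg_unique T hE hp ?_ fun g => ?_
  · haveI : IsProbabilityMeasure (κ.map ((⇑T)^[p])) :=
      Measure.isProbabilityMeasure_map (hTc p).measurable.aemeasurable
    refine E1_ext fun g => ?_
    rw [integral_map (hTc p).measurable.aemeasurable
      g.continuous.measurable.aestronglyMeasurable]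
    obtain ⟨C, hC⟩ := E1_bdd g
    have h1 := hκ (g.comp ⟨(⇑T)^[p], hTc p⟩)
    have h2 := hκ g
    have h3 := (E1_shift (w := fun n => g ((⇑T)^[p * n] x)) (fun n => hC _)).mono_left hU
    have h4 := h1.sub h2
    simp only [ContinuousMap.comp_apply, ContinuousMap.coe_mk, ← Function.iterate_add_apply] at h4
    have h5 : ∀ n, p + p * n = p * (n + 1) := fun n => by ring
    simp only [h5] at h4
    have h6 := tendsto_nhds_unique h4 h3
    exact sub_eq_zero.1 h6
  · have h1 := (E1_avg (hx g) hp.1.pos).mono_left hU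
    have h2 : Tendsto (fun N : ℕ => (p : ℂ)⁻¹ * ∑ j ∈ Finset.range p,
      ((N : ℂ)⁻¹ * ∑ n ∈ Finset.Icc 1 N, g ((⇑T)^[p * n + j] x))) U
        (𝓝 ((p : ℂ)⁻¹ * ∑ j ∈ Finset.range p, ∫ y, g ((⇑T)^[j] y) ∂κ)) := by
      refine (tendsto_finsetSum _ fun j _ => ?_).const_mul _
      have h3 := hκ (g.comp ⟨(⇑T)^[j], hTc j⟩)
      simp only [ContinuousMap.comp_apply, ContinuousMap.coe_mk,
        ← Function.iterate_add_apply] at h3
      simpa only [add_comm] using h3
    exact tendsto_nhds_unique h2 h1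

theorem emp (T : X ≃ₜ X) (hE : Ergodic T ν) (hR : RatCont ν T) {x : X} (hx : Generic ν T x)
    {p₀ p : ℕ} (h0 : Good ν T p₀) (hp : Good ν T p) (hne : p₀ ≠ p) (H : C(X, ℂ)) :
    ∃ ρ : Measure (X × X), IsProbabilityMeasure ρ ∧ Jn ν T p₀ p ρ ∧
      ∀ ε : ℝ, 0 < ε → ∀ᶠ M : ℕ in atTop,
        ‖(M : ℂ)⁻¹ * ∑ m ∈ Finset.Icc 1 M,
          H ((⇑T)^[p₀ * m] x) * conj (H ((⇑T)^[p * m] x))‖ ≤
        ‖∫ z : X × X, H z.1 * conj (H z.2) ∂ρ‖ + ε := by
  set a : ℕ → ℝ := fun M => ‖(M : ℂ)⁻¹ * ∑ m ∈ Finset.Icc 1 M,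
          H ((⇑T)^[p₀ * m] x) * conj (H ((⇑T)^[p * m] x))‖ with ha
  have hTc : ∀ j : ℕ, Continuous ((⇑T)^[j]) := fun j => T.continuous.iterate j
  obtain ⟨C, hC⟩ := E1_bdd H
  have ha0 : ∀ M, 0 ≤ a M := fun M => norm_nonneg _
  have haC : ∀ M, a M ≤ C * C := fun M => by
    simp only [ha]
    rcases Nat.eq_zero_or_pos M with rfl | hM
    · simp
      exact mul_self_nonneg C
    · rw [norm_mul, norm_inv, Complex.norm_natCast, inv_mul_le_iff₀ (by exact_mod_cast hM)]
      refine (norm_sum_le _ _).trans ?_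
      have h1 : ∀ m ∈ Finset.Icc 1 M,
          ‖H ((⇑T)^[p₀ * m] x) * conj (H ((⇑T)^[p * m] x))‖ ≤ C * C := fun m _ => by
        rw [norm_mul, Complex.norm_conj]
        exact mul_le_mul (hC _) (hC _) (norm_nonneg _) ((norm_nonneg _).trans (hC x))
      refine (Finset.sum_le_sum h1).trans ?_
      rw [Finset.sum_const, Nat.card_Icc, nsmul_eq_mul]
      simp
  have hbdd : IsBoundedUnder (· ≤ ·) atTop a := isBoundedUnder_of ⟨C * C, haC⟩
  have hcob : IsCoboundedUnder (· ≤ ·) atTop a :=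
    (isBoundedUnder_of ⟨0, ha0⟩ : IsBoundedUnder (· ≥ ·) atTop a).isCoboundedUnder_le
  set L : ℝ := limsup a atTop with hL
  have hup : ∀ ε : ℝ, 0 < ε → ∀ᶠ M in atTop, a M < L + ε := fun ε hε =>
    eventually_lt_of_limsup_lt (by linarith) hbdd
  have hlo : ∀ ε : ℝ, 0 < ε → ∃ᶠ M in atTop, L - ε < a M := fun ε hε =>
    frequently_lt_of_lt_limsup hcob (by linarith)
  have hcl : MapClusterPt L atTop a := by
    rw [mapClusterPt_iff_frequently]
    intro s hs
    obtain ⟨ε, hε, hsub⟩ := Metric.mem_nhds_iff.1 hs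
    refine ((hlo ε hε).and_eventually (hup ε hε)).mono fun M hM => hsub ?_
    rw [Metric.mem_ball, Real.dist_eq, abs_lt]
    constructor <;> linarith [hM.1, hM.2]
  obtain ⟨U, hU, hUa⟩ := mapClusterPt_iff_ultrafilter.1 hcl
  obtain ⟨ρ, hρ, hlim⟩ := emp_measure T x p₀ p U hU
  haveI := hρ
  have hc1 : ρ.map Prod.fst = ν := by
    haveI : IsProbabilityMeasure (ρ.map Prod.fst) :=
      Measure.isProbabilityMeasure_map measurable_fst.aemeasurable
    refine E1_marg T hE hx h0 hU fun g => ?_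
    rw [integral_map measurable_fst.aemeasurable
      g.continuous.measurable.aestronglyMeasurable]
    exact hlim (g.comp ⟨Prod.fst, continuous_fst⟩)
  have hc2 : ρ.map Prod.snd = ν := by
    haveI : IsProbabilityMeasure (ρ.map Prod.snd) :=
      Measure.isProbabilityMeasure_map measurable_snd.aemeasurable
    refine E1_marg T hE hx hp hU fun g => ?_
    rw [integral_map measurable_snd.aemeasurable
      g.continuous.measurable.aestronglyMeasurable]
    exact hlim (g.comp ⟨Prod.snd, continuous_snd⟩)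
  have hcoup : Coup ν ρ := ⟨hc1, hc2⟩
  refine ⟨ρ, hρ, ⟨hcoup, ?_, ?_⟩, ?_⟩
  · -- invariance
    have hcm : Continuous (Prod.map ((⇑T)^[p₀]) ((⇑T)^[p])) := (hTc p₀).prodMap (hTc p)
    haveI : IsProbabilityMeasure (ρ.map (Prod.map ((⇑T)^[p₀]) ((⇑T)^[p]))) :=
      Measure.isProbabilityMeasure_map hcm.measurable.aemeasurable
    refine E1_ext fun g => ?_
    rw [integral_map hcm.measurable.aemeasurable
      g.continuous.measurable.aestronglyMeasurable]
    have h1 := hlim (g.comp ⟨_, hcm⟩)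
    have h2 := hlim g
    have h3 := (E1_shift (w := fun n => g ((⇑T)^[p₀ * n] x, (⇑T)^[p * n] x))
      (C := ‖g‖) (fun n => g.norm_coe_le_norm _)).mono_left hU
    have h4 := h1.sub h2
    simp only [ContinuousMap.comp_apply, ContinuousMap.coe_mk, Prod.map_apply,
      ← Function.iterate_add_apply] at h4
    have h5 : ∀ q n : ℕ, q + q * n = q * (n + 1) := fun q n => by ring
    simp only [h5] at h4
    have h6 := tendsto_nhds_unique h4 h3
    exact sub_eq_zero.1 h6
  · -- rational eigenfunctions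
    intro l hl l' hl' ht ht' hll
    have hT : MeasurePreserving T ν ν := hE.toMeasurePreserving
    obtain ⟨g, hg, hg0⟩ := hR l hl ht
    obtain ⟨g', hg', hg0'⟩ := hR l' hl' ht'
    have hgx := E1_ne hT hl g hg hg0 hx
    have hgx' := E1_ne hT hl' g' hg' hg0' hx
    have hint : ∀ f : C(X, ℂ), Integrable (fun y => f y) ν := fun f =>
      f.continuous.integrable_of_hasCompactSupport (HasCompactSupport.of_compactSpace _)
    obtain ⟨-, k, hk0, hk⟩ := eig_of_fun hE (hint g) (Filter.Eventually.of_forall hg) hg0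
    obtain ⟨-, k', hk0', hk'⟩ := eig_of_fun hE (hint g') (Filter.Eventually.of_forall hg') hg0'
    set C0 : ℂ := g x * conj (g' x) with hC0
    have hn : ‖l'‖ = 1 := EV_norm hT hl'
    have horb : ∀ n : ℕ, g ((⇑T)^[p₀ * n] x) * conj (g' ((⇑T)^[p * n] x)) = C0 := by
      intro n
      rw [E1_pow hg, E1_pow hg', map_mul, map_pow, pow_mul, pow_mul, hll]
      have h1 : (l' ^ p) ^ n * (conj l' ^ p) ^ n = 1 := by
        rw [← mul_pow, ← mul_pow, Complex.mul_conj', hn]
        simp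
      calc (l' ^ p) ^ n * g x * ((conj l' ^ p) ^ n * conj (g' x))
          = ((l' ^ p) ^ n * (conj l' ^ p) ^ n) * (g x * conj (g' x)) := by ring
        _ = C0 := by rw [h1, one_mul]
    have hcF : Continuous fun z : X × X => g z.1 * conj (g' z.2) - C0 :=
      ((g.continuous.comp continuous_fst).mul
        (Complex.continuous_conj.comp (g'.continuous.comp continuous_snd))).sub continuous_const
    have h1 := hlim ⟨fun z => (g z.1 * conj (g' z.2) - C0) * conj (g z.1 * conj (g' z.2) - C0),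
      hcF.mul (Complex.continuous_conj.comp hcF)⟩
    simp only [ContinuousMap.coe_mk, horb, sub_self, zero_mul, Finset.sum_const_zero,
      mul_zero] at h1
    have h2 := tendsto_nhds_unique h1 tendsto_const_nhds
    have h3 : ∀ z : X × X, (g z.1 * conj (g' z.2) - C0) * conj (g z.1 * conj (g' z.2) - C0)
        = ((‖g z.1 * conj (g' z.2) - C0‖ ^ 2 : ℝ) : ℂ) := fun z => by
      rw [Complex.mul_conj']; push_cast; rfl
    simp_rw [h3] at h2
    rw [integral_complex_ofReal] at h2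
    have h4 : ∫ z : X × X, ‖g z.1 * conj (g' z.2) - C0‖ ^ 2 ∂ρ = 0 := by exact_mod_cast h2
    have hint2 : Integrable (fun z : X × X => ‖g z.1 * conj (g' z.2) - C0‖ ^ 2) ρ :=
      (hcF.norm.pow 2).integrable_of_hasCompactSupport (HasCompactSupport.of_compactSpace _)
    rw [integral_eq_zero_iff_of_nonneg (fun z => by positivity) hint2] at h4
    refine ⟨C0 / (k * conj k'), ?_⟩
    filter_upwards [h4, hcoup.ae_fst hk, hcoup.ae_snd hk'] with z hz hz1 hz2
    have h5 : ‖g z.1 * conj (g' z.2) - C0‖ ^ 2 = 0 := hz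
    have h6 : g z.1 * conj (g' z.2) = C0 := by
      have := pow_eq_zero_iff (two_ne_zero) |>.1 h5
      exact sub_eq_zero.1 (norm_eq_zero.1 this)
    rw [hz1, hz2, map_mul] at h6
    have h7 : eg ν T l' z.2 * conj (eg ν T l' z.2) = 1 := by
      rw [Complex.mul_conj', eg_norm]; norm_num
    have hk1 : conj k' ≠ 0 := by
      rw [Ne, map_eq_zero]; exact hk0'
    rw [← h6]
    field_simp
    linear_combination (-eg ν T l z.1) * h7
  · -- the limit
    have h1 := hlim ⟨fun z => H z.1 * conj (H z.2), (H.continuous.comp continuous_fst).mul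
      (Complex.continuous_conj.comp (H.continuous.comp continuous_snd))⟩
    have h2 := h1.norm
    have h3 : L = ‖∫ z : X × X, H z.1 * conj (H z.2) ∂ρ‖ := tendsto_nhds_unique hUa h2
    intro ε hε
    filter_upwards [hup ε hε] with M hM
    rw [← h3]
    exact hM.le

end Pool.Agent.Sar
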