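import Pool.Agent.Sar.D4
import Pool.Agent.Sar.E1

/-! MP_13664e_an, module DF1: correlations of a continuous function minus its rational part. -/

set_option autoImplicit false

namespace Pool.Agent.Sar

open MeasureTheory ProbabilityTheory Filter Topology
open scoped ENNReal ComplexConjugate

section bil

variable {X : Type*} [mX : MeasurableSpace X] [StandardBorelSpace X] [Nonempty X]
  {ν : Measure X} [IsProbabilityMeasure ν]

/-- the sesquilinear form of a coupling -/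
noncomputable def BL (ρ : Measure (X × X)) (u v : X → ℂ) : ℂ :=
  ∫ z : X × X, u z.1 * conj (v z.2) ∂ρ

omit [StandardBorelSpace X] [Nonempty X] in
theorem BL_int {ρ : Measure (X × X)} [IsProbabilityMeasure ρ] {u v : X → ℂ} (hu : BM u)
    (hv : BM v) : Integrable (fun z : X × X => u z.1 * conj (v z.2)) ρ := by
  obtain ⟨C, hC⟩ := hu.bdd
  obtain ⟨C', hC'⟩ := hv.bdd
  refine Integrable.of_bound (C := C * C') ((hu.meas.comp measurable_fst).mul
    (Complex.continuous_conj.measurable.comp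
      (hv.meas.comp measurable_snd))).aestronglyMeasurable
    (Eventually.of_forall fun z => ?_)
  show ‖u z.1 * conj (v z.2)‖ ≤ _
  rw [norm_mul, RCLike.norm_conj]
  exact mul_le_mul (hC _) (hC' _) (norm_nonneg _) ((norm_nonneg _).trans (hC z.1))

omit [StandardBorelSpace X] [Nonempty X] in
theorem BL_add_left {ρ : Measure (X × X)} [IsProbabilityMeasure ρ] {u u' v : X → ℂ} (hu : BM u)
    (hu' : BM u') (hv : BM v) : BL ρ (fun x => u x + u' x) v = BL ρ u v + BL ρ u' v := by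
  unfold BL
  rw [← integral_add (BL_int hu hv) (BL_int hu' hv)]
  congr 1
  ext z
  ring

omit [StandardBorelSpace X] [Nonempty X] in
theorem BL_add_right {ρ : Measure (X × X)} [IsProbabilityMeasure ρ] {u v v' : X → ℂ} (hu : BM u)
    (hv : BM v) (hv' : BM v') : BL ρ u (fun x => v x + v' x) = BL ρ u v + BL ρ u v' := by
  unfold BL
  rw [← integral_add (BL_int hu hv) (BL_int hu hv')]
  congr 1
  ext z
  rw [map_add]
  ring

omit [StandardBorelSpace X] [Nonempty X] in
theorem BM.add {u v : X → ℂ} (hu : BM u) (hv : BM v) : BM (fun x => u x + v x) := by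
  obtain ⟨C, hC⟩ := hu.bdd
  obtain ⟨C', hC'⟩ := hv.bdd
  exact ⟨hu.meas.add hv.meas, C + C', fun x => (norm_add_le _ _).trans
    (add_le_add (hC x) (hC' x))⟩

omit [StandardBorelSpace X] [Nonempty X] in
theorem BM.conj {u : X → ℂ} (hu : BM u) : BM (fun x => (starRingEnd ℂ) (u x)) := by
  obtain ⟨C, hC⟩ := hu.bdd
  exact ⟨Complex.continuous_conj.measurable.comp hu.meas, C, fun x => by
    rw [RCLike.norm_conj]; exact hC x⟩

theorem BL_op {ρ : Measure (X × X)} [IsProbabilityMeasure ρ] (hc : Coup ν ρ) {u v : X → ℂ}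
    (hu : BM u) (hv : BM v) : BL ρ u v = ∫ x, u x * conj (op ρ v x) ∂ν := by
  unfold BL
  rw [← op_int hc hv.conj hu]
  simp_rw [op_conj]

omit [StandardBorelSpace X] [Nonempty X] in
/-- Cauchy–Schwarz -/
theorem DF_cs {f g : X → ℂ} (hf : BM f) (hg : BM g) {A B : ℝ} (hA : 0 < A) (hB : 0 < B)
    (h1 : ∫ x, ‖f x‖ ^ 2 ∂ν ≤ A ^ 2) (h2 : ∫ x, ‖g x‖ ^ 2 ∂ν ≤ B ^ 2) :
    ‖∫ x, f x * g x ∂ν‖ ≤ A * B := by
  have hf' : BM (fun x => ((A⁻¹ : ℝ) : ℂ) * f x) := by
    obtain ⟨C, hC⟩ := hf.bdd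
    refine ⟨hf.meas.const_mul _, ‖((A⁻¹ : ℝ) : ℂ)‖ * C, fun x => ?_⟩
    rw [norm_mul]
    exact mul_le_mul_of_nonneg_left (hC x) (norm_nonneg _)
  have h1' : ∫ x, ‖((A⁻¹ : ℝ) : ℂ) * f x‖ ^ 2 ∂ν ≤ 1 := by
    have e1 : ∀ x, ‖((A⁻¹ : ℝ) : ℂ) * f x‖ ^ 2 = (A ^ 2)⁻¹ * ‖f x‖ ^ 2 := by
      intro x
      rw [norm_mul, mul_pow, Complex.norm_real, Real.norm_of_nonneg (by positivity), inv_pow]
    simp_rw [e1]
    rw [integral_const_mul, inv_mul_le_iff₀ (by positivity), mul_one]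
    exact h1
  have h3 := C2a_cs (ν := ν) hf' hg hB.le h1' h2
  have e2 : ∫ x, ((A⁻¹ : ℝ) : ℂ) * f x * g x ∂ν = ((A⁻¹ : ℝ) : ℂ) * ∫ x, f x * g x ∂ν := by
    rw [← integral_const_mul]
    congr 1
    ext x
    ring
  rw [e2, norm_mul, Complex.norm_real, Real.norm_of_nonneg (by positivity),
    inv_mul_le_iff₀ hA] at h3
  exact h3

theorem BL_le {ρ : Measure (X × X)} [IsProbabilityMeasure ρ] (hc : Coup ν ρ) {u v : X → ℂ}
    (hu : BM u) (hv : BM v) {A B : ℝ} (hA : 0 < A) (hB : 0 < B)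
    (h1 : ∫ x, ‖u x‖ ^ 2 ∂ν ≤ A ^ 2) (h2 : ∫ x, ‖v x‖ ^ 2 ∂ν ≤ B ^ 2) :
    ‖BL ρ u v‖ ≤ A * B := by
  rw [BL_op hc hu hv]
  refine DF_cs hu (op_BM hv).conj hA hB h1 ?_
  simp_rw [RCLike.norm_conj]
  exact (op_L2 hc hv).trans h2

end bil

variable {X : Type*} [MetricSpace X] [CompactSpace X] [mX : MeasurableSpace X] [BorelSpace X]
  [Nonempty X] {ν : Measure X} [IsProbabilityMeasure ν]

/-- good primes `p` such that no element of `I` is a `p`-th power of an eigenvalue -/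
def GI (ν : Measure X) (T : X → X) (I : Finset ℂ) (p : ℕ) : Prop :=
  Good ν T p ∧ ∀ l ∈ I, ¬ IsPow ν T p l

/-- continuous version of a torsion term -/
theorem DF_cont (T : X ≃ₜ X) (hE : Ergodic T ν) (hR : RatCont ν T) {l : ℂ} (hl : l ∈ EV ν T)
    (ht : Tors l) (k : ℂ) : ∃ g : C(X, ℂ), (∀ x, g (T x) = l * g x) ∧
      ∀ᵐ x ∂ν, g x = k * eg ν T l x := by
  obtain ⟨g, hg, hg0⟩ := hR l hl ht
  have hint : Integrable g ν := Integrable.of_bound g.continuous.measurable.aestronglyMeasurable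
    ‖g‖ (Eventually.of_forall fun x => g.norm_coe_le_norm x)
  obtain ⟨_, c, hc, hgc⟩ := eig_of_fun hE hint (Eventually.of_forall hg) hg0
  refine ⟨(k / c) • g, fun x => ?_, ?_⟩
  · simp only [ContinuousMap.smul_apply, smul_eq_mul, hg]
    ring
  · filter_upwards [hgc] with x hx
    simp only [ContinuousMap.smul_apply, smul_eq_mul, hx]
    field_simp

open Classical in
theorem DF1 (hLam : Pool.Agent.BGG.SWLam) (T : X ≃ₜ X) (hE : Ergodic T ν) {m : ℕ} {a : ℝ}
    {ℓ : X → Fin m} (hL : Lab ν T m a ℓ) (hR : RatCont ν T) (G : C(X, ℂ))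
    {ε : ℝ} (hε : 0 < ε) :
    ∃ (I : Finset ℂ) (L : Finset ℂ) (g : ℂ → C(X, ℂ)), (∀ l ∈ I, l ∈ EV ν T ∧ ¬ Tors l) ∧
      (∀ l ∈ L, Tors l) ∧ (∀ l ∈ L, ∀ x, g l (T x) = l * g l x) ∧
      ∀ (ρ : ℕ → ℕ → Measure (X × X)) [∀ p p', IsProbabilityMeasure (ρ p p')],
        (∀ p p', Good ν T p → Good ν T p' → p ≠ p' → Jn ν T p p' (ρ p p')) →
        ∀ᶠ i : ℕ in atTop, ∑ p ∈ (blk i).filter (fun p => GI ν T I p),
          ∑ p' ∈ ((blk i).filter (fun p => GI ν T I p)).erase p,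
            ‖∫ z : X × X, (G z.1 - ∑ l ∈ L, g l z.1) * conj (G z.2 - ∑ l ∈ L, g l z.2)
              ∂(ρ p p')‖ ≤ ε * pib i ^ 2 := by
  -- the measurable equivalence
  set T' : X ≃ᵐ X := T.toMeasurableEquiv with hT'
  have hE' : Ergodic T' ν := hE
  have hT := hE.toMeasurePreserving
  have hL' : Lab ν T' m a ℓ := hL
  set C : ℝ := ‖G‖ + 1 with hC
  have hC0 : 0 < C := by positivity
  have hGB : BM G := ⟨G.continuous.measurable, C, fun x =>
    (G.norm_coe_le_norm x).trans (by rw [hC]; linarith)⟩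
  have hGC : ∀ x, ‖G x‖ ≤ C := fun x => (G.norm_coe_le_norm x).trans (by rw [hC]; linarith)
  -- conditional expectation
  set Gc : X → ℂ := cex ν T G with hGc
  have hGcB : BM Gc := cex_BM hGB
  have hGcC : ∀ x, ‖Gc x‖ ≤ C := by
    intro x
    rw [hGc]
    unfold cex
    refine (norm_integral_le_of_norm_le_const (Eventually.of_forall hGC)).trans ?_
    simp
  set F0 : X → ℂ := fun x => G x - Gc x with hF0
  have hF0m : Measurable F0 := hGB.meas.sub hGcB.meas
  have hF0C : ∀ x, ‖F0 x‖ ≤ 2 * C := fun x => (norm_sub_le _ _).trans (by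
    have := hGC x; have := hGcC x; linarith)
  have hF0B : BM F0 := ⟨hF0m, 2 * C, hF0C⟩
  have hintC : ∀ {f : X → ℂ} {B : ℝ}, Measurable f → (∀ x, ‖f x‖ ≤ B) → Integrable f ν :=
    fun hf hb => Integrable.of_bound hf.aestronglyMeasurable _ (Eventually.of_forall hb)
  have hF0fc : ∀ l ∈ EV ν T, fc ν T F0 l = 0 := by
    intro l hl
    have e1 : fc ν T F0 l = fc ν T G l - fc ν T Gc l := by
      unfold fc
      rw [← integral_sub]
      · congr 1
        ext x
        rw [hF0]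
        ring
      · refine hintC (B := C * 1) (hGB.meas.mul (Complex.continuous_conj.measurable.comp
          (eg_meas (ν := ν) (T := T) l))) fun x => ?_
        show ‖G x * conj (eg ν T l x)‖ ≤ _
        rw [norm_mul, RCLike.norm_conj, eg_norm]
        exact mul_le_mul_of_nonneg_right (hGC x) zero_le_one
      · refine hintC (B := C * 1) (hGcB.meas.mul (Complex.continuous_conj.measurable.comp
          (eg_meas (ν := ν) (T := T) l))) fun x => ?_
        show ‖Gc x * conj (eg ν T l x)‖ ≤ _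
        rw [norm_mul, RCLike.norm_conj, eg_norm]
        exact mul_le_mul_of_nonneg_right (hGcC x) zero_le_one
    rw [e1, hGc, fc_cex hT hGB hl, sub_self]
  -- the normalised function
  set κ : ℂ := (((2 * C)⁻¹ : ℝ) : ℂ) with hκ
  set F : X → ℂ := fun x => κ * F0 x with hFdef
  have hκn : ‖κ‖ = (2 * C)⁻¹ := by
    rw [hκ, Complex.norm_real, Real.norm_of_nonneg (by positivity)]
  have hFB : B1 F := by
    refine ⟨hF0m.const_mul _, fun x => ?_⟩
    rw [hFdef]
    simp only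
    rw [norm_mul, hκn, inv_mul_le_iff₀ (by positivity), mul_one]
    exact hF0C x
  have hFfc : ∀ l ∈ EV ν T', fc ν T' F l = 0 := by
    intro l hl
    have e1 : fc ν T' F l = κ * fc ν T F0 l := by
      unfold fc
      rw [← integral_const_mul]
      congr 1
      ext x
      rw [hFdef]
      show κ * F0 x * conj (eg ν T l x) = _
      ring
    rw [e1, hF0fc l hl, mul_zero]
  have hε4 : 0 < ε / 2 * (2 * C)⁻¹ ^ 2 := by positivity
  obtain ⟨I4, hI4, hD4⟩ := D4 hLam hE' hL' hFB hFfc hε4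
  -- the trigonometric approximation
  set ε5 : ℝ := min 1 (ε / 2 / (6 * C + 1)) with hε5
  have hε5pos : 0 < ε5 := lt_min one_pos (by positivity)
  have hε51 : ε5 ≤ 1 := min_le_left _ _
  have hε52 : ε5 * (6 * C + 1) ≤ ε / 2 := by
    have h1 := min_le_right 1 (ε / 2 / (6 * C + 1))
    rw [← hε5, le_div_iff₀ (by positivity)] at h1
    exact h1
  obtain ⟨L0, hL0, hL0'⟩ := Kr_dense hE (cex_Kr (ν := ν) (T := T) hGB) ⟨C, hGcC⟩
    (show (0 : ℝ) < ε5 ^ 2 by positivity)
  set L : Finset ℂ := L0.filter (fun l => Tors l) with hLdef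
  set I' : Finset ℂ := L0.filter (fun l => ¬ Tors l) with hIdef
  have hI' : ∀ l ∈ I', l ∈ EV ν T ∧ ¬ Tors l := fun l hl =>
    ⟨hL0 (Finset.mem_filter.1 hl).1, (Finset.mem_filter.1 hl).2⟩
  have happ := hL0' L0 (Finset.Subset.refl _) hL0
  -- continuous versions
  have hcont : ∀ l : ℂ, ∃ g : C(X, ℂ), l ∈ L → (∀ x, g (T x) = l * g x) ∧
      ∀ᵐ x ∂ν, g x = fc ν T Gc l * eg ν T l x := by
    intro l
    by_cases hl : l ∈ L
    · obtain ⟨g, h1, h2⟩ := DF_cont T hE hR (hL0 (Finset.mem_filter.1 hl).1)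
        (Finset.mem_filter.1 hl).2 (fc ν T Gc l)
      exact ⟨g, fun _ => ⟨h1, h2⟩⟩
    · exact ⟨0, fun h => absurd h hl⟩
  choose g hg using hcont
  refine ⟨I4 ∪ I', L, g, ?_, fun l hl => (Finset.mem_filter.1 hl).2, fun l hl => (hg l hl).1, ?_⟩
  · intro l hl
    rcases Finset.mem_union.1 hl with h | h
    · exact hI4 l h
    · exact hI' l h
  intro ρ _ hJ
  -- the functions
  set Y : X → ℂ := fun x => ∑ l ∈ I', fc ν T Gc l * eg ν T l x with hY
  set E : X → ℂ := fun x => Gc x - ∑ l ∈ L0, fc ν T Gc l * eg ν T l x with hEdef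
  have hterm : ∀ l, BM (fun x => fc ν T Gc l * eg ν T l x) := fun l =>
    ⟨(eg_meas l).const_mul _, ‖fc ν T Gc l‖, fun x => by rw [norm_mul, eg_norm, mul_one]⟩
  have hsumB : ∀ S : Finset ℂ, BM (fun x => ∑ l ∈ S, fc ν T Gc l * eg ν T l x) := by
    intro S
    refine ⟨Finset.measurable_sum _ fun l _ => (hterm l).meas, ∑ l ∈ S, ‖fc ν T Gc l‖,
      fun x => ?_⟩
    refine (norm_sum_le _ _).trans (Finset.sum_le_sum fun l _ => ?_)
    rw [norm_mul, eg_norm, mul_one]
  have hYB : BM Y := hsumB I'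
  have hEB : BM E := by
    obtain ⟨D, hD⟩ := (hsumB L0).bdd
    exact ⟨hGcB.meas.sub (hsumB L0).meas, C + D, fun x => (norm_sub_le _ _).trans
      (add_le_add (hGcC x) (hD x))⟩
  -- H = F0 + Y + E
  have hH : ∀ᵐ x ∂ν, G x - ∑ l ∈ L, g l x = F0 x + Y x + E x := by
    have h1 : ∀ᵐ x ∂ν, ∀ l ∈ L, g l x = fc ν T Gc l * eg ν T l x := by
      rw [Finset.eventually_all]
      exact fun l hl => (hg l hl).2
    filter_upwards [h1] with x hx
    rw [Finset.sum_congr rfl hx]
    have h2 : ∑ l ∈ L0, fc ν T Gc l * eg ν T l x =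
        ∑ l ∈ L, fc ν T Gc l * eg ν T l x + ∑ l ∈ I', fc ν T Gc l * eg ν T l x :=
      (Finset.sum_filter_add_sum_filter_not L0 (fun l => Tors l) _).symm
    simp only [hF0, hY, hEdef, h2]
    ring
  -- norms
  have nF0 : ∫ x, ‖F0 x‖ ^ 2 ∂ν ≤ (2 * C) ^ 2 := by
    have e3 : ∫ x, ‖F0 x‖ ^ 2 ∂ν ≤ ∫ _x : X, (2 * C) ^ 2 ∂ν := by
      refine integral_mono_of_nonneg (Eventually.of_forall fun x => by positivity)
        (integrable_const _) (Eventually.of_forall fun x => ?_)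
      exact pow_le_pow_left₀ (norm_nonneg _) (hF0C x) 2
    simpa using e3
  have nY : ∫ x, ‖Y x‖ ^ 2 ∂ν ≤ C ^ 2 := by
    rw [hY, C2a_normsq hT I' (fun l hl => (hI' l hl).1)]
    refine (bessel hE hGcB I' (fun l hl => (hI' l (Finset.mem_coe.1 hl)).1)).trans ?_
    have e3 : ∫ x, ‖Gc x‖ ^ 2 ∂ν ≤ ∫ _x : X, C ^ 2 ∂ν := by
      refine integral_mono_of_nonneg (Eventually.of_forall fun x => by positivity)
        (integrable_const _) (Eventually.of_forall fun x => ?_)
      exact pow_le_pow_left₀ (norm_nonneg _) (hGcC x) 2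
    simpa using e3
  have nE : ∫ x, ‖E x‖ ^ 2 ∂ν ≤ ε5 ^ 2 := happ
  -- one pair of primes
  have hpair : ∀ p p' : ℕ, GI ν T (I4 ∪ I') p → GI ν T (I4 ∪ I') p' → p ≠ p' →
      ‖∫ z : X × X, (G z.1 - ∑ l ∈ L, g l z.1) * conj (G z.2 - ∑ l ∈ L, g l z.2)
              ∂(ρ p p')‖ ≤ (2 * C) ^ 2 * ‖∫ z : X × X, F z.1 * conj (F z.2) ∂(ρ p p')‖ + ε / 2 := by
    intro p p' hp hp' hne
    have hJp := hJ p p' hp.1 hp'.1 hne
    have hc := hJp.coup
    have e0 : ∫ z : X × X, (G z.1 - ∑ l ∈ L, g l z.1) * conj (G z.2 - ∑ l ∈ L, g l z.2)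
              ∂(ρ p p') = BL (ρ p p') (fun x => F0 x + Y x + E x) (fun x => F0 x + Y x + E x) := by
      unfold BL
      refine integral_congr_ae ?_
      filter_upwards [hc.ae_fst hH, hc.ae_snd hH] with z h1 h2
      rw [h1, h2]
    have hFYE : BM (fun x => F0 x + Y x + E x) := (hF0B.add hYB).add hEB
    have e1 : BL (ρ p p') (fun x => F0 x + Y x + E x) (fun x => F0 x + Y x + E x) =
        BL (ρ p p') F0 F0 + BL (ρ p p') F0 Y + BL (ρ p p') F0 E +
        (BL (ρ p p') Y F0 + BL (ρ p p') Y Y + BL (ρ p p') Y E) +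
        (BL (ρ p p') E F0 + BL (ρ p p') E Y + BL (ρ p p') E E) := by
      rw [BL_add_left (hF0B.add hYB) hEB hFYE, BL_add_left hF0B hYB hFYE,
        BL_add_right hF0B (hF0B.add hYB) hEB, BL_add_right hF0B hF0B hYB,
        BL_add_right hYB (hF0B.add hYB) hEB, BL_add_right hYB hF0B hYB,
        BL_add_right hEB (hF0B.add hYB) hEB, BL_add_right hEB hF0B hYB]
    -- the vanishing terms
    have hopY : ∀ᵐ x ∂ν, op (ρ p p') Y x = 0 := by
      have hz : ∀ᵐ x ∂ν, ∀ l ∈ I', op (ρ p p') (eg ν T l) x = 0 := by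
        rw [Finset.eventually_all]
        intro l hl
        exact op_eig_zero (T := T') hE' hp.1 hp'.1 hne hc hJp.inv (hI' l hl).1
          (hp.2 l (Finset.mem_union_right _ hl))
      filter_upwards [hz] with x hx
      have := op_sum (ρ := ρ p p') I' (fun l y => fc ν T Gc l * eg ν T l y)
        (fun l _ => hterm l) x
      rw [hY, this]
      refine Finset.sum_eq_zero fun l hl => ?_
      have h2 := op_smul (ρ := ρ p p') (fc ν T Gc l) (eg ν T l) x
      rw [h2, hx l hl, mul_zero]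
    have z1 : ∀ {u : X → ℂ}, BM u → BL (ρ p p') u Y = 0 := by
      intro u hu
      rw [BL_op hc hu hYB]
      rw [integral_eq_zero_of_ae]
      filter_upwards [hopY] with x hx
      rw [hx]
      simp
    have z2 : BL (ρ p p') Y F0 = 0 := by
      rw [BL_op hc hYB hF0B]
      have ho := op_orth (T := T') hE' hp.1 hp'.1 hne hc hJp.inv hF0B hF0fc
      have e2 : ∀ x, Y x * conj (op (ρ p p') F0 x) =
          ∑ l ∈ I', fc ν T Gc l * (eg ν T l x * conj (op (ρ p p') F0 x)) := by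
        intro x
        rw [hY]
        simp only
        rw [Finset.sum_mul]
        exact Finset.sum_congr rfl fun l _ => by ring
      simp_rw [e2]
      obtain ⟨D, hD⟩ := (op_BM (ρ := ρ p p') hF0B).bdd
      rw [integral_finsetSum]
      · refine Finset.sum_eq_zero fun l hl => ?_
        rw [integral_const_mul]
        have h3 := ho l (hI' l hl).1
        have h4 : ∫ x, eg ν T l x * conj (op (ρ p p') F0 x) ∂ν =
            conj (fc ν T (op (ρ p p') F0) l) := by
          unfold fc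
          rw [← integral_conj]
          congr 1
          ext x
          rw [map_mul, Complex.conj_conj]
          ring
        rw [h4]
        have h5 : fc ν T (op (ρ p p') F0) l = 0 := h3
        rw [h5, map_zero, mul_zero]
      · intro l _
        refine (hintC (B := 1 * D) ((eg_meas (ν := ν) (T := T) l).mul
          (Complex.continuous_conj.measurable.comp (op_BM hF0B).meas)) fun x => ?_).const_mul _
        show ‖eg ν T l x * conj (op (ρ p p') F0 x)‖ ≤ _
        rw [norm_mul, RCLike.norm_conj, eg_norm]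
        exact mul_le_mul_of_nonneg_left (hD x) zero_le_one
    have b1 := BL_le hc hF0B hEB (by positivity) hε5pos nF0 nE
    have b2 := BL_le hc hYB hEB hC0 hε5pos nY nE
    have b3 := BL_le hc hEB hF0B hε5pos (by positivity) nE nF0
    have b5 := BL_le hc hEB hEB hε5pos hε5pos nE nE
    have hFF : BL (ρ p p') F0 F0 = ((2 * C : ℝ) : ℂ) ^ 2 *
        ∫ z : X × X, F z.1 * conj (F z.2) ∂(ρ p p') := by
      have hk : ((2 * C : ℝ) : ℂ) * κ = 1 := by
        rw [hκ, ← Complex.ofReal_mul, mul_inv_cancel₀ (by positivity), Complex.ofReal_one]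
      have hkc : conj κ = κ := by rw [hκ, Complex.conj_ofReal]
      unfold BL
      rw [← integral_const_mul]
      congr 1
      ext z
      rw [hFdef]
      simp only
      rw [map_mul, hkc]
      linear_combination (-(F0 z.1 * conj (F0 z.2)) * (((2 * C : ℝ) : ℂ) * κ + 1)) * hk
    rw [e0, e1, z1 hF0B, z2, z1 hYB, z1 hEB, hFF]
    have hn1 : ‖((2 * C : ℝ) : ℂ) ^ 2 * ∫ z : X × X, F z.1 * conj (F z.2) ∂(ρ p p')‖ =
        (2 * C) ^ 2 * ‖∫ z : X × X, F z.1 * conj (F z.2) ∂(ρ p p')‖ := by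
      rw [norm_mul, norm_pow, Complex.norm_real, Real.norm_of_nonneg (by positivity)]
    set A0 := ((2 * C : ℝ) : ℂ) ^ 2 * ∫ z : X × X, F z.1 * conj (F z.2) ∂(ρ p p')
    have hre : A0 + 0 + BL (ρ p p') F0 E + (0 + 0 + BL (ρ p p') Y E) +
        (BL (ρ p p') E F0 + 0 + BL (ρ p p') E E) =
        A0 + (BL (ρ p p') F0 E + BL (ρ p p') Y E + BL (ρ p p') E F0 + BL (ρ p p') E E) := by
      ring
    rw [hre]
    refine (norm_add_le _ _).trans ?_
    rw [hn1]
    refine add_le_add le_rfl ?_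
    have t1 := norm_add_le (BL (ρ p p') F0 E + BL (ρ p p') Y E + BL (ρ p p') E F0)
      (BL (ρ p p') E E)
    have t2 := norm_add_le (BL (ρ p p') F0 E + BL (ρ p p') Y E) (BL (ρ p p') E F0)
    have t3 := norm_add_le (BL (ρ p p') F0 E) (BL (ρ p p') Y E)
    have t4 : ε5 * ε5 ≤ ε5 := by nlinarith
    nlinarith
  -- sum over the block
  filter_upwards [hD4] with i hi
  set S : Finset ℕ := (blk i).filter (fun p => GI ν T (I4 ∪ I') p) with hS
  have hScard : (S.card : ℝ) ≤ pib i := by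
    unfold pib
    exact_mod_cast Finset.card_le_card (Finset.filter_subset _ _)
  have hpi0 : 0 ≤ pib i := Nat.cast_nonneg _
  have hone : ∀ p ∈ S, ∑ p' ∈ S.erase p,
      ‖∫ z : X × X, (G z.1 - ∑ l ∈ L, g l z.1) * conj (G z.2 - ∑ l ∈ L, g l z.2)
              ∂(ρ p p')‖ ≤ ε * pib i := by
    intro p hp
    have hpG : GI ν T (I4 ∪ I') p := (Finset.mem_filter.1 hp).2
    have hsub : S.erase p ⊆ gb ν T' i p := by
      intro p' hp'
      obtain ⟨h1, h2⟩ := Finset.mem_erase.1 hp'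
      unfold gb
      exact Finset.mem_erase.2 ⟨h1, Finset.mem_filter.2 ⟨(Finset.mem_filter.1 h2).1,
        (Finset.mem_filter.1 h2).2.1⟩⟩
    have h1 := hi p (Finset.mem_filter.1 hp).1 hpG.1
      (fun l hl => hpG.2 l (Finset.mem_union_left _ hl)) (S.erase p) hsub
      (fun p' hp' l hl => (Finset.mem_filter.1 (Finset.mem_erase.1 hp').2).2.2 l
        (Finset.mem_union_left _ hl)) (fun p' => ρ p p')
      (fun p' hp' => hJ p p' hpG.1 (by
        unfold gb at hp'
        exact (Finset.mem_filter.1 (Finset.mem_erase.1 hp').2).2) (by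
        unfold gb at hp'
        exact (Finset.mem_erase.1 hp').1.symm))
    have h2 : ∀ p' ∈ S.erase p, ‖∫ z : X × X, (G z.1 - ∑ l ∈ L, g l z.1) *
        conj (G z.2 - ∑ l ∈ L, g l z.2) ∂(ρ p p')‖ ≤
        (2 * C) ^ 2 * ‖∫ z : X × X, F z.1 * conj (F z.2) ∂(ρ p p')‖ + ε / 2 := fun p' hp' =>
      hpair p p' hpG (Finset.mem_filter.1 (Finset.mem_erase.1 hp').2).2
        (Finset.mem_erase.1 hp').1.symm
    refine (Finset.sum_le_sum h2).trans ?_
    rw [Finset.sum_add_distrib, ← Finset.mul_sum, Finset.sum_const, nsmul_eq_mul]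
    have h3 : (2 * C) ^ 2 * ∑ p' ∈ S.erase p, ‖∫ z : X × X, F z.1 * conj (F z.2) ∂(ρ p p')‖ ≤
        ε / 2 * pib i := by
      calc _ ≤ (2 * C) ^ 2 * (ε / 2 * (2 * C)⁻¹ ^ 2 * pib i) :=
            mul_le_mul_of_nonneg_left h1 (by positivity)
        _ = ε / 2 * pib i := by field_simp
    have h4 : ((S.erase p).card : ℝ) ≤ pib i :=
      le_trans (by exact_mod_cast Finset.card_le_card (Finset.erase_subset _ _)) hScard
    have h5 : ((S.erase p).card : ℝ) * (ε / 2) ≤ ε / 2 * pib i := by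
      rw [mul_comm]
      exact mul_le_mul_of_nonneg_left h4 (by positivity)
    linarith
  refine (Finset.sum_le_sum hone).trans ?_
  rw [Finset.sum_const, nsmul_eq_mul]
  calc (S.card : ℝ) * (ε * pib i) ≤ pib i * (ε * pib i) :=
        mul_le_mul_of_nonneg_right hScard (by positivity)
    _ = ε * pib i ^ 2 := by ring

end Pool.Agent.Sar
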