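import Pool.Agent.Sar.DF1
import Pool.Agent.Sar.B1
import Pool.Agent.Sar.N3
import Pool.Agent.Sar.D5
import Pool.Agent.Sar.S2
import Pool.Agent.Sar.S3

/-! MP_13664e_an, module DF2: the final theorem (with the two number theoretic inputs as
hypotheses; they are proved in `Pool.Agent.SWz`). -/

set_option autoImplicit false

namespace Pool.Agent.Sar

open MeasureTheory ProbabilityTheory Filter Topology
open scoped ENNReal ComplexConjugate

variable {X : Type*} [MetricSpace X] [CompactSpace X] [mX : MeasurableSpace X] [BorelSpace X]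
  {ν : Measure X} [IsProbabilityMeasure ν]

/-- the statement of `F1`, as a choice of couplings -/
theorem F2_choice (T : X ≃ₜ X) (hE : Ergodic T ν) (hR : RatCont ν T) {x : X}
    (hx : Generic ν T x) (H : C(X, ℂ)) :
    ∃ ρ : ℕ → ℕ → Measure (X × X), (∀ p p', IsProbabilityMeasure (ρ p p')) ∧
      (∀ p p', Good ν T p → Good ν T p' → p ≠ p' → Jn ν T p p' (ρ p p') ∧
      ∀ ε : ℝ, 0 < ε → ∀ᶠ M : ℕ in atTop,
        ‖(M : ℂ)⁻¹ * ∑ m ∈ Finset.Icc 1 M,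
          H ((⇑T)^[p * m] x) * conj (H ((⇑T)^[p' * m] x))‖ ≤
        ‖∫ z : X × X, H z.1 * conj (H z.2) ∂(ρ p p')‖ + ε) := by
  have : Nonempty X := ⟨x⟩
  have h1 : ∀ p p' : ℕ, ∃ ρ : Measure (X × X), IsProbabilityMeasure ρ ∧
      (Good ν T p → Good ν T p' → p ≠ p' → Jn ν T p p' ρ ∧
      ∀ ε : ℝ, 0 < ε → ∀ᶠ M : ℕ in atTop,
        ‖(M : ℂ)⁻¹ * ∑ m ∈ Finset.Icc 1 M,
          H ((⇑T)^[p * m] x) * conj (H ((⇑T)^[p' * m] x))‖ ≤
        ‖∫ z : X × X, H z.1 * conj (H z.2) ∂ρ‖ + ε) := by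
    intro p p'
    by_cases h : Good ν T p ∧ Good ν T p' ∧ p ≠ p'
    · obtain ⟨ρ, h1, h2, h3⟩ := emp T hE hR hx h.1 h.2.1 h.2.2 H
      exact ⟨ρ, h1, fun _ _ _ => ⟨h2, h3⟩⟩
    · exact ⟨Measure.dirac (x, x), inferInstance, fun a b c => absurd ⟨a, b, c⟩ h⟩
  choose ρ h1 h2 using h1
  exact ⟨ρ, h1, h2⟩

omit [CompactSpace X] mX [BorelSpace X] in
theorem F2_iter (T : X ≃ₜ X) {l : ℂ} {g : X → ℂ} (h : ∀ x, g (T x) = l * g x) (x : X) (n : ℕ) :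
    g ((⇑T)^[n] x) = l ^ n * g x := by
  induction n with
  | zero => simp
  | succ n ih => rw [Function.iterate_succ_apply', h, ih, pow_succ]; ring

open Classical in
theorem DF2 (hLam : Pool.Agent.BGG.SWLam) (hmu : Pool.Agent.BGG.SWmu) (T : X ≃ₜ X)
    (hB : BddSeqEnt T) (hE : Ergodic T ν) (hR : RatCont ν T)
    (hG : ∃ η : ℝ, 0 < η ∧ ∀ I : Finset ℂ, (∀ l ∈ I, l ∈ EV ν T ∧ ¬ Tors l) →
      ∃ᶠ x : ℕ in atTop, η * Real.log (Real.log x) ≤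
        ∑ p ∈ (Finset.range x).filter (fun p => p.Prime ∧
          (zt p ∉ EV ν T ∧ ∀ l ∈ I, ¬ IsPow ν T p l)), (1 : ℝ) / p)
    {x : X} (hx : Generic ν T x) (g : C(X, ℂ)) :
    Tendsto (fun N : ℕ => (N : ℂ)⁻¹ * ∑ n ∈ Finset.Icc 1 N,
      g ((⇑T)^[n] x) * ((ArithmeticFunction.moebius n : ℤ) : ℂ)) atTop (𝓝 0) := by
  have : Nonempty X := ⟨x⟩
  obtain ⟨a, ha, ha1, hat⟩ := atom_pos hE hB
  obtain ⟨m, ℓ, hL⟩ := label ha ha1 hat
  obtain ⟨η, hη, hG⟩ := hG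
  obtain ⟨K, hK, hkbsz⟩ := kbsz hLam
  rw [Metric.tendsto_atTop]
  intro ε hε
  -- the parameter δ
  obtain ⟨δ, hδ, hδ'⟩ : ∃ δ : ℝ, 0 < δ ∧ K * Real.sqrt δ / (η / 2) ≤ ε / 4 := by
    refine ⟨(ε * (η / 2) / (4 * K)) ^ 2, by positivity, ?_⟩
    rw [Real.sqrt_sq (by positivity)]
    apply le_of_eq
    field_simp
  obtain ⟨I, L, gl, hI, hgT, hgl, hF1⟩ := DF1 hLam T hE hL hR g hδ
  have hfreq : ∃ᶠ J : ℕ in atTop, (η / 2) * Real.log J ≤
      ∑ i ∈ Finset.range J, ∑ p ∈ (blk i).filter (fun p => GI ν T I p), (1 : ℝ) / p := by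
    refine block_unif (fun p => GI ν T I p) hη ((hG I hI).mono fun y hy => le_of_le_of_eq hy ?_)
    refine Finset.sum_congr ?_ fun _ _ => rfl
    ext p
    rw [Finset.mem_filter, Finset.mem_filter]
    unfold GI Good
    tauto
  set H : C(X, ℂ) := g - ∑ l ∈ L, gl l with hH
  have hHx : ∀ y, H y = g y - ∑ l ∈ L, gl l y := by
    intro y
    rw [hH, ContinuousMap.sub_apply, ContinuousMap.sum_apply]
  obtain ⟨ρ, hρ, hρ'⟩ := F2_choice T hE hR hx H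
  have hblocks := hF1 ρ (fun p p' h h' hne => (hρ' p p' h h' hne).1)
  have hres := hkbsz ‖H‖ (fun n => H ((⇑T)^[n] x)) (fun n => H.norm_coe_le_norm _)
    (fun p => GI ν T I p) (fun p p' => ‖∫ z : X × X, H z.1 * conj (H z.2) ∂(ρ p p')‖)
    (fun _ _ => norm_nonneg _)
    (fun p p' _ _ hG hG' hne => (hρ' p p' hG.1 hG'.1 hne).2) δ (η / 2) hδ (by positivity)
    (by
      filter_upwards [hblocks] with i hi
      simp_rw [hHx]
      exact hi) hfreq (ε / 4) (by positivity)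
  -- the rational part
  have hrat : Tendsto (fun N : ℕ => ∑ l ∈ L, gl l x * ((N : ℂ)⁻¹ * ∑ n ∈ Finset.Icc 1 N,
      l ^ n * ((ArithmeticFunction.moebius n : ℤ) : ℂ))) atTop (𝓝 (∑ l ∈ L, gl l x * 0)) := by
    refine tendsto_finsetSum _ fun l hl => ?_
    obtain ⟨q, hq, hq'⟩ := hgT l hl
    exact (mu_root hmu hq hq').const_mul _
  simp only [mul_zero, Finset.sum_const_zero] at hrat
  have hrat' := (Metric.tendsto_atTop.1 hrat) (ε / 4) (by positivity)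
  obtain ⟨N₁, hN₁⟩ := hrat'
  obtain ⟨N₂, hN₂⟩ := eventually_atTop.1 hres
  refine ⟨max N₁ N₂, fun N hN => ?_⟩
  have h1 := hN₁ N (le_trans (le_max_left _ _) hN)
  have h2 := hN₂ N (le_trans (le_max_right _ _) hN)
  rw [dist_zero_right] at h1 ⊢
  have hdec : (N : ℂ)⁻¹ * ∑ n ∈ Finset.Icc 1 N,
      g ((⇑T)^[n] x) * ((ArithmeticFunction.moebius n : ℤ) : ℂ) =
      (N : ℂ)⁻¹ * ∑ n ∈ Finset.Icc 1 N,
      H ((⇑T)^[n] x) * ((ArithmeticFunction.moebius n : ℤ) : ℂ) +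
      ∑ l ∈ L, gl l x * ((N : ℂ)⁻¹ * ∑ n ∈ Finset.Icc 1 N,
      l ^ n * ((ArithmeticFunction.moebius n : ℤ) : ℂ)) := by
    have e1 : ∀ n, g ((⇑T)^[n] x) = H ((⇑T)^[n] x) + ∑ l ∈ L, l ^ n * gl l x := by
      intro n
      rw [hHx]
      have : ∑ l ∈ L, gl l ((⇑T)^[n] x) = ∑ l ∈ L, l ^ n * gl l x :=
        Finset.sum_congr rfl fun l hl => F2_iter T (hgl l hl) x n
      rw [this]
      ring
    simp_rw [e1, add_mul, Finset.sum_add_distrib, mul_add]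
    congr 1
    simp_rw [Finset.sum_mul, Finset.mul_sum]
    rw [Finset.sum_comm]
    refine Finset.sum_congr rfl fun l _ => Finset.sum_congr rfl fun n _ => ?_
    ring
  rw [hdec]
  calc _ ≤ _ := norm_add_le _ _
    _ ≤ (K * Real.sqrt δ / (η / 2) + ε / 4) + ε / 4 := add_le_add h2 h1.le
    _ < ε := by linarith

end Pool.Agent.Sar
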