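import Pool.Agent.Sar.DF2
import Pool.Agent.SWz.Main

/-!
# MP_13664e_an: Moebius disjointness at generic points of bounded systems

`T` is a homeomorphism of a compact metric space with bounded topological sequence entropy, `ν` an
ergodic `T`-invariant probability measure, `EV ν T` its group of (measurable) eigenvalues. Suppose

* every eigenvalue which is a root of unity has a continuous eigenfunction (`RatCont`);
* there is `η > 0` such that for every finite set `I` of eigenvalues of infinite order the primes
  `p` with `exp (2 π i / p)` not an eigenvalue and no element of `I` a `p`-th power of an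
  eigenvalue have upper `log log`-density at least `η`.

Then every point `x` generic for `ν` satisfies `(1/N) ∑_{n ≤ N} g (T^n x) μ(n) → 0` for all
continuous `g`. In a uniquely ergodic system every point is generic.
-/

set_option autoImplicit false

namespace Pool.Agent.Sar.GenericPointsErgodic

open MeasureTheory Filter Topology Pool.Agent.Sar

open Classical in
theorem result {X : Type*} [MetricSpace X] [CompactSpace X] [MeasurableSpace X] [BorelSpace X]
    (T : X ≃ₜ X) (hB : BddSeqEnt T) (ν : Measure X) [IsProbabilityMeasure ν] (hE : Ergodic T ν)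
    (hR : RatCont ν T)
    (hG : ∃ η : ℝ, 0 < η ∧ ∀ I : Finset ℂ, (∀ l ∈ I, l ∈ EV ν T ∧ ¬ Tors l) →
      ∃ᶠ x : ℕ in atTop, η * Real.log (Real.log x) ≤
        ∑ p ∈ (Finset.range x).filter (fun p => p.Prime ∧
          (zt p ∉ EV ν T ∧ ∀ l ∈ I, ¬ IsPow ν T p l)), (1 : ℝ) / p)
    (x : X) (hx : Generic ν T x) (g : C(X, ℂ)) :
    Tendsto (fun N : ℕ => (N : ℂ)⁻¹ * ∑ n ∈ Finset.Icc 1 N,
      g ((⇑T)^[n] x) * ((ArithmeticFunction.moebius n : ℤ) : ℂ)) atTop (𝓝 0) :=
  DF2 Pool.Agent.SWz.swlam Pool.Agent.SWz.swmu T hB hE hR hG hx g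

end Pool.Agent.Sar.GenericPointsErgodic
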