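import Pool.Agent.Sar.J1

/-! MP_13664e_an, module J2: equivariance. -/

set_option autoImplicit false

namespace Pool.Agent.Sar

open MeasureTheory ProbabilityTheory Filter Topology
open scoped ENNReal ComplexConjugate

variable {X : Type*} [mX : MeasurableSpace X] [StandardBorelSpace X] [Nonempty X]
  {ν : Measure X} [IsProbabilityMeasure ν]

private theorem J2_comp {v : X → ℂ} (hv : BM v) {B : X → X} (hB : Measurable B) :
    BM (fun y => v (B y)) := by
  obtain ⟨C, hC⟩ := hv.bdd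
  exact ⟨hv.meas.comp hB, C, fun x => hC _⟩

private theorem J2_BM {v : X → ℂ} (hv : B1 v) : BM v := ⟨hv.meas, 1, hv.bdd⟩

private theorem J2_int {v w : X → ℂ} (hv : BM v) (hw : BM w) :
    Integrable (fun x => v x * w x) ν := by
  obtain ⟨C, hC⟩ := hv.bdd
  obtain ⟨D, hD⟩ := hw.bdd
  refine Integrable.of_bound (hv.meas.mul hw.meas).aestronglyMeasurable (C * D)
    (Filter.Eventually.of_forall fun x => ?_)
  rw [norm_mul]
  exact mul_le_mul (hC _) (hD _) (norm_nonneg _) ((norm_nonneg _).trans (hC x))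

theorem op_comp {ρ : Measure (X × X)} [IsProbabilityMeasure ρ] (hc : Coup ν ρ) {A B : X ≃ᵐ X}
    (hA : MeasurePreserving A ν ν) (inv : ρ.map (Prod.map A B) = ρ) {v : X → ℂ} (hv : BM v) :
    ∀ᵐ x ∂ν, op ρ (fun y => v (B y)) x = op ρ v (A x) := by
  have hvB : BM (fun y => v (B y)) := J2_comp hv B.measurable
  have h1 : BM (op ρ (fun y => v (B y))) := op_BM hvB
  have h2 : BM (fun x => op ρ v (A x)) := J2_comp (op_BM hv) A.measurable
  have h3 : BM (fun x => op ρ (fun y => v (B y)) x - op ρ v (A x)) := by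
    obtain ⟨C, hC⟩ := h1.bdd
    obtain ⟨D, hD⟩ := h2.bdd
    exact ⟨h1.meas.sub h2.meas, C + D, fun x =>
      (norm_sub_le _ _).trans (add_le_add (hC x) (hD x))⟩
  have key : ∀ w : X → ℂ, B1 w →
      ∫ x, w x * (op ρ (fun y => v (B y)) x - op ρ v (A x)) ∂ν = 0 := by
    intro w hw
    have hw' : BM (fun x => w (A.symm x)) := J2_comp (J2_BM hw) A.symm.measurable
    have e1 := op_int hc hvB (J2_BM hw)
    have e2 : ∫ x, w x * op ρ v (A x) ∂ν = ∫ z, w z.1 * v (B z.2) ∂ρ := by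
      have e3 : ∫ x, w x * op ρ v (A x) ∂ν
          = ∫ x, (fun y => w (A.symm y) * op ρ v y) (A x) ∂ν := by
        refine integral_congr_ae (Filter.Eventually.of_forall fun x => ?_)
        simp
      have e30 := hA.integral_comp' (fun y => w (A.symm y) * op ρ v y)
      rw [e3]
      refine e30.trans ?_
      rw [op_int hc hv hw']
      have e4 : ∫ z, w (A.symm z.1) * v z.2 ∂ρ
          = ∫ z, w (A.symm z.1) * v z.2 ∂(ρ.map (Prod.map A B)) := by rw [inv]
      rw [e4, integral_map (A.measurable.prodMap B.measurable).aemeasurable]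
      · refine integral_congr_ae (Filter.Eventually.of_forall fun z => ?_)
        simp
      · exact ((hw'.meas.comp measurable_fst).mul
          (hv.meas.comp measurable_snd)).aestronglyMeasurable
    have e5 : ∫ x, w x * (op ρ (fun y => v (B y)) x - op ρ v (A x)) ∂ν
        = ∫ x, (w x * op ρ (fun y => v (B y)) x - w x * op ρ v (A x)) ∂ν := by
      refine integral_congr_ae (Filter.Eventually.of_forall fun x => ?_)
      simp only
      ring
    rw [e5, integral_sub (J2_int (J2_BM hw) h1) (J2_int (J2_BM hw) h2), e1, e2, sub_self]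
  filter_upwards [ae_zero_of_orth h3 key] with x hx
  exact sub_eq_zero.1 hx

theorem rel_inv {ρ₁ ρ₂ : Measure (X × X)} [IsProbabilityMeasure ρ₁] [IsProbabilityMeasure ρ₂]
    (h₁ : Coup ν ρ₁) (h₂ : Coup ν ρ₂) {A B₁ B₂ : X ≃ᵐ X} (hA : MeasurePreserving A ν ν)
    (inv₁ : ρ₁.map (Prod.map A B₁) = ρ₁) (inv₂ : ρ₂.map (Prod.map A B₂) = ρ₂)
    {S : X → X} (hS : MeasurePreserving S ν ν) (hAS : ∀ x, S (A x) = A (S x)) :
    (relProd ν S hS.measurable ρ₁ ρ₂).map (Prod.map B₁ B₂) =
      relProd ν S hS.measurable ρ₁ ρ₂ := by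
  have hmB : Measurable (Prod.map B₁ B₂ : X × X → X × X) :=
    B₁.measurable.prodMap B₂.measurable
  haveI : IsProbabilityMeasure ((relProd ν S hS.measurable ρ₁ ρ₂).map (Prod.map B₁ B₂)) :=
    Measure.isProbabilityMeasure_map hmB.aemeasurable
  refine coup_ext fun v w hv hw => ?_
  have hms : AEStronglyMeasurable (fun z : X × X => v z.1 * w z.2)
      ((relProd ν S hS.measurable ρ₁ ρ₂).map (Prod.map B₁ B₂)) :=
    ((hv.meas.comp measurable_fst).mul (hw.meas.comp measurable_snd)).aestronglyMeasurable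
  rw [integral_map hmB.aemeasurable hms]
  have e1 := rel_int (ρ₁ := ρ₁) (ρ₂ := ρ₂) hS (J2_comp (J2_BM hv) B₁.measurable)
    (J2_comp (J2_BM hw) B₂.measurable)
  have e2 := rel_int (ρ₁ := ρ₁) (ρ₂ := ρ₂) hS (J2_BM hv) (J2_BM hw)
  have e3 : ∫ x, op ρ₁ (fun y => v (B₁ y)) x * op ρ₂ (fun y => w (B₂ y)) (S x) ∂ν
      = ∫ x, (fun y => op ρ₁ v y * op ρ₂ w (S y)) (A x) ∂ν := by
    have a1 := op_comp h₁ hA inv₁ (J2_BM hv)
    have a2 := op_comp h₂ hA inv₂ (J2_BM hw)
    have a3 : ∀ᵐ x ∂ν, op ρ₂ (fun y => w (B₂ y)) (S x) = op ρ₂ w (A (S x)) :=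
      hS.quasiMeasurePreserving.ae a2
    refine integral_congr_ae ?_
    filter_upwards [a1, a3] with x hx1 hx2
    rw [hx1, hx2, hAS]
  have e4 := hA.integral_comp' (fun y => op ρ₁ v y * op ρ₂ w (S y))
  simp only [Prod.map_fst, Prod.map_snd]
  exact e1.trans ((e3.trans e4).trans e2.symm)

end Pool.Agent.Sar
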