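import Pool.Agent.Sar.J3
import Pool.Agent.Sar.K4

/-! MP_13664e_an, module J4: Markov operators of joinings on the eigenfunctions. -/

set_option autoImplicit false
set_option linter.unusedSectionVars false
set_option linter.unusedVariables false

namespace Pool.Agent.Sar

open MeasureTheory ProbabilityTheory Filter Topology
open scoped ENNReal ComplexConjugate

variable {X : Type*} [mX : MeasurableSpace X] [StandardBorelSpace X] [Nonempty X]
  {ν : Measure X} [IsProbabilityMeasure ν]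

variable {T : X ≃ᵐ X}

private theorem J4_int {μ : Measure X} [IsFiniteMeasure μ] {v : X → ℂ} (hv : BM v) :
    Integrable v μ := by
  obtain ⟨C, hC⟩ := hv.bdd
  exact Integrable.of_bound hv.meas.aestronglyMeasurable C (Filter.Eventually.of_forall hC)

private theorem J4_BM {v : X → ℂ} (hv : B1 v) : BM v := ⟨hv.meas, 1, hv.bdd⟩

private theorem J4_mul {v w : X → ℂ} (hv : BM v) (hw : BM w) : BM (fun x => v x * w x) := by
  obtain ⟨C, hC⟩ := hv.bdd
  obtain ⟨D, hD⟩ := hw.bdd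
  refine ⟨hv.meas.mul hw.meas, C * D, fun x => ?_⟩
  rw [norm_mul]
  exact mul_le_mul (hC _) (hD _) (norm_nonneg _) ((norm_nonneg _).trans (hC x))

private theorem J4_sub {v w : X → ℂ} (hv : BM v) (hw : BM w) : BM (fun x => v x - w x) := by
  obtain ⟨C, hC⟩ := hv.bdd
  obtain ⟨D, hD⟩ := hw.bdd
  exact ⟨hv.meas.sub hw.meas, C + D, fun x => (norm_sub_le _ _).trans (add_le_add (hC x) (hD x))⟩

private theorem J4_const (c : ℂ) : BM (fun _ : X => c) := ⟨measurable_const, ‖c‖, fun _ => le_rfl⟩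

private theorem J4_smul (c : ℂ) {v : X → ℂ} (hv : BM v) : BM (fun x => c * v x) :=
  J4_mul (J4_const c) hv

private theorem J4_eg (l : ℂ) : BM (eg ν T l) := ⟨eg_meas l, 1, fun x => (eg_norm l x).le⟩

private theorem J4_conj {v : X → ℂ} (hv : BM v) : BM (fun x => conj (v x)) := by
  obtain ⟨C, hC⟩ := hv.bdd
  exact ⟨Complex.continuous_conj.measurable.comp hv.meas, C, fun x => by
    rw [Complex.norm_conj]; exact hC x⟩

private theorem J4_comp {v : X → ℂ} (hv : BM v) {B : X → X} (hB : Measurable B) :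
    BM (fun y => v (B y)) := by
  obtain ⟨C, hC⟩ := hv.bdd
  exact ⟨hv.meas.comp hB, C, fun x => hC _⟩

/-- two functions with the same integrals -/
private theorem J4_eq {u v : X → ℂ} (hu : BM u) (hv : BM v)
    (h : ∀ w : X → ℂ, B1 w → ∫ x, w x * u x ∂ν = ∫ x, w x * v x ∂ν) : ∀ᵐ x ∂ν, u x = v x := by
  have h1 := ae_zero_of_orth (ν := ν) (J4_sub hu hv) (fun w hw => by
    have e : ∀ x, w x * (u x - v x) = w x * u x - w x * v x := fun x => by ring
    simp_rw [e]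
    rw [integral_sub (J4_int (J4_mul (J4_BM hw) hu)) (J4_int (J4_mul (J4_BM hw) hv)), h w hw,
      sub_self])
  filter_upwards [h1] with x hx
  exact sub_eq_zero.1 hx

private theorem J4_test {ρ : Measure (X × X)} [IsProbabilityMeasure ρ] (hc : Coup ν ρ)
    {a b v : X → ℂ} (ha : BM a) (hb : BM b) (hv : BM v) (h : ∀ᵐ z ∂ρ, a z.1 * b z.2 = v z.2) :
    ∀ᵐ x ∂ν, a x * op ρ b x = op ρ v x := by
  refine J4_eq (J4_mul ha (op_BM hb)) (op_BM hv) fun w hw => ?_
  have e1 : ∫ x, w x * (a x * op ρ b x) ∂ν = ∫ z, (w z.1 * a z.1) * b z.2 ∂ρ := by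
    rw [← op_int hc hb (J4_mul (J4_BM hw) ha)]
    refine integral_congr_ae (Filter.Eventually.of_forall fun x => ?_)
    simp only
    ring
  rw [e1, op_int hc hv (J4_BM hw)]
  refine integral_congr_ae ?_
  filter_upwards [h] with z hz
  rw [mul_assoc, hz]

private theorem J4_one {ρ : Measure (X × X)} [IsProbabilityMeasure ρ] (x : X) :
    op ρ (fun _ => (1 : ℂ)) x = 1 := by
  unfold op
  simp

private theorem J4_test2 {ρ : Measure (X × X)} [IsProbabilityMeasure ρ] (hc : Coup ν ρ)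
    {u v : X → ℂ} (hu : BM u) (hv : BM v) (h : ∀ᵐ z ∂ρ, u z.1 = v z.2) :
    ∀ᵐ x ∂ν, op ρ v x = u x := by
  have h1 := J4_test hc hu (J4_const 1) hv (by
    filter_upwards [h] with z hz
    rw [mul_one, hz])
  filter_upwards [h1] with x hx
  rw [← hx, J4_one, mul_one]

private theorem J4_ms (hE : Ergodic T ν) (n : ℕ) : MeasurePreserving (itE T n) ν ν := by
  rw [itE_coe]
  exact hE.toMeasurePreserving.iterate n

private theorem J4_coe (T : X ≃ᵐ X) (n : ℕ) (x : X) : itE T n x = (⇑T)^[n] x := by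
  rw [itE_coe]

/-- the operator intertwines the iterates -/
private theorem J4_comm (hE : Ergodic T ν) {p₀ p : ℕ} {ρ : Measure (X × X)}
    [IsProbabilityMeasure ρ] (hc : Coup ν ρ) (inv : ρ.map (Prod.map (⇑T)^[p₀] (⇑T)^[p]) = ρ)
    {v : X → ℂ} (hv : BM v) :
    ∀ᵐ x ∂ν, op ρ (fun y => v ((⇑T)^[p] y)) x = op ρ v ((⇑T)^[p₀] x) := by
  have i1 : ρ.map (Prod.map (itE T p₀) (itE T p)) = ρ := by
    rw [itE_coe, itE_coe]; exact inv
  have h1 := op_comp hc (J4_ms hE p₀) i1 hv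
  simp only [itE_coe] at h1
  exact h1

private theorem J4_trans (hE : Ergodic T ν) {p₀ p : ℕ} {ρ : Measure (X × X)}
    [IsProbabilityMeasure ρ] (hc : Coup ν ρ) (inv : ρ.map (Prod.map (⇑T)^[p₀] (⇑T)^[p]) = ρ)
    {v : X → ℂ} (hv : BM v) {b : ℂ} (h : ∀ᵐ x ∂ν, v ((⇑T)^[p] x) = b * v x) :
    ∀ᵐ x ∂ν, op ρ v ((⇑T)^[p₀] x) = b * op ρ v x := by
  have h1 := J4_comm hE hc inv hv
  have h2 := op_congr hc h
  filter_upwards [h1, h2] with x hx1 hx2
  rw [← hx1, hx2, op_smul]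

/-- eigenfunctions whose eigenvalue is not a `p₀`-th power are killed -/
theorem op_eig_zero (hE : Ergodic T ν) {p₀ p : ℕ} (h0 : Good ν T p₀) (hp : Good ν T p)
    (hne : p₀ ≠ p) {ρ : Measure (X × X)} [IsProbabilityMeasure ρ] (hc : Coup ν ρ)
    (inv : ρ.map (Prod.map (⇑T)^[p₀] (⇑T)^[p]) = ρ) {l : ℂ} (hl : l ∈ EV ν T)
    (hn : ¬ IsPow ν T p₀ l) : ∀ᵐ x ∂ν, op ρ (eg ν T l) x = 0 := by
  by_contra hcon
  have hT := hE.toMeasurePreserving
  have h1 := J4_trans hE hc inv (J4_eg (ν := ν) (T := T) l) (eig_iter hT (eg_spec hl) p)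
  obtain ⟨l0, hl0, hpow, -⟩ := good_eig hE h0 (J4_int (op_BM (J4_eg (ν := ν) (T := T) l))) h1 hcon
  obtain ⟨m, hm, -, hm2⟩ := good_bezout hT h0 hp hne hl0 hl hpow
  exact hn ⟨m, hm, hm2⟩

/-- integrals against eigenfunctions vanish if the Fourier coefficients do -/
private theorem J4_fc (hE : Ergodic T ν) {v : X → ℂ} (ho : ∀ l ∈ EV ν T, fc ν T v l = 0) {l : ℂ}
    (hl : l ∈ EV ν T) : ∫ x, v x * eg ν T l x ∂ν = 0 := by
  have hT := hE.toMeasurePreserving
  have hl' : l⁻¹ ∈ EV ν T := EV_inv hT hl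
  have h1 := eig_conj (eg_spec hl')
  have h2 : conj l⁻¹ = l := by
    rw [Complex.inv_eq_conj (EV_norm hT hl), Complex.conj_conj]
  rw [h2] at h1
  obtain ⟨c, -, hc⟩ := eig_unique hE (eg_spec hl) h1
  have h3 : ∫ x, v x * eg ν T l x ∂ν = ∫ x, c * (v x * conj (eg ν T l⁻¹ x)) ∂ν := by
    refine integral_congr_ae ?_
    filter_upwards [hc] with x hx
    rw [hx]
    ring
  have h4 : ∫ x, v x * conj (eg ν T l⁻¹ x) ∂ν = 0 := ho _ hl'
  rw [h3, integral_const_mul, h4, mul_zero]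

/-- the operator preserves the orthocomplement of the eigenfunctions -/
theorem op_orth (hE : Ergodic T ν) {p₀ p : ℕ} (h0 : Good ν T p₀) (hp : Good ν T p)
    (hne : p₀ ≠ p) {ρ : Measure (X × X)} [IsProbabilityMeasure ρ] (hc : Coup ν ρ)
    (inv : ρ.map (Prod.map (⇑T)^[p₀] (⇑T)^[p]) = ρ) {v : X → ℂ} (hv : BM v)
    (ho : ∀ l ∈ EV ν T, fc ν T v l = 0) : ∀ l ∈ EV ν T, fc ν T (op ρ v) l = 0 := by
  intro l hl
  have hT := hE.toMeasurePreserving
  have hce : BM (fun x => conj (eg ν T l x)) := J4_conj (J4_eg l)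
  have : IsProbabilityMeasure (ρ.map Prod.swap) :=
    Measure.isProbabilityMeasure_map measurable_swap.aemeasurable
  have hc' := hc.swap
  have inv' : (ρ.map Prod.swap).map (Prod.map (⇑T)^[p] (⇑T)^[p₀]) = ρ.map Prod.swap := by
    have hm1 : Measurable (Prod.map (⇑T)^[p] (⇑T)^[p₀] : X × X → X × X) :=
      (T.measurable.iterate p).prodMap (T.measurable.iterate p₀)
    have hm2 : Measurable (Prod.map (⇑T)^[p₀] (⇑T)^[p] : X × X → X × X) :=
      (T.measurable.iterate p₀).prodMap (T.measurable.iterate p)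
    rw [Measure.map_map hm1 measurable_swap]
    conv_rhs => rw [← inv, Measure.map_map measurable_swap hm2]
    rfl
  have e1 : fc ν T (op ρ v) l = ∫ x, v x * op (ρ.map Prod.swap) (fun x => conj (eg ν T l x)) x ∂ν := by
    have a1 : fc ν T (op ρ v) l = ∫ x, conj (eg ν T l x) * op ρ v x ∂ν := by
      unfold fc
      exact integral_congr_ae (Filter.Eventually.of_forall fun x => mul_comm _ _)
    rw [a1, op_int hc hv hce, op_int hc' hce hv, integral_map measurable_swap.aemeasurable]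
    · refine integral_congr_ae (Filter.Eventually.of_forall fun z => ?_)
      simp only [Prod.fst_swap, Prod.snd_swap]
      ring
    · exact ((hv.meas.comp measurable_fst).mul
        (hce.meas.comp measurable_snd)).aestronglyMeasurable
  rw [e1]
  have hit : ∀ᵐ x ∂ν, conj (eg ν T l ((⇑T)^[p₀] x)) = conj (l ^ p₀) * conj (eg ν T l x) := by
    filter_upwards [eig_iter hT (eg_spec hl) p₀] with x hx
    rw [hx, map_mul]
  have h1 := J4_trans hE hc' inv' hce hit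
  by_cases hz : ∀ᵐ x ∂ν, op (ρ.map Prod.swap) (fun x => conj (eg ν T l x)) x = 0
  · have e2 : ∫ x, v x * op (ρ.map Prod.swap) (fun x => conj (eg ν T l x)) x ∂ν =
        ∫ _x : X, (0 : ℂ) ∂ν := by
      refine integral_congr_ae ?_
      filter_upwards [hz] with x hx
      rw [hx, mul_zero]
    rw [e2, integral_zero]
  · obtain ⟨l1, hl1, -, c, -, hcc⟩ := good_eig hE hp (J4_int (op_BM hce)) h1 hz
    have e2 : ∫ x, v x * op (ρ.map Prod.swap) (fun x => conj (eg ν T l x)) x ∂ν =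
        ∫ x, c * (v x * eg ν T l1 x) ∂ν := by
      refine integral_congr_ae ?_
      filter_upwards [hcc] with x hx
      rw [hx]
      ring
    rw [e2, integral_const_mul, J4_fc hE ho hl1, mul_zero]

theorem DD_eig_zero (hE : Ergodic T ν) {p₀ p : ℕ} (h0 : Good ν T p₀) (hp : Good ν T p)
    (hne : p₀ ≠ p) {ρ : Measure (X × X)} [IsProbabilityMeasure ρ] (hJ : Jn ν T p₀ p ρ)
    {l : ℂ} (hl : l ∈ EV ν T) (hn : ¬ IsPow ν T p₀ l) (h : ℕ) :
    ∀ᵐ x ∂ν, op (DD ν T h ρ) (eg ν T l) x = 0 := by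
  have hT := hE.toMeasurePreserving
  have hc := hJ.coup
  have hz := op_eig_zero hE h0 hp hne hc hJ.inv hl hn
  have hz' : ∀ᵐ x ∂ν, op ρ (eg ν T l) ((⇑T)^[h] x) = 0 :=
    (hT.iterate h).quasiMeasurePreserving.ae hz
  refine ae_zero_of_orth (op_BM (J4_eg l)) fun w hw => ?_
  rw [op_int (DD_coup hT h hc) (J4_eg l) (J4_BM hw), DD_int hT h (J4_BM hw) (J4_eg l)]
  have e2 : ∫ x, op ρ w x * op ρ (eg ν T l) ((⇑T)^[h] x) ∂ν = ∫ _x : X, (0 : ℂ) ∂ν := by
    refine integral_congr_ae ?_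
    filter_upwards [hz'] with x hx
    rw [hx, mul_zero]
  rw [e2, integral_zero]

private theorem J4_modpow {l : ℂ} {q a b : ℕ} (hlq : l ^ q = 1) (h : a ≡ b [MOD q]) :
    l ^ a = l ^ b := by
  have h1 : ∀ n, l ^ n = l ^ (n % q) := by
    intro n
    conv_lhs => rw [← Nat.div_add_mod n q, pow_add, pow_mul, hlq, one_pow, one_mul]
  rw [h1 a, h1 b, h]

private theorem J4_norm {ρ : Measure (X × X)} [IsProbabilityMeasure ρ] {l l' k : ℂ}
    (h : ∀ᵐ z ∂ρ, eg ν T l z.1 = k * eg ν T l' z.2) : ‖k‖ = 1 := by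
  obtain ⟨z, hz⟩ := h.exists
  have h1 := congrArg norm hz
  rw [norm_mul, eg_norm, eg_norm, mul_one] at h1
  exact h1.symm

/-- torsion eigenfunctions are multiplied by `l ^ (h p / p₀)` -/
theorem DD_eig_tors (hE : Ergodic T ν) {p₀ p : ℕ} (h0 : Good ν T p₀) (hp : Good ν T p)
    (hne : p₀ ≠ p) {ρ : Measure (X × X)} [IsProbabilityMeasure ρ] (hJ : Jn ν T p₀ p ρ)
    {l : ℂ} (hl : l ∈ EV ν T) {q : ℕ} (hq : 1 ≤ q) (hlq : l ^ q = 1) {c : ℕ}
    (hc : p₀ * c ≡ 1 [MOD q]) (h : ℕ) :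
    ∀ᵐ x ∂ν, op (DD ν T h ρ) (eg ν T l) x = l ^ (h * p * c) * eg ν T l x := by
  have hT := hE.toMeasurePreserving
  have hcp := hJ.coup
  have hl0 : l ^ (p * c) ∈ EV ν T := EV_pow hl _
  have hpow : (l ^ (p * c)) ^ p₀ = l ^ p := by
    rw [← pow_mul]
    refine J4_modpow hlq ?_
    have h1 := hc.mul_left p
    rw [mul_one] at h1
    refine Nat.ModEq.trans ?_ h1
    rw [show p * c * p₀ = p * (p₀ * c) by ring]
  obtain ⟨k, hk⟩ := hJ.rat _ hl0 _ hl ⟨q, hq, by rw [← pow_mul, mul_comm, pow_mul, hlq, one_pow]⟩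
    ⟨q, hq, hlq⟩ hpow
  have hkn := J4_norm hk
  have hk0 : k ≠ 0 := by
    intro h1
    rw [h1, norm_zero] at hkn
    exact zero_ne_one hkn
  -- the operator of `ρ` on the eigenfunction
  have ha : ∀ᵐ x ∂ν, op ρ (eg ν T l) x = k⁻¹ * eg ν T (l ^ (p * c)) x := by
    refine J4_test2 hcp (J4_smul _ (J4_eg _)) (J4_eg l) ?_
    filter_upwards [hk] with z hz
    rw [hz, ← mul_assoc, inv_mul_cancel₀ hk0, one_mul]
  have ha' : ∀ᵐ x ∂ν, op ρ (eg ν T l) ((⇑T)^[h] x) =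
      k⁻¹ * eg ν T (l ^ (p * c)) ((⇑T)^[h] x) :=
    (hT.iterate h).quasiMeasurePreserving.ae ha
  have hb := eig_iter hT (eg_spec hl0) h
  refine J4_eq (op_BM (J4_eg l)) (J4_smul _ (J4_eg l)) fun w hw => ?_
  rw [op_int (DD_coup hT h hcp) (J4_eg l) (J4_BM hw), DD_int hT h (J4_BM hw) (J4_eg l)]
  have e1 : ∫ x, op ρ w x * op ρ (eg ν T l) ((⇑T)^[h] x) ∂ν =
      ∫ x, ((l ^ (p * c)) ^ h * k⁻¹) * (eg ν T (l ^ (p * c)) x * op ρ w x) ∂ν := by
    refine integral_congr_ae ?_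
    filter_upwards [ha', hb] with x hx1 hx2
    rw [hx1, hx2]
    ring
  have e2 : ∫ z, eg ν T (l ^ (p * c)) z.1 * w z.2 ∂ρ = ∫ z, k * (w z.2 * eg ν T l z.2) ∂ρ := by
    refine integral_congr_ae ?_
    filter_upwards [hk] with z hz
    rw [hz]
    ring
  have e3 : ∫ z, w z.2 * eg ν T l z.2 ∂ρ = ∫ x, w x * eg ν T l x ∂ν := by
    have a1 := integral_map (μ := ρ) measurable_snd.aemeasurable
      (f := fun x => w x * eg ν T l x) (hw.meas.mul (eg_meas l)).aestronglyMeasurable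
    rw [hcp.snd] at a1
    exact a1.symm
  rw [e1, integral_const_mul, op_int hcp (J4_BM hw) (J4_eg _), e2, integral_const_mul, e3]
  have e4 : ∫ x, w x * (l ^ (h * p * c) * eg ν T l x) ∂ν =
      l ^ (h * p * c) * ∫ x, w x * eg ν T l x ∂ν := by
    rw [← integral_const_mul]
    refine integral_congr_ae (Filter.Eventually.of_forall fun x => ?_)
    simp only
    ring
  rw [e4, ← pow_mul, show p * c * h = h * p * c by ring]
  field_simp

/-- transport of a torsion eigenfunction from `x₀` to `x₁` -/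
theorem tors_transport (hE : Ergodic T ν) {p₀ p : ℕ} (h0 : Good ν T p₀) (hp : Good ν T p)
    (hne : p₀ ≠ p) {ρ : Measure (X × X)} [IsProbabilityMeasure ρ] (hJ : Jn ν T p₀ p ρ)
    {l : ℂ} (hl : l ∈ EV ν T) {q : ℕ} (hq : 1 ≤ q) (hlq : l ^ q = 1) {c : ℕ}
    (hc : p * c ≡ 1 [MOD q]) {v w : X → ℂ} (hv : B1 v) (hw : B1 w) (h : ℕ) :
    ‖∫ x, eg ν T l x * op ρ v x * op ρ w ((⇑T)^[h] x) ∂ν‖ =
      ‖∫ z, (eg ν T (l ^ (p₀ * c)) z.1 * v z.1) * w z.2 ∂(DD ν T h ρ)‖ := by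
  have hT := hE.toMeasurePreserving
  have hcp := hJ.coup
  have hl0 : l ^ (p₀ * c) ∈ EV ν T := EV_pow hl _
  have hpow : l ^ p₀ = (l ^ (p₀ * c)) ^ p := by
    rw [← pow_mul]
    refine J4_modpow hlq ?_
    have h1 := hc.mul_left p₀
    rw [mul_one] at h1
    refine Nat.ModEq.trans h1.symm ?_
    rw [show p₀ * c * p = p₀ * (p * c) by ring]
  obtain ⟨k, hk⟩ := hJ.rat _ hl _ hl0 ⟨q, hq, hlq⟩
    ⟨q, hq, by rw [← pow_mul, mul_comm, pow_mul, hlq, one_pow]⟩ hpow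
  have hkn := J4_norm hk
  have hv' : BM (fun x => eg ν T (l ^ (p₀ * c)) x * v x) := J4_mul (J4_eg _) (J4_BM hv)
  have ha : ∀ᵐ x ∂ν, eg ν T l x * op ρ v x =
      op ρ (fun y => k * (eg ν T (l ^ (p₀ * c)) y * v y)) x := by
    refine J4_test hcp (J4_eg l) (J4_BM hv) (J4_smul k hv') ?_
    filter_upwards [hk] with z hz
    rw [hz]
    ring
  have e1 : ∫ x, eg ν T l x * op ρ v x * op ρ w ((⇑T)^[h] x) ∂ν =
      k * ∫ x, op ρ (fun y => eg ν T (l ^ (p₀ * c)) y * v y) x * op ρ w ((⇑T)^[h] x) ∂ν := by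
    rw [← integral_const_mul]
    refine integral_congr_ae ?_
    filter_upwards [ha] with x hx
    rw [hx, op_smul]
    ring
  rw [e1, norm_mul, hkn, one_mul, ← DD_int hT h hv' (J4_BM hw)]

end Pool.Agent.Sar
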