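import Pool.Agent.Sar.Defs

/-! MP_13664e_an, module K1: elementary facts on eigenfunctions of an ergodic system. -/

set_option autoImplicit false

namespace Pool.Agent.Sar

open MeasureTheory ProbabilityTheory Filter Topology
open scoped ENNReal ComplexConjugate

variable {X : Type*} [mX : MeasurableSpace X] {ν : Measure X} [IsProbabilityMeasure ν] {T : X → X}

theorem eg_spec {l : ℂ} (h : l ∈ EV ν T) : IsEig ν T l (eg ν T l) := by
  unfold eg
  rw [dif_pos h]
  exact h.choose_spec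

theorem eg_meas (l : ℂ) : Measurable (eg ν T l) := by
  by_cases h : l ∈ EV ν T
  · exact (eg_spec h).meas
  · unfold eg
    rw [dif_neg h]
    exact measurable_const

theorem eg_norm (l : ℂ) (x : X) : ‖eg ν T l x‖ = 1 := by
  by_cases h : l ∈ EV ν T
  · exact (eg_spec h).norm x
  · unfold eg
    rw [dif_neg h]
    simp

theorem EV_norm (hT : MeasurePreserving T ν ν) {l : ℂ} (h : l ∈ EV ν T) : ‖l‖ = 1 := by
  obtain ⟨e, he⟩ := h
  obtain ⟨x, hx⟩ := he.eq.exists
  have h1 := congrArg norm hx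
  rw [norm_mul, he.norm, he.norm, mul_one] at h1
  exact h1.symm

theorem EV_one : (1 : ℂ) ∈ EV ν T :=
  ⟨fun _ => 1, measurable_const, fun _ => by simp, Filter.Eventually.of_forall fun _ => by simp⟩

theorem eig_mul {l l' : ℂ} {e e' : X → ℂ} (h : IsEig ν T l e) (h' : IsEig ν T l' e') :
    IsEig ν T (l * l') (fun x => e x * e' x) := by
  refine ⟨h.meas.mul h'.meas, fun x => by rw [norm_mul, h.norm, h'.norm, mul_one], ?_⟩
  filter_upwards [h.eq, h'.eq] with x hx hx'
  rw [hx, hx']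
  ring

theorem eig_conj {l : ℂ} {e : X → ℂ} (h : IsEig ν T l e) :
    IsEig ν T (conj l) (fun x => conj (e x)) := by
  refine ⟨Complex.continuous_conj.measurable.comp h.meas, fun x => by
    rw [Complex.norm_conj, h.norm], ?_⟩
  filter_upwards [h.eq] with x hx
  rw [hx, map_mul]

theorem EV_mul {l l' : ℂ} (h : l ∈ EV ν T) (h' : l' ∈ EV ν T) : l * l' ∈ EV ν T := by
  obtain ⟨e, he⟩ := h
  obtain ⟨e', he'⟩ := h'
  exact ⟨_, eig_mul he he'⟩

theorem EV_inv (hT : MeasurePreserving T ν ν) {l : ℂ} (h : l ∈ EV ν T) : l⁻¹ ∈ EV ν T := by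
  rw [Complex.inv_eq_conj (EV_norm hT h)]
  obtain ⟨e, he⟩ := h
  exact ⟨_, eig_conj he⟩

theorem EV_pow {l : ℂ} (h : l ∈ EV ν T) (n : ℕ) : l ^ n ∈ EV ν T := by
  induction n with
  | zero => rw [pow_zero]; exact EV_one
  | succ n ih => rw [pow_succ]; exact EV_mul ih h

theorem EV_zpow (hT : MeasurePreserving T ν ν) {l : ℂ} (h : l ∈ EV ν T) (n : ℤ) :
    l ^ n ∈ EV ν T := by
  obtain ⟨m, rfl | rfl⟩ := n.eq_nat_or_neg
  · rw [zpow_natCast]; exact EV_pow h m
  · rw [zpow_neg, zpow_natCast]; exact EV_inv hT (EV_pow h m)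

theorem eig_iter (hT : MeasurePreserving T ν ν) {l : ℂ} {e : X → ℂ} (h : IsEig ν T l e) (n : ℕ) :
    ∀ᵐ x ∂ν, e (T^[n] x) = l ^ n * e x := by
  induction n with
  | zero => exact Filter.Eventually.of_forall fun x => by simp
  | succ n ih =>
    have h1 : ∀ᵐ x ∂ν, e (T^[n] (T x)) = l ^ n * e (T x) := hT.quasiMeasurePreserving.ae ih
    filter_upwards [h1, h.eq] with x hx hx'
    rw [Function.iterate_succ_apply, hx, hx']
    ring

private theorem K1_cc (z : ℂ) (hz : ‖z‖ = 1) : z * conj z = 1 := by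
  rw [Complex.mul_conj', hz]
  norm_num

/-- an integrable function transforming by a scalar is a multiple of the eigenfunction -/
theorem eig_of_fun (hE : Ergodic T ν) {l : ℂ} {v : X → ℂ} (hv : Integrable v ν)
    (h : ∀ᵐ x ∂ν, v (T x) = l * v x) (h0 : ¬ (∀ᵐ x ∂ν, v x = 0)) :
    l ∈ EV ν T ∧ ∃ c : ℂ, c ≠ 0 ∧ ∀ᵐ x ∂ν, v x = c * eg ν T l x := by
  have hT : MeasurePreserving T ν ν := hE.toMeasurePreserving
  have hqT := hT.quasiMeasurePreserving
  obtain ⟨v', hv'm, hvv'⟩ := hv.aestronglyMeasurable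
  have hvT : ∀ᵐ x ∂ν, v (T x) = v' (T x) := hqT.ae hvv'
  have hv'i : Integrable v' ν := hv.congr hvv'
  have hI : 0 < ∫ x, ‖v' x‖ ∂ν := by
    rcases (integral_nonneg (μ := ν) (f := fun x => ‖v' x‖) fun x => norm_nonneg _).lt_or_eq with
      h1 | h1
    · exact h1
    · exfalso
      apply h0
      rw [eq_comm, integral_eq_zero_iff_of_nonneg (fun x => norm_nonneg _) hv'i.norm] at h1
      filter_upwards [h1, hvv'] with x hx hx'
      rw [hx']
      exact norm_eq_zero.1 hx
  have hl : ‖l‖ = 1 := by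
    have h1 : ∫ x, ‖v' (T x)‖ ∂ν = ∫ x, ‖v' x‖ ∂ν := by
      have h2 : ∫ y, ‖v' y‖ ∂ν = ∫ y, ‖v' y‖ ∂(ν.map T) := by rw [hT.map_eq]
      rw [h2, integral_map hT.measurable.aemeasurable]
      exact hv'm.norm.aestronglyMeasurable
    have h3 : ∫ x, ‖v' (T x)‖ ∂ν = ‖l‖ * ∫ x, ‖v' x‖ ∂ν := by
      rw [← integral_const_mul]
      refine integral_congr_ae ?_
      filter_upwards [h, hvv', hvT] with x hx hx' hx''
      rw [← hx'', hx, norm_mul, hx']
    rw [h1] at h3
    have h4 : (‖l‖ - 1) * ∫ x, ‖v' x‖ ∂ν = 0 := by linarith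
    rcases mul_eq_zero.1 h4 with h5 | h5
    · linarith
    · exact absurd h5 hI.ne'
  have hinv : (fun x => ‖v' x‖) ∘ T =ᵐ[ν] fun x => ‖v' x‖ := by
    filter_upwards [h, hvv', hvT] with x hx hx' hx''
    simp only [Function.comp]
    rw [← hx'', hx, norm_mul, hl, one_mul, hx']
  obtain ⟨k, hk⟩ := hE.ae_eq_const_of_ae_eq_comp_ae hv'm.norm.aestronglyMeasurable hinv
  have hk0 : 0 < k := by
    have h1 : ∫ x, ‖v' x‖ ∂ν = k := by
      rw [integral_congr_ae hk]
      simp
    rwa [h1] at hI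
  classical
  have hEV : l ∈ EV ν T := by
    refine ⟨fun x => if ‖v' x‖ = k then v' x / k else 1, ?_, fun x => ?_, ?_⟩
    · refine Measurable.ite ?_ (hv'm.measurable.div_const _) measurable_const
      exact measurableSet_eq_fun hv'm.measurable.norm measurable_const
    · by_cases hx : ‖v' x‖ = k
      · simp only [if_pos hx]
        rw [norm_div, hx, Complex.norm_real, Real.norm_eq_abs, abs_of_pos hk0,
          div_self hk0.ne']
      · simp only [if_neg hx]
        simp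
    · have hkT : ∀ᵐ x ∂ν, ‖v' (T x)‖ = k := hqT.ae hk
      filter_upwards [h, hvv', hvT, hk, hkT] with x hx hx' hx'' hx3 hx4
      have hx3' : ‖v' x‖ = k := hx3
      rw [if_pos hx4, if_pos hx3', ← hx'', hx, hx']
      ring
  refine ⟨hEV, ?_⟩
  have he := eg_spec hEV
  have hm2 : AEStronglyMeasurable (fun x => v' x * conj (eg ν T l x)) ν :=
    (hv'm.measurable.mul (Complex.continuous_conj.measurable.comp he.meas)).aestronglyMeasurable
  have hinv2 : (fun x => v' x * conj (eg ν T l x)) ∘ T =ᵐ[ν]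
      fun x => v' x * conj (eg ν T l x) := by
    filter_upwards [h, hvv', hvT, he.eq] with x hx hx' hx'' hx3
    simp only [Function.comp]
    rw [← hx'', hx, hx3, map_mul, hx']
    have := K1_cc l hl
    calc l * v' x * (conj l * conj (eg ν T l x))
        = (l * conj l) * (v' x * conj (eg ν T l x)) := by ring
      _ = v' x * conj (eg ν T l x) := by rw [this, one_mul]
  obtain ⟨c, hc⟩ := hE.ae_eq_const_of_ae_eq_comp_ae hm2 hinv2
  have hfin : ∀ᵐ x ∂ν, v x = c * eg ν T l x := by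
    filter_upwards [hc, hvv'] with x hx hx'
    have h1 : v' x * conj (eg ν T l x) = c := hx
    have h2 := K1_cc _ (he.norm x)
    rw [hx', ← h1]
    calc v' x = v' x * (eg ν T l x * conj (eg ν T l x)) := by rw [h2, mul_one]
      _ = v' x * conj (eg ν T l x) * eg ν T l x := by ring
  refine ⟨c, ?_, hfin⟩
  rintro rfl
  apply h0
  filter_upwards [hfin] with x hx
  rw [hx, zero_mul]

private theorem K1_int {e : X → ℂ} (hm : Measurable e) (hn : ∀ x, ‖e x‖ = 1) :
    Integrable e ν :=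
  Integrable.of_bound hm.aestronglyMeasurable 1 (Filter.Eventually.of_forall fun x => (hn x).le)

theorem eig_unique (hE : Ergodic T ν) {l : ℂ} {e e' : X → ℂ} (h : IsEig ν T l e)
    (h' : IsEig ν T l e') : ∃ c : ℂ, ‖c‖ = 1 ∧ ∀ᵐ x ∂ν, e x = c * e' x := by
  have hne : ∀ {f : X → ℂ}, IsEig ν T l f → ¬ (∀ᵐ x ∂ν, f x = 0) := by
    intro f hf h0
    obtain ⟨x, hx⟩ := h0.exists
    have h1 := hf.norm x
    rw [hx, norm_zero] at h1
    exact zero_ne_one h1
  obtain ⟨-, c, hc0, hc⟩ := eig_of_fun hE (K1_int h.meas h.norm) h.eq (hne h)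
  obtain ⟨-, c', hc0', hc'⟩ := eig_of_fun hE (K1_int h'.meas h'.norm) h'.eq (hne h')
  have hfin : ∀ᵐ x ∂ν, e x = (c / c') * e' x := by
    filter_upwards [hc, hc'] with x hx hx'
    rw [hx, hx']
    field_simp
  refine ⟨c / c', ?_, hfin⟩
  obtain ⟨x, hx⟩ := hfin.exists
  have h1 := congrArg norm hx
  rw [norm_mul, h.norm, h'.norm, mul_one] at h1
  exact h1.symm

theorem eig_orth (hT : MeasurePreserving T ν ν) {l l' : ℂ} {e e' : X → ℂ} (h : IsEig ν T l e)
    (h' : IsEig ν T l' e') (hne : l ≠ l') : ∫ x, e x * conj (e' x) ∂ν = 0 := by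
  have hm : Measurable fun x => e x * conj (e' x) :=
    h.meas.mul (Complex.continuous_conj.measurable.comp h'.meas)
  have h1 : ∫ x, e (T x) * conj (e' (T x)) ∂ν = ∫ x, e x * conj (e' x) ∂ν := by
    have h2 : ∫ y, e y * conj (e' y) ∂ν = ∫ y, e y * conj (e' y) ∂(ν.map T) := by rw [hT.map_eq]
    rw [h2, integral_map hT.measurable.aemeasurable]
    exact hm.aestronglyMeasurable
  have h3 : ∫ x, e (T x) * conj (e' (T x)) ∂ν = (l * conj l') * ∫ x, e x * conj (e' x) ∂ν := by
    rw [← integral_const_mul]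
    refine integral_congr_ae ?_
    filter_upwards [h.eq, h'.eq] with x hx hx'
    rw [hx, hx', map_mul]
    ring
  rw [h1] at h3
  have h4 : (1 - l * conj l') * ∫ x, e x * conj (e' x) ∂ν = 0 := by linear_combination h3
  rcases mul_eq_zero.1 h4 with h5 | h5
  · exfalso
    apply hne
    have h6 := K1_cc l' (EV_norm hT ⟨e', h'⟩)
    have h7 : l * conj l' = 1 := by linear_combination -h5
    calc l = l * (l' * conj l') := by rw [h6, mul_one]
      _ = (l * conj l') * l' := by ring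
      _ = l' := by rw [h7, one_mul]
  · exact h5

theorem fc_eg_self {l : ℂ} : fc ν T (eg ν T l) l = 1 := by
  unfold fc
  have h1 : ∀ x, eg ν T l x * conj (eg ν T l x) = 1 := fun x => K1_cc _ (eg_norm l x)
  simp_rw [h1]
  simp

theorem fc_eg_ne (hT : MeasurePreserving T ν ν) {l l' : ℂ} (h : l ∈ EV ν T) (h' : l' ∈ EV ν T)
    (hne : l ≠ l') : fc ν T (eg ν T l) l' = 0 :=
  eig_orth hT (eg_spec h) (eg_spec h') hne

end Pool.Agent.Sar
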