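import Pool.Agent.Sar.K1
import Pool.Agent.Sar.K3

/-! MP_13664e_an, module K2: the Kronecker `σ`-algebra and its `L²` space. -/

set_option autoImplicit false
set_option linter.unusedSectionVars false

namespace Pool.Agent.Sar

open MeasureTheory ProbabilityTheory Filter Topology
open scoped ENNReal ComplexConjugate

variable {X : Type*} [mX : MeasurableSpace X] {ν : Measure X} [IsProbabilityMeasure ν] {T : X → X}

/-! ### Trigonometric polynomials and functions in `HK` -/

/-- trigonometric polynomials, as functions -/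
noncomputable def K2_TP (ν : Measure X) (T : X → X) : Submodule ℂ (X → ℂ) :=
  Submodule.span ℂ {e | ∃ l, IsEig ν T l e}

/-- the function lies in `HK` -/
def K2_in (ν : Measure X) (T : X → X) (f : X → ℂ) : Prop :=
  ∃ g ∈ HK ν T, (g : X → ℂ) =ᵐ[ν] f

omit [IsProbabilityMeasure ν] in
theorem K2_BM_add {f g : X → ℂ} (hf : BM f) (hg : BM g) : BM (fun x => f x + g x) := by
  obtain ⟨C, hC⟩ := hf.bdd
  obtain ⟨D, hD⟩ := hg.bdd
  exact ⟨hf.meas.add hg.meas, C + D, fun x => (norm_add_le _ _).trans (add_le_add (hC x) (hD x))⟩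

omit [IsProbabilityMeasure ν] in
theorem K2_BM_mul {f g : X → ℂ} (hf : BM f) (hg : BM g) : BM (fun x => f x * g x) := by
  obtain ⟨C, hC⟩ := hf.bdd
  obtain ⟨D, hD⟩ := hg.bdd
  refine ⟨hf.meas.mul hg.meas, C * D, fun x => ?_⟩
  rw [norm_mul]
  exact mul_le_mul (hC x) (hD x) (norm_nonneg _) ((norm_nonneg _).trans (hC x))

omit [IsProbabilityMeasure ν] in
theorem K2_BM_const (c : ℂ) : BM (fun _ : X => c) := ⟨measurable_const, ‖c‖, fun _ => le_rfl⟩

omit [IsProbabilityMeasure ν] in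
theorem K2_BM_sub {f g : X → ℂ} (hf : BM f) (hg : BM g) : BM (fun x => f x - g x) := by
  obtain ⟨C, hC⟩ := hf.bdd
  obtain ⟨D, hD⟩ := hg.bdd
  exact ⟨hf.meas.sub hg.meas, C + D, fun x => (norm_sub_le _ _).trans (add_le_add (hC x) (hD x))⟩

omit [IsProbabilityMeasure ν] in
theorem K2_BM_ind {s : Set X} (hs : MeasurableSet s) : BM (s.indicator fun _ => (1 : ℂ)) := by
  refine ⟨measurable_const.indicator hs, 1, fun x => ?_⟩
  by_cases hx : x ∈ s
  · rw [Set.indicator_of_mem hx]; simp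
  · rw [Set.indicator_of_notMem hx]; simp

omit [IsProbabilityMeasure ν] in
theorem K2_TP_BM {P : X → ℂ} (hP : P ∈ K2_TP ν T) : BM P := by
  induction hP using Submodule.span_induction with
  | mem e he =>
    obtain ⟨l, he⟩ := he
    exact ⟨he.meas, 1, fun x => (he.norm x).le⟩
  | zero => exact K2_BM_const 0
  | add f g _ _ hf hg => exact K2_BM_add hf hg
  | smul c f _ hf => exact K2_BM_mul (K2_BM_const c) hf

theorem K2_memLp {f : X → ℂ} (hf : BM f) : MemLp f 2 ν := K3_memLp hf.meas hf.bdd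

theorem K2_TP_span {P : X → ℂ} (hP : P ∈ K2_TP ν T) :
    ∃ g ∈ Submodule.span ℂ {g : Lp ℂ 2 ν | ∃ l e, IsEig ν T l e ∧ (g : X → ℂ) =ᵐ[ν] e},
      (g : X → ℂ) =ᵐ[ν] P := by
  induction hP using Submodule.span_induction with
  | mem e he =>
    obtain ⟨l, he⟩ := he
    have h1 : MemLp e 2 ν := K2_memLp ⟨he.meas, 1, fun x => (he.norm x).le⟩
    exact ⟨h1.toLp e, Submodule.subset_span ⟨l, e, he, h1.coeFn_toLp⟩, h1.coeFn_toLp⟩
  | zero => exact ⟨0, Submodule.zero_mem _, Lp.coeFn_zero _ _ _⟩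
  | add f g _ _ hf hg =>
    obtain ⟨u, hu, hu'⟩ := hf
    obtain ⟨w, hw, hw'⟩ := hg
    refine ⟨u + w, Submodule.add_mem _ hu hw, ?_⟩
    exact (Lp.coeFn_add u w).trans (hu'.add hw')
  | smul c f _ hf =>
    obtain ⟨u, hu, hu'⟩ := hf
    refine ⟨c • u, Submodule.smul_mem _ c hu, ?_⟩
    exact (Lp.coeFn_smul c u).trans (hu'.const_smul c)

theorem K2_span_TP {g : Lp ℂ 2 ν}
    (hg : g ∈ Submodule.span ℂ {g : Lp ℂ 2 ν | ∃ l e, IsEig ν T l e ∧ (g : X → ℂ) =ᵐ[ν] e}) :
    ∃ P ∈ K2_TP ν T, (g : X → ℂ) =ᵐ[ν] P := by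
  induction hg using Submodule.span_induction with
  | mem g hg =>
    obtain ⟨l, e, he, h⟩ := hg
    exact ⟨e, Submodule.subset_span ⟨l, he⟩, h⟩
  | zero => exact ⟨0, Submodule.zero_mem _, Lp.coeFn_zero _ _ _⟩
  | add f g _ _ hf hg =>
    obtain ⟨u, hu, hu'⟩ := hf
    obtain ⟨w, hw, hw'⟩ := hg
    refine ⟨u + w, Submodule.add_mem _ hu hw, ?_⟩
    exact (Lp.coeFn_add f g).trans (hu'.add hw')
  | smul c f _ hf =>
    obtain ⟨u, hu, hu'⟩ := hf
    refine ⟨c • u, Submodule.smul_mem _ c hu, ?_⟩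
    exact (Lp.coeFn_smul c f).trans (hu'.const_smul c)

theorem K2_normsq (h : Lp ℂ 2 ν) : ‖h‖ ^ 2 = ∫ x, ‖(h : X → ℂ) x‖ ^ 2 ∂ν := by
  have h1 : ((‖h‖ ^ 2 : ℝ) : ℂ) = ((∫ x, ‖(h : X → ℂ) x‖ ^ 2 ∂ν : ℝ) : ℂ) := by
    have h2 : ((‖h‖ ^ 2 : ℝ) : ℂ) = inner ℂ h h := by
      rw [inner_self_eq_norm_sq_to_K]
      push_cast
      rfl
    rw [h2, L2.inner_def, ← integral_complex_ofReal]
    refine integral_congr_ae (Eventually.of_forall fun x => ?_)
    show (inner ℂ ((h : X → ℂ) x) ((h : X → ℂ) x) : ℂ) = _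
    rw [inner_self_eq_norm_sq_to_K]
    push_cast
    rfl
  exact_mod_cast h1

theorem K2_dist {f g : Lp ℂ 2 ν} {u w : X → ℂ} (hf : (f : X → ℂ) =ᵐ[ν] u)
    (hg : (g : X → ℂ) =ᵐ[ν] w) : ‖f - g‖ ^ 2 = ∫ x, ‖u x - w x‖ ^ 2 ∂ν := by
  rw [K2_normsq]
  refine integral_congr_ae ?_
  filter_upwards [Lp.coeFn_sub f g, hf, hg] with x h1 h2 h3
  rw [h1, Pi.sub_apply, h2, h3]

theorem K2_in_TP {P : X → ℂ} (hP : P ∈ K2_TP ν T) : K2_in ν T P := by
  obtain ⟨g, hg, h⟩ := K2_TP_span hP
  exact ⟨g, Submodule.le_topologicalClosure _ hg, h⟩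

theorem K2_in_approx {f : X → ℂ} (h : K2_in ν T f) {ε : ℝ} (hε : 0 < ε) :
    ∃ P ∈ K2_TP ν T, ∫ x, ‖f x - P x‖ ^ 2 ∂ν ≤ ε := by
  obtain ⟨g, hg, hgf⟩ := h
  have h1 : g ∈ closure ((Submodule.span ℂ {g : Lp ℂ 2 ν | ∃ l e, IsEig ν T l e ∧
      (g : X → ℂ) =ᵐ[ν] e} : Submodule ℂ (Lp ℂ 2 ν)) : Set (Lp ℂ 2 ν)) := hg
  rw [Metric.mem_closure_iff] at h1
  obtain ⟨b, hb, hd⟩ := h1 (Real.sqrt ε) (Real.sqrt_pos.2 hε)
  obtain ⟨P, hP, hbP⟩ := K2_span_TP hb
  refine ⟨P, hP, ?_⟩
  rw [← K2_dist hgf hbP, ← dist_eq_norm]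
  calc dist g b ^ 2 ≤ Real.sqrt ε ^ 2 := by
        have := hd.le
        gcongr
    _ = ε := Real.sq_sqrt hε.le

theorem K2_closed {f : X → ℂ} (hf : BM f) (h : ∀ ε : ℝ, 0 < ε → ∃ u, K2_in ν T u ∧
    ∫ x, ‖f x - u x‖ ^ 2 ∂ν ≤ ε) : K2_in ν T f := by
  have hfL : MemLp f 2 ν := K2_memLp hf
  refine ⟨hfL.toLp f, ?_, hfL.coeFn_toLp⟩
  have hcl : IsClosed ((HK ν T : Submodule ℂ (Lp ℂ 2 ν)) : Set (Lp ℂ 2 ν)) :=
    Submodule.isClosed_topologicalClosure _
  refine (Metric.mem_of_closed' hcl).2 fun ε hε => ?_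
  obtain ⟨u, ⟨g, hg, hgu⟩, hd⟩ := h (ε ^ 2 / 4) (by positivity)
  refine ⟨g, hg, ?_⟩
  rw [dist_eq_norm]
  have h1 : ‖hfL.toLp f - g‖ ^ 2 ≤ (ε / 2) ^ 2 := by
    rw [K2_dist hfL.coeFn_toLp hgu]
    calc _ ≤ ε ^ 2 / 4 := hd
      _ = (ε / 2) ^ 2 := by ring
  have h2 := (sq_le_sq₀ (norm_nonneg _) (by positivity)).1 h1
  linarith

theorem K2_in_congr {f g : X → ℂ} (h : K2_in ν T f) (hfg : ∀ᵐ x ∂ν, f x = g x) :
    K2_in ν T g := by
  obtain ⟨u, hu, h1⟩ := h
  exact ⟨u, hu, h1.trans hfg⟩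

theorem K2_in_add {f g : X → ℂ} (hf : K2_in ν T f) (hg : K2_in ν T g) :
    K2_in ν T (fun x => f x + g x) := by
  obtain ⟨u, hu, h1⟩ := hf
  obtain ⟨w, hw, h2⟩ := hg
  exact ⟨u + w, Submodule.add_mem _ hu hw, (Lp.coeFn_add u w).trans (h1.add h2)⟩

theorem K2_in_smul {f : X → ℂ} (c : ℂ) (hf : K2_in ν T f) : K2_in ν T (fun x => c * f x) := by
  obtain ⟨u, hu, h1⟩ := hf
  exact ⟨c • u, Submodule.smul_mem _ c hu, (Lp.coeFn_smul c u).trans (h1.const_smul c)⟩

theorem K2_in_sub {f g : X → ℂ} (hf : K2_in ν T f) (hg : K2_in ν T g) :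
    K2_in ν T (fun x => f x - g x) := by
  have h1 := K2_in_add hf (K2_in_smul (-1) hg)
  refine K2_in_congr h1 (Eventually.of_forall fun x => ?_)
  show f x + -1 * g x = f x - g x
  ring

theorem K2_in_const (c : ℂ) : K2_in ν T (fun _ => c) := by
  have h1 : IsEig ν T 1 (fun _ : X => (1 : ℂ)) :=
    ⟨measurable_const, fun _ => by simp, Eventually.of_forall fun _ => by simp⟩
  have h2 := K2_in_smul c (K2_in_TP (ν := ν) (T := T) (Submodule.subset_span ⟨1, h1⟩))
  refine K2_in_congr h2 (Eventually.of_forall fun x => ?_)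
  show c * 1 = c
  ring

/-- dominated convergence -/
theorem K2_in_lim {f : X → ℂ} {F : ℕ → X → ℂ} (hf : Measurable f) (hF : ∀ n, Measurable (F n))
    {C : ℝ} (hC : ∀ n x, ‖F n x‖ ≤ C) (hin : ∀ n, K2_in ν T (F n))
    (hlim : ∀ x, Tendsto (fun n => F n x) atTop (𝓝 (f x))) : K2_in ν T f := by
  have hfC : ∀ x, ‖f x‖ ≤ C := fun x =>
    le_of_tendsto (hlim x).norm (Eventually.of_forall fun n => hC n x)
  refine K2_closed ⟨hf, C, hfC⟩ fun ε hε => ?_
  have h1 : Tendsto (fun n => ∫ x, ‖f x - F n x‖ ^ 2 ∂ν) atTop (𝓝 (∫ _x : X, (0 : ℝ) ∂ν)) := by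
    refine tendsto_integral_of_dominated_convergence (fun _ => (2 * C) ^ 2) (fun n => ?_)
      (integrable_const _) (fun n => Eventually.of_forall fun x => ?_)
      (Eventually.of_forall fun x => ?_)
    · exact ((hf.sub (hF n)).norm.pow_const 2).aestronglyMeasurable
    · rw [Real.norm_of_nonneg (by positivity)]
      have h2 : ‖f x - F n x‖ ≤ 2 * C := by
        refine (norm_sub_le _ _).trans ?_
        have := hfC x
        have := hC n x
        linarith
      gcongr
    · have h2 := (tendsto_const_nhds (x := f x)).sub (hlim x)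
      rw [sub_self] at h2
      have h3 := h2.norm.pow 2
      simpa using h3
  rw [integral_zero] at h1
  obtain ⟨n, hn⟩ := ((tendsto_order.1 h1).2 ε hε).exists
  exact ⟨F n, hin n, hn.le⟩

theorem K2_in_eig_mul {l : ℂ} {e f : X → ℂ} (he : IsEig ν T l e) (hf : BM f)
    (h : K2_in ν T f) : K2_in ν T (fun x => e x * f x) := by
  refine K2_closed (K2_BM_mul ⟨he.meas, 1, fun x => (he.norm x).le⟩ hf) fun ε hε => ?_
  obtain ⟨P, hP, hd⟩ := K2_in_approx h hε
  refine ⟨fun x => e x * P x, K2_in_TP ?_, ?_⟩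
  · clear hd
    induction hP using Submodule.span_induction with
    | mem e' he' =>
      obtain ⟨l', he'⟩ := he'
      exact Submodule.subset_span ⟨l * l', eig_mul he he'⟩
    | zero =>
      have h1 : (fun x => e x * (0 : X → ℂ) x) = 0 := by funext x; simp
      rw [h1]; exact Submodule.zero_mem _
    | add f g _ _ hf hg =>
      have h1 : (fun x => e x * (f + g) x) = (fun x => e x * f x) + fun x => e x * g x := by
        funext x; simp [mul_add]
      rw [h1]; exact Submodule.add_mem _ hf hg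
    | smul c f _ hf =>
      have h1 : (fun x => e x * (c • f) x) = c • fun x => e x * f x := by
        funext x; simp; ring
      rw [h1]; exact Submodule.smul_mem _ c hf
  · refine (le_of_eq ?_).trans hd
    refine integral_congr_ae (Eventually.of_forall fun x => ?_)
    show ‖e x * f x - e x * P x‖ ^ 2 = ‖f x - P x‖ ^ 2
    rw [← mul_sub, norm_mul, he.norm, one_mul]

theorem K2_in_TP_mul {P f : X → ℂ} (hP : P ∈ K2_TP ν T) (hf : BM f) (h : K2_in ν T f) :
    K2_in ν T (fun x => P x * f x) := by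
  induction hP using Submodule.span_induction with
  | mem e he =>
    obtain ⟨l, he⟩ := he
    exact K2_in_eig_mul he hf h
  | zero =>
    refine K2_in_congr (K2_in_const 0) (Eventually.of_forall fun x => ?_)
    show (0 : ℂ) = 0 * f x
    ring
  | add u w _ _ hu hw =>
    refine K2_in_congr (K2_in_add hu hw) (Eventually.of_forall fun x => ?_)
    show u x * f x + w x * f x = (u x + w x) * f x
    ring
  | smul c u _ hu =>
    refine K2_in_congr (K2_in_smul c hu) (Eventually.of_forall fun x => ?_)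
    show c * (u x * f x) = (c * u x) * f x
    ring

theorem K2_int {f : X → ℂ} (hf : BM f) : Integrable (fun x => ‖f x‖ ^ 2) ν := by
  obtain ⟨C, hC⟩ := hf.bdd
  refine Integrable.of_bound (hf.meas.norm.pow_const 2).aestronglyMeasurable (C ^ 2)
    (Eventually.of_forall fun x => ?_)
  rw [Real.norm_of_nonneg (by positivity)]
  have := hC x
  gcongr

theorem K2_in_mul {f g : X → ℂ} (hf : BM f) (hg : BM g) (h : K2_in ν T f) (h' : K2_in ν T g) :
    K2_in ν T (fun x => f x * g x) := by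
  refine K2_closed (K2_BM_mul hf hg) fun ε hε => ?_
  obtain ⟨C, hC⟩ := hg.bdd
  obtain ⟨P, hP, hd⟩ := K2_in_approx h (ε := ε / (C ^ 2 + 1)) (by positivity)
  refine ⟨fun x => P x * g x, K2_in_TP_mul hP hg h', ?_⟩
  have hPB := K2_TP_BM hP
  calc ∫ x, ‖f x * g x - P x * g x‖ ^ 2 ∂ν ≤ ∫ x, C ^ 2 * ‖f x - P x‖ ^ 2 ∂ν := by
        refine integral_mono (K2_int (K2_BM_sub (K2_BM_mul hf hg) (K2_BM_mul hPB hg)))
          ((K2_int (K2_BM_sub hf hPB)).const_mul _) fun x => ?_
        show ‖f x * g x - P x * g x‖ ^ 2 ≤ C ^ 2 * ‖f x - P x‖ ^ 2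
        rw [← sub_mul, norm_mul, mul_pow, mul_comm]
        have := hC x
        gcongr
    _ = C ^ 2 * ∫ x, ‖f x - P x‖ ^ 2 ∂ν := integral_const_mul _ _
    _ ≤ C ^ 2 * (ε / (C ^ 2 + 1)) := by gcongr
    _ ≤ ε := by
        rw [mul_div_assoc', div_le_iff₀ (by positivity)]
        nlinarith

theorem K2_in_conj {f : X → ℂ} (hf : BM f) (h : K2_in ν T f) :
    K2_in ν T (fun x => conj (f x)) := by
  have hB : BM (fun x => conj (f x)) := by
    obtain ⟨C, hC⟩ := hf.bdd
    exact ⟨Complex.continuous_conj.measurable.comp hf.meas, C, fun x => by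
      rw [RCLike.norm_conj]; exact hC x⟩
  refine K2_closed hB fun ε hε => ?_
  obtain ⟨P, hP, hd⟩ := K2_in_approx h hε
  refine ⟨fun x => conj (P x), K2_in_TP ?_, ?_⟩
  · clear hd
    induction hP using Submodule.span_induction with
    | mem e' he' =>
      obtain ⟨l', he'⟩ := he'
      exact Submodule.subset_span ⟨conj l', eig_conj he'⟩
    | zero =>
      have h1 : (fun x => conj ((0 : X → ℂ) x)) = 0 := by funext x; simp
      rw [h1]; exact Submodule.zero_mem _
    | add f g _ _ hf hg =>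
      have h1 : (fun x => conj ((f + g) x)) = (fun x => conj (f x)) + fun x => conj (g x) := by
        funext x; simp
      rw [h1]; exact Submodule.add_mem _ hf hg
    | smul c f _ hf =>
      have h1 : (fun x => conj ((c • f) x)) = (conj c) • fun x => conj (f x) := by
        funext x; simp
      rw [h1]; exact Submodule.smul_mem _ _ hf
  · refine (le_of_eq ?_).trans hd
    refine integral_congr_ae (Eventually.of_forall fun x => ?_)
    show ‖conj (f x) - conj (P x)‖ ^ 2 = ‖f x - P x‖ ^ 2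
    rw [← map_sub, RCLike.norm_conj]

/-! ### The sets whose indicator is in `HK` form a `σ`-algebra -/

theorem K2_ind_le (s : Set X) (x : X) : ‖s.indicator (fun _ => (1 : ℂ)) x‖ ≤ 1 := by
  classical
  by_cases hx : x ∈ s
  · rw [Set.indicator_of_mem hx]; simp
  · rw [Set.indicator_of_notMem hx]; simp

theorem K2_ind_univ : K2_in ν T ((Set.univ : Set X).indicator fun _ => (1 : ℂ)) := by
  refine K2_in_congr (K2_in_const 1) (Eventually.of_forall fun x => ?_)
  simp

theorem K2_ind_compl {s : Set X} (h : K2_in ν T (s.indicator fun _ => (1 : ℂ))) :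
    K2_in ν T (sᶜ.indicator fun _ => (1 : ℂ)) := by
  refine K2_in_congr (K2_in_sub (K2_in_const 1) h) (Eventually.of_forall fun x => ?_)
  by_cases hx : x ∈ s
  · simp [hx]
  · simp [hx]

theorem K2_ind_inter {s t : Set X} (hs : MeasurableSet s) (ht : MeasurableSet t)
    (h : K2_in ν T (s.indicator fun _ => (1 : ℂ))) (h' : K2_in ν T (t.indicator fun _ => (1 : ℂ))) :
    K2_in ν T ((s ∩ t).indicator fun _ => (1 : ℂ)) := by
  refine K2_in_congr (K2_in_mul (K2_BM_ind hs) (K2_BM_ind ht) h h')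
    (Eventually.of_forall fun x => ?_)
  by_cases hx : x ∈ s <;> by_cases hy : x ∈ t <;> simp [hx, hy]

theorem K2_ind_union {s t : Set X} (hs : MeasurableSet s) (ht : MeasurableSet t)
    (h : K2_in ν T (s.indicator fun _ => (1 : ℂ))) (h' : K2_in ν T (t.indicator fun _ => (1 : ℂ))) :
    K2_in ν T ((s ∪ t).indicator fun _ => (1 : ℂ)) := by
  have h1 := K2_ind_compl (K2_ind_inter hs.compl ht.compl (K2_ind_compl h) (K2_ind_compl h'))
  rwa [← Set.compl_union, compl_compl] at h1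

theorem K2_ind_iUnion {f : ℕ → Set X} (hm : ∀ n, MeasurableSet (f n))
    (h : ∀ n, K2_in ν T ((f n).indicator fun _ => (1 : ℂ))) :
    K2_in ν T ((⋃ n, f n).indicator fun _ => (1 : ℂ)) := by
  let g : ℕ → Set X := fun n => Nat.rec ∅ (fun k s => s ∪ f k) n
  have g0 : g 0 = ∅ := rfl
  have gs : ∀ n, g (n + 1) = g n ∪ f n := fun n => rfl
  have hgm : ∀ n, MeasurableSet (g n) := by
    intro n
    induction n with
    | zero => exact MeasurableSet.empty
    | succ n ih => rw [gs]; exact ih.union (hm n)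
  have hg : ∀ n, K2_in ν T ((g n).indicator fun _ => (1 : ℂ)) := by
    intro n
    induction n with
    | zero =>
      refine K2_in_congr (K2_in_const 0) (Eventually.of_forall fun x => ?_)
      rw [g0]
      simp
    | succ n ih => rw [gs]; exact K2_ind_union (hgm n) (hm n) ih (h n)
  have hmem : ∀ n x, x ∈ g n ↔ ∃ k < n, x ∈ f k := by
    intro n x
    induction n with
    | zero => simp [g0]
    | succ n ih =>
      rw [gs, Set.mem_union, ih]
      constructor
      · rintro (⟨k, hk, hx⟩ | hx)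
        · exact ⟨k, by omega, hx⟩
        · exact ⟨n, by omega, hx⟩
      · rintro ⟨k, hk, hx⟩
        rcases Nat.lt_succ_iff_lt_or_eq.1 hk with h1 | rfl
        · exact Or.inl ⟨k, h1, hx⟩
        · exact Or.inr hx
  refine K2_in_lim (F := fun n => (g n).indicator fun _ => (1 : ℂ)) (C := 1)
    (measurable_const.indicator (MeasurableSet.iUnion hm))
    (fun n => measurable_const.indicator (hgm n)) (fun n x => ?_) hg (fun x => ?_)
  · exact K2_ind_le _ _
  · by_cases hx : x ∈ ⋃ n, f n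
    · obtain ⟨k, hk⟩ := Set.mem_iUnion.1 hx
      rw [Set.indicator_of_mem hx]
      refine tendsto_const_nhds.congr' ?_
      filter_upwards [eventually_gt_atTop k] with n hn
      rw [Set.indicator_of_mem ((hmem n x).2 ⟨k, hn, hk⟩)]
    · rw [Set.indicator_of_notMem hx]
      refine tendsto_const_nhds.congr' (Eventually.of_forall fun n => ?_)
      show (0 : ℂ) = (g n).indicator (fun _ => (1 : ℂ)) x
      rw [Set.indicator_of_notMem]
      intro hx'
      obtain ⟨k, _, hk⟩ := (hmem n x).1 hx'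
      exact hx (Set.mem_iUnion.2 ⟨k, hk⟩)

/-- the `σ`-algebra of the sets whose indicator is in `HK` -/
def K2_ms (ν : Measure X) [IsProbabilityMeasure ν] (T : X → X) : MeasurableSpace X where
  MeasurableSet' s := MeasurableSet[mX] s ∧ K2_in ν T (s.indicator fun _ => (1 : ℂ))
  measurableSet_empty := by
    refine ⟨MeasurableSet.empty, ?_⟩
    refine K2_in_congr (K2_in_const 0) (Eventually.of_forall fun x => ?_)
    simp
  measurableSet_compl := fun s hs => ⟨hs.1.compl, K2_ind_compl hs.2⟩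
  measurableSet_iUnion := fun f hf =>
    ⟨MeasurableSet.iUnion fun n => (hf n).1, K2_ind_iUnion (fun n => (hf n).1) fun n => (hf n).2⟩

theorem Kr_le : Kr ν T ≤ mX := MeasurableSpace.generateFrom_le fun _ hs => hs.1

theorem K2_iff {s : Set X} : MeasurableSet[Kr ν T] s ↔
    MeasurableSet s ∧ K2_in ν T (s.indicator fun _ => (1 : ℂ)) := by
  constructor
  · intro hs
    have h1 : Kr ν T ≤ K2_ms ν T := MeasurableSpace.generateFrom_le fun t ht => ht
    exact h1 s hs
  · intro hs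
    exact MeasurableSpace.measurableSet_generateFrom hs

theorem K2_Ioi {Y : Type*} [MeasurableSpace Y] {f : Y → ℝ}
    (h : ∀ c, MeasurableSet (f ⁻¹' Set.Ioi c)) : Measurable f := measurable_of_Ioi h

/-- a bounded real function in `HK` is `Kr`-measurable -/
theorem K2_real {f : X → ℝ} (hm : Measurable f) {C : ℝ} (hC : ∀ x, |f x| ≤ C)
    (h : K2_in ν T (fun x => (f x : ℂ))) : Measurable[Kr ν T] f := by
  have hcm : ∀ {g : X → ℝ}, Measurable g → Measurable (fun x => (g x : ℂ)) := fun hg =>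
    Complex.measurable_ofReal.comp hg
  have hpm : ∀ p : Polynomial ℝ, Measurable (fun x => p.eval (f x)) := fun p =>
    p.continuous.measurable.comp hm
  have hpow : ∀ n : ℕ, K2_in ν T (fun x => ((f x ^ n : ℝ) : ℂ)) := by
    intro n
    induction n with
    | zero =>
      refine K2_in_congr (K2_in_const 1) (Eventually.of_forall fun x => ?_)
      simp
    | succ n ih =>
      have hB : BM (fun x => ((f x ^ n : ℝ) : ℂ)) := by
        refine ⟨hcm (hm.pow_const n), C ^ n, fun x => ?_⟩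
        rw [Complex.norm_real, norm_pow, Real.norm_eq_abs]
        have := hC x
        gcongr
      have hB' : BM (fun x => (f x : ℂ)) := by
        refine ⟨hcm hm, C, fun x => ?_⟩
        rw [Complex.norm_real, Real.norm_eq_abs]
        exact hC x
      refine K2_in_congr (K2_in_mul hB hB' ih h) (Eventually.of_forall fun x => ?_)
      show ((f x ^ n : ℝ) : ℂ) * (f x : ℂ) = ((f x ^ (n + 1) : ℝ) : ℂ)
      rw [pow_succ]
      push_cast
      ring
  have hpol : ∀ p : Polynomial ℝ, K2_in ν T (fun x => ((p.eval (f x) : ℝ) : ℂ)) := by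
    intro p
    induction p using Polynomial.induction_on' with
    | add p q hp hq =>
      refine K2_in_congr (K2_in_add hp hq) (Eventually.of_forall fun x => ?_)
      show ((p.eval (f x) : ℝ) : ℂ) + ((q.eval (f x) : ℝ) : ℂ) = (((p + q).eval (f x) : ℝ) : ℂ)
      rw [Polynomial.eval_add]
      push_cast
      rfl
    | monomial n a =>
      refine K2_in_congr (K2_in_smul (a : ℂ) (hpow n)) (Eventually.of_forall fun x => ?_)
      show (a : ℂ) * ((f x ^ n : ℝ) : ℂ) = (((Polynomial.monomial n a).eval (f x) : ℝ) : ℂ)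
      rw [Polynomial.eval_monomial]
      push_cast
      rfl
  -- continuous functions of `f`
  have hcont : ∀ φ : ℝ → ℝ, Continuous φ → (∀ t, |φ t| ≤ 1) →
      K2_in ν T (fun x => ((φ (f x) : ℝ) : ℂ)) := by
    intro φ hφ hφ1
    have hpoly : ∀ n : ℕ, ∃ p : Polynomial ℝ, ∀ t ∈ Set.Icc (-C) C,
        |p.eval t - φ t| < 1 / ((n : ℝ) + 1) := fun n =>
      exists_polynomial_near_of_continuousOn (-C) C φ hφ.continuousOn _ (by positivity)
    choose p hp using hpoly
    have hmem : ∀ x, f x ∈ Set.Icc (-C) C := fun x => abs_le.1 (hC x)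
    refine K2_in_lim (F := fun n x => (((p n).eval (f x) : ℝ) : ℂ)) (C := 2)
      (hcm (hφ.measurable.comp hm)) (fun n => hcm (hpm _)) (fun n x => ?_) (fun n => hpol _)
      (fun x => ?_)
    · rw [Complex.norm_real, Real.norm_eq_abs]
      have h1 := hp n (f x) (hmem x)
      have h2 := hφ1 (f x)
      have h3 : (1 : ℝ) / ((n : ℝ) + 1) ≤ 1 := by
        rw [div_le_one (by positivity)]
        have : (0 : ℝ) ≤ n := Nat.cast_nonneg n
        linarith
      have h4 := abs_sub_abs_le_abs_sub ((p n).eval (f x)) (φ (f x))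
      linarith
    · have h1 : Tendsto (fun n => (p n).eval (f x)) atTop (𝓝 (φ (f x))) := by
        rw [tendsto_iff_norm_sub_tendsto_zero]
        refine squeeze_zero (fun n => norm_nonneg _) (fun n => (hp n (f x) (hmem x)).le) ?_
        exact tendsto_one_div_add_atTop_nhds_zero_nat
      exact (Complex.continuous_ofReal.tendsto _).comp h1
  refine @K2_Ioi X (Kr ν T) f fun c => ?_
  rw [K2_iff]
  refine ⟨hm measurableSet_Ioi, ?_⟩
  -- the indicator of `f > c` as a limit of continuous functions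
  let φ : ℕ → ℝ → ℝ := fun n t => min 1 ((n : ℝ) * max 0 (t - c))
  have hφc : ∀ n, Continuous (φ n) := by
    intro n
    fun_prop
  have hφ0 : ∀ n t, 0 ≤ φ n t := fun n t => le_min zero_le_one (by positivity)
  have hφ1 : ∀ n t, φ n t ≤ 1 := fun n t => min_le_left _ _
  refine K2_in_lim (F := fun n x => ((φ n (f x) : ℝ) : ℂ)) (C := 1)
    (measurable_const.indicator (hm measurableSet_Ioi)) (fun n => hcm ((hφc n).measurable.comp hm))
    (fun n x => ?_) (fun n => hcont (φ n) (hφc n) fun t => ?_) (fun x => ?_)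
  · rw [Complex.norm_real, Real.norm_of_nonneg (hφ0 _ _)]
    exact hφ1 _ _
  · rw [abs_of_nonneg (hφ0 _ _)]
    exact hφ1 _ _
  · by_cases hx : c < f x
    · rw [Set.indicator_of_mem (show x ∈ f ⁻¹' Set.Ioi c from hx)]
      refine tendsto_const_nhds.congr' ?_
      obtain ⟨N, hN⟩ := exists_nat_gt (1 / (f x - c))
      filter_upwards [eventually_ge_atTop N] with n hn
      have h1 : (1 : ℝ) ≤ (n : ℝ) * max 0 (f x - c) := by
        have h2 : 0 < f x - c := sub_pos.2 hx
        rw [max_eq_right h2.le]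
        rw [div_lt_iff₀ h2] at hN
        have h3 : (N : ℝ) ≤ n := by exact_mod_cast hn
        nlinarith
      show (1 : ℂ) = ((min 1 ((n : ℝ) * max 0 (f x - c)) : ℝ) : ℂ)
      rw [min_eq_left h1]
      simp
    · rw [Set.indicator_of_notMem (show x ∉ f ⁻¹' Set.Ioi c from hx)]
      refine tendsto_const_nhds.congr' (Eventually.of_forall fun n => ?_)
      show (0 : ℂ) = ((min 1 ((n : ℝ) * max 0 (f x - c)) : ℝ) : ℂ)
      rw [max_eq_left (by linarith [not_lt.1 hx]), mul_zero, min_eq_right zero_le_one]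
      simp

theorem K2_of_in {f : X → ℂ} (hf : BM f) (h : K2_in ν T f) : Measurable[Kr ν T] f := by
  obtain ⟨C, hC⟩ := hf.bdd
  have h1 := K2_in_conj hf h
  have hre : Measurable[Kr ν T] (fun x => (f x).re) := by
    refine K2_real (Complex.measurable_re.comp hf.meas) (C := C)
      (fun x => (Complex.abs_re_le_norm _).trans (hC x)) ?_
    refine K2_in_congr (K2_in_smul (1 / 2) (K2_in_add h h1)) (Eventually.of_forall fun x => ?_)
    show (1 / 2 : ℂ) * (f x + conj (f x)) = ((f x).re : ℂ)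
    rw [Complex.add_conj]
    push_cast
    ring
  have him : Measurable[Kr ν T] (fun x => (f x).im) := by
    refine K2_real (Complex.measurable_im.comp hf.meas) (C := C)
      (fun x => (Complex.abs_im_le_norm _).trans (hC x)) ?_
    refine K2_in_congr (K2_in_smul (-Complex.I / 2) (K2_in_sub h h1))
      (Eventually.of_forall fun x => ?_)
    show (-Complex.I / 2 : ℂ) * (f x - conj (f x)) = ((f x).im : ℂ)
    rw [Complex.sub_conj]
    have h2 : Complex.I * Complex.I = -1 := Complex.I_mul_I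
    calc (-Complex.I / 2 : ℂ) * (((2 * (f x).im : ℝ) : ℂ) * Complex.I)
        = -(Complex.I * Complex.I) * ((f x).im : ℂ) := by push_cast; ring
      _ = _ := by rw [h2]; ring
  have h3 : f = fun x => ((f x).re : ℂ) + ((f x).im : ℂ) * Complex.I := by
    funext x
    exact (Complex.re_add_im (f x)).symm
  rw [h3]
  exact (Complex.measurable_ofReal.comp hre).add
    ((Complex.measurable_ofReal.comp him).mul_const Complex.I)

/-- every measurable eigenfunction is `Kr`-measurable -/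
theorem eig_Kr (hT : MeasurePreserving T ν ν) {l : ℂ} {e : X → ℂ} (h : IsEig ν T l e) :
    Measurable[Kr ν T] e :=
  K2_of_in ⟨h.meas, 1, fun x => (h.norm x).le⟩ (K2_in_TP (Submodule.subset_span ⟨l, h⟩))

theorem eg_Kr (hT : MeasurePreserving T ν ν) {l : ℂ} (h : l ∈ EV ν T) :
    Measurable[Kr ν T] (eg ν T l) := eig_Kr hT (eg_spec h)

/-- null sets belong to `Kr`: a measurable function a.e. equal to a `Kr`-measurable one is
`Kr`-measurable -/
theorem Kr_congr {v w : X → ℂ} (hv : Measurable[Kr ν T] v) (hw : Measurable w)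
    (h : ∀ᵐ x ∂ν, v x = w x) : Measurable[Kr ν T] w := by
  intro s hs
  rw [K2_iff]
  refine ⟨hw hs, K2_in_congr (K2_iff.1 (hv hs)).2 ?_⟩
  filter_upwards [h] with x hx
  by_cases h1 : v x ∈ s
  · rw [Set.indicator_of_mem (show x ∈ v ⁻¹' s from h1),
      Set.indicator_of_mem (show x ∈ w ⁻¹' s from by
        show w x ∈ s
        rw [← hx]
        exact h1)]
  · rw [Set.indicator_of_notMem (show x ∉ v ⁻¹' s from h1),
      Set.indicator_of_notMem (show x ∉ w ⁻¹' s from fun h2 => h1 (by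
        rw [hx]
        exact h2))]

/-- the indicator of a set of `Kr` lies in `HK` -/
theorem Kr_ind (hT : MeasurePreserving T ν ν) {s : Set X} (hs : MeasurableSet[Kr ν T] s) :
    ∃ g ∈ HK ν T, (g : X → ℂ) =ᵐ[ν] s.indicator (fun _ => (1 : ℂ)) := (K2_iff.1 hs).2

theorem K2_simple {Y : Type*} [MeasurableSpace Y] {v : Y → ℂ} (hv : Measurable v) :
    ∃ F : ℕ → SimpleFunc Y ℂ, (∀ n x, ‖F n x‖ ≤ ‖v x‖ + ‖v x‖) ∧
      ∀ x, Tendsto (fun n => F n x) atTop (𝓝 (v x)) := by
  refine ⟨SimpleFunc.approxOn v hv Set.univ 0 (Set.mem_univ 0), fun n x => ?_, fun x => ?_⟩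
  · exact SimpleFunc.norm_approxOn_zero_le hv (Set.mem_univ 0) x n
  · exact SimpleFunc.tendsto_approxOn hv (Set.mem_univ 0) (by simp)

theorem K2_simple_ind {Y : Type*} [MeasurableSpace Y] {P : (Y → ℂ) → Prop}
    (h1 : ∀ (c : ℂ) (s : Set Y), MeasurableSet s → P (s.indicator fun _ => c))
    (h2 : ∀ f g, P f → P g → P (f + g)) (f : SimpleFunc Y ℂ) : P f := by
  induction f using SimpleFunc.induction with
  | @const c s hs =>
    have h3 := h1 c s hs
    convert h3 using 1
    funext x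
    by_cases hx : x ∈ s
    · simp [hx]
    · simp [hx]
  | add hd hf hg => exact h2 _ _ hf hg

/-- bounded `Kr`-measurable functions are in `HK` -/
theorem K2_in_of {v : X → ℂ} (hv : Measurable[Kr ν T] v) {C : ℝ} (hC : ∀ x, ‖v x‖ ≤ C) :
    K2_in ν T v := by
  have hs : ∀ f : @SimpleFunc X (Kr ν T) ℂ, K2_in ν T f := by
    intro f
    refine @K2_simple_ind X (Kr ν T) (K2_in ν T) (fun c s hs => ?_) (fun f g hf hg => ?_) f
    · refine K2_in_congr (K2_in_smul c (K2_iff.1 hs).2) (Eventually.of_forall fun x => ?_)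
      by_cases hx : x ∈ s
      · simp [hx]
      · simp [hx]
    · exact K2_in_add hf hg
  obtain ⟨F, hF1, hF2⟩ := @K2_simple X (Kr ν T) v hv
  refine K2_in_lim (F := fun n => F n) (C := C + C) (hv.mono Kr_le le_rfl) (fun n => ?_)
    (fun n x => ?_) (fun n => hs _) hF2
  · exact (@SimpleFunc.measurable X ℂ (Kr ν T) _ (F n)).mono Kr_le le_rfl
  · exact (hF1 n x).trans (add_le_add (hC x) (hC x))

/-- a trigonometric polynomial as a sum over eigenvalues -/
theorem K2_TP_sum (hE : Ergodic T ν) {P : X → ℂ} (hP : P ∈ K2_TP ν T) :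
    ∃ (L : Finset ℂ) (c : ℂ → ℂ), (↑L ⊆ EV ν T) ∧
      ∀ᵐ x ∂ν, P x = ∑ l ∈ L, c l * eg ν T l x := by
  classical
  induction hP using Submodule.span_induction with
  | mem e he =>
    obtain ⟨l, he⟩ := he
    have hl : l ∈ EV ν T := ⟨e, he⟩
    obtain ⟨c, _, hc⟩ := eig_unique hE he (eg_spec hl)
    refine ⟨{l}, fun _ => c, by simpa using hl, ?_⟩
    filter_upwards [hc] with x hx
    rw [hx, Finset.sum_singleton]
  | zero => exact ⟨∅, fun _ => 0, by simp, Eventually.of_forall fun x => by simp⟩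
  | add u w _ _ hu hw =>
    obtain ⟨L, c, hL, h1⟩ := hu
    obtain ⟨L', c', hL', h2⟩ := hw
    refine ⟨L ∪ L', fun l => (if l ∈ L then c l else 0) + (if l ∈ L' then c' l else 0), ?_, ?_⟩
    · rw [Finset.coe_union]
      exact Set.union_subset hL hL'
    · filter_upwards [h1, h2] with x h3 h4
      rw [Pi.add_apply, h3, h4]
      simp_rw [add_mul]
      rw [Finset.sum_add_distrib]
      congr 1
      · rw [← Finset.sum_subset (Finset.subset_union_left (s₁ := L) (s₂ := L'))]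
        · refine Finset.sum_congr rfl fun l hl => ?_
          rw [if_pos hl]
        · intro l _ hl
          rw [if_neg hl, zero_mul]
      · rw [← Finset.sum_subset (Finset.subset_union_right (s₁ := L) (s₂ := L'))]
        · refine Finset.sum_congr rfl fun l hl => ?_
          rw [if_pos hl]
        · intro l _ hl
          rw [if_neg hl, zero_mul]
  | smul a u _ hu =>
    obtain ⟨L, c, hL, h1⟩ := hu
    refine ⟨L, fun l => a * c l, hL, ?_⟩
    filter_upwards [h1] with x h3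
    rw [Pi.smul_apply, smul_eq_mul, h3, Finset.mul_sum]
    refine Finset.sum_congr rfl fun l _ => ?_
    ring

theorem K2_eg_BM (l : ℂ) : BM (eg ν T l) := ⟨eg_meas l, 1, fun x => (eg_norm l x).le⟩

/-- the eigenfunctions in `L²` -/
noncomputable def K2_e (ν : Measure X) [IsProbabilityMeasure ν] (T : X → X) (l : EV ν T) :
    Lp ℂ 2 ν :=
  (K2_memLp (ν := ν) (K2_eg_BM (ν := ν) (T := T) l.1)).toLp (eg ν T l.1)

theorem K2_e_ae (l : EV ν T) : (K2_e ν T l : X → ℂ) =ᵐ[ν] eg ν T l.1 :=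
  MemLp.coeFn_toLp _

theorem K2_inner_fc (l : EV ν T) {v : X → ℂ} (hv : BM v) :
    (inner ℂ (K2_e ν T l) ((K2_memLp (ν := ν) hv).toLp v) : ℂ) = fc ν T v l.1 := by
  rw [K2_e, K3_inner, fc]
  refine integral_congr_ae (Eventually.of_forall fun x => ?_)
  show conj (eg ν T l.1 x) * v x = v x * conj (eg ν T l.1 x)
  ring

theorem K2_ortho (hE : Ergodic T ν) : Orthonormal ℂ (K2_e ν T) := by
  rw [orthonormal_iff_ite]
  intro l l'
  have h1 := K2_inner_fc l (v := eg ν T l'.1) (K2_eg_BM l'.1)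
  rw [K2_e] at h1 ⊢
  rw [K2_e]
  rw [h1]
  by_cases h : l = l'
  · rw [if_pos h, h, fc_eg_self]
  · rw [if_neg h]
    exact fc_eg_ne hE.toMeasurePreserving l'.2 l.2 fun h2 => h (Subtype.ext h2.symm)

theorem K2_sum_BM (L : Finset ℂ) (c : ℂ → ℂ) : BM (fun x => ∑ l ∈ L, c l * eg ν T l x) := by
  classical
  induction L using Finset.induction_on with
  | empty => simpa using K2_BM_const (X := X) 0
  | insert a s ha ih =>
    simp_rw [Finset.sum_insert ha]
    exact K2_BM_add (K2_BM_mul (K2_BM_const _) (K2_eg_BM a)) ih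

/-- Pythagoras -/
theorem K2_pyth {H : Type*} [NormedAddCommGroup H] [InnerProductSpace ℂ H] {ι : Type*}
    {e : ι → H} (he : Orthonormal ℂ e) (s : Finset ι) (x : H) (c : ι → ℂ) :
    ‖x - ∑ i ∈ s, (inner ℂ (e i) x : ℂ) • e i‖ ≤ ‖x - ∑ i ∈ s, c i • e i‖ := by
  set r := x - ∑ i ∈ s, (inner ℂ (e i) x : ℂ) • e i with hr
  set d := ∑ i ∈ s, ((inner ℂ (e i) x : ℂ) - c i) • e i with hd
  have h1 : x - ∑ i ∈ s, c i • e i = r + d := by
    rw [hr, hd]
    simp_rw [sub_smul]
    rw [Finset.sum_sub_distrib]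
    abel
  have h2 : ∀ j ∈ s, (inner ℂ (e j) r : ℂ) = 0 := by
    intro j hj
    rw [hr, inner_sub_right, he.inner_right_sum _ hj, sub_self]
  have h3 : (inner ℂ d r : ℂ) = 0 := by
    rw [hd, sum_inner]
    refine Finset.sum_eq_zero fun j hj => ?_
    rw [inner_smul_left, h2 j hj, mul_zero]
  have h4 : ‖r + d‖ * ‖r + d‖ = ‖r‖ * ‖r‖ + ‖d‖ * ‖d‖ :=
    norm_add_sq_eq_norm_sq_add_norm_sq_of_inner_eq_zero (𝕜 := ℂ) r d (by
      rw [← inner_conj_symm, h3, map_zero])
  rw [h1]
  nlinarith [norm_nonneg r, norm_nonneg d, norm_nonneg (r + d)]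

theorem K2_lp_sum (L : Finset (EV ν T)) (c : EV ν T → ℂ) :
    ((∑ l ∈ L, c l • K2_e ν T l : Lp ℂ 2 ν) : X → ℂ) =ᵐ[ν]
      fun x => ∑ l ∈ L, c l * eg ν T l.1 x := by
  classical
  induction L using Finset.induction_on with
  | empty =>
    simp only [Finset.sum_empty]
    exact Lp.coeFn_zero _ _ _
  | insert a s ha ih =>
    rw [Finset.sum_insert ha]
    refine (Lp.coeFn_add _ _).trans ?_
    filter_upwards [ih, Lp.coeFn_smul (c a) (K2_e ν T a), K2_e_ae a] with x h1 h2 h3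
    rw [Pi.add_apply, h1, h2, Pi.smul_apply, h3, Finset.sum_insert ha]
    rfl

/-- the partial Fourier sum is the best approximation -/
theorem K2_best (hE : Ergodic T ν) {v : X → ℂ} (hv : BM v) (L : Finset ℂ) (hL : ↑L ⊆ EV ν T)
    (c : ℂ → ℂ) : ∫ x, ‖v x - ∑ l ∈ L, fc ν T v l * eg ν T l x‖ ^ 2 ∂ν ≤
      ∫ x, ‖v x - ∑ l ∈ L, c l * eg ν T l x‖ ^ 2 ∂ν := by
  classical
  set L1 : Finset (EV ν T) := L.attach.image (fun l => ⟨l.1, hL l.2⟩) with hL1
  have hsum : ∀ f : ℂ → ℂ, ∑ l ∈ L1, f l.1 = ∑ l ∈ L, f l := by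
    intro f
    rw [hL1, Finset.sum_image, Finset.sum_attach L f]
    intro a _ b _ hab
    have := congrArg Subtype.val hab
    exact Subtype.ext this
  have h1 := K2_pyth (K2_ortho hE) L1 ((K2_memLp (ν := ν) hv).toLp v) (fun l => c l.1)
  have h2 : ∀ f : EV ν T → ℂ, ∀ g : ℂ → ℂ, (∀ l, f l = g l.1) →
      ‖(K2_memLp (ν := ν) hv).toLp v - ∑ l ∈ L1, f l • K2_e ν T l‖ ^ 2 =
        ∫ x, ‖v x - ∑ l ∈ L, g l * eg ν T l x‖ ^ 2 ∂ν := by
    intro f g hfg
    rw [K2_dist (MemLp.coeFn_toLp _) (K2_lp_sum L1 f)]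
    refine integral_congr_ae (Eventually.of_forall fun x => ?_)
    have h3 : ∑ l ∈ L1, f l * eg ν T l.1 x = ∑ l ∈ L, g l * eg ν T l x := by
      rw [← hsum fun l => g l * eg ν T l x]
      exact Finset.sum_congr rfl fun l _ => by rw [hfg]
    show ‖v x - ∑ l ∈ L1, f l * eg ν T l.1 x‖ ^ 2 = _
    rw [h3]
  rw [← h2 (fun l => (inner ℂ (K2_e ν T l) ((K2_memLp (ν := ν) hv).toLp v) : ℂ)) (fc ν T v)
    (fun l => K2_inner_fc l hv), ← h2 (fun l => c l.1) c (fun _ => rfl)]
  gcongr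

/-- density of trigonometric polynomials; the partial Fourier sums may be enlarged -/
theorem Kr_dense (hE : Ergodic T ν) {v : X → ℂ} (hv : Measurable[Kr ν T] v)
    (hb : ∃ C : ℝ, ∀ x, ‖v x‖ ≤ C) {ε : ℝ} (hε : 0 < ε) :
    ∃ L : Finset ℂ, (↑L ⊆ EV ν T) ∧ ∀ L' : Finset ℂ, L ⊆ L' → (↑L' ⊆ EV ν T) →
      ∫ x, ‖v x - ∑ l ∈ L', fc ν T v l * eg ν T l x‖ ^ 2 ∂ν ≤ ε := by
  classical
  have hvB : BM v := ⟨hv.mono Kr_le le_rfl, hb⟩
  obtain ⟨C, hC⟩ := hb
  obtain ⟨P, hP, hd⟩ := K2_in_approx (K2_in_of hv hC) hε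
  obtain ⟨L, c, hL, hPc⟩ := K2_TP_sum hE hP
  refine ⟨L, hL, fun L' hLL hL' => ?_⟩
  refine (K2_best hE hvB L' hL' (fun l => if l ∈ L then c l else 0)).trans ?_
  refine (le_of_eq ?_).trans hd
  refine integral_congr_ae ?_
  filter_upwards [hPc] with x hx
  rw [hx, ← Finset.sum_subset hLL]
  · congr 3
    exact Finset.sum_congr rfl fun l hl => by rw [if_pos hl]
  · intro l _ hl
    rw [if_neg hl, zero_mul]

/-- Bessel -/
theorem bessel (hE : Ergodic T ν) {v : X → ℂ} (hv : BM v) (L : Finset ℂ) (hL : ↑L ⊆ EV ν T) :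
    ∑ l ∈ L, ‖fc ν T v l‖ ^ 2 ≤ ∫ x, ‖v x‖ ^ 2 ∂ν := by
  classical
  set L1 : Finset (EV ν T) := L.attach.image (fun l => ⟨l.1, hL l.2⟩) with hL1
  have hsum : ∀ f : ℂ → ℝ, ∑ l ∈ L1, f l.1 = ∑ l ∈ L, f l := by
    intro f
    rw [hL1, Finset.sum_image, Finset.sum_attach L f]
    intro a _ b _ hab
    have := congrArg Subtype.val hab
    exact Subtype.ext this
  have h1 := (K2_ortho hE).sum_inner_products_le (s := L1) ((K2_memLp (ν := ν) hv).toLp v)
  have h2 : ∑ l ∈ L1, ‖(inner ℂ (K2_e ν T l) ((K2_memLp (ν := ν) hv).toLp v) : ℂ)‖ ^ 2 =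
      ∑ l ∈ L, ‖fc ν T v l‖ ^ 2 := by
    rw [← hsum fun l => ‖fc ν T v l‖ ^ 2]
    exact Finset.sum_congr rfl fun l _ => by rw [K2_inner_fc l hv]
  have h3 : ‖(K2_memLp (ν := ν) hv).toLp v‖ ^ 2 = ∫ x, ‖v x‖ ^ 2 ∂ν := by
    rw [K2_normsq]
    refine integral_congr_ae ?_
    filter_upwards [MemLp.coeFn_toLp (K2_memLp (ν := ν) hv)] with x hx
    rw [hx]
  rw [← h2, ← h3]
  exact h1

/-- composition with a map which preserves the measure and the eigenfunctions -/
theorem K2_comp {R : X → X} (hR : MeasurePreserving R ν ν)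
    (he : ∀ l e, IsEig ν T l e → IsEig ν T l (fun x => e (R x))) {v : X → ℂ}
    (hv : Measurable[Kr ν T] v) : Measurable[Kr ν T] (fun x => v (R x)) := by
  intro s hs
  rw [K2_iff]
  have hs' := K2_iff.1 (hv hs)
  refine ⟨hR.measurable hs'.1, ?_⟩
  have hind : BM ((v ⁻¹' s).indicator fun _ => (1 : ℂ)) := K2_BM_ind hs'.1
  have hR1 : ∀ {u : X → ℂ}, BM u → BM (fun x => u (R x)) := by
    intro u hu
    obtain ⟨C, hC⟩ := hu.bdd
    exact ⟨hu.meas.comp hR.measurable, C, fun x => hC _⟩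
  have h1 : K2_in ν T (fun x => (v ⁻¹' s).indicator (fun _ => (1 : ℂ)) (R x)) := by
    refine K2_closed (hR1 hind) fun ε hε => ?_
    obtain ⟨P, hP, hd⟩ := K2_in_approx hs'.2 hε
    refine ⟨fun x => P (R x), K2_in_TP ?_, ?_⟩
    · clear hd
      induction hP using Submodule.span_induction with
      | mem e' he' =>
        obtain ⟨l', he'⟩ := he'
        exact Submodule.subset_span ⟨l', he _ _ he'⟩
      | zero => exact Submodule.zero_mem _
      | add f g _ _ hf hg => exact Submodule.add_mem _ hf hg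
      | smul c f _ hf => exact Submodule.smul_mem _ c hf
    · refine (le_of_eq ?_).trans hd
      have hm : Measurable (fun y => ‖(v ⁻¹' s).indicator (fun _ => (1 : ℂ)) y - P y‖ ^ 2) :=
        ((hind.meas.sub (K2_TP_BM hP).meas).norm.pow_const 2)
      have h6 := integral_map (μ := ν) hR.measurable.aemeasurable
        (f := fun y => ‖(v ⁻¹' s).indicator (fun _ => (1 : ℂ)) y - P y‖ ^ 2)
        hm.aestronglyMeasurable
      rw [hR.map_eq] at h6
      exact h6.symm
  exact h1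

/-- composition with `T` preserves `Kr`-measurability -/
theorem Kr_comp (hT : MeasurePreserving T ν ν) {v : X → ℂ} (hv : Measurable[Kr ν T] v) :
    Measurable[Kr ν T] (fun x => v (T x)) := by
  refine K2_comp hT (fun l e he => ⟨he.meas.comp hT.measurable, fun x => he.norm _, ?_⟩) hv
  exact hT.quasiMeasurePreserving.ae he.eq

theorem Kr_comp_iter (hT : MeasurePreserving T ν ν) {v : X → ℂ} (hv : Measurable[Kr ν T] v)
    (n : ℕ) : Measurable[Kr ν T] (fun x => v (T^[n] x)) := by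
  induction n with
  | zero => exact hv
  | succ n ih =>
    have h1 := Kr_comp hT ih
    exact h1

/-- composition with `T⁻¹` preserves `Kr`-measurability -/
theorem Kr_comp_symm {S : X ≃ᵐ X} (hS : MeasurePreserving S ν ν) {v : X → ℂ}
    (hv : Measurable[Kr ν S] v) : Measurable[Kr ν S] (fun x => v (S.symm x)) := by
  have hS' : MeasurePreserving S.symm ν ν := hS.symm S
  refine K2_comp hS' (fun l e he => ⟨he.meas.comp hS'.measurable, fun x => he.norm _, ?_⟩) hv
  have h1 := hS'.quasiMeasurePreserving.ae he.eq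
  filter_upwards [h1] with x hx
  rw [MeasurableEquiv.apply_symm_apply] at hx
  rw [MeasurableEquiv.symm_apply_apply]
  exact hx

end Pool.Agent.Sar
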