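import Pool.Agent.Sar.K2b

/-! MP_13664e_an, module K2c: the conditional measures. -/

set_option autoImplicit false
set_option linter.unusedSectionVars false

namespace Pool.Agent.Sar

open MeasureTheory ProbabilityTheory Filter Topology
open scoped ENNReal ComplexConjugate

variable {X : Type*} [mX : MeasurableSpace X] [StandardBorelSpace X] [Nonempty X]
  {ν : Measure X} [IsProbabilityMeasure ν] {T : X → X}

/-- the sets of a countable family which determines probability measures -/
def K2c_B (X : Type*) [MeasurableSpace X] [StandardBorelSpace X] (q : ℚ) : Set X :=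
  {s | embeddingReal X s ≤ (q : ℝ)}

theorem K2c_meas (q : ℚ) : MeasurableSet (K2c_B X q) :=
  measurableSet_le (measurableEmbedding_embeddingReal X).measurable measurable_const

theorem K2c_ext {κ₁ κ₂ : Measure X} [IsProbabilityMeasure κ₁] [IsProbabilityMeasure κ₂]
    (h : ∀ q : ℚ, κ₁.real (K2c_B X q) = κ₂.real (K2c_B X q)) : κ₁ = κ₂ := by
  have he := measurableEmbedding_embeddingReal X
  have hp1 : IsProbabilityMeasure (κ₁.map (embeddingReal X)) :=
    Measure.isProbabilityMeasure_map he.measurable.aemeasurable
  have hp2 : IsProbabilityMeasure (κ₂.map (embeddingReal X)) :=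
    Measure.isProbabilityMeasure_map he.measurable.aemeasurable
  have h1 : κ₁.map (embeddingReal X) = κ₂.map (embeddingReal X) := by
    refine ext_of_generate_finite _ Real.borel_eq_generateFrom_Iic_rat Real.isPiSystem_Iic_rat ?_ ?_
    · intro s hs
      obtain ⟨q, rfl⟩ : ∃ q : ℚ, Set.Iic (q : ℝ) = s := by
        simpa using hs
      rw [Measure.map_apply he.measurable measurableSet_Iic,
        Measure.map_apply he.measurable measurableSet_Iic]
      have h2 := h q
      rw [measureReal_def, measureReal_def,
        ENNReal.toReal_eq_toReal_iff' (measure_ne_top _ _) (measure_ne_top _ _)] at h2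
      exact h2
    · rw [measure_univ, measure_univ]
  rw [← he.comap_map κ₁, ← he.comap_map κ₂, h1]

/-- the indicator of a set -/
noncomputable def K2c_i (B : Set X) : X → ℂ := B.indicator (fun _ => (1 : ℂ))

theorem K2c_i_BM {B : Set X} (hB : MeasurableSet B) : BM (K2c_i B) := by
  refine ⟨measurable_const.indicator hB, 1, fun x => ?_⟩
  unfold K2c_i
  by_cases hx : x ∈ B <;> simp [hx]

theorem K2c_cex {B : Set X} (hB : MeasurableSet B) (x : X) :
    cex ν T (K2c_i B) x = (((condExpKernel ν (Kr ν T) x).real B : ℝ) : ℂ) := by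
  unfold cex K2c_i
  rw [integral_indicator_const _ hB]
  simp

/-- equivariance of the conditional measures -/
theorem kap_inv {S : X ≃ᵐ X} (hE : Ergodic S ν) :
    ∀ᵐ x ∂ν, condExpKernel ν (Kr ν S) (S x) = (condExpKernel ν (Kr ν S) x).map S := by
  have h1 : ∀ q : ℚ, ∀ᵐ x ∂ν, (condExpKernel ν (Kr ν S) (S x)).real (K2c_B X q) =
      ((condExpKernel ν (Kr ν S) x).map S).real (K2c_B X q) := by
    intro q
    filter_upwards [cex_comp hE (K2c_i_BM (K2c_meas (X := X) q))] with x hx
    have h2 : (fun y => K2c_i (K2c_B X q) (S y)) = K2c_i (S ⁻¹' K2c_B X q) := rfl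
    rw [h2, K2c_cex (S.measurable (K2c_meas q)), K2c_cex (K2c_meas q)] at hx
    have h3 := Complex.ofReal_injective hx
    rw [← h3, measureReal_def, measureReal_def, Measure.map_apply S.measurable (K2c_meas q)]
  filter_upwards [ae_all_iff.mpr h1] with x hx
  have hp : IsProbabilityMeasure ((condExpKernel ν (Kr ν S) x).map S) :=
    Measure.isProbabilityMeasure_map S.measurable.aemeasurable
  exact K2c_ext hx

/-- the conditional measures are constant on the fibres -/
theorem kap_fib : ∀ᵐ x ∂ν, ∀ᵐ s ∂(condExpKernel ν (Kr ν T) x),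
    condExpKernel ν (Kr ν T) s = condExpKernel ν (Kr ν T) x := by
  have h1 : ∀ q : ℚ, ∀ᵐ x ∂ν, ∀ᵐ s ∂(condExpKernel ν (Kr ν T) x),
      (condExpKernel ν (Kr ν T) s).real (K2c_B X q) =
      (condExpKernel ν (Kr ν T) x).real (K2c_B X q) := by
    intro q
    set w : X → ℂ := cex ν T (K2c_i (K2c_B X q)) with hw
    have hiB := K2c_i_BM (K2c_meas (X := X) q)
    have hwK : Measurable[Kr ν T] w := cex_Kr hiB
    have hwB : BM w := cex_BM hiB
    have hwcK : Measurable[Kr ν T] (fun x => conj (w x)) :=
      Complex.continuous_conj.measurable.comp hwK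
    have hw2K : Measurable[Kr ν T] (fun x => w x * conj (w x)) := hwK.mul hwcK
    filter_upwards [cex_self hwK hwB.bdd, cex_self hw2K (K2b_mul hwB (K2b_conj hwB)).bdd]
      with x hx1 hx2
    have hwcB := K2b_conj hwB
    have hw2B := K2b_mul hwB hwcB
    set κ := condExpKernel ν (Kr ν T) x with hκ
    have e1 : ∫ s, w s ∂κ = w x := hx1
    have e2 : ∫ s, w s * conj (w s) ∂κ = w x * conj (w x) := hx2
    have e3 : ∫ s, conj (w s) ∂κ = conj (w x) := by rw [integral_conj, e1]
    have hdB : BM (fun s => w s - w x) := K2b_sub hwB ⟨measurable_const, ‖w x‖, fun _ => le_rfl⟩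
    have e4 : ∫ s, (w s - w x) * conj (w s - w x) ∂κ = 0 := by
      have h5 : ∀ s, (w s - w x) * conj (w s - w x) =
          (w s * conj (w s) - w s * conj (w x)) - (w x * conj (w s) - w x * conj (w x)) := by
        intro s
        rw [map_sub]
        ring
      simp only [h5]
      have i1 : Integrable (fun s => w s * conj (w s)) κ := K2b_int hw2B
      have i2 : Integrable (fun s => w s * conj (w x)) κ := (K2b_int hwB).mul_const _
      have i3 : Integrable (fun s => w x * conj (w s)) κ := (K2b_int hwcB).const_mul _
      have i4 : Integrable (fun _ : X => w x * conj (w x)) κ := integrable_const _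
      have i5 : Integrable (fun s => w s * conj (w s) - w s * conj (w x)) κ := i1.sub i2
      have i6 : Integrable (fun s => w x * conj (w s) - w x * conj (w x)) κ := i3.sub i4
      rw [integral_sub i5 i6, integral_sub i1 i2, integral_sub i3 i4,
        integral_mul_const, integral_const_mul, integral_const, e1, e2, e3]
      simp
    filter_upwards [K2b_zero hdB e4] with s hs
    have h6 : w s = w x := sub_eq_zero.mp hs
    rw [hw, K2c_cex (K2c_meas q), K2c_cex (K2c_meas q)] at h6
    exact Complex.ofReal_injective h6
  filter_upwards [ae_all_iff.mpr h1] with x hx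
  filter_upwards [ae_all_iff.mpr hx] with s hs
  exact K2c_ext hs

end Pool.Agent.Sar
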