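import Pool.Agent.Sar.K2c

/-! MP_13664e_an, module P1b (second step of P1: a function on a finite-to-one extension of a coupling whose first
powers are orthogonal to the Kronecker part vanishes. -/

set_option autoImplicit false

namespace Pool.Agent.Sar

open MeasureTheory ProbabilityTheory Filter Topology
open scoped ENNReal ComplexConjugate

private theorem P1b_meas {Y Z : Type*} [MeasurableSpace Y] [MeasurableSpace Z] (κ : Kernel Y Z)
    [IsMarkovKernel κ] {ψ : Z × Z → ℂ} (hψ : Measurable ψ) {A B : Set Z} (hA : MeasurableSet A)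
    (hB : MeasurableSet B) :
    Measurable (fun z : Y × Y => (∫ w in A ×ˢ B, ψ w ∂((κ z.1).prod (κ z.2))) /
      ((((κ z.1 A) * (κ z.2 B)).toReal : ℝ) : ℂ)) := by
  have h1 : Measurable (fun z : Y × Y => ∫ w, (A ×ˢ B).indicator ψ w ∂((κ ∥ₖ κ) z)) := by
    have h2 : StronglyMeasurable ((A ×ˢ B).indicator ψ) :=
      (hψ.indicator (hA.prod hB)).stronglyMeasurable
    exact (h2.integral_kernel (κ := κ ∥ₖ κ)).measurable
  have h3 : ∀ z : Y × Y, ∫ w in A ×ˢ B, ψ w ∂((κ z.1).prod (κ z.2)) =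
      ∫ w, (A ×ˢ B).indicator ψ w ∂((κ ∥ₖ κ) z) := by
    intro z
    rw [integral_indicator (hA.prod hB), Kernel.parallelComp_apply]
  simp only [h3]
  refine h1.div (Complex.measurable_ofReal.comp (Measurable.ennreal_toReal ?_))
  exact ((Kernel.measurable_coe κ hA).comp measurable_fst).mul
    ((Kernel.measurable_coe κ hB).comp measurable_snd)

private theorem P1b_atom {Z : Type*} [MeasurableSpace Z] [MeasurableSingletonClass Z]
    {μ : Measure Z} {A : Set Z} {x : Z} (hx : x ∈ A) (h : μ {s | s ∈ A ∧ s ≠ x} = 0) :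
    μ.restrict A = μ {x} • Measure.dirac x := by
  rw [← Measure.restrict_singleton]
  refine Measure.restrict_congr_set ?_
  rw [ae_eq_set]
  constructor
  · refine measure_mono_null ?_ h
    intro s hs
    exact ⟨hs.1, hs.2⟩
  · have : ({x} : Set Z) \ A = ∅ := by
      ext s
      simp only [Set.mem_sdiff, Set.mem_singleton_iff, Set.mem_empty_iff_false, iff_false, not_and,
        not_not]
      rintro rfl
      exact hx
    rw [this]; simp

private theorem P1b_val {Z : Type*} [MeasurableSpace Z] [MeasurableSingletonClass Z]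
    {μ μ' : Measure Z} [IsProbabilityMeasure μ] [IsProbabilityMeasure μ'] {A B : Set Z} {x y : Z}
    (hx : x ∈ A) (h : μ {s | s ∈ A ∧ s ≠ x} = 0) (hy : y ∈ B)
    (h' : μ' {s | s ∈ B ∧ s ≠ y} = 0) (h0 : μ {x} ≠ 0) (h0' : μ' {y} ≠ 0) (ψ : Z × Z → ℂ)
    (hψ : Measurable ψ) :
    (∫ w in A ×ˢ B, ψ w ∂(μ.prod μ')) / ((((μ A) * (μ' B)).toReal : ℝ) : ℂ) = ψ (x, y) := by
  have e1 := P1b_atom hx h
  have e2 := P1b_atom hy h'
  have m1 : μ A = μ {x} := by
    have := congrArg (fun m => m Set.univ) e1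
    simpa using this
  have m2 : μ' B = μ' {y} := by
    have := congrArg (fun m => m Set.univ) e2
    simpa using this
  rw [← Measure.prod_restrict, e1, e2, m1, m2, Measure.prod_smul_left, Measure.prod_smul_right,
    Measure.dirac_prod_dirac, smul_smul, integral_smul_measure, integral_dirac]
  rw [Complex.real_smul]
  refine mul_div_cancel_left₀ _ ?_
  rw [Complex.ofReal_ne_zero, ENNReal.toReal_ne_zero]
  exact ⟨mul_ne_zero h0 h0', ENNReal.mul_ne_top (measure_ne_top _ _) (measure_ne_top _ _)⟩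

variable {X : Type*} [mX : MeasurableSpace X] [StandardBorelSpace X] [Nonempty X]
  {ν : Measure X} [IsProbabilityMeasure ν] {T : X → X}

/-- on almost every fibre a function takes at most `m²` values, given by `Kr ⊗ Kr`-measurable
functions -/
theorem P1_values {m : ℕ} {a : ℝ} {ℓ : X → Fin m} (hL : Lab ν T m a ℓ)
    {D : Measure (X × X)} [IsProbabilityMeasure D] (hD : Coup ν D) {φ : X × X → ℂ}
    (hφ : Measurable φ) (hb : ∃ C : ℝ, ∀ z, ‖φ z‖ ≤ C) :
    ∃ F : Fin m × Fin m → X × X → ℂ,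
      (∀ t, Measurable[(Kr ν T).prod (Kr ν T)] (F t)) ∧
      ∀ᵐ z ∂D, φ z = F (ℓ z.1, ℓ z.2) z := by
  have hS : ∀ i, MeasurableSet {s | ℓ s = i} := fun i => hL.meas (measurableSet_singleton i)
  refine ⟨fun t z => (∫ w in {s | ℓ s = t.1} ×ˢ {s | ℓ s = t.2}, φ w
    ∂((condExpKernel ν (Kr ν T) z.1).prod (condExpKernel ν (Kr ν T) z.2))) /
      ((((condExpKernel ν (Kr ν T) z.1 {s | ℓ s = t.1}) *
        (condExpKernel ν (Kr ν T) z.2 {s | ℓ s = t.2})).toReal : ℝ) : ℂ), ?_, ?_⟩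
  · intro t
    exact @P1b_meas X X (Kr ν T) mX (condExpKernel ν (Kr ν T)) _ φ hφ _ _ (hS t.1) (hS t.2)
  · have hgood : ∀ᵐ x ∂ν, condExpKernel ν (Kr ν T) x {s | s ∈ {s | ℓ s = ℓ x} ∧ s ≠ x} = 0 ∧
        condExpKernel ν (Kr ν T) x {x} ≠ 0 := by
      filter_upwards [hL.inj, hL.atom] with x h1 h2
      refine ⟨h1, fun h3 => ?_⟩
      rw [h3] at h2
      have h4 : ENNReal.ofReal a ≤ 0 := h2
      have := ENNReal.ofReal_pos.mpr hL.pos
      exact absurd (lt_of_lt_of_le this h4) (lt_irrefl _)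
    have key1 : ∀ P : X → Prop, (∀ᵐ x ∂ν, P x) → ∀ᵐ z ∂D, P z.1 := fun P h =>
      ae_of_ae_map measurable_fst.aemeasurable (by rw [hD.fst]; exact h)
    have key2 : ∀ P : X → Prop, (∀ᵐ x ∂ν, P x) → ∀ᵐ z ∂D, P z.2 := fun P h =>
      ae_of_ae_map measurable_snd.aemeasurable (by rw [hD.snd]; exact h)
    have g1 := key1 _ hgood
    have g2 := key2 _ hgood
    filter_upwards [g1, g2] with z h1 h2
    exact (P1b_val (μ := condExpKernel ν (Kr ν T) z.1) (μ' := condExpKernel ν (Kr ν T) z.2)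
      (A := {s | ℓ s = ℓ z.1}) (B := {s | ℓ s = ℓ z.2}) rfl h1.1 rfl h2.1 h1.2 h2.2 φ hφ).symm

end Pool.Agent.Sar
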