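import Pool.Agent.Sar.P1a
import Pool.Agent.Sar.P1b

/-! MP_13664e_an, module P1: a function on a finite-to-one extension of a coupling whose first
powers are orthogonal to the Kronecker part vanishes. -/

set_option autoImplicit false
set_option linter.unusedSectionVars false

namespace Pool.Agent.Sar

open MeasureTheory ProbabilityTheory Filter Topology
open scoped ENNReal ComplexConjugate

section aux

variable {Z ι : Type*} [Fintype ι] [DecidableEq ι]

open Classical in
/-- the truncated products -/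
noncomputable def P1_psi (G : ι → Z → ℂ) (B : ℝ) (S : Finset ι) (z : Z) : ℂ :=
  (if ∀ t, ‖G t z‖ ≤ B then 1 else 0) * ∏ t ∈ S, G t z

theorem P1_psi_meas [MeasurableSpace Z] {G : ι → Z → ℂ} (hG : ∀ t, Measurable (G t)) (B : ℝ)
    (S : Finset ι) : Measurable (P1_psi G B S) := by
  classical
  unfold P1_psi
  refine Measurable.mul (Measurable.ite ?_ measurable_const measurable_const)
    (Finset.measurable_prod _ fun t _ => hG t)
  have h1 : {z : Z | ∀ t, ‖G t z‖ ≤ B} = ⋂ t, {z | ‖G t z‖ ≤ B} := by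
    ext z
    simp
  rw [h1]
  exact MeasurableSet.iInter fun t => measurableSet_le (hG t).norm measurable_const

theorem P1_psi_bdd (G : ι → Z → ℂ) {B : ℝ} (hB : 1 ≤ B) (S : Finset ι) (z : Z) :
    ‖P1_psi G B S z‖ ≤ B ^ S.card := by
  classical
  unfold P1_psi
  split_ifs with h
  · rw [one_mul, norm_prod]
    calc ∏ t ∈ S, ‖G t z‖ ≤ ∏ _t ∈ S, B :=
          Finset.prod_le_prod (fun _ _ => norm_nonneg _) fun t _ => h t
      _ = B ^ S.card := by rw [Finset.prod_const]
  · rw [zero_mul, norm_zero]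
    positivity

/-- expansion of the product -/
theorem P1_expand (G : ι → Z → ℂ) (B : ℝ) (f : ℂ) (z : Z) :
    P1_psi G B ∅ z * (1 - ∏ t, (1 - f * G t z)) =
      -∑ S ∈ (Finset.univ : Finset ι).powerset.erase ∅,
        (-1) ^ S.card * (f ^ S.card * P1_psi G B S z) := by
  classical
  have h1 : ∏ t, (1 - f * G t z) = ∑ S ∈ (Finset.univ : Finset ι).powerset,
      ∏ t ∈ S, (-(f * G t z)) := by
    rw [← Finset.prod_one_add]
    exact Finset.prod_congr rfl fun t _ => by ring
  have h2 : ∑ S ∈ (Finset.univ : Finset ι).powerset, ∏ t ∈ S, (-(f * G t z)) =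
      1 + ∑ S ∈ (Finset.univ : Finset ι).powerset.erase ∅, ∏ t ∈ S, (-(f * G t z)) := by
    rw [← Finset.add_sum_erase _ _ (Finset.empty_mem_powerset (Finset.univ : Finset ι)),
      Finset.prod_empty]
  rw [h1, h2]
  have h3 : ∀ S : Finset ι, ∏ t ∈ S, (-(f * G t z)) =
      (-1) ^ S.card * (f ^ S.card * ∏ t ∈ S, G t z) := by
    intro S
    have h4 : ∀ t, -(f * G t z) = (-1) * (f * G t z) := fun t => by ring
    rw [Finset.prod_congr rfl fun t _ => h4 t, Finset.prod_mul_distrib, Finset.prod_mul_distrib,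
      Finset.prod_const, Finset.prod_const]
  rw [sub_add_cancel_left, mul_neg, Finset.mul_sum]
  congr 1
  refine Finset.sum_congr rfl fun S _ => ?_
  rw [h3]
  unfold P1_psi
  rw [Finset.prod_empty]
  ring

end aux

variable {X : Type*} [mX : MeasurableSpace X] [StandardBorelSpace X] [Nonempty X]
  {ν : Measure X} [IsProbabilityMeasure ν] {T : X → X}

theorem P1 (hE : Ergodic T ν) {m : ℕ} {a : ℝ} {ℓ : X → Fin m} (hL : Lab ν T m a ℓ)
    {D : Measure (X × X)} [IsProbabilityMeasure D] (hD : Coup ν D) {φ : X × X → ℂ}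
    (hφ : Measurable φ) (hb : ∃ C : ℝ, ∀ z, ‖φ z‖ ≤ C)
    (h : ∀ n : ℕ, 1 ≤ n → n ≤ m ^ 2 → ∀ l₁ ∈ EV ν T, ∀ l₂ ∈ EV ν T,
      ∫ z, φ z ^ n * (eg ν T l₁ z.1 * eg ν T l₂ z.2) ∂D = 0) :
    ∀ᵐ z ∂D, φ z = 0 := by
  classical
  obtain ⟨F, hF, hval⟩ := P1_values hL hD hφ hb
  obtain ⟨C, hC⟩ := hb
  let G : Fin m × Fin m → X × X → ℂ := fun t z => (F t z)⁻¹
  have hG : ∀ t, Measurable[(Kr ν T).prod (Kr ν T)] (G t) := fun t => (hF t).inv
  have hle : (Kr ν T).prod (Kr ν T) ≤ mX.prod mX :=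
    sup_le_sup (MeasurableSpace.comap_mono (Kr_le (ν := ν) (T := T)))
      (MeasurableSpace.comap_mono (Kr_le (ν := ν) (T := T)))
  have hψ : ∀ B S, Measurable[(Kr ν T).prod (Kr ν T)] (P1_psi G B S) := fun B S =>
    @P1_psi_meas _ _ _ _ ((Kr ν T).prod (Kr ν T)) G hG B S
  have hψ' : ∀ B S, Measurable (P1_psi G B S) := fun B S => (hψ B S).mono hle le_rfl
  have hzero : ∀ B : ℝ, 1 ≤ B → ∀ S : Finset (Fin m × Fin m), S ≠ ∅ →
      ∫ z, φ z ^ S.card * P1_psi G B S z ∂D = 0 := by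
    intro B hB S hS
    have h1 : 1 ≤ S.card := Finset.card_pos.2 (Finset.nonempty_iff_ne_empty.2 hS)
    have h2 : S.card ≤ m ^ 2 := by
      refine (Finset.card_le_univ S).trans (le_of_eq ?_)
      rw [Fintype.card_prod, Fintype.card_fin, sq]
    refine P1_dense hE hD (hφ.pow_const _) ⟨|C| ^ S.card, fun z => ?_⟩ (h S.card h1 h2)
      (hψ B S) ⟨B ^ S.card, fun z => P1_psi_bdd G hB S z⟩
    rw [norm_pow]
    exact pow_le_pow_left₀ (norm_nonneg _) ((hC z).trans (le_abs_self C)) _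
  have hint : ∀ B : ℝ, 1 ≤ B → ∀ S : Finset (Fin m × Fin m),
      Integrable (fun z => φ z ^ S.card * P1_psi G B S z) D := by
    intro B hB S
    refine Integrable.of_bound ((hφ.pow_const _).mul (hψ' B S)).aestronglyMeasurable
      (|C| ^ S.card * B ^ S.card) (Eventually.of_forall fun z => ?_)
    rw [norm_mul, norm_pow]
    exact mul_le_mul (pow_le_pow_left₀ (norm_nonneg _) ((hC z).trans (le_abs_self C)) _)
      (P1_psi_bdd G hB S z) (norm_nonneg _) (by positivity)
  have key : ∀ B : ℝ, 1 ≤ B → D ({z | ∀ t, ‖G t z‖ ≤ B} ∩ {z | φ z ≠ 0}) = 0 := by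
    intro B hB
    have hEm : MeasurableSet ({z | ∀ t, ‖G t z‖ ≤ B} ∩ {z | φ z ≠ 0}) := by
      refine MeasurableSet.inter ?_ (hφ (measurableSet_singleton 0)).compl
      have h1 : {z : X × X | ∀ t, ‖G t z‖ ≤ B} = ⋂ t, {z | ‖G t z‖ ≤ B} := by
        ext z
        simp
      rw [h1]
      exact MeasurableSet.iInter fun t =>
        measurableSet_le ((hG t).mono hle le_rfl).norm measurable_const
    have h1 : ∫ z, P1_psi G B ∅ z * (1 - ∏ t, (1 - φ z * G t z)) ∂D = 0 := by
      have h2 : (fun z => P1_psi G B ∅ z * (1 - ∏ t, (1 - φ z * G t z))) = fun z =>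
          -∑ S ∈ (Finset.univ : Finset (Fin m × Fin m)).powerset.erase ∅,
            (-1) ^ S.card * (φ z ^ S.card * P1_psi G B S z) := by
        funext z
        exact P1_expand G B (φ z) z
      rw [h2, integral_neg, integral_finsetSum _ fun S _ => (hint B hB S).const_mul _]
      rw [neg_eq_zero]
      refine Finset.sum_eq_zero fun S hS => ?_
      rw [integral_const_mul, hzero B hB S (Finset.ne_of_mem_erase hS), mul_zero]
    have h2 : ∫ z, P1_psi G B ∅ z * (1 - ∏ t, (1 - φ z * G t z)) ∂D =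
        ∫ z, ({z | ∀ t, ‖G t z‖ ≤ B} ∩ {z | φ z ≠ 0}).indicator (fun _ => (1 : ℂ)) z ∂D := by
      refine integral_congr_ae ?_
      filter_upwards [hval] with z hz
      by_cases hB' : ∀ t, ‖G t z‖ ≤ B
      · by_cases hφz : φ z = 0
        · rw [Set.indicator_of_notMem (fun hm => hm.2 hφz), hφz]
          simp
        · rw [Set.indicator_of_mem (show z ∈ {z | ∀ t, ‖G t z‖ ≤ B} ∩ {z | φ z ≠ 0} from
            ⟨hB', hφz⟩)]
          have h3 : ∏ t, (1 - φ z * G t z) = 0 := by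
            refine Finset.prod_eq_zero (Finset.mem_univ (ℓ z.1, ℓ z.2)) ?_
            show 1 - φ z * (F (ℓ z.1, ℓ z.2) z)⁻¹ = 0
            rw [← hz, mul_inv_cancel₀ hφz, sub_self]
          rw [h3]
          unfold P1_psi
          rw [if_pos hB', Finset.prod_empty]
          norm_num
      · rw [Set.indicator_of_notMem (fun hm => hB' hm.1)]
        unfold P1_psi
        rw [if_neg hB', zero_mul, zero_mul]
    rw [h1, integral_indicator_const _ hEm] at h2
    have h3 : D.real ({z | ∀ t, ‖G t z‖ ≤ B} ∩ {z | φ z ≠ 0}) = 0 := by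
      have h4 := h2.symm
      rw [smul_eq_zero] at h4
      rcases h4 with h4 | h4
      · exact h4
      · exact absurd h4 one_ne_zero
    rw [Measure.real, ENNReal.toReal_eq_zero_iff] at h3
    exact h3.resolve_right (measure_ne_top _ _)
  have hall : ∀ᵐ z ∂D, ∀ n : ℕ, ¬ ((∀ t, ‖G t z‖ ≤ (n : ℝ) + 1) ∧ φ z ≠ 0) := by
    rw [ae_all_iff]
    intro n
    have h1 := key ((n : ℝ) + 1) (by have : (0 : ℝ) ≤ n := Nat.cast_nonneg n; linarith)
    rw [ae_iff]
    refine le_antisymm ((measure_mono ?_).trans (le_of_eq h1)) bot_le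
    intro z hz
    exact not_not.1 hz
  filter_upwards [hall] with z hz
  by_contra hφz
  obtain ⟨n, hn⟩ := exists_nat_ge (∑ t, ‖G t z‖)
  refine hz n ⟨fun t => ?_, hφz⟩
  have h1 : ‖G t z‖ ≤ ∑ t, ‖G t z‖ :=
    Finset.single_le_sum (f := fun t => ‖G t z‖) (fun _ _ => norm_nonneg _) (Finset.mem_univ t)
  linarith

end Pool.Agent.Sar
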