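import Pool.Agent.Sar.K2b

/-! MP_13664e_an, module P1a (first step of P1: a function on a finite-to-one extension of a coupling whose first
powers are orthogonal to the Kronecker part vanishes. -/

set_option autoImplicit false

namespace Pool.Agent.Sar

open MeasureTheory ProbabilityTheory Filter Topology
open scoped ENNReal ComplexConjugate

variable {X : Type*} [mX : MeasurableSpace X] [StandardBorelSpace X] [Nonempty X]
  {ν : Measure X} [IsProbabilityMeasure ν] {T : X → X}

omit [StandardBorelSpace X] [Nonempty X] in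
private theorem P1a_int {Ω : Type*} [MeasurableSpace Ω] {D : Measure Ω} [IsProbabilityMeasure D]
    {F : Ω → ℂ} (hF : Measurable F) {C : ℝ} (hC : ∀ z, ‖F z‖ ≤ C) : Integrable F D :=
  Integrable.of_bound hF.aestronglyMeasurable C (Eventually.of_forall hC)

private theorem P1a_ind {Ω : Type*} {m : MeasurableSpace Ω} {s : Set Ω} (hs : MeasurableSet[m] s) :
    Measurable[m] (s.indicator fun _ => (1 : ℂ)) :=
  (measurable_const : Measurable[m] fun _ : Ω => (1 : ℂ)).indicator hs

private theorem P1a_cst {Ω : Type*} {m : MeasurableSpace Ω} :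
    Measurable[m] (fun _ : Ω => (1 : ℂ)) := measurable_const

omit [StandardBorelSpace X] [Nonempty X] in
/-- orthogonality to the eigenfunctions extends to all bounded functions measurable with respect to `Kr` -/
private theorem P1a_dense (hE : Ergodic T ν) {Ω : Type*} [MeasurableSpace Ω] {D : Measure Ω}
    [IsProbabilityMeasure D] {π : Ω → X} (hπ : Measurable π) (hD : D.map π = ν) {G : Ω → ℂ}
    (hG : Measurable G) {C : ℝ} (hC : ∀ z, ‖G z‖ ≤ C)
    (h : ∀ l ∈ EV ν T, ∫ z, G z * eg ν T l (π z) ∂D = 0) {v : X → ℂ}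
    (hv : Measurable[Kr ν T] v) (hb : ∃ B : ℝ, ∀ x, ‖v x‖ ≤ B) :
    ∫ z, G z * v (π z) ∂D = 0 := by
  have hvm : Measurable v := hv.mono Kr_le le_rfl
  obtain ⟨B, hB⟩ := hb
  have hC0 : 0 ≤ C := (norm_nonneg _).trans (hC (Classical.choice D.nonempty_of_neZero))
  rw [← norm_le_zero_iff]
  refine le_of_forall_pos_le_add fun η hη => ?_
  rw [zero_add]
  set δ : ℝ := η / (C + 1) with hδ
  have hδ0 : 0 < δ := by positivity
  obtain ⟨L, hL, hL'⟩ := Kr_dense hE hv ⟨B, hB⟩ (ε := δ ^ 2) (by positivity)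
  have h1 := hL' L (Finset.Subset.refl _) hL
  set w : X → ℂ := fun x => ∑ l ∈ L, fc ν T v l * eg ν T l x with hw
  have hwm : Measurable w := Finset.measurable_sum _ fun l _ => (eg_meas l).const_mul _
  have hwb : ∀ x, ‖w x‖ ≤ ∑ l ∈ L, ‖fc ν T v l‖ := fun x => by
    refine (norm_sum_le _ _).trans (Finset.sum_le_sum fun l _ => ?_)
    rw [norm_mul, eg_norm, mul_one]
  have hub : ∀ x, ‖v x - w x‖ ≤ B + ∑ l ∈ L, ‖fc ν T v l‖ := fun x =>
    (norm_sub_le _ _).trans (add_le_add (hB x) (hwb x))
  have hum : Measurable fun x => v x - w x := hvm.sub hwm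
  -- integral against `w` vanishes
  have h2 : ∫ z, G z * w (π z) ∂D = 0 := by
    have e : ∀ z, G z * w (π z) = ∑ l ∈ L, fc ν T v l * (G z * eg ν T l (π z)) := by
      intro z
      simp only [hw, Finset.mul_sum]
      exact Finset.sum_congr rfl fun l _ => by ring
    simp_rw [e]
    rw [integral_finsetSum]
    · refine Finset.sum_eq_zero fun l hl => ?_
      rw [integral_const_mul, h l (hL hl), mul_zero]
    · intro l _
      refine (P1a_int (C := C) (hG.mul ((eg_meas l).comp hπ)) fun z => ?_).const_mul _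
      show ‖G z * eg ν T l (π z)‖ ≤ C
      rw [norm_mul, eg_norm, mul_one]
      exact hC z
  have h3 : ∫ z, G z * v (π z) ∂D = ∫ z, G z * (v (π z) - w (π z)) ∂D := by
    have e : ∀ z, G z * (v (π z) - w (π z)) = G z * v (π z) - G z * w (π z) := fun z => by ring
    simp_rw [e]
    rw [integral_sub, h2, sub_zero]
    · refine P1a_int (C := C * B) (hG.mul (hvm.comp hπ)) fun z => ?_
      rw [norm_mul]
      exact mul_le_mul (hC z) (hB _) (norm_nonneg _) hC0
    · refine P1a_int (C := C * ∑ l ∈ L, ‖fc ν T v l‖) (hG.mul (hwm.comp hπ)) fun z => ?_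
      rw [norm_mul]
      exact mul_le_mul (hC z) (hwb _) (norm_nonneg _) hC0
  -- the error
  have hi1 : Integrable (fun x => ‖v x - w x‖) ν := (P1a_int hum hub).norm
  have hi2 : Integrable (fun x => ‖v x - w x‖ ^ 2) ν := by
    refine Integrable.of_bound (hum.norm.pow_const 2).aestronglyMeasurable
      ((B + ∑ l ∈ L, ‖fc ν T v l‖) ^ 2) (Eventually.of_forall fun x => ?_)
    rw [Real.norm_of_nonneg (by positivity)]
    exact pow_le_pow_left₀ (norm_nonneg _) (hub x) 2
  have h4 : ∫ x, ‖v x - w x‖ ∂ν ≤ δ := by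
    have h5 : ∫ x, ‖v x - w x‖ ∂ν ≤ ∫ x, (δ / 2 + ‖v x - w x‖ ^ 2 / (2 * δ)) ∂ν := by
      refine integral_mono hi1 ((integrable_const _).add (hi2.div_const _)) fun x => ?_
      have h6 : 0 ≤ (‖v x - w x‖ - δ) ^ 2 := sq_nonneg _
      show ‖v x - w x‖ ≤ δ / 2 + ‖v x - w x‖ ^ 2 / (2 * δ)
      rw [div_add_div _ _ (by norm_num) (by positivity), le_div_iff₀ (by positivity)]
      nlinarith
    refine h5.trans ?_
    rw [integral_add (integrable_const _) (hi2.div_const _), integral_const, integral_div]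
    simp only [probReal_univ, smul_eq_mul, one_mul]
    have h7 : (∫ x, ‖v x - w x‖ ^ 2 ∂ν) / (2 * δ) ≤ δ ^ 2 / (2 * δ) :=
      div_le_div_of_nonneg_right h1 (by positivity)
    have h8 : δ ^ 2 / (2 * δ) = δ / 2 := by field_simp
    linarith
  have h9 : ∫ z, ‖v (π z) - w (π z)‖ ∂D = ∫ x, ‖v x - w x‖ ∂ν := by
    rw [← hD, integral_map hπ.aemeasurable hum.norm.aestronglyMeasurable]
  rw [h3]
  calc ‖∫ z, G z * (v (π z) - w (π z)) ∂D‖ ≤ ∫ z, ‖G z * (v (π z) - w (π z))‖ ∂D :=
        norm_integral_le_integral_norm _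
    _ ≤ ∫ z, C * ‖v (π z) - w (π z)‖ ∂D := by
        refine integral_mono_of_nonneg (Eventually.of_forall fun z => norm_nonneg _) ?_
          (Eventually.of_forall fun z => ?_)
        · exact ((P1a_int (hum.comp hπ) fun z => hub (π z)).norm).const_mul C
        · show ‖G z * (v (π z) - w (π z))‖ ≤ C * ‖v (π z) - w (π z)‖
          rw [norm_mul]
          exact mul_le_mul_of_nonneg_right (hC z) (norm_nonneg _)
    _ = C * ∫ x, ‖v x - w x‖ ∂ν := by rw [integral_const_mul, h9]
    _ ≤ C * δ := mul_le_mul_of_nonneg_left h4 hC0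
    _ ≤ η := by
        rw [hδ, mul_div_assoc', div_le_iff₀ (by positivity)]
        nlinarith

/-- a bounded function with vanishing integrals over the sets of a smaller sigma-algebra integrates to zero
against the bounded functions measurable with respect to it -/
private theorem P1a_simple {Ω : Type*} {m m0 : MeasurableSpace Ω} (hm : m ≤ m0)
    {D : @Measure Ω m0} [hP : @IsProbabilityMeasure Ω m0 D] {φ : Ω → ℂ} (hφ : Measurable[m0] φ) {C : ℝ}
    (hC : ∀ z, ‖φ z‖ ≤ C) (h2 : ∀ A : Set Ω, MeasurableSet[m] A → ∫ z in A, φ z ∂D = 0)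
    {ψ : Ω → ℂ} (hψ : Measurable[m] ψ) {B : ℝ} (hB : ∀ z, ‖ψ z‖ ≤ B) :
    ∫ z, φ z * ψ z ∂D = 0 := by
  classical
  have hC0 : 0 ≤ C := (norm_nonneg _).trans (hC (Classical.choice D.nonempty_of_neZero))
  -- simple functions
  have h3 : ∀ f : @SimpleFunc Ω m ℂ, ∫ z, φ z * f z ∂D = 0 := by
    intro f
    induction f using SimpleFunc.induction with
    | const c hs =>
      rename_i s
      have k := h2 s hs
      rw [← integral_indicator (hm _ hs)] at k
      have e : ∀ z, φ z * (@SimpleFunc.piecewise Ω ℂ m s hs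
          (@SimpleFunc.const Ω ℂ m c) (@SimpleFunc.const Ω ℂ m 0)) z = c * s.indicator φ z := by
        intro z
        rw [@SimpleFunc.coe_piecewise Ω ℂ m]
        by_cases hz : z ∈ s
        · rw [Set.piecewise_eq_of_mem _ _ _ hz, Set.indicator_of_mem hz]
          simp [mul_comm]
        · rw [Set.piecewise_eq_of_notMem _ _ _ hz, Set.indicator_of_notMem hz]
          simp
      simp_rw [e]
      rw [integral_const_mul, k, mul_zero]
    | add _ hf hg =>
      rename_i f g _
      have hfm : Measurable[m0] (f : Ω → ℂ) := (@SimpleFunc.measurable Ω ℂ m _ f).mono hm le_rfl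
      have hgm : Measurable[m0] (g : Ω → ℂ) := (@SimpleFunc.measurable Ω ℂ m _ g).mono hm le_rfl
      have e : ∀ z, φ z * (f + g) z = φ z * f z + φ z * g z := fun z => by
        show φ z * (f z + g z) = _
        ring
      obtain ⟨Bf, hBf⟩ := @SimpleFunc.exists_forall_norm_le Ω ℂ m _ f
      obtain ⟨Bg, hBg⟩ := @SimpleFunc.exists_forall_norm_le Ω ℂ m _ g
      have i1 : Integrable (fun z => φ z * f z) D := by
        refine P1a_int (C := C * Bf) (hφ.mul hfm) fun z => ?_
        show ‖φ z * f z‖ ≤ _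
        rw [norm_mul]
        exact mul_le_mul (hC z) (hBf _) (norm_nonneg _) hC0
      have i2 : Integrable (fun z => φ z * g z) D := by
        refine P1a_int (C := C * Bg) (hφ.mul hgm) fun z => ?_
        show ‖φ z * g z‖ ≤ _
        rw [norm_mul]
        exact mul_le_mul (hC z) (hBg _) (norm_nonneg _) hC0
      simp_rw [e]
      rw [integral_add i1 i2, hf, hg, add_zero]
  -- limit
  have hψs : StronglyMeasurable[m] ψ := hψ.stronglyMeasurable
  have hB0 : 0 ≤ B := (norm_nonneg _).trans (hB (Classical.choice D.nonempty_of_neZero))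
  have hlim : Tendsto (fun n => ∫ z, φ z * (hψs.approxBounded B n) z ∂D) atTop
      (𝓝 (∫ z, φ z * ψ z ∂D)) := by
    refine tendsto_integral_of_dominated_convergence (fun _ => C * B) ?_ (integrable_const _) ?_ ?_
    · intro n
      exact (hφ.mul ((@SimpleFunc.measurable Ω ℂ m _ (hψs.approxBounded B n)).mono
        hm le_rfl)).aestronglyMeasurable
    · intro n
      refine Eventually.of_forall fun z => ?_
      rw [norm_mul]
      exact mul_le_mul (hC z) (hψs.norm_approxBounded_le hB0 n z) (norm_nonneg _) hC0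
    · refine Eventually.of_forall fun z => ?_
      exact (hψs.tendsto_approxBounded_of_norm_le (hB z)).const_mul _
  have hz : (fun n => ∫ z, φ z * (hψs.approxBounded B n) z ∂D) = fun _ => 0 :=
    funext fun n => h3 _
  rw [hz] at hlim
  exact (tendsto_nhds_unique hlim tendsto_const_nhds)

/-- orthogonality to products of eigenfunctions extends to all functions measurable with respect to
`Kr ⊗ Kr` -/
theorem P1_dense (hE : Ergodic T ν) {D : Measure (X × X)} [IsProbabilityMeasure D]
    (hD : Coup ν D) {φ : X × X → ℂ} (hφ : Measurable φ) (hb : ∃ C : ℝ, ∀ z, ‖φ z‖ ≤ C)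
    (h : ∀ l₁ ∈ EV ν T, ∀ l₂ ∈ EV ν T, ∫ z, φ z * (eg ν T l₁ z.1 * eg ν T l₂ z.2) ∂D = 0)
    {ψ : X × X → ℂ} (hψ : Measurable[(Kr ν T).prod (Kr ν T)] ψ) (hψb : ∃ C : ℝ, ∀ z, ‖ψ z‖ ≤ C) :
    ∫ z, φ z * ψ z ∂D = 0 := by
  obtain ⟨C, hC⟩ := hb
  have hC0 : 0 ≤ C := (norm_nonneg _).trans (hC (Classical.choice D.nonempty_of_neZero))
  -- products of bounded `Kr`-measurable functions
  have h1 : ∀ v w : X → ℂ, Measurable[Kr ν T] v → Measurable[Kr ν T] w →
      (∃ B : ℝ, ∀ x, ‖v x‖ ≤ B) → (∃ B : ℝ, ∀ x, ‖w x‖ ≤ B) →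
      ∫ z, φ z * (v z.1 * w z.2) ∂D = 0 := by
    intro v w hv hw hvb hwb
    have hwm : Measurable w := hw.mono Kr_le le_rfl
    obtain ⟨B, hB⟩ := hwb
    have k1 : ∀ l₁ ∈ EV ν T, ∫ z, (φ z * w z.2) * eg ν T l₁ z.1 ∂D = 0 := by
      intro l₁ hl₁
      have k2 := P1a_dense hE (D := D) measurable_snd hD.snd (G := fun z => φ z * eg ν T l₁ z.1)
        (hφ.mul ((eg_meas l₁).comp measurable_fst)) (C := C)
        (fun z => by rw [norm_mul, eg_norm, mul_one]; exact hC z)
        (fun l₂ hl₂ => by
          rw [← h l₁ hl₁ l₂ hl₂]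
          exact integral_congr_ae (Eventually.of_forall fun z => by
            show φ z * eg ν T l₁ z.1 * eg ν T l₂ z.2 = φ z * (eg ν T l₁ z.1 * eg ν T l₂ z.2)
            ring)) hw ⟨B, hB⟩
      rw [← k2]
      exact integral_congr_ae (Eventually.of_forall fun z => by
        show φ z * w z.2 * eg ν T l₁ z.1 = φ z * eg ν T l₁ z.1 * w z.2
        ring)
    have k3 := P1a_dense hE (D := D) measurable_fst hD.fst (G := fun z => φ z * w z.2)
      (hφ.mul (hwm.comp measurable_snd)) (C := C * B)
      (fun z => by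
        rw [norm_mul]
        exact mul_le_mul (hC z) (hB _) (norm_nonneg _) hC0) k1 hv hvb
    rw [← k3]
    exact integral_congr_ae (Eventually.of_forall fun z => by
      show φ z * (v z.1 * w z.2) = φ z * w z.2 * v z.1
      ring)
  have hle : (Kr ν T).prod (Kr ν T) ≤ mX.prod mX :=
    sup_le_sup (MeasurableSpace.comap_mono Kr_le) (MeasurableSpace.comap_mono Kr_le)
  have hφi : Integrable φ D := P1a_int hφ hC
  -- sets
  have h2 : ∀ A : Set (X × X), MeasurableSet[(Kr ν T).prod (Kr ν T)] A →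
      ∫ z in A, φ z ∂D = 0 := by
    intro A hA
    have hgen := (@generateFrom_prod X X (Kr ν T) (Kr ν T)).symm
    have hpi := @isPiSystem_prod X X (Kr ν T) (Kr ν T)
    refine @MeasurableSpace.induction_on_inter (X × X) _
      (fun A _ => ∫ z in A, φ z ∂D = 0) _ hgen hpi ?_ ?_ ?_ ?_ A hA
    · simp
    · rintro _ ⟨s, hs, t, ht, rfl⟩
      have hs' : MeasurableSet s := Kr_le _ hs
      have ht' : MeasurableSet t := Kr_le _ ht
      have k := h1 (s.indicator fun _ => 1) (t.indicator fun _ => 1)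
        (P1a_ind hs)
        (P1a_ind ht)
        ⟨1, fun x => by
          by_cases hx : x ∈ s
          · rw [Set.indicator_of_mem hx]; simp
          · rw [Set.indicator_of_notMem hx]; simp⟩
        ⟨1, fun x => by
          by_cases hx : x ∈ t
          · rw [Set.indicator_of_mem hx]; simp
          · rw [Set.indicator_of_notMem hx]; simp⟩
      rw [← integral_indicator (hs'.prod ht'), ← k]
      refine integral_congr_ae (Eventually.of_forall fun z => ?_)
      show (s ×ˢ t).indicator φ z = φ z * (s.indicator (fun _ => 1) z.1 * t.indicator (fun _ => 1) z.2)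
      by_cases h3 : z.1 ∈ s
      · by_cases h4 : z.2 ∈ t
        · rw [Set.indicator_of_mem (Set.mk_mem_prod h3 h4 : (z.1, z.2) ∈ s ×ˢ t),
            Set.indicator_of_mem h3, Set.indicator_of_mem h4, mul_one, mul_one]
        · rw [Set.indicator_of_notMem (fun hh => h4 hh.2), Set.indicator_of_notMem h4, mul_zero,
            mul_zero]
      · rw [Set.indicator_of_notMem (fun hh => h3 hh.1), Set.indicator_of_notMem h3, zero_mul,
          mul_zero]
    · intro t ht hIt
      have k := integral_add_compl (hle _ ht) hφi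
      have k0 : ∫ z, φ z ∂D = 0 := by
        have := h1 (fun _ => 1) (fun _ => 1) P1a_cst P1a_cst ⟨1, fun x => by simp⟩ ⟨1, fun x => by simp⟩
        simpa using this
      rw [hIt, k0, zero_add] at k
      exact k
    · intro f hd hm hf
      rw [integral_iUnion (fun i => hle _ (hm i)) hd hφi.integrableOn]
      simp [hf]
  obtain ⟨B, hB⟩ := hψb
  exact P1a_simple hle hφ hC h2 hψ hB

end Pool.Agent.Sar
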