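import Pool.Agent.Sar.K2c

/-! MP_13664e_an, module S0: the mass of the atom of the conditional measure at the point itself is
almost everywhere constant. -/

set_option autoImplicit false

namespace Pool.Agent.Sar

open MeasureTheory ProbabilityTheory Filter Topology
open scoped ENNReal ComplexConjugate

variable {X : Type*} [mX : MeasurableSpace X] [StandardBorelSpace X] [Nonempty X]
  {ν : Measure X} [IsProbabilityMeasure ν]

theorem atom_meas {T : X → X} :
    Measurable (fun x => condExpKernel ν (Kr ν T) x {x}) := by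
  let κ : Kernel X X := (condExpKernel ν (Kr ν T)).comap id (measurable_id'' Kr_le)
  have hd : MeasurableSet {z : X × X | z.1 = z.2} := measurableSet_eq_fun measurable_fst measurable_snd
  have h := Kernel.measurable_kernel_prodMk_left (κ := κ) hd
  have he : (fun x => condExpKernel ν (Kr ν T) x {x}) =
      fun x => κ x (Prod.mk x ⁻¹' {z : X × X | z.1 = z.2}) := by
    funext x
    have h1 : (Prod.mk x ⁻¹' {z : X × X | z.1 = z.2}) = {x} := by
      ext y
      simp [eq_comm]
    rw [h1]
    rfl
  rw [he]
  exact h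

theorem atom_const {S : X ≃ᵐ X} (hE : Ergodic S ν) :
    ∃ α : ℝ≥0∞, α ≤ 1 ∧ ∀ᵐ x ∂ν, condExpKernel ν (Kr ν S) x {x} = α := by
  have hinv : ∀ᵐ x ∂ν, condExpKernel ν (Kr ν S) (S x) {S x} = condExpKernel ν (Kr ν S) x {x} := by
    filter_upwards [kap_inv hE] with x hx
    rw [hx, Measure.map_apply S.measurable (measurableSet_singleton _)]
    congr 1
    ext y
    simp
  obtain ⟨α, hα⟩ := hE.ae_eq_const_of_ae_eq_comp₀ (atom_meas (ν := ν) (T := S)).nullMeasurable hinv
  refine ⟨α, ?_, hα⟩
  obtain ⟨x, hx⟩ := hα.exists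
  have : condExpKernel ν (Kr ν S) x {x} = α := hx
  rw [← this]
  exact prob_le_one

end Pool.Agent.Sar
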